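import Pool.Agent.MP_75ef89_co.Ex.Lower

/-! Assembly: the upper bound gives the exact value. The four definitions are those of the hand-in;
a hand-in that repeats them can use `result_of` by unfolding. -/

namespace Pool.Agent.MP_75ef89_co.Ex.Asm

open Finset

/-- `T` has no loops and exactly one arc between any two distinct vertices. -/
def IsTournament {n : ℕ} (T : Fin n → Fin n → Prop) : Prop :=
  (∀ u, ¬ T u u) ∧ ∀ u v, u ≠ v → (T u v ∧ ¬ T v u) ∨ (T v u ∧ ¬ T u v)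

/-- The subtournament induced on `W` is transitive. -/
def IsTransitiveOn {n : ℕ} (T : Fin n → Fin n → Prop) (W : Finset (Fin n)) : Prop :=
  ∀ a ∈ W, ∀ b ∈ W, ∀ c ∈ W, T a b → T b c → T a c

/-- The number of vertex sets of maximal transitive subtournaments of `T`. -/
noncomputable def m {n : ℕ} (T : Fin n → Fin n → Prop) : ℕ :=
  Set.ncard {W : Finset (Fin n) | IsTransitiveOn T W ∧ ∀ W', W ⊂ W' → ¬ IsTransitiveOn T W'}

/-- The largest value of `m` over the tournaments on `n` vertices. -/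
noncomputable def f (n : ℕ) : ℕ :=
  sSup {k | ∃ T : Fin n → Fin n → Prop, IsTournament T ∧ m T = k}

theorem tour_iff {n : ℕ} {T : Fin n → Fin n → Prop} :
    IsTournament T ↔ SC T univ ∧ ∀ a b, T a b → ¬ T b a := by
  refine ⟨fun h => ⟨⟨fun a _ => h.1 a, fun a _ b _ e => (h.2 a b e).imp And.left And.left⟩,
    fun a b h1 h2 => ?_⟩, fun h => ⟨fun u => h.1.irr u (mem_univ u), fun u v e =>
      (h.1.tot u (mem_univ u) v (mem_univ v) e).imp (fun k => ⟨k, h.2 _ _ k⟩)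
        fun k => ⟨k, h.2 _ _ k⟩⟩⟩
  by_cases e : a = b
  · exact h.1 a (e ▸ h1)
  · exact (h.2 a b e).elim (fun k => k.2 h2) fun k => k.2 h1

theorem m_eq {n : ℕ} {T : Fin n → Fin n → Prop} (hT : IsTournament T) : m T = M T univ := by
  have hV := (tour_iff.1 hT).1
  have key : ∀ W, IsTransitiveOn T W ↔ Ac T W := fun W =>
    ⟨fun h => ⟨fun a ha b hb h1 h2 => hT.1 a (h a ha b hb a ha h1 h2),
      fun a ha b hb c hc h1 h2 h3 => hT.1 c (h c hc a ha c hc h3 (h a ha b hb c hc h1 h2))⟩,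
    fun h a ha b hb c hc => h.trans hV (subset_univ _) ha hb hc⟩
  rw [m, M, cnt_eq, ← Set.ncard_coe_finset]
  congr 1
  ext W
  simp only [Set.mem_ofPred_eq, mem_coe, mem_MS, key]
  refine ⟨fun h => ⟨⟨subset_univ _, h.1, fun x _ hx => h.2 _ (ssubset_insert hx)⟩, fun _ _ => id⟩,
    fun h => ⟨h.1.2.1, fun W' hW' k => ?_⟩⟩
  obtain ⟨x, hx, hn⟩ := exists_of_ssubset hW'
  exact h.1.2.2 x (mem_univ x) hn (k.mono (insert_subset hx hW'.1))

theorem result_of (hU : UpperStmt) (n : ℕ) : f n = F n := by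
  obtain ⟨T, h1, h2, h3⟩ := lower n
  have hT := tour_iff.2 ⟨h1, h2⟩
  have hb : ∀ k ∈ {k | ∃ T : Fin n → Fin n → Prop, IsTournament T ∧ m T = k}, k ≤ F n := by
    rintro _ ⟨T, hT, rfl⟩
    exact (m_eq hT).trans_le (hU n T (tour_iff.1 hT).1 (tour_iff.1 hT).2)
  exact le_antisymm (csSup_le ⟨_, T, hT, rfl⟩ hb)
    ((h3.trans_eq (m_eq hT).symm).trans (le_csSup ⟨_, hb⟩ ⟨T, hT, rfl⟩))

end Pool.Agent.MP_75ef89_co.Ex.Asm
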