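import Pool.Agent.MP_75ef89_co.Chk

/-! The checker for the exact values: an inner include / exclude checker with a 48 bit budget and an
outer checker that reveals the structure of the digraph. -/

namespace Pool.Agent.MP_75ef89_co.Ex

def m48 : ℕ := 0xffffffffffff
def f256 : ℕ := 0xffffffffffffffffffffffffffffffffffffffffffffffffffffffffffffffff
def ones32 : ℕ :=
    0x10001000100010001000100010001000100010001000100010001000100010001000100010001000100010001000100010001000100010001000100010001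
def onesB : ℕ :=
    0x10001000100010001000100010001000100010001000100010001000100010001000100010001000100010001000100010001000100010001000100010001000100010001000100010001000100010001000100010001000100010001000100010001000100010001000100010001000100010001000100010001000100010001000100010001000100010001000100010001000100010001000100010001000100010001000100010001000100010001000100010001000100010001000100010001000100010001000100010001000100010001000100010001000100010001000100010001000100010001000100010001000100010001000100010001000100010001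
def m4 : ℕ :=
    0xffff000000000000000000000000000000000000000000000000000000000000ffff000000000000000000000000000000000000000000000000000000000000ffff000000000000000000000000000000000000000000000000000000000000ffff
def cA : ℕ :=
    0x100000000000000000000000000000000000000000000000000000000000000010000000000000000000000000000000000000000000000000000000000000000
def cB : ℕ :=
    0x1000000000000000000000000000000000000000000000000000000000000000000000000000000000000000000000000000000000000000000000000000000000000000000000000000000000000000000000000000000000000000000000001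
def m1024 : ℕ :=
    0xffffffffffffffffffffffffffffffffffffffffffffffffffffffffffffffffffffffffffffffffffffffffffffffffffffffffffffffffffffffffffffffffffffffffffffffffffffffffffffffffffffffffffffffffffffffffffffffffffffffffffffffffffffffffffffffffffffffffffffffffffffffffffffffff
def m2048 : ℕ :=
    0xffffffffffffffffffffffffffffffffffffffffffffffffffffffffffffffffffffffffffffffffffffffffffffffffffffffffffffffffffffffffffffffffffffffffffffffffffffffffffffffffffffffffffffffffffffffffffffffffffffffffffffffffffffffffffffffffffffffffffffffffffffffffffffffffffffffffffffffffffffffffffffffffffffffffffffffffffffffffffffffffffffffffffffffffffffffffffffffffffffffffffffffffffffffffffffffffffffffffffffffffffffffffffffffffffffffffffffffffffffffffffffffffffffffffffffffffffffffffffffffffffffffffffffffffffffffffffffffff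
def m2 : ℕ :=
    0xffff0000000000000000000000000000000000000000000000000000000000000000000000000000000000000000000000000000000000000000000000000000ffff
def ones2 : ℕ :=
    0x100010001000100010001000100010001000100010001000100010001000100000000000000000000000000000000000000000000000000000000000000000001000100010001000100010001000100010001000100010001000100010001
def m240 : ℕ := 0xffffffffffffffffffffffffffffffffffffffffffffffffffffffffffff
def mph : ℕ :=
    0xffffffffffffffffffffffffffffffffffffffffffffffffffffffffffffffffffffffffffffffffffffffffffffffffffffffffffffffffffffffffffffffffffffffffffffffffffffffffffffffffffffffffffffffffffffffffffffffffffffffffffffffffffffffffffffffffffffffffffffffffffffffffffffffffffffffffffffffffffffffffffffffffffffffffffffffffffffffffffffffffffffffffffffffffffffffffffffffffffffffffffffffffffffffffffffffffffffffffffffffffffffffffffffffffffffffffffffffffffffffffffffffffffffffffffffffffffffffffffffffffffffffffffffffffffffffffffff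ffffffffffffffffffffffffffffffffffffffffffffffffffffffffffffffffffffffffffffffffffffffffffffffffffffffffffffffffffffffffffffffffffffffffffffffffffffffffffffffffffffffffffffffffffffffffffffffffffffffffffffffffffffffffffffffffffffffffffffffffffffffffffffffffffffffffffffffffffffffffffffffffffffffffffffffffffffffffffffffffffffffffffffffffffffffffffffffffffffffffffffffffffffffffffffffffffffffffffffffffffffffffffffffffffffffffffffffffffffffffffffffffffffffffffffffffffffffffffffffffffffffffffffffffffffffffffffffffffffffffffffffffffffffffffffffffffffffffffffffffffffffffffffffffffffffffffffffffffffffffffffffffffffffffffffffffffffffffffffffffffffffffffffffffffffffffffffffffffffffffffffffffffffffffffffffffffffffffffffffffffffffffffffffffffffffffffffffffffffffffffffffffffffffffffffffffffffffffffffffffffffffffffffffffffffffffffffffffffffffffffffffffffffffffffffffffffffffffffffffffffffffffffffffffffffffffffffffffffffffffffffffffffffffffffffffffffffffffffffffffffffffffffffffffffff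

abbrev G14 : Type := ℕ → ℕ → ℕ → ℕ → ℕ → ℕ → ℕ → ℕ → ℕ → ℕ → ℕ → ℕ → ℕ → ℕ → ℕ
abbrev G4 : Type := ℕ → ℕ → ℕ → ℕ → ℕ

def lo2 (r : ℕ) : ℕ :=
  (Nat.land r m48)
def hi2 (r : ℕ) : ℕ :=
  (Nat.shiftRight r 48)
def pk2 (s b : ℕ) : ℕ :=
  (Nat.add (Nat.shiftLeft s 48) b)
def pay2 (s b c : ℕ) : ℕ :=
  (bif (Nat.ble c b) then (pk2 s (Nat.sub b c)) else 0)
def ent (w i : ℕ) : ℕ :=
  (lo2 (Nat.shiftRight w (Nat.mul 48 i)))
def wt2 (w m c : ℕ) : ℕ :=
  (ent w (Nat.add (Nat.mul 48 c) m))
def wtT (w m l h : ℕ) : ℕ :=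
  (ent w (Nat.add (Nat.mul 64 (Nat.sub 47 m)) (Nat.add (Nat.mul 8 l) h)))
def f5 (s i : ℕ) : ℕ :=
  (Nat.land (Nat.shiftRight s i) 31)
def f16 (s i : ℕ) : ℕ :=
  (Nat.land (Nat.shiftRight s i) 65535)
def blk (S a : ℕ) : ℕ :=
  (Nat.land (Nat.shiftRight S (Nat.mul 256 a)) f256)
def phr (ph t : ℕ) : ℕ :=
  (Nat.land (Nat.shiftRight ph (Nat.mul 5952 t)) mph)
def mx (a b : ℕ) : ℕ :=
  (Nat.add a (Nat.sub b a))
/-- The bits that say `d ≤ indeg i`. -/
def loP (i d : ℕ) : ℕ :=
  (Nat.shiftLeft (Nat.shiftRight ones32 (Nat.mul 16 (Nat.sub 31 d))) (Nat.add 1024 i))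
/-- The bits that say `indeg i ≤ d`. -/
def hiP (i d : ℕ) : ℕ :=
  (Nat.shiftLeft (Nat.shiftRight ones32 (Nat.mul 16 d)) (Nat.add (Nat.add 1536 i) (Nat.mul 16 d)))
/-- The bits that say `i → j`. -/
def arcY (i j : ℕ) : ℕ :=
  (Nat.lor (bit (Nat.add (Nat.mul 16 i) j)) (bit (Nat.add 256 (Nat.add (Nat.mul 16 j) i))))
/-- The bits that say `¬ i → j` and `j → i`. -/
def arcN (i j : ℕ) : ℕ :=
  (Nat.lor (Nat.shiftLeft cA (Nat.add (Nat.mul 16 i) j)) (Nat.shiftLeft cB (Nat.add (Nat.mul 16 j)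
      i)))
/-- The bits that say `¬ j → i` and `i → j` for all `j` in `X`. -/
def noIn (i X : ℕ) : ℕ :=
  (Nat.lor (Nat.shiftLeft (Nat.mul X cB) (Nat.mul 16 i)) (Nat.shiftLeft (Nat.mul (spr X) cA) i))
def okS (gs k t : ℕ) : Bool :=
  ((Nat.blt t k) || (tb (ent gs 16) t))
def mulB (b g q r : ℕ) : ℕ :=
  (Nat.sub b (Nat.mul g (Nat.sub q (lo2 r))))
/-- The data of the root that the inner checker keeps. -/
def mkC (k S Q : ℕ) : ℕ :=
  (Nat.lor (Nat.lor (blk S 1) (Nat.shiftLeft (Nat.land Q (Nat.mul ones (msk k))) 256))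
      (Nat.shiftLeft (Nat.land (Nat.shiftRight S 1024) m1024) 512))
def tri (l : ℕ) : ℕ :=
  (Nat.div (Nat.mul l (Nat.sub l 1)) 2)

/-- Contraction of the vertex named `y`. -/
def con2 (g : G14) (Y T P Q pres cl dom U hv NI c tp y s b : ℕ) : ℕ :=
  ((fun (rY : ℕ) (rT : ℕ) (rP : ℕ) (rQ : ℕ) (cY : ℕ) (cT : ℕ) (yb : ℕ) => ((fun (a : ℕ) (U2 : ℕ) (dy
      : Bool) => (g (Nat.lor Y (Nat.mul cY rY)) (Nat.lor T (Nat.mul cT rT)) (Nat.lor P (Nat.mul (dif
      (col P y) cT) a)) (Nat.lor Q (Nat.mul (dif (col Q y) cY) (dif rQ rY))) (dif pres (Nat.lor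
      (Nat.land rP rQ) yb)) (bif dy then cl else (dif cl a)) (bif dy then (Nat.lor dom rT) else dom)
      U2 (bif (dy && (Nat.beq (Nat.land U2 rQ) 0)) then hv else (dif hv a)) (Nat.lor NI yb) c tp s
      b)) (dif rP rT) (dif U (Nat.lor (Nat.land rY rT) yb)) (tb dom y))) (row Y y) (row T y) (row P
      y) (row Q y) (col Y y) (col T y) (bit y))

/-- After the contraction of `y`: record the in-neighbours of `y` as a dominating set. `T0 Q0 cd
hv0` belong to the state before the contraction. -/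
def topM (g : G14) (C T0 Q0 cd hv0 y Y T P Q pres cl dom U hv NI c tp s b : ℕ) : ℕ :=
  (bif (Nat.beq (Nat.land s 3) 0) then (g Y T P Q pres cl dom U hv NI c tp (Nat.shiftRight s 2) b)
      else (bif (Nat.beq (Nat.land s 3) 1) then (bif (tb cd y) then (g Y T P Q pres cl dom U hv NI c
      (Nat.lor (Nat.land (row T0 y) U) (Nat.shiftLeft (Nat.land (row Q0 y) U) 16)) (Nat.shiftRight s
      2) b) else 0) else ((fun (t0 : ℕ) (tc : ℕ) => (bif ((tb hv0 y) && (tb (row C (Nat.add 64
      (Nat.add tc (pc t0)))) y)) then (g Y T P Q pres cl dom U hv NI c (Nat.lor (Nat.land (row T0 y)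
      U) (Nat.lor (Nat.shiftLeft t0 16) (Nat.shiftLeft tc 32))) (Nat.shiftRight s 6) b) else 0))
      (row C y) (nib s 2))))

/-- After the contraction of a dominating `y`: count the removed in-neighbours of `y`. -/
def jM (g : G14) (k C Y0 dom0 y Y T P Q pres cl dom U hv NI c tp s b : ℕ) : ℕ :=
  (bif (tb s 0) then ((fun (q : ℕ) (lo : ℕ) => ((fun (K : ℕ) => (bif (((tb dom0 y) && (tb (row C
      (Nat.add 32 lo)) y)) && (Nat.ble (pc K) lo)) then (g Y T P Q pres cl dom U hv (Nat.lor (dif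
      (msk k) (Nat.lor q (bit y))) K) (Nat.sub (Nat.succ lo) (pc K)) tp (Nat.shiftRight s 6) b) else
      0)) (dif (Nat.land q U) (row Y0 y)))) (row C (Nat.add 16 y)) (f5 s 1)) else (g Y T P Q pres cl
      dom U hv NI c tp (Nat.shiftRight s 1) b))

def conM (g : G14) (k C Y T P Q pres cl dom U hv NI c tp y s b : ℕ) : ℕ :=
  (con2 (jM (topM g C T Q (Nat.lor cl dom) hv y) k C Y dom y) Y T P Q pres cl dom U hv NI c tp y s
      b)

/-- Include or exclude `y`; `cn` is the contraction of `y`. -/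
def brG (cn : ℕ → ℕ → ℕ) (g : G14) (Y T P Q pres cl dom U hv NI c tp y s b : ℕ) : ℕ :=
  (bif (tb U y) then ((fun (r : ℕ) => (bif (Nat.beq r 0) then 0 else (g Y T P Q pres cl dom (Nat.xor
      U (bit y)) hv NI c tp (hi2 r) (lo2 r)))) (cn s b)) else 0)

/-- `y` is absent, or it is present and included or excluded. -/
def brmG (cn : ℕ → ℕ → ℕ) (g : G14) (Y T P Q pres cl dom U hv NI c tp y s b : ℕ) : ℕ :=
  (bif (tb U y) then ((fun (yb : ℕ) => ((fun (r0 : ℕ) => (bif (Nat.beq r0 0) then 0 else ((fun (r1 :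
      ℕ) => (bif (Nat.beq r1 0) then 0 else ((fun (r2 : ℕ) => (bif (Nat.beq r2 0) then 0 else (pk2
      (hi2 r2) (bif (Nat.ble (lo2 r0) (lo2 r2)) then (lo2 r0) else (lo2 r2))))) (g Y T P Q (Nat.lor
      pres yb) cl dom (Nat.xor U yb) hv (Nat.lor NI yb) c tp (hi2 r1) (lo2 r1))))) (cn (hi2 r0)
      b)))) (g Y T P Q pres cl dom (Nat.xor U yb) hv NI c tp s b))) (bit y)) else 0)

/-- The in-degree of `y` among the undecided vertices is at most `d`. -/
def ubd (C Q cl U hv : ℕ) (j : Bool) (y d : ℕ) : Bool :=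
  (bif j then ((tb hv y) && (tb (row C (Nat.add 64 (Nat.add d (pc (dif (row C y) U))))) y)) else
      ((tb cl y) && (Nat.ble (pc (dif (Nat.land U (row Q y)) (bit y))) d)))

/-- The in-degree of `y` among the undecided vertices is at least `a`. -/
def lbd (C T U W : ℕ) (f j : Bool) (y a : ℕ) : Bool :=
  (bif j then (f && (tb (row C (Nat.add 32 (Nat.add a (pc (dif (row C (Nat.add 16 y)) U))))) y))
      else (Nat.ble a (pc (Nat.land (row T y) W))))

/-- Evidence against a chain of Paley blocks. -/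
def evd (C Y T Q cl U hv W : ℕ) (f : Bool) (h s : ℕ) : Bool :=
  ((fun (y : ℕ) (z : ℕ) => ((tb W y) && (bif (Nat.beq (Nat.land s 3) 0) then ((tb W z) && (tb
      (Nat.land (row Y y) (row T y)) z)) else ((ubd C Q cl U hv (tb s 2) y h) && (bif (Nat.beq
      (Nat.land s 3) 1) then (lbd C T U W f (tb s 7) y 4) else (bif (Nat.beq (Nat.land s 3) 2) then
      ((fun (I : ℕ) => ((tb I z) && (Nat.ble 2 (pc (Nat.land (row Y z) I))))) (Nat.land (row T y)
      W)) else ((((tb W z) && (!(Nat.beq y z))) && (ubd C Q cl U hv (tb s 7) z h)) && (Nat.ble 2 (pc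
      (Nat.land (Nat.land (row T y) (row T z)) W)))))))))) (nib s 3) (nib s 8))

/-- Two vertices with prescribed in-degrees. -/
def prf (C T P Q cl U hv W : ℕ) (f : Bool) (cd s : ℕ) : Bool :=
  ((fun (y : ℕ) (z : ℕ) => ((((((((tb W y) && (tb W z)) && (!(Nat.beq y z))) && (ubd C Q cl U hv (tb
      s 0) y (nib cd 4))) && (lbd C T U W f (tb s 1) y (nib cd 0))) && (ubd C Q cl U hv (tb s 6) z
      (nib cd 12))) && (lbd C T U W f (tb s 7) z (nib cd 8))) && (!((tb cd 16) && (tb (Nat.land (row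
      P y) (row Q y)) z))))) (nib s 2) (nib s 8))

/-- Leaves with a class. `f` says which count is used, `m` is the count, `W` the vertices that are
present when the count is exact. -/
def lfC (w wT C Y T P Q cl U hv tp : ℕ) (f : Bool) (m W s b : ℕ) : ℕ :=
  ((fun (d : ℕ) => (bif (Nat.ble d 2) then (bif ((tb W (nib s 4)) && (ubd C Q cl U hv (tb s 3) (nib
      s 4) d)) then (pay2 (Nat.shiftRight s 8) b (wt2 w m (Nat.add 7 d))) else 0) else (bif (Nat.beq
      d 3) then ((fun (l : ℕ) (h : ℕ) => (bif ((Nat.ble l (pc (Nat.land (row tp 0) W))) && (Nat.ble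
      (Nat.add (Nat.shiftRight tp 32) (pc (Nat.land (row tp 1) U))) h)) then (pay2 (Nat.shiftRight s
      9) b (wtT wT m l h)) else 0)) (Nat.land (Nat.shiftRight s 3) 7) (Nat.land (Nat.shiftRight s 6)
      7)) else (bif (Nat.beq d 4) then (bif (evd C Y T Q cl U hv W f (wt2 w m 0) (Nat.shiftRight s
      3)) then (pay2 (Nat.shiftRight s 15) b (wt2 w m 6)) else 0) else (bif (prf C T P Q cl U hv W f
      (wt2 w m (Nat.add 2 (Nat.land s 1))) (Nat.shiftRight s 3)) then (pay2 (Nat.shiftRight s 15) b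
      (wt2 w m (Nat.add 4 (Nat.land s 1)))) else 0))))) (Nat.land s 7))

/-- No arc enters `S`: the count is a product. -/
def prd (g : G14) (gs k Y T P Q pres cl dom U hv NI c tp S s b : ℕ) : ℕ :=
  ((fun (U1 : ℕ) (t : ℕ) => (bif (((sub S (Nat.land U cl)) && (Nat.beq (Nat.land (Nat.mul (spr S)
      U1) Q) 0)) && (okS gs k t)) then ((fun (g0 : ℕ) => ((fun (q : ℕ) => ((fun (r : ℕ) => (bif
      (Nat.beq r 0) then 0 else (pk2 (hi2 r) (mulB b g0 q r)))) (g Y T P Q (Nat.land pres U1) cl dom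
      U1 hv NI c tp s q))) (Nat.div b g0))) (ent gs t)) else 0)) (dif U S) (pc S))

/-- Every vertex of `W` sees all of `S` in the same way. -/
def uni (Y T P Q S W a : ℕ) : Bool :=
  ((fun (sp : ℕ) (rY : ℕ) (rT : ℕ) => (((((tb S a) && (sub (Nat.mul sp (Nat.land W rT)) T)) &&
      (Nat.beq (Nat.land (Nat.mul sp (dif W rT)) Q) 0)) && (sub (Nat.mul sp (Nat.land W rY)) Y)) &&
      (Nat.beq (Nat.land (Nat.mul sp (dif W rY)) P) 0))) (spr S) (row Y a) (row T a))

/-- `S` is a module. -/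
def mdl (g : G14) (gs k C Y T P Q pres cl dom U hv NI c tp S K a s b : ℕ) : ℕ :=
  ((fun (U1 : ℕ) (W : ℕ) (t : ℕ) => (bif ((((sub S (Nat.land U cl)) && (tb pres a)) && (okS gs k t))
      && (uni Y T P Q S W a)) then ((fun (g0 : ℕ) => ((fun (q : ℕ) => ((fun (r : ℕ) => (bif (Nat.beq
      r 0) then 0 else (g Y T P Q pres cl dom U1 hv NI c tp (hi2 r) (mulB b g0 q r)))) (conM g k C Y
      T P Q (Nat.land pres W) cl dom (Nat.lor U1 (bit a)) hv NI c tp a s q))) (Nat.div b g0))) (ent
      gs t)) else 0)) (dif U S) (dif (Nat.lor U K) S) (pc S))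

/-- `D` dominates everything else. -/
def stp (g : G14) (Y T P Q pres cl dom U hv NI c D s b : ℕ) : ℕ :=
  (bif ((sub D (Nat.land U dom)) && (sub (Nat.mul (spr D) (dif U D)) Y)) then (g Y T P Q pres cl dom
      U hv NI c (Nat.lor D (Nat.shiftLeft D 16)) s b) else 0)

/-- One step of the inner checker. -/
def evS (w wT gs k C : ℕ) (g : G14) (Y T P Q pres cl dom U hv NI c tp s b : ℕ) : ℕ :=
  ((fun (t : ℕ) (y : ℕ) => (bif (Nat.ble t 3) then (bif (Nat.ble t 1) then (bif (Nat.beq t 0) then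
      (brG (con2 g Y T P Q pres cl dom U hv NI c tp y) g Y T P Q pres cl dom U hv NI c tp y
      (Nat.shiftRight s 8) b) else (pay2 (Nat.shiftRight s 4) b (wt2 w (Nat.sub k (pc U)) 10))) else
      (bif (Nat.beq t 2) then (pay2 (Nat.shiftRight s 4) b (wt2 w (Nat.add c (pc (dif NI U))) 10))
      else (lfC w wT C Y T P Q cl U hv tp true (Nat.sub k (pc U)) U (Nat.shiftRight s 4) b))) else
      (bif (Nat.ble t 6) then (bif (Nat.beq t 4) then (lfC w wT C Y T P Q cl U hv tp false (Nat.add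
      c (pc (dif NI U))) (Nat.land U NI) (Nat.shiftRight s 4) b) else (bif (Nat.beq t 5) then (bif
      (prune Y P Q pres cl dom U y) then (pk2 (Nat.shiftRight s 8) b) else 0) else (brG (conM g k C
      Y T P Q pres cl dom U hv NI c tp y) g Y T P Q pres cl dom U hv NI c tp y (Nat.shiftRight s 8)
      b))) else (bif (Nat.ble t 8) then (bif (Nat.beq t 7) then (brmG (con2 g Y T P Q pres cl dom U
      hv NI c tp y) g Y T P Q pres cl dom U hv NI c tp y (Nat.shiftRight s 8) b) else (brmG (conM g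
      k C Y T P Q pres cl dom U hv NI c tp y) g Y T P Q pres cl dom U hv NI c tp y (Nat.shiftRight s
      8) b)) else (bif (Nat.beq t 9) then (prd g gs k Y T P Q pres cl dom U hv NI c tp (f16 s 4)
      (Nat.shiftRight s 20) b) else (bif (Nat.beq t 10) then (mdl g gs k C Y T P Q pres cl dom U hv
      NI c tp (f16 s 4) (f16 s 20) (nib s 36) (Nat.shiftRight s 40) b) else (stp g Y T P Q pres cl
      dom U hv NI c (f16 s 4) (Nat.shiftRight s 20) b))))))) (Nat.land s 15) (nib s 4))

def ev (w wT gs k C : ℕ) : ℕ → G14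
  | 0 => fun _ _ _ _ _ _ _ _ _ _ _ _ _ _ => 0
  | f + 1 => evS w wT gs k C (ev w wT gs k C f)

/-- Renaming of the rows of the four matrices. -/
def prow4 (p S : ℕ) : ℕ → ℕ
  | 0 => 0
  | i + 1 => (Nat.lor (prow4 p S i) (Nat.shiftLeft (Nat.land (Nat.shiftRight S (Nat.mul 16 (pv p
      i))) m4) (Nat.mul 16 i)))

/-- Renaming of the columns. -/
def pcolB (p S : ℕ) : ℕ → ℕ
  | 0 => 0
  | i + 1 => (Nat.lor (pcolB p S i) (Nat.shiftLeft (Nat.land (Nat.shiftRight S (pv p i)) onesB) i))

/-- Adds up bounds for the in-degrees of the vertices of `A`, arcs from `out` not counted. -/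
def hs (g : ℕ → ℕ → ℕ) (S A out : ℕ) : ℕ → ℕ → ℕ → ℕ
  | 0, s, H => (g s H)
  | i + 1, s, H => (bif (tb A i) then ((fun (h : ℕ) => (bif (tb (row S (Nat.add 96 h)) i) then ((hs
      g S A out i) (Nat.shiftRight s 5) (Nat.add H (Nat.sub h (pc (Nat.land (row S (Nat.add 16 i))
      out))))) else 0)) (Nat.land s 31)) else ((hs g S A out i) s H))

def ltc (S A X : ℕ) : ℕ → ℕ
  | 0 => S
  | i + 1 => (bif (tb A i) then (Nat.lor (ltc S A X i) (noIn i (dif X (row S (Nat.add 16 i))))) else
      (ltc S A X i))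

/-- A walk along missing arcs: the level does not increase. -/
def pth (g : ℕ → ℕ → ℕ) (S : ℕ) : ℕ → ℕ → ℕ → ℕ
  | 0, x, s => (g x s)
  | i + 1, x, s => ((fun (z : ℕ) => (bif (tb (row S (Nat.add 32 x)) z) then ((pth g S i) z
      (Nat.shiftRight s 4)) else 0)) (Nat.land s 15))

/-- The greedy in-degree sequence of the vertices outside `L`. -/
def tl (g : ℕ → ℕ → ℕ → ℕ → ℕ → ℕ) (S An dU t0 ph le A0 H2 J hm : ℕ) : ℕ → ℕ → ℕ → ℕ → ℕ → ℕ → ℕ
  | 0, j, D, Lc, s, a => (g j D Lc s a)
  | i + 1, j, D, Lc, s, a => ((fun (x : ℕ) (L1 : ℕ) => ((fun (e : ℕ) => (bif ((((Nat.ble t0 x) &&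
      (Nat.ble x dU)) && (Nat.ble (pc (dif An (row S (Nat.add 64 x)))) j)) && (Nat.ble e 60)) then
      ((tl g S An dU t0 ph le A0 H2 J hm i) (Nat.succ j) (Nat.add D e) L1 (Nat.shiftRight s 5)
      (Nat.add a (ent ph e))) else 0)) (mx x (Nat.sub (mx L1 (Nat.sub A0 (Nat.add H2 (Nat.mul
      (Nat.sub J (Nat.succ j)) hm)))) D)))) (Nat.land s 31) (Nat.add Lc (Nat.add j le)))

/-- The maximal acyclic sets with source `v`. -/
def src (w wT gs k C Y T P Q NT cl dom v s b : ℕ) : ℕ :=
  ((fun (I : ℕ) => ((fun (U1 : ℕ) => ((fun (U0 : ℕ) => ((fun (a : ℕ) (e : ℕ) => (conM (ev w wT gs k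
      C 60) k C (Nat.lor Y a) (Nat.lor T e) (dif P e) (dif Q a) (Nat.lor (row NT v) I) cl (Nat.lor
      dom (bit v)) U1 (msk k) 0 0 0 v s b)) (Nat.shiftLeft U0 (Nat.mul 16 v)) (Nat.shiftLeft (spr
      U0) v))) (dif U1 (bit v)))) (dif (msk k) I))) (row T v))

def srcs (w wT gs k C Y T P Q NT cl dom L : ℕ) : ℕ → ℕ → ℕ
  | 0, r => (hi2 r)
  | i + 1, r => (bif (tb L i) then ((fun (r1 : ℕ) => (bif (Nat.beq r1 0) then 0 else ((srcs w wT gs
      k C Y T P Q NT cl dom L i) r1))) (src w wT gs k C Y T P Q NT cl dom i (hi2 r) (lo2 r))) else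
      ((srcs w wT gs k C Y T P Q NT cl dom L i) r))

/-- Include / exclude leaf. -/
def ilf (w wT gs tg k S s : ℕ) : ℕ :=
  ((fun (Q : ℕ) (u : ℕ) => (hi2 (ev w wT gs k (mkC k S Q) 60 (blk S 0) (blk S 1) (Nat.xor (blk S 2)
      f256) Q u (row S 128) (Nat.lor (row S 128) (row S 129)) u u 0 0 0 s tg))) (Nat.xor (blk S 3)
      f256) (msk k))

/-- Leaf that branches on the source of the acyclic set. -/
def llf (w wT gs ph tg hm nf k dU S s : ℕ) : ℕ :=
  ((fun (L : ℕ) (Lp : ℕ) (E : ℕ) (t0 : ℕ) (cd : ℕ) => ((fun (An : ℕ) (out : ℕ) (pr : ℕ) (le : ℕ) =>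
      (bif (((((((sub L (msk k)) && (sub Lp L)) && (sub E (Nat.land out cd))) && (sub (Nat.mul (spr
      E) An) S)) && (Nat.ble t0 dU)) && (Nat.ble t0 17)) && (sub An (row S (Nat.add 64 t0)))) then
      (hs (fun (s1 : ℕ) (H : ℕ) => (hs (fun (s2 : ℕ) (H2 : ℕ) => (tl (fun (j : ℕ) (D : ℕ) (Lc : ℕ)
      (s3 : ℕ) (a : ℕ) => ((fun (a1 : ℕ) => (bif (Nat.ble a1 tg) then ((fun (Q : ℕ) => (srcs w wT gs
      k (mkC k S Q) (blk S 0) (blk S 1) (Nat.xor (blk S 2) f256) Q (blk S 3) (row S 128) cd L k (pk2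
      s3 (Nat.sub tg a1)))) (Nat.xor (blk S 3) f256)) else 0)) (bif (Nat.beq nf 0) then (bif
      (((Nat.ble D Lc) && (Nat.ble t0 (Nat.add j le))) && (Nat.ble (Nat.add j le) 61)) then (Nat.add
      a (ent pr (Nat.add 62 (Nat.add j le)))) else m48) else (bif (Nat.ble nf (Nat.add j (pc L)))
      then a else m48)))) S An dU t0 pr le (bif (Nat.beq nf 0) then 0 else (Nat.add (tri nf) H)) H2
      (Nat.sub nf (pc L)) hm (Nat.land s2 63) 0 H (tri (pc Lp)) (Nat.shiftRight s2 6) 0)) S (bif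
      (Nat.beq nf 0) then 0 else L) 0 k s1 0)) S Lp out k (Nat.shiftRight s 53) 0) else 0)) (dif
      (msk k) L) (dif L Lp) (phr ph t0) (Nat.add (pc Lp) (pc E)))) (f16 s 0) (f16 s 16) (f16 s 32)
      (f5 s 48) (Nat.lor (row S 128) (row S 129)))

/-- Renaming: the new name `i < kg` stands for the old name `pv p i`, the other names are forgotten.
-/
def rn (g : ℕ → ℕ) (p kg d1 cl1 dm1 k dU S : ℕ) : ℕ :=
  ((fun (im : ℕ) (S1 : ℕ) => ((fun (rest : ℕ) (S2 : ℕ) => (bif ((((((((Nat.beq (pc im) kg) && (sub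
      im (msk k))) && (Nat.ble d1 dU)) && (sub rest (row S (Nat.add 64 d1)))) && (sub cl1 (row S2
      128))) && (sub dm1 (Nat.lor (row S2 128) (row S2 129)))) && (sub (Nat.mul (spr cl1) rest)
      (Nat.shiftRight S1 768))) && (sub (Nat.mul (spr dm1) rest) S1)) then (g (Nat.lor (Nat.lor
      (Nat.land S2 m2048) (Nat.shiftLeft (row S2 130) 2080)) (Nat.lor (Nat.shiftLeft cl1 2048)
      (Nat.shiftLeft dm1 2064)))) else 0)) (dif (msk k) im) (pcolB p S1 kg))) (orPow p kg) (Nat.lor
      (prow4 p S kg) (Nat.shiftLeft (Nat.shiftRight S 1024) 1024)))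

def xp (c B : ℕ) : ℕ → ℕ
  | 0 => (Nat.lor B (Nat.shiftLeft (lo2 (Nat.shiftRight c 9)) 2048))
  | i + 1 => (Nat.lor (Nat.lor (xp c B i) (Nat.shiftLeft (Nat.land (Nat.mul (Nat.land
      (Nat.shiftRight B (Nat.mul 16 i)) m2) mag) ones2) (Nat.add 256 i))) ((fun (x : ℕ) => (Nat.lor
      (loP i (Nat.land x 31)) (hiP i (Nat.land (Nat.shiftRight x 5) 63)))) (Nat.shiftRight c
      (Nat.add 57 (Nat.mul 11 i)))))

/-- The state with code `c`. -/
def xpd (c : ℕ) : ℕ :=
  (xp c (Nat.lor (Nat.land (Nat.shiftRight c 222) m240) (Nat.shiftLeft (Nat.shiftRight c 462) 512))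
      (nib c 0))

/-- A new vertex gets the name `k`. -/
def addn (hm k dU S : ℕ) : ℕ :=
  ((fun (cl : ℕ) (cd : ℕ) => (Nat.lor (Nat.lor (Nat.lor S (Nat.shiftLeft cd (Nat.mul 16 (Nat.add 16
      k)))) (Nat.lor (Nat.shiftLeft (spr cd) k) (Nat.shiftLeft (spr cl) (Nat.add 768 k)))) (Nat.lor
      (Nat.shiftLeft cl (Nat.mul 16 (Nat.add 32 k))) (Nat.lor (loP k dU) (hiP k hm))))) (row S 128)
      (Nat.lor (row S 128) (row S 129)))

/-- Case distinctions: a further in-neighbour of `i`; the in-degree of `i`; an unnamed vertex of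
small in-degree. -/
def oBr (g : G4) (hm k dU S t i s : ℕ) : ℕ :=
  (bif (Nat.beq t 5) then (bif ((Nat.blt i k) && (Nat.blt k 15)) then ((fun (r : ℕ) => (bif (Nat.beq
      r 0) then 0 else (g (Nat.succ k) dU (Nat.lor (addn hm k dU S) (arcY k i)) r))) (g k dU
      (Nat.lor S (bit (Nat.add 2048 i))) (Nat.shiftRight s 8))) else 0) else (bif (Nat.beq t 6) then
      ((fun (d : ℕ) => (bif (Nat.blt i k) then ((fun (r : ℕ) => (bif (Nat.beq r 0) then 0 else (g k
      dU (Nat.lor S (hiP i d)) r))) (g k dU (Nat.lor S (loP i (Nat.succ d))) (Nat.shiftRight s 13)))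
      else 0)) (f5 s 8)) else ((fun (d : ℕ) => (bif ((Nat.blt k 15) && (Nat.blt d 31)) then ((fun (r
      : ℕ) => (bif (Nat.beq r 0) then 0 else (g (Nat.succ k) dU (Nat.lor (addn hm k dU S) (hiP k d))
      r))) (g k (Nat.succ d) S (Nat.shiftRight s 9))) else 0)) (f5 s 4))))

/-- Deductions from the in-degree of `i`. -/
def oDg (g : G4) (nf k dU S t i s : ℕ) : ℕ :=
  (bif (Nat.blt i k) then ((fun (I : ℕ) (p : ℕ) => (bif (Nat.beq t 8) then (g k dU (Nat.lor S (loP i
      (pc I))) s) else (bif (Nat.beq t 9) then (bif (tb (row S 128) i) then (g k dU (Nat.lor S (hiP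
      i (pc p))) s) else (bif (Nat.beq nf 0) then 0 else (g k dU (Nat.lor S (hiP i (Nat.add (pc p)
      (Nat.sub nf k)))) s))) else (bif (Nat.beq t 10) then (bif (tb (row S (Nat.add 96 (pc I))) i)
      then (g k dU (Nat.lor (Nat.lor S (bit (Nat.add 2048 i))) (noIn i (dif p I))) s) else 0) else
      (bif ((tb (row S 128) i) && (tb (row S (Nat.add 64 (pc p))) i)) then (g k dU (Nat.lor (Nat.lor
      S (Nat.shiftLeft p (Nat.mul 16 (Nat.add 16 i)))) (Nat.shiftLeft (spr p) i)) s) else 0)))))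
      (row S (Nat.add 16 i)) (dif (msk k) (Nat.lor (row S (Nat.add 48 i)) (bit i)))) else 0)

/-- No digon; digons force a large in-degree; Landau's inequality; contradictions; all vertices are
named; no digon inside a level. -/
def oEx (g : G4) (sg nf k dU S t i s : ℕ) : ℕ :=
  (bif (Nat.beq t 12) then ((fun (j : ℕ) (h : ℕ) (d : ℕ) => (bif ((tb (row S (Nat.add 16 i)) j) &&
      (((tb h i) && (tb h j)) || ((tb d i) && (tb d j)))) then (g k dU (Nat.lor S (arcN i j))
      (Nat.shiftRight s 12)) else 0)) (nib s 8) (row S (Nat.add 96 sg)) (row S 130)) else (bif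
      (Nat.beq t 13) then ((fun (j : ℕ) => (bif ((tb (row S (Nat.add 96 sg)) i) && (tb (Nat.land
      (row S i) (row S (Nat.add 16 i))) j)) then (g k dU (Nat.lor S (loP j (Nat.succ sg)))
      (Nat.shiftRight s 12)) else 0)) (nib s 8)) else (bif (Nat.beq t 14) then ((fun (A : ℕ) =>
      ((fun (X : ℕ) => (bif (sub A (msk k)) then (hs (fun (s1 : ℕ) (H : ℕ) => (bif (Nat.blt H (tri
      (pc A))) then s1 else (bif (Nat.beq H (tri (pc A))) then (g k dU (Nat.lor (ltc S A X k)
      (Nat.shiftLeft A 2048)) s1) else 0))) S A X k (Nat.shiftRight s 20) 0) else 0)) (dif (msk k)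
      A))) (f16 s 4)) else ((fun (u : ℕ) => (bif (Nat.beq u 0) then ((fun (j : ℕ) (d : ℕ) => (bif
      ((Nat.blt d 31) && (tb (Nat.land (row S (Nat.add 65 d)) (row S (Nat.add 96 d))) j)) then
      (Nat.shiftRight s 15) else 0)) (nib s 6) (f5 s 10)) else (bif (Nat.beq u 1) then (bif (Nat.beq
      (Nat.land (blk S 0) (blk S 2)) 0) then 0 else (Nat.shiftRight s 6)) else (bif (Nat.beq u 2)
      then (bif ((!(Nat.beq nf 0)) && (Nat.ble nf k)) then (g k dU (Nat.lor S (Nat.shiftLeft (msk k)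
      2048)) (Nat.shiftRight s 6)) else 0) else ((fun (a : ℕ) (j : ℕ) => (bif (tb (row S (Nat.add 16
      a)) j) then (pth (fun (x : ℕ) (s1 : ℕ) => (bif (Nat.beq x j) then (pth (fun (y : ℕ) (s2 : ℕ)
      => (bif (Nat.beq y a) then (g k dU (Nat.lor S (arcN a j)) s2) else 0)) S (nib s 18) j s1) else
      0)) S (nib s 14) a (Nat.shiftRight s 22)) else 0)) (nib s 6) (nib s 10)))))) (Nat.land
      (Nat.shiftRight s 4) 3)))))

/-- One step of the outer checker. -/
def otS (tbl : ℕ → ℕ) (w wT gs ph tg sg hm nf jx : ℕ) (g : G4) (k dU S s : ℕ) : ℕ :=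
  ((fun (t : ℕ) (i : ℕ) => (bif (Nat.ble t 4) then (bif (Nat.ble t 1) then (bif (Nat.beq t 0) then
      ((fun (j : ℕ) => (bif (((Nat.blt i k) && (Nat.blt j k)) && (!(Nat.beq i j))) then ((fun (r :
      ℕ) => (bif (Nat.beq r 0) then 0 else (g k dU (Nat.lor S (arcN j i)) r))) (g k dU (Nat.lor S
      (arcY j i)) (Nat.shiftRight s 12))) else 0)) (nib s 8)) else ((fun (d1 : ℕ) => (rn (fun (S3 :
      ℕ) => (g i d1 S3 (Nat.shiftRight s (Nat.add 45 (Nat.mul 4 i))))) (Nat.shiftRight s 45) i d1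
      (f16 s 13) (f16 s 29) k dU S)) (f5 s 8))) else (bif (Nat.beq t 2) then (ilf w wT gs tg k S
      (Nat.shiftRight s 4)) else (bif (Nat.beq t 3) then ((fun (x : ℕ) => (bif (Nat.blt x jx) then
      ((fun (c : ℕ) => ((fun (E : ℕ) (kg : ℕ) => (rn (fun (S3 : ℕ) => (bif (sub E S3) then
      (Nat.shiftRight s (Nat.add 21 (Nat.mul 4 kg))) else 0)) (Nat.shiftRight s 21) kg (f5 c 4) (row
      E 128) (row E 129) k dU S)) (xpd c) (nib c 0))) (tbl x)) else 0)) (Nat.land (Nat.shiftRight s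
      4) 131071)) else (llf w wT gs ph tg hm nf k dU S (Nat.shiftRight s 4))))) else (bif (Nat.ble t
      7) then (oBr g hm k dU S t i s) else (bif (Nat.ble t 11) then (oDg g nf k dU S t i
      (Nat.shiftRight s 8)) else (oEx g sg nf k dU S t i s))))) (Nat.land s 15) (nib s 4))

def ot (tbl : ℕ → ℕ) (w wT gs ph tg sg hm nf jx : ℕ) : ℕ → G4
  | 0 => fun _ _ _ _ => 0
  | f + 1 => otS tbl w wT gs ph tg sg hm nf jx (ot tbl w wT gs ph tg sg hm nf jx f)

def chk1 (tbl : ℕ → ℕ) (w wT gs ph tg sg hm nf j s : ℕ) : Bool :=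
  ((fun (c : ℕ) => (!(Nat.beq (ot tbl w wT gs ph tg sg hm nf j 3000 (nib c 0) (f5 c 4) (xpd c) s)
      0))) (tbl j))

def chkL (tbl : ℕ → ℕ) (w wT gs ph tg sg hm nf : ℕ) : List ℕ → ℕ → Bool
  | [], _ => true
  | s :: L, j => chk1 tbl w wT gs ph tg sg hm nf j s && chkL tbl w wT gs ph tg sg hm nf L (Nat.succ
      j)

end Pool.Agent.MP_75ef89_co.Ex
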