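import Pool.Agent.MP_75ef89_co.Landau

/-! Definitions for the exact determination of the maximal number of maximal transitive
subtournaments. -/

namespace Pool.Agent.MP_75ef89_co.Ex

open Finset

variable {α : Type} [DecidableEq α]

/-- The conjectured values. -/
def F (n : ℕ) : ℕ :=
  if h : n ≤ 18 then
    [1, 1, 1, 3, 3, 7, 12, 21, 25, 43, 63, 87, 147, 252, 441, 525, 903, 1366, 1849].getD n 0
  else 21 * F (n - 7)
decreasing_by omega

/-- `441 * g n`, where `g` is the bound of the induction: `g (n + 7) = 21 * g n`. -/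
def G (n : ℕ) : ℕ := [441, 525, 903, 1366, 1849, 3087, 5292].getD (n % 7) 0 * 21 ^ (n / 7)

/-- Layered digraphs: all arcs from a lower to a higher level are present, and there is no digon
inside a level. -/
def Lay (r : α → α → Prop) (V : Finset α) : Prop :=
  ∃ l : α → ℕ, ∀ a ∈ V, ∀ b ∈ V, (l a < l b → r a b) ∧ (l a = l b → r a b → ¬ r b a)

/-- `S` dominates the rest of `V`. -/
def Top (r : α → α → Prop) (V S : Finset α) : Prop := S ⊆ V ∧ ∀ a ∈ S, ∀ b ∈ V, b ∉ S → r a b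

/-- No arc enters `S`. -/
def Closed (r : α → α → Prop) (V S : Finset α) : Prop :=
  S ⊆ V ∧ ∀ a ∈ S, ∀ b ∈ V, r b a → b ∈ S

/-- Evidence that the digraph is not a chain of Paley blocks. -/
def Ev (h l : ℕ) (r : α → α → Prop) (V : Finset α) : Prop :=
  (∃ a ∈ V, ∃ b ∈ V, r a b ∧ r b a) ∨ ∃ y ∈ V, indeg r V y ≤ h ∧
    (indeg r V y ≤ l ∨ 4 ≤ indeg r V y ∨
      (∃ a ∈ V, ∃ b ∈ V, ∃ c ∈ V, b ≠ c ∧ r a y ∧ r b y ∧ r c y ∧ r a b ∧ r a c) ∨
      ∃ z ∈ V, z ≠ y ∧ indeg r V z ≤ h ∧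
        ∃ a ∈ V, ∃ b ∈ V, a ≠ b ∧ r a y ∧ r b y ∧ r a z ∧ r b z)

/-- Number of maximal acyclic sets. -/
noncomputable abbrev M (r : α → α → Prop) (V : Finset α) : ℕ := cnt r V fun _ => False

/-- Lower bound: a tournament with at least `F n` maximal acyclic sets. -/
def LowerStmt : Prop := ∀ n : ℕ, ∃ r : Fin n → Fin n → Prop,
  SC r univ ∧ (∀ a b, r a b → ¬ r b a) ∧ F n ≤ M r univ

/-- Upper bound for tournaments. -/
def UpperStmt : Prop := ∀ (n : ℕ) (r : Fin n → Fin n → Prop),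
  SC r univ → (∀ a b, r a b → ¬ r b a) → M r univ ≤ F n

end Pool.Agent.MP_75ef89_co.Ex
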