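import Pool.Agent.MP_75ef89_co.Fast
import Pool.Agent.MP_75ef89_co.Ex.Chk2

/-! The same checker, written with bare recursors so that the kernel evaluates it quickly. -/

set_option linter.unusedSimpArgs false
set_option linter.unusedVariables false

namespace Pool.Agent.MP_75ef89_co.Ex

noncomputable def con2F (g : G14) (Y T P Q pres cl dom U hv NI c tp y s b : ℕ) : ℕ :=
  ((fun (rY : ℕ) (rT : ℕ) (rP : ℕ) (rQ : ℕ) (cY : ℕ) (cT : ℕ) (yb : ℕ) => ((fun (a : ℕ) (U2 : ℕ) (dy
      : Bool) => (g (Nat.lor Y (Nat.mul cY rY)) (Nat.lor T (Nat.mul cT rT)) (Nat.lor P (Nat.mul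
      ((fun (u1 : ℕ) => (Nat.xor u1 (Nat.land u1 cT))) (Nat.land (Nat.shiftRight P y) (nat_lit
      0x1000100010001000100010001000100010001000100010001000100010001))) a)) (Nat.lor Q (Nat.mul
      ((fun (u2 : ℕ) => (Nat.xor u2 (Nat.land u2 cY))) (Nat.land (Nat.shiftRight Q y) (nat_lit
      0x1000100010001000100010001000100010001000100010001000100010001))) (Nat.xor rQ (Nat.land rQ
      rY)))) (Nat.xor pres (Nat.land pres (Nat.lor (Nat.land rP rQ) yb))) (@Bool.rec (fun _ => ℕ)
      (Nat.xor cl (Nat.land cl a)) cl dy) (@Bool.rec (fun _ => ℕ) dom (Nat.lor dom rT) dy) U2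
      (@Bool.rec (fun _ => ℕ) (Nat.xor hv (Nat.land hv a)) hv (@Bool.rec (fun _ => Bool) false
      (Nat.beq (Nat.land U2 rQ) (nat_lit 0)) dy)) (Nat.lor NI yb) c tp s b)) (Nat.xor rP (Nat.land
      rP rT)) (Nat.xor U (Nat.land U (Nat.lor (Nat.land rY rT) yb))) (Nat.beq (Nat.land
      (Nat.shiftRight dom y) (nat_lit 1)) (nat_lit 1)))) (Nat.land (Nat.shiftRight Y (Nat.mul
      (nat_lit 16) y)) (nat_lit 65535)) (Nat.land (Nat.shiftRight T (Nat.mul (nat_lit 16) y))
      (nat_lit 65535)) (Nat.land (Nat.shiftRight P (Nat.mul (nat_lit 16) y)) (nat_lit 65535))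
      (Nat.land (Nat.shiftRight Q (Nat.mul (nat_lit 16) y)) (nat_lit 65535)) (Nat.land
      (Nat.shiftRight Y y) (nat_lit
      0x1000100010001000100010001000100010001000100010001000100010001)) (Nat.land (Nat.shiftRight T
      y) (nat_lit 0x1000100010001000100010001000100010001000100010001000100010001)) (Nat.shiftLeft
      (nat_lit 1) y))

noncomputable def topMF (g : G14) (C T0 Q0 cd hv0 y Y T P Q pres cl dom U hv NI c tp s b : ℕ) : ℕ :=
  (@Bool.rec (fun _ => ℕ) (@Bool.rec (fun _ => ℕ) ((fun (t0 : ℕ) (tc : ℕ) => (@Bool.rec (fun _ => ℕ)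
      (nat_lit 0) (g Y T P Q pres cl dom U hv NI c (Nat.lor (Nat.land (Nat.land (Nat.shiftRight T0
      (Nat.mul (nat_lit 16) y)) (nat_lit 65535)) U) (Nat.lor (Nat.shiftLeft t0 (nat_lit 16))
      (Nat.shiftLeft tc (nat_lit 32)))) (Nat.shiftRight s (nat_lit 6)) b) (@Bool.rec (fun _ => Bool)
      false (Nat.beq (Nat.land (Nat.shiftRight (Nat.land (Nat.shiftRight C (Nat.mul (nat_lit 16)
      (Nat.add (nat_lit 64) (Nat.add tc (Nat.add (Nat.land (Nat.shiftRight (nat_lit
      0x8776766576656554766565546554544376656554655454436554544354434332766565546554544365545443544343326554544354434332544343324332322176656554655454436554544354434332655454435443433254434332433232216554544354434332544343324332322154434332433232214332322132212110)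
      (Nat.mul (nat_lit 4) (Nat.land t0 (nat_lit 255)))) (nat_lit 15)) (Nat.land (Nat.shiftRight
      (nat_lit
      0x8776766576656554766565546554544376656554655454436554544354434332766565546554544365545443544343326554544354434332544343324332322176656554655454436554544354434332655454435443433254434332433232216554544354434332544343324332322154434332433232214332322132212110)
      (Nat.mul (nat_lit 4) (Nat.shiftRight t0 (nat_lit 8)))) (nat_lit 15))))))) (nat_lit 65535)) y)
      (nat_lit 1)) (nat_lit 1)) (Nat.beq (Nat.land (Nat.shiftRight hv0 y) (nat_lit 1)) (nat_lit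
      1))))) (Nat.land (Nat.shiftRight C (Nat.mul (nat_lit 16) y)) (nat_lit 65535)) (Nat.land
      (Nat.shiftRight s (nat_lit 2)) (nat_lit 15))) (@Bool.rec (fun _ => ℕ) (nat_lit 0) (g Y T P Q
      pres cl dom U hv NI c (Nat.lor (Nat.land (Nat.land (Nat.shiftRight T0 (Nat.mul (nat_lit 16)
      y)) (nat_lit 65535)) U) (Nat.shiftLeft (Nat.land (Nat.land (Nat.shiftRight Q0 (Nat.mul
      (nat_lit 16) y)) (nat_lit 65535)) U) (nat_lit 16))) (Nat.shiftRight s (nat_lit 2)) b) (Nat.beq
      (Nat.land (Nat.shiftRight cd y) (nat_lit 1)) (nat_lit 1))) (Nat.beq (Nat.land s (nat_lit 3))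
      (nat_lit 1))) (g Y T P Q pres cl dom U hv NI c tp (Nat.shiftRight s (nat_lit 2)) b) (Nat.beq
      (Nat.land s (nat_lit 3)) (nat_lit 0)))

noncomputable def jMF (g : G14) (k C Y0 dom0 y Y T P Q pres cl dom U hv NI c tp s b : ℕ) : ℕ :=
  (@Bool.rec (fun _ => ℕ) (g Y T P Q pres cl dom U hv NI c tp (Nat.shiftRight s (nat_lit 1)) b)
      ((fun (q : ℕ) (lo : ℕ) => ((fun (K : ℕ) => (@Bool.rec (fun _ => ℕ) (nat_lit 0) (g Y T P Q pres
      cl dom U hv (Nat.lor ((fun (u4 : ℕ) => (Nat.xor u4 (Nat.land u4 (Nat.lor q (Nat.shiftLeft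
      (nat_lit 1) y))))) (Nat.sub (Nat.shiftLeft (nat_lit 1) k) (nat_lit 1))) K) (Nat.sub (Nat.succ
      lo) (Nat.add (Nat.land (Nat.shiftRight (nat_lit
      0x8776766576656554766565546554544376656554655454436554544354434332766565546554544365545443544343326554544354434332544343324332322176656554655454436554544354434332655454435443433254434332433232216554544354434332544343324332322154434332433232214332322132212110)
      (Nat.mul (nat_lit 4) (Nat.land K (nat_lit 255)))) (nat_lit 15)) (Nat.land (Nat.shiftRight
      (nat_lit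
      0x8776766576656554766565546554544376656554655454436554544354434332766565546554544365545443544343326554544354434332544343324332322176656554655454436554544354434332655454435443433254434332433232216554544354434332544343324332322154434332433232214332322132212110)
      (Nat.mul (nat_lit 4) (Nat.shiftRight K (nat_lit 8)))) (nat_lit 15)))) tp (Nat.shiftRight s
      (nat_lit 6)) b) (@Bool.rec (fun _ => Bool) false (Nat.ble (Nat.add (Nat.land (Nat.shiftRight
      (nat_lit
      0x8776766576656554766565546554544376656554655454436554544354434332766565546554544365545443544343326554544354434332544343324332322176656554655454436554544354434332655454435443433254434332433232216554544354434332544343324332322154434332433232214332322132212110)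
      (Nat.mul (nat_lit 4) (Nat.land K (nat_lit 255)))) (nat_lit 15)) (Nat.land (Nat.shiftRight
      (nat_lit
      0x8776766576656554766565546554544376656554655454436554544354434332766565546554544365545443544343326554544354434332544343324332322176656554655454436554544354434332655454435443433254434332433232216554544354434332544343324332322154434332433232214332322132212110)
      (Nat.mul (nat_lit 4) (Nat.shiftRight K (nat_lit 8)))) (nat_lit 15))) lo) (@Bool.rec (fun _ =>
      Bool) false (Nat.beq (Nat.land (Nat.shiftRight (Nat.land (Nat.shiftRight C (Nat.mul (nat_lit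
      16) (Nat.add (nat_lit 32) lo))) (nat_lit 65535)) y) (nat_lit 1)) (nat_lit 1)) (Nat.beq
      (Nat.land (Nat.shiftRight dom0 y) (nat_lit 1)) (nat_lit 1)))))) ((fun (u3 : ℕ) => (Nat.xor u3
      (Nat.land u3 (Nat.land (Nat.shiftRight Y0 (Nat.mul (nat_lit 16) y)) (nat_lit 65535)))))
      (Nat.land q U)))) (Nat.land (Nat.shiftRight C (Nat.mul (nat_lit 16) (Nat.add (nat_lit 16) y)))
      (nat_lit 65535)) (Nat.land (Nat.shiftRight s (nat_lit 1)) (nat_lit 31))) (Nat.beq (Nat.land
      (Nat.shiftRight s (nat_lit 0)) (nat_lit 1)) (nat_lit 1)))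

noncomputable def conMF (g : G14) (k C Y T P Q pres cl dom U hv NI c tp y s b : ℕ) : ℕ :=
  (con2F (jMF (topMF g C T Q (Nat.lor cl dom) hv y) k C Y dom y) Y T P Q pres cl dom U hv NI c tp y
      s b)

noncomputable def brGF (cn : ℕ → ℕ → ℕ) (g : G14) (Y T P Q pres cl dom U hv NI c tp y s b : ℕ) : ℕ
    :=
  (@Bool.rec (fun _ => ℕ) (nat_lit 0) ((fun (r : ℕ) => (@Bool.rec (fun _ => ℕ) (g Y T P Q pres cl
      dom (Nat.xor U (Nat.shiftLeft (nat_lit 1) y)) hv NI c tp (Nat.shiftRight r (nat_lit 48))
      (Nat.land r (nat_lit 0xffffffffffff))) (nat_lit 0) (Nat.beq r (nat_lit 0)))) (cn s b))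
      (Nat.beq (Nat.land (Nat.shiftRight U y) (nat_lit 1)) (nat_lit 1)))

noncomputable def brmGF (cn : ℕ → ℕ → ℕ) (g : G14) (Y T P Q pres cl dom U hv NI c tp y s b : ℕ) : ℕ
    :=
  (@Bool.rec (fun _ => ℕ) (nat_lit 0) ((fun (yb : ℕ) => ((fun (r0 : ℕ) => (@Bool.rec (fun _ => ℕ)
      ((fun (r1 : ℕ) => (@Bool.rec (fun _ => ℕ) ((fun (r2 : ℕ) => (@Bool.rec (fun _ => ℕ) (Nat.add
      (Nat.shiftLeft (Nat.shiftRight r2 (nat_lit 48)) (nat_lit 48)) (@Bool.rec (fun _ => ℕ)
      (Nat.land r2 (nat_lit 0xffffffffffff)) (Nat.land r0 (nat_lit 0xffffffffffff)) (Nat.ble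
      (Nat.land r0 (nat_lit 0xffffffffffff)) (Nat.land r2 (nat_lit 0xffffffffffff))))) (nat_lit 0)
      (Nat.beq r2 (nat_lit 0)))) (g Y T P Q (Nat.lor pres yb) cl dom (Nat.xor U yb) hv (Nat.lor NI
      yb) c tp (Nat.shiftRight r1 (nat_lit 48)) (Nat.land r1 (nat_lit 0xffffffffffff)))) (nat_lit 0)
      (Nat.beq r1 (nat_lit 0)))) (cn (Nat.shiftRight r0 (nat_lit 48)) b)) (nat_lit 0) (Nat.beq r0
      (nat_lit 0)))) (g Y T P Q pres cl dom (Nat.xor U yb) hv NI c tp s b))) (Nat.shiftLeft (nat_lit
      1) y)) (Nat.beq (Nat.land (Nat.shiftRight U y) (nat_lit 1)) (nat_lit 1)))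

noncomputable def ubdF (C Q cl U hv : ℕ) (j : Bool) (y d : ℕ) : Bool :=
  (@Bool.rec (fun _ => Bool) (@Bool.rec (fun _ => Bool) false (Nat.ble ((fun (u8 : ℕ) => (Nat.add
      (Nat.land (Nat.shiftRight (nat_lit
      0x8776766576656554766565546554544376656554655454436554544354434332766565546554544365545443544343326554544354434332544343324332322176656554655454436554544354434332655454435443433254434332433232216554544354434332544343324332322154434332433232214332322132212110)
      (Nat.mul (nat_lit 4) (Nat.land u8 (nat_lit 255)))) (nat_lit 15)) (Nat.land (Nat.shiftRight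
      (nat_lit
      0x8776766576656554766565546554544376656554655454436554544354434332766565546554544365545443544343326554544354434332544343324332322176656554655454436554544354434332655454435443433254434332433232216554544354434332544343324332322154434332433232214332322132212110)
      (Nat.mul (nat_lit 4) (Nat.shiftRight u8 (nat_lit 8)))) (nat_lit 15)))) ((fun (u7 : ℕ) =>
      (Nat.xor u7 (Nat.land u7 (Nat.shiftLeft (nat_lit 1) y)))) (Nat.land U (Nat.land
      (Nat.shiftRight Q (Nat.mul (nat_lit 16) y)) (nat_lit 65535))))) d) (Nat.beq (Nat.land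
      (Nat.shiftRight cl y) (nat_lit 1)) (nat_lit 1))) (@Bool.rec (fun _ => Bool) false (Nat.beq
      (Nat.land (Nat.shiftRight (Nat.land (Nat.shiftRight C (Nat.mul (nat_lit 16) (Nat.add (nat_lit
      64) (Nat.add d ((fun (u6 : ℕ) => (Nat.add (Nat.land (Nat.shiftRight (nat_lit
      0x8776766576656554766565546554544376656554655454436554544354434332766565546554544365545443544343326554544354434332544343324332322176656554655454436554544354434332655454435443433254434332433232216554544354434332544343324332322154434332433232214332322132212110)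
      (Nat.mul (nat_lit 4) (Nat.land u6 (nat_lit 255)))) (nat_lit 15)) (Nat.land (Nat.shiftRight
      (nat_lit
      0x8776766576656554766565546554544376656554655454436554544354434332766565546554544365545443544343326554544354434332544343324332322176656554655454436554544354434332655454435443433254434332433232216554544354434332544343324332322154434332433232214332322132212110)
      (Nat.mul (nat_lit 4) (Nat.shiftRight u6 (nat_lit 8)))) (nat_lit 15)))) ((fun (u5 : ℕ) =>
      (Nat.xor u5 (Nat.land u5 U))) (Nat.land (Nat.shiftRight C (Nat.mul (nat_lit 16) y)) (nat_lit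
      65535)))))))) (nat_lit 65535)) y) (nat_lit 1)) (nat_lit 1)) (Nat.beq (Nat.land (Nat.shiftRight
      hv y) (nat_lit 1)) (nat_lit 1))) j)

noncomputable def lbdF (C T U W : ℕ) (f j : Bool) (y a : ℕ) : Bool :=
  (@Bool.rec (fun _ => Bool) (Nat.ble a ((fun (u11 : ℕ) => (Nat.add (Nat.land (Nat.shiftRight
      (nat_lit
      0x8776766576656554766565546554544376656554655454436554544354434332766565546554544365545443544343326554544354434332544343324332322176656554655454436554544354434332655454435443433254434332433232216554544354434332544343324332322154434332433232214332322132212110)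
      (Nat.mul (nat_lit 4) (Nat.land u11 (nat_lit 255)))) (nat_lit 15)) (Nat.land (Nat.shiftRight
      (nat_lit
      0x8776766576656554766565546554544376656554655454436554544354434332766565546554544365545443544343326554544354434332544343324332322176656554655454436554544354434332655454435443433254434332433232216554544354434332544343324332322154434332433232214332322132212110)
      (Nat.mul (nat_lit 4) (Nat.shiftRight u11 (nat_lit 8)))) (nat_lit 15)))) (Nat.land (Nat.land
      (Nat.shiftRight T (Nat.mul (nat_lit 16) y)) (nat_lit 65535)) W))) (@Bool.rec (fun _ => Bool)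
      false (Nat.beq (Nat.land (Nat.shiftRight (Nat.land (Nat.shiftRight C (Nat.mul (nat_lit 16)
      (Nat.add (nat_lit 32) (Nat.add a ((fun (u10 : ℕ) => (Nat.add (Nat.land (Nat.shiftRight
      (nat_lit
      0x8776766576656554766565546554544376656554655454436554544354434332766565546554544365545443544343326554544354434332544343324332322176656554655454436554544354434332655454435443433254434332433232216554544354434332544343324332322154434332433232214332322132212110)
      (Nat.mul (nat_lit 4) (Nat.land u10 (nat_lit 255)))) (nat_lit 15)) (Nat.land (Nat.shiftRight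
      (nat_lit
      0x8776766576656554766565546554544376656554655454436554544354434332766565546554544365545443544343326554544354434332544343324332322176656554655454436554544354434332655454435443433254434332433232216554544354434332544343324332322154434332433232214332322132212110)
      (Nat.mul (nat_lit 4) (Nat.shiftRight u10 (nat_lit 8)))) (nat_lit 15)))) ((fun (u9 : ℕ) =>
      (Nat.xor u9 (Nat.land u9 U))) (Nat.land (Nat.shiftRight C (Nat.mul (nat_lit 16) (Nat.add
      (nat_lit 16) y))) (nat_lit 65535)))))))) (nat_lit 65535)) y) (nat_lit 1)) (nat_lit 1)) f) j)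

noncomputable def evdF (C Y T Q cl U hv W : ℕ) (f : Bool) (h s : ℕ) : Bool :=
  ((fun (y : ℕ) (z : ℕ) => (@Bool.rec (fun _ => Bool) false (@Bool.rec (fun _ => Bool) (@Bool.rec
      (fun _ => Bool) false (@Bool.rec (fun _ => Bool) (@Bool.rec (fun _ => Bool) (@Bool.rec (fun _
      => Bool) false (Nat.ble (nat_lit 2) ((fun (u13 : ℕ) => (Nat.add (Nat.land (Nat.shiftRight
      (nat_lit
      0x8776766576656554766565546554544376656554655454436554544354434332766565546554544365545443544343326554544354434332544343324332322176656554655454436554544354434332655454435443433254434332433232216554544354434332544343324332322154434332433232214332322132212110)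
      (Nat.mul (nat_lit 4) (Nat.land u13 (nat_lit 255)))) (nat_lit 15)) (Nat.land (Nat.shiftRight
      (nat_lit
      0x8776766576656554766565546554544376656554655454436554544354434332766565546554544365545443544343326554544354434332544343324332322176656554655454436554544354434332655454435443433254434332433232216554544354434332544343324332322154434332433232214332322132212110)
      (Nat.mul (nat_lit 4) (Nat.shiftRight u13 (nat_lit 8)))) (nat_lit 15)))) (Nat.land (Nat.land
      (Nat.land (Nat.shiftRight T (Nat.mul (nat_lit 16) y)) (nat_lit 65535)) (Nat.land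
      (Nat.shiftRight T (Nat.mul (nat_lit 16) z)) (nat_lit 65535))) W))) (@Bool.rec (fun _ => Bool)
      false (ubdF C Q cl U hv (Nat.beq (Nat.land (Nat.shiftRight s (nat_lit 7)) (nat_lit 1))
      (nat_lit 1)) z h) (@Bool.rec (fun _ => Bool) false (@Bool.rec (fun _ => Bool) true false
      (Nat.beq y z)) (Nat.beq (Nat.land (Nat.shiftRight W z) (nat_lit 1)) (nat_lit 1))))) ((fun (I :
      ℕ) => (@Bool.rec (fun _ => Bool) false (Nat.ble (nat_lit 2) ((fun (u12 : ℕ) => (Nat.add
      (Nat.land (Nat.shiftRight (nat_lit
      0x8776766576656554766565546554544376656554655454436554544354434332766565546554544365545443544343326554544354434332544343324332322176656554655454436554544354434332655454435443433254434332433232216554544354434332544343324332322154434332433232214332322132212110)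
      (Nat.mul (nat_lit 4) (Nat.land u12 (nat_lit 255)))) (nat_lit 15)) (Nat.land (Nat.shiftRight
      (nat_lit
      0x8776766576656554766565546554544376656554655454436554544354434332766565546554544365545443544343326554544354434332544343324332322176656554655454436554544354434332655454435443433254434332433232216554544354434332544343324332322154434332433232214332322132212110)
      (Nat.mul (nat_lit 4) (Nat.shiftRight u12 (nat_lit 8)))) (nat_lit 15)))) (Nat.land (Nat.land
      (Nat.shiftRight Y (Nat.mul (nat_lit 16) z)) (nat_lit 65535)) I))) (Nat.beq (Nat.land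
      (Nat.shiftRight I z) (nat_lit 1)) (nat_lit 1)))) (Nat.land (Nat.land (Nat.shiftRight T
      (Nat.mul (nat_lit 16) y)) (nat_lit 65535)) W)) (Nat.beq (Nat.land s (nat_lit 3)) (nat_lit 2)))
      (lbdF C T U W f (Nat.beq (Nat.land (Nat.shiftRight s (nat_lit 7)) (nat_lit 1)) (nat_lit 1)) y
      (nat_lit 4)) (Nat.beq (Nat.land s (nat_lit 3)) (nat_lit 1))) (ubdF C Q cl U hv (Nat.beq
      (Nat.land (Nat.shiftRight s (nat_lit 2)) (nat_lit 1)) (nat_lit 1)) y h)) (@Bool.rec (fun _ =>
      Bool) false (Nat.beq (Nat.land (Nat.shiftRight (Nat.land (Nat.land (Nat.shiftRight Y (Nat.mul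
      (nat_lit 16) y)) (nat_lit 65535)) (Nat.land (Nat.shiftRight T (Nat.mul (nat_lit 16) y))
      (nat_lit 65535))) z) (nat_lit 1)) (nat_lit 1)) (Nat.beq (Nat.land (Nat.shiftRight W z)
      (nat_lit 1)) (nat_lit 1))) (Nat.beq (Nat.land s (nat_lit 3)) (nat_lit 0))) (Nat.beq (Nat.land
      (Nat.shiftRight W y) (nat_lit 1)) (nat_lit 1)))) (Nat.land (Nat.shiftRight s (nat_lit 3))
      (nat_lit 15)) (Nat.land (Nat.shiftRight s (nat_lit 8)) (nat_lit 15)))

noncomputable def prfF (C T P Q cl U hv W : ℕ) (f : Bool) (cd s : ℕ) : Bool :=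
  ((fun (y : ℕ) (z : ℕ) => (@Bool.rec (fun _ => Bool) false (@Bool.rec (fun _ => Bool) true false
      (@Bool.rec (fun _ => Bool) false (Nat.beq (Nat.land (Nat.shiftRight (Nat.land (Nat.land
      (Nat.shiftRight P (Nat.mul (nat_lit 16) y)) (nat_lit 65535)) (Nat.land (Nat.shiftRight Q
      (Nat.mul (nat_lit 16) y)) (nat_lit 65535))) z) (nat_lit 1)) (nat_lit 1)) (Nat.beq (Nat.land
      (Nat.shiftRight cd (nat_lit 16)) (nat_lit 1)) (nat_lit 1)))) (@Bool.rec (fun _ => Bool) false
      (lbdF C T U W f (Nat.beq (Nat.land (Nat.shiftRight s (nat_lit 7)) (nat_lit 1)) (nat_lit 1)) z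
      (Nat.land (Nat.shiftRight cd (nat_lit 8)) (nat_lit 15))) (@Bool.rec (fun _ => Bool) false
      (ubdF C Q cl U hv (Nat.beq (Nat.land (Nat.shiftRight s (nat_lit 6)) (nat_lit 1)) (nat_lit 1))
      z (Nat.land (Nat.shiftRight cd (nat_lit 12)) (nat_lit 15))) (@Bool.rec (fun _ => Bool) false
      (lbdF C T U W f (Nat.beq (Nat.land (Nat.shiftRight s (nat_lit 1)) (nat_lit 1)) (nat_lit 1)) y
      (Nat.land (Nat.shiftRight cd (nat_lit 0)) (nat_lit 15))) (@Bool.rec (fun _ => Bool) false
      (ubdF C Q cl U hv (Nat.beq (Nat.land (Nat.shiftRight s (nat_lit 0)) (nat_lit 1)) (nat_lit 1))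
      y (Nat.land (Nat.shiftRight cd (nat_lit 4)) (nat_lit 15))) (@Bool.rec (fun _ => Bool) false
      (@Bool.rec (fun _ => Bool) true false (Nat.beq y z)) (@Bool.rec (fun _ => Bool) false (Nat.beq
      (Nat.land (Nat.shiftRight W z) (nat_lit 1)) (nat_lit 1)) (Nat.beq (Nat.land (Nat.shiftRight W
      y) (nat_lit 1)) (nat_lit 1)))))))))) (Nat.land (Nat.shiftRight s (nat_lit 2)) (nat_lit 15))
      (Nat.land (Nat.shiftRight s (nat_lit 8)) (nat_lit 15)))

noncomputable def lfCF (w wT C Y T P Q cl U hv tp : ℕ) (f : Bool) (m W s b : ℕ) : ℕ :=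
  ((fun (d : ℕ) => (@Bool.rec (fun _ => ℕ) (@Bool.rec (fun _ => ℕ) (@Bool.rec (fun _ => ℕ)
      (@Bool.rec (fun _ => ℕ) (nat_lit 0) ((fun (u19 : ℕ) => (@Bool.rec (fun _ => ℕ) (nat_lit 0)
      (Nat.add (Nat.shiftLeft (Nat.shiftRight s (nat_lit 15)) (nat_lit 48)) (Nat.sub b u19))
      (Nat.ble u19 b))) (Nat.land (Nat.shiftRight w (Nat.mul (nat_lit 48) (Nat.add (Nat.mul (nat_lit
      48) (Nat.add (nat_lit 4) (Nat.land s (nat_lit 1)))) m))) (nat_lit 0xffffffffffff))) (prfF C T
      P Q cl U hv W f (Nat.land (Nat.shiftRight w (Nat.mul (nat_lit 48) (Nat.add (Nat.mul (nat_lit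
      48) (Nat.add (nat_lit 2) (Nat.land s (nat_lit 1)))) m))) (nat_lit 0xffffffffffff))
      (Nat.shiftRight s (nat_lit 3)))) (@Bool.rec (fun _ => ℕ) (nat_lit 0) ((fun (u18 : ℕ) =>
      (@Bool.rec (fun _ => ℕ) (nat_lit 0) (Nat.add (Nat.shiftLeft (Nat.shiftRight s (nat_lit 15))
      (nat_lit 48)) (Nat.sub b u18)) (Nat.ble u18 b))) (Nat.land (Nat.shiftRight w (Nat.mul (nat_lit
      48) (Nat.add (Nat.mul (nat_lit 48) (nat_lit 6)) m))) (nat_lit 0xffffffffffff))) (evdF C Y T Q
      cl U hv W f (Nat.land (Nat.shiftRight w (Nat.mul (nat_lit 48) (Nat.add (Nat.mul (nat_lit 48)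
      (nat_lit 0)) m))) (nat_lit 0xffffffffffff)) (Nat.shiftRight s (nat_lit 3)))) (Nat.beq d
      (nat_lit 4))) ((fun (l : ℕ) (h : ℕ) => (@Bool.rec (fun _ => ℕ) (nat_lit 0) ((fun (u17 : ℕ) =>
      (@Bool.rec (fun _ => ℕ) (nat_lit 0) (Nat.add (Nat.shiftLeft (Nat.shiftRight s (nat_lit 9))
      (nat_lit 48)) (Nat.sub b u17)) (Nat.ble u17 b))) (Nat.land (Nat.shiftRight wT (Nat.mul
      (nat_lit 48) (Nat.add (Nat.mul (nat_lit 64) (Nat.sub (nat_lit 47) m)) (Nat.add (Nat.mul
      (nat_lit 8) l) h)))) (nat_lit 0xffffffffffff))) (@Bool.rec (fun _ => Bool) false (Nat.ble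
      (Nat.add (Nat.shiftRight tp (nat_lit 32)) ((fun (u16 : ℕ) => (Nat.add (Nat.land
      (Nat.shiftRight (nat_lit
      0x8776766576656554766565546554544376656554655454436554544354434332766565546554544365545443544343326554544354434332544343324332322176656554655454436554544354434332655454435443433254434332433232216554544354434332544343324332322154434332433232214332322132212110)
      (Nat.mul (nat_lit 4) (Nat.land u16 (nat_lit 255)))) (nat_lit 15)) (Nat.land (Nat.shiftRight
      (nat_lit
      0x8776766576656554766565546554544376656554655454436554544354434332766565546554544365545443544343326554544354434332544343324332322176656554655454436554544354434332655454435443433254434332433232216554544354434332544343324332322154434332433232214332322132212110)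
      (Nat.mul (nat_lit 4) (Nat.shiftRight u16 (nat_lit 8)))) (nat_lit 15)))) (Nat.land (Nat.land
      (Nat.shiftRight tp (Nat.mul (nat_lit 16) (nat_lit 1))) (nat_lit 65535)) U))) h) (Nat.ble l
      ((fun (u15 : ℕ) => (Nat.add (Nat.land (Nat.shiftRight (nat_lit
      0x8776766576656554766565546554544376656554655454436554544354434332766565546554544365545443544343326554544354434332544343324332322176656554655454436554544354434332655454435443433254434332433232216554544354434332544343324332322154434332433232214332322132212110)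
      (Nat.mul (nat_lit 4) (Nat.land u15 (nat_lit 255)))) (nat_lit 15)) (Nat.land (Nat.shiftRight
      (nat_lit
      0x8776766576656554766565546554544376656554655454436554544354434332766565546554544365545443544343326554544354434332544343324332322176656554655454436554544354434332655454435443433254434332433232216554544354434332544343324332322154434332433232214332322132212110)
      (Nat.mul (nat_lit 4) (Nat.shiftRight u15 (nat_lit 8)))) (nat_lit 15)))) (Nat.land (Nat.land
      (Nat.shiftRight tp (Nat.mul (nat_lit 16) (nat_lit 0))) (nat_lit 65535)) W)))))) (Nat.land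
      (Nat.shiftRight s (nat_lit 3)) (nat_lit 7)) (Nat.land (Nat.shiftRight s (nat_lit 6)) (nat_lit
      7))) (Nat.beq d (nat_lit 3))) (@Bool.rec (fun _ => ℕ) (nat_lit 0) ((fun (u14 : ℕ) =>
      (@Bool.rec (fun _ => ℕ) (nat_lit 0) (Nat.add (Nat.shiftLeft (Nat.shiftRight s (nat_lit 8))
      (nat_lit 48)) (Nat.sub b u14)) (Nat.ble u14 b))) (Nat.land (Nat.shiftRight w (Nat.mul (nat_lit
      48) (Nat.add (Nat.mul (nat_lit 48) (Nat.add (nat_lit 7) d)) m))) (nat_lit 0xffffffffffff)))
      (@Bool.rec (fun _ => Bool) false (ubdF C Q cl U hv (Nat.beq (Nat.land (Nat.shiftRight s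
      (nat_lit 3)) (nat_lit 1)) (nat_lit 1)) (Nat.land (Nat.shiftRight s (nat_lit 4)) (nat_lit 15))
      d) (Nat.beq (Nat.land (Nat.shiftRight W (Nat.land (Nat.shiftRight s (nat_lit 4)) (nat_lit
      15))) (nat_lit 1)) (nat_lit 1)))) (Nat.ble d (nat_lit 2)))) (Nat.land s (nat_lit 7)))

noncomputable def prdF (g : G14) (gs k Y T P Q pres cl dom U hv NI c tp S s b : ℕ) : ℕ :=
  ((fun (U1 : ℕ) (t : ℕ) => (@Bool.rec (fun _ => ℕ) (nat_lit 0) ((fun (g0 : ℕ) => ((fun (q : ℕ) =>
      ((fun (r : ℕ) => (@Bool.rec (fun _ => ℕ) (Nat.add (Nat.shiftLeft (Nat.shiftRight r (nat_lit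
      48)) (nat_lit 48)) (Nat.sub b (Nat.mul g0 (Nat.sub q (Nat.land r (nat_lit 0xffffffffffff))))))
      (nat_lit 0) (Nat.beq r (nat_lit 0)))) (g Y T P Q (Nat.land pres U1) cl dom U1 hv NI c tp s
      q))) (Nat.div b g0))) (Nat.land (Nat.shiftRight gs (Nat.mul (nat_lit 48) t)) (nat_lit
      0xffffffffffff))) (@Bool.rec (fun _ => Bool) false (@Bool.rec (fun _ => Bool) (Nat.beq
      (Nat.land (Nat.shiftRight (Nat.land (Nat.shiftRight gs (Nat.mul (nat_lit 48) (nat_lit 16)))
      (nat_lit 0xffffffffffff)) t) (nat_lit 1)) (nat_lit 1)) true (Nat.ble (Nat.succ t) k))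
      (@Bool.rec (fun _ => Bool) false (Nat.beq (Nat.land (Nat.mul (Nat.land (Nat.mul S (nat_lit
      0x200040008001000200040008001000200040008001000200040008001)) (nat_lit
      0x1000100010001000100010001000100010001000100010001000100010001)) U1) Q) (nat_lit 0)) (Nat.beq
      (Nat.land S (Nat.land U cl)) S))))) (Nat.xor U (Nat.land U S)) (Nat.add (Nat.land
      (Nat.shiftRight (nat_lit
      0x8776766576656554766565546554544376656554655454436554544354434332766565546554544365545443544343326554544354434332544343324332322176656554655454436554544354434332655454435443433254434332433232216554544354434332544343324332322154434332433232214332322132212110)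
      (Nat.mul (nat_lit 4) (Nat.land S (nat_lit 255)))) (nat_lit 15)) (Nat.land (Nat.shiftRight
      (nat_lit
      0x8776766576656554766565546554544376656554655454436554544354434332766565546554544365545443544343326554544354434332544343324332322176656554655454436554544354434332655454435443433254434332433232216554544354434332544343324332322154434332433232214332322132212110)
      (Nat.mul (nat_lit 4) (Nat.shiftRight S (nat_lit 8)))) (nat_lit 15))))

noncomputable def uniF (Y T P Q S W a : ℕ) : Bool :=
  ((fun (sp : ℕ) (rY : ℕ) (rT : ℕ) => (@Bool.rec (fun _ => Bool) false (Nat.beq (Nat.land (Nat.mul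
      sp (Nat.xor W (Nat.land W rY))) P) (nat_lit 0)) (@Bool.rec (fun _ => Bool) false ((fun (u21 :
      ℕ) => (Nat.beq (Nat.land u21 Y) u21)) (Nat.mul sp (Nat.land W rY))) (@Bool.rec (fun _ => Bool)
      false (Nat.beq (Nat.land (Nat.mul sp (Nat.xor W (Nat.land W rT))) Q) (nat_lit 0)) (@Bool.rec
      (fun _ => Bool) false ((fun (u20 : ℕ) => (Nat.beq (Nat.land u20 T) u20)) (Nat.mul sp (Nat.land
      W rT))) (Nat.beq (Nat.land (Nat.shiftRight S a) (nat_lit 1)) (nat_lit 1))))))) (Nat.land
      (Nat.mul S (nat_lit 0x200040008001000200040008001000200040008001000200040008001)) (nat_lit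
      0x1000100010001000100010001000100010001000100010001000100010001)) (Nat.land (Nat.shiftRight Y
      (Nat.mul (nat_lit 16) a)) (nat_lit 65535)) (Nat.land (Nat.shiftRight T (Nat.mul (nat_lit 16)
      a)) (nat_lit 65535)))

noncomputable def mdlF (g : G14) (gs k C Y T P Q pres cl dom U hv NI c tp S K a s b : ℕ) : ℕ :=
  ((fun (U1 : ℕ) (W : ℕ) (t : ℕ) => (@Bool.rec (fun _ => ℕ) (nat_lit 0) ((fun (g0 : ℕ) => ((fun (q :
      ℕ) => ((fun (r : ℕ) => (@Bool.rec (fun _ => ℕ) (g Y T P Q pres cl dom U1 hv NI c tp
      (Nat.shiftRight r (nat_lit 48)) (Nat.sub b (Nat.mul g0 (Nat.sub q (Nat.land r (nat_lit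
      0xffffffffffff)))))) (nat_lit 0) (Nat.beq r (nat_lit 0)))) (conMF g k C Y T P Q (Nat.land pres
      W) cl dom (Nat.lor U1 (Nat.shiftLeft (nat_lit 1) a)) hv NI c tp a s q))) (Nat.div b g0)))
      (Nat.land (Nat.shiftRight gs (Nat.mul (nat_lit 48) t)) (nat_lit 0xffffffffffff))) (@Bool.rec
      (fun _ => Bool) false (uniF Y T P Q S W a) (@Bool.rec (fun _ => Bool) false (@Bool.rec (fun _
      => Bool) (Nat.beq (Nat.land (Nat.shiftRight (Nat.land (Nat.shiftRight gs (Nat.mul (nat_lit 48)
      (nat_lit 16))) (nat_lit 0xffffffffffff)) t) (nat_lit 1)) (nat_lit 1)) true (Nat.ble (Nat.succ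
      t) k)) (@Bool.rec (fun _ => Bool) false (Nat.beq (Nat.land (Nat.shiftRight pres a) (nat_lit
      1)) (nat_lit 1)) (Nat.beq (Nat.land S (Nat.land U cl)) S)))))) (Nat.xor U (Nat.land U S))
      ((fun (u22 : ℕ) => (Nat.xor u22 (Nat.land u22 S))) (Nat.lor U K)) (Nat.add (Nat.land
      (Nat.shiftRight (nat_lit
      0x8776766576656554766565546554544376656554655454436554544354434332766565546554544365545443544343326554544354434332544343324332322176656554655454436554544354434332655454435443433254434332433232216554544354434332544343324332322154434332433232214332322132212110)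
      (Nat.mul (nat_lit 4) (Nat.land S (nat_lit 255)))) (nat_lit 15)) (Nat.land (Nat.shiftRight
      (nat_lit
      0x8776766576656554766565546554544376656554655454436554544354434332766565546554544365545443544343326554544354434332544343324332322176656554655454436554544354434332655454435443433254434332433232216554544354434332544343324332322154434332433232214332322132212110)
      (Nat.mul (nat_lit 4) (Nat.shiftRight S (nat_lit 8)))) (nat_lit 15))))

noncomputable def stpF (g : G14) (Y T P Q pres cl dom U hv NI c D s b : ℕ) : ℕ :=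
  (@Bool.rec (fun _ => ℕ) (nat_lit 0) (g Y T P Q pres cl dom U hv NI c (Nat.lor D (Nat.shiftLeft D
      (nat_lit 16))) s b) (@Bool.rec (fun _ => Bool) false ((fun (u23 : ℕ) => (Nat.beq (Nat.land u23
      Y) u23)) (Nat.mul (Nat.land (Nat.mul D (nat_lit
      0x200040008001000200040008001000200040008001000200040008001)) (nat_lit
      0x1000100010001000100010001000100010001000100010001000100010001)) (Nat.xor U (Nat.land U D))))
      (Nat.beq (Nat.land D (Nat.land U dom)) D)))

noncomputable def evSF (w wT gs k C : ℕ) (g : G14) (Y T P Q pres cl dom U hv NI c tp s b : ℕ) : ℕ :=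
  ((fun (t : ℕ) (y : ℕ) => (@Bool.rec (fun _ => ℕ) (@Bool.rec (fun _ => ℕ) (@Bool.rec (fun _ => ℕ)
      (@Bool.rec (fun _ => ℕ) (@Bool.rec (fun _ => ℕ) (stpF g Y T P Q pres cl dom U hv NI c
      (Nat.land (Nat.shiftRight s (nat_lit 4)) (nat_lit 65535)) (Nat.shiftRight s (nat_lit 20)) b)
      (mdlF g gs k C Y T P Q pres cl dom U hv NI c tp (Nat.land (Nat.shiftRight s (nat_lit 4))
      (nat_lit 65535)) (Nat.land (Nat.shiftRight s (nat_lit 20)) (nat_lit 65535)) (Nat.land
      (Nat.shiftRight s (nat_lit 36)) (nat_lit 15)) (Nat.shiftRight s (nat_lit 40)) b) (Nat.beq t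
      (nat_lit 10))) (prdF g gs k Y T P Q pres cl dom U hv NI c tp (Nat.land (Nat.shiftRight s
      (nat_lit 4)) (nat_lit 65535)) (Nat.shiftRight s (nat_lit 20)) b) (Nat.beq t (nat_lit 9)))
      (@Bool.rec (fun _ => ℕ) (brmGF (conMF g k C Y T P Q pres cl dom U hv NI c tp y) g Y T P Q pres
      cl dom U hv NI c tp y (Nat.shiftRight s (nat_lit 8)) b) (brmGF (con2F g Y T P Q pres cl dom U
      hv NI c tp y) g Y T P Q pres cl dom U hv NI c tp y (Nat.shiftRight s (nat_lit 8)) b) (Nat.beq
      t (nat_lit 7))) (Nat.ble t (nat_lit 8))) (@Bool.rec (fun _ => ℕ) (@Bool.rec (fun _ => ℕ) (brGF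
      (conMF g k C Y T P Q pres cl dom U hv NI c tp y) g Y T P Q pres cl dom U hv NI c tp y
      (Nat.shiftRight s (nat_lit 8)) b) (@Bool.rec (fun _ => ℕ) (nat_lit 0) (Nat.add (Nat.shiftLeft
      (Nat.shiftRight s (nat_lit 8)) (nat_lit 48)) b) (pruneF Y P Q pres cl dom U y)) (Nat.beq t
      (nat_lit 5))) (lfCF w wT C Y T P Q cl U hv tp false (Nat.add c ((fun (u27 : ℕ) => (Nat.add
      (Nat.land (Nat.shiftRight (nat_lit
      0x8776766576656554766565546554544376656554655454436554544354434332766565546554544365545443544343326554544354434332544343324332322176656554655454436554544354434332655454435443433254434332433232216554544354434332544343324332322154434332433232214332322132212110)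
      (Nat.mul (nat_lit 4) (Nat.land u27 (nat_lit 255)))) (nat_lit 15)) (Nat.land (Nat.shiftRight
      (nat_lit
      0x8776766576656554766565546554544376656554655454436554544354434332766565546554544365545443544343326554544354434332544343324332322176656554655454436554544354434332655454435443433254434332433232216554544354434332544343324332322154434332433232214332322132212110)
      (Nat.mul (nat_lit 4) (Nat.shiftRight u27 (nat_lit 8)))) (nat_lit 15)))) (Nat.xor NI (Nat.land
      NI U)))) (Nat.land U NI) (Nat.shiftRight s (nat_lit 4)) b) (Nat.beq t (nat_lit 4))) (Nat.ble t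
      (nat_lit 6))) (@Bool.rec (fun _ => ℕ) (@Bool.rec (fun _ => ℕ) (lfCF w wT C Y T P Q cl U hv tp
      true (Nat.sub k (Nat.add (Nat.land (Nat.shiftRight (nat_lit
      0x8776766576656554766565546554544376656554655454436554544354434332766565546554544365545443544343326554544354434332544343324332322176656554655454436554544354434332655454435443433254434332433232216554544354434332544343324332322154434332433232214332322132212110)
      (Nat.mul (nat_lit 4) (Nat.land U (nat_lit 255)))) (nat_lit 15)) (Nat.land (Nat.shiftRight
      (nat_lit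
      0x8776766576656554766565546554544376656554655454436554544354434332766565546554544365545443544343326554544354434332544343324332322176656554655454436554544354434332655454435443433254434332433232216554544354434332544343324332322154434332433232214332322132212110)
      (Nat.mul (nat_lit 4) (Nat.shiftRight U (nat_lit 8)))) (nat_lit 15)))) U (Nat.shiftRight s
      (nat_lit 4)) b) ((fun (u26 : ℕ) => (@Bool.rec (fun _ => ℕ) (nat_lit 0) (Nat.add (Nat.shiftLeft
      (Nat.shiftRight s (nat_lit 4)) (nat_lit 48)) (Nat.sub b u26)) (Nat.ble u26 b))) (Nat.land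
      (Nat.shiftRight w (Nat.mul (nat_lit 48) (Nat.add (Nat.mul (nat_lit 48) (nat_lit 10)) (Nat.add
      c ((fun (u25 : ℕ) => (Nat.add (Nat.land (Nat.shiftRight (nat_lit
      0x8776766576656554766565546554544376656554655454436554544354434332766565546554544365545443544343326554544354434332544343324332322176656554655454436554544354434332655454435443433254434332433232216554544354434332544343324332322154434332433232214332322132212110)
      (Nat.mul (nat_lit 4) (Nat.land u25 (nat_lit 255)))) (nat_lit 15)) (Nat.land (Nat.shiftRight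
      (nat_lit
      0x8776766576656554766565546554544376656554655454436554544354434332766565546554544365545443544343326554544354434332544343324332322176656554655454436554544354434332655454435443433254434332433232216554544354434332544343324332322154434332433232214332322132212110)
      (Nat.mul (nat_lit 4) (Nat.shiftRight u25 (nat_lit 8)))) (nat_lit 15)))) (Nat.xor NI (Nat.land
      NI U))))))) (nat_lit 0xffffffffffff))) (Nat.beq t (nat_lit 2))) (@Bool.rec (fun _ => ℕ) ((fun
      (u24 : ℕ) => (@Bool.rec (fun _ => ℕ) (nat_lit 0) (Nat.add (Nat.shiftLeft (Nat.shiftRight s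
      (nat_lit 4)) (nat_lit 48)) (Nat.sub b u24)) (Nat.ble u24 b))) (Nat.land (Nat.shiftRight w
      (Nat.mul (nat_lit 48) (Nat.add (Nat.mul (nat_lit 48) (nat_lit 10)) (Nat.sub k (Nat.add
      (Nat.land (Nat.shiftRight (nat_lit
      0x8776766576656554766565546554544376656554655454436554544354434332766565546554544365545443544343326554544354434332544343324332322176656554655454436554544354434332655454435443433254434332433232216554544354434332544343324332322154434332433232214332322132212110)
      (Nat.mul (nat_lit 4) (Nat.land U (nat_lit 255)))) (nat_lit 15)) (Nat.land (Nat.shiftRight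
      (nat_lit
      0x8776766576656554766565546554544376656554655454436554544354434332766565546554544365545443544343326554544354434332544343324332322176656554655454436554544354434332655454435443433254434332433232216554544354434332544343324332322154434332433232214332322132212110)
      (Nat.mul (nat_lit 4) (Nat.shiftRight U (nat_lit 8)))) (nat_lit 15))))))) (nat_lit
      0xffffffffffff))) (brGF (con2F g Y T P Q pres cl dom U hv NI c tp y) g Y T P Q pres cl dom U
      hv NI c tp y (Nat.shiftRight s (nat_lit 8)) b) (Nat.beq t (nat_lit 0))) (Nat.ble t (nat_lit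
      1))) (Nat.ble t (nat_lit 3)))) (Nat.land s (nat_lit 15)) (Nat.land (Nat.shiftRight s (nat_lit
      4)) (nat_lit 15)))

noncomputable def evF (w wT gs k C : ℕ) (f : ℕ) : G14 :=
  @Nat.rec (fun _ => G14) (fun _ _ _ _ _ _ _ _ _ _ _ _ _ _ => nat_lit 0)
    (fun _ g => evSF w wT gs k C g) f

noncomputable def prow4F (p S : ℕ) (m : ℕ) : ℕ :=
  @Nat.rec (fun _ => ℕ) (nat_lit 0)
    (fun (i : ℕ) (rc_ : ℕ) => (Nat.lor rc_ (Nat.shiftLeft (Nat.land (Nat.shiftRight S (Nat.mul
        (nat_lit 16) (Nat.land (Nat.shiftRight p (Nat.mul (nat_lit 4) i)) (nat_lit 15)))) (nat_lit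
        0xffff000000000000000000000000000000000000000000000000000000000000ffff000000000000000000000000000000000000000000000000000000000000ffff000000000000000000000000000000000000000000000000000000000000ffff))
        (Nat.mul (nat_lit 16) i)))) m

noncomputable def pcolBF (p S : ℕ) (m : ℕ) : ℕ :=
  @Nat.rec (fun _ => ℕ) (nat_lit 0)
    (fun (i : ℕ) (rc_ : ℕ) => (Nat.lor rc_ (Nat.shiftLeft (Nat.land (Nat.shiftRight S (Nat.land
        (Nat.shiftRight p (Nat.mul (nat_lit 4) i)) (nat_lit 15))) (nat_lit
        0x10001000100010001000100010001000100010001000100010001000100010001000100010001000100010001000100010001000100010001000100010001000100010001000100010001000100010001000100010001000100010001000100010001000100010001000100010001000100010001000100010001000100010001000100010001000100010001000100010001000100010001000100010001000100010001000100010001000100010001000100010001000100010001000100010001000100010001000100010001000100010001000100010001000100010001000100010001000100010001000100010001000100010001000100010001000100010001))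
        i))) m

noncomputable def hsF (g : ℕ → ℕ → ℕ) (S A out : ℕ) (m : ℕ) : ℕ → ℕ → ℕ :=
  @Nat.rec (fun _ => ℕ → ℕ → ℕ) (fun (s H : ℕ) => (g s H))
    (fun (i : ℕ) (rc_ : ℕ → ℕ → ℕ) => (fun (s H : ℕ) => (@Bool.rec (fun _ => ℕ) (rc_ s H) ((fun (h :
        ℕ) => (@Bool.rec (fun _ => ℕ) (nat_lit 0) (rc_ (Nat.shiftRight s (nat_lit 5)) (Nat.add H
        (Nat.sub h ((fun (u28 : ℕ) => (Nat.add (Nat.land (Nat.shiftRight (nat_lit
        0x8776766576656554766565546554544376656554655454436554544354434332766565546554544365545443544343326554544354434332544343324332322176656554655454436554544354434332655454435443433254434332433232216554544354434332544343324332322154434332433232214332322132212110)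
        (Nat.mul (nat_lit 4) (Nat.land u28 (nat_lit 255)))) (nat_lit 15)) (Nat.land (Nat.shiftRight
        (nat_lit
        0x8776766576656554766565546554544376656554655454436554544354434332766565546554544365545443544343326554544354434332544343324332322176656554655454436554544354434332655454435443433254434332433232216554544354434332544343324332322154434332433232214332322132212110)
        (Nat.mul (nat_lit 4) (Nat.shiftRight u28 (nat_lit 8)))) (nat_lit 15)))) (Nat.land (Nat.land
        (Nat.shiftRight S (Nat.mul (nat_lit 16) (Nat.add (nat_lit 16) i))) (nat_lit 65535)) out)))))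
        (Nat.beq (Nat.land (Nat.shiftRight (Nat.land (Nat.shiftRight S (Nat.mul (nat_lit 16)
        (Nat.add (nat_lit 96) h))) (nat_lit 65535)) i) (nat_lit 1)) (nat_lit 1)))) (Nat.land s
        (nat_lit 31))) (Nat.beq (Nat.land (Nat.shiftRight A i) (nat_lit 1)) (nat_lit 1))))) m

noncomputable def ltcF (S A X : ℕ) (m : ℕ) : ℕ :=
  @Nat.rec (fun _ => ℕ) S
    (fun (i : ℕ) (rc_ : ℕ) => (@Bool.rec (fun _ => ℕ) rc_ (Nat.lor rc_ ((fun (u29 : ℕ) => (Nat.lor
        (Nat.shiftLeft (Nat.mul u29 (nat_lit
        0x1000000000000000000000000000000000000000000000000000000000000000000000000000000000000000000000000000000000000000000000000000000000000000000000000000000000000000000000000000000000000000000000001))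
        (Nat.mul (nat_lit 16) i)) (Nat.shiftLeft (Nat.mul (Nat.land (Nat.mul u29 (nat_lit
        0x200040008001000200040008001000200040008001000200040008001)) (nat_lit
        0x1000100010001000100010001000100010001000100010001000100010001)) (nat_lit
        0x100000000000000000000000000000000000000000000000000000000000000010000000000000000000000000000000000000000000000000000000000000000))
        i))) (Nat.xor X (Nat.land X (Nat.land (Nat.shiftRight S (Nat.mul (nat_lit 16) (Nat.add
        (nat_lit 16) i))) (nat_lit 65535)))))) (Nat.beq (Nat.land (Nat.shiftRight A i) (nat_lit 1))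
        (nat_lit 1)))) m

noncomputable def pthF (g : ℕ → ℕ → ℕ) (S : ℕ) (m : ℕ) : ℕ → ℕ → ℕ :=
  @Nat.rec (fun _ => ℕ → ℕ → ℕ) (fun (x s : ℕ) => (g x s))
    (fun (i : ℕ) (rc_ : ℕ → ℕ → ℕ) => (fun (x s : ℕ) => ((fun (z : ℕ) => (@Bool.rec (fun _ => ℕ)
        (nat_lit 0) (rc_ z (Nat.shiftRight s (nat_lit 4))) (Nat.beq (Nat.land (Nat.shiftRight
        (Nat.land (Nat.shiftRight S (Nat.mul (nat_lit 16) (Nat.add (nat_lit 32) x))) (nat_lit
        65535)) z) (nat_lit 1)) (nat_lit 1)))) (Nat.land s (nat_lit 15))))) m

noncomputable def tlF (g : ℕ → ℕ → ℕ → ℕ → ℕ → ℕ) (S An dU t0 ph le A0 H2 J hm : ℕ) (m : ℕ) : ℕ → ℕ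
    → ℕ → ℕ → ℕ → ℕ :=
  @Nat.rec (fun _ => ℕ → ℕ → ℕ → ℕ → ℕ → ℕ) (fun (j D Lc s a : ℕ) => (g j D Lc s a))
    (fun (i : ℕ) (rc_ : ℕ → ℕ → ℕ → ℕ → ℕ → ℕ) => (fun (j D Lc s a : ℕ) => ((fun (x : ℕ) (L1 : ℕ) =>
        ((fun (e : ℕ) => (@Bool.rec (fun _ => ℕ) (nat_lit 0) (rc_ (Nat.succ j) (Nat.add D e) L1
        (Nat.shiftRight s (nat_lit 5)) (Nat.add a (Nat.land (Nat.shiftRight ph (Nat.mul (nat_lit 48)
        e)) (nat_lit 0xffffffffffff)))) (@Bool.rec (fun _ => Bool) false (Nat.ble e (nat_lit 60))
        (@Bool.rec (fun _ => Bool) false (Nat.ble ((fun (u30 : ℕ) => (Nat.add (Nat.land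
        (Nat.shiftRight (nat_lit
        0x8776766576656554766565546554544376656554655454436554544354434332766565546554544365545443544343326554544354434332544343324332322176656554655454436554544354434332655454435443433254434332433232216554544354434332544343324332322154434332433232214332322132212110)
        (Nat.mul (nat_lit 4) (Nat.land u30 (nat_lit 255)))) (nat_lit 15)) (Nat.land (Nat.shiftRight
        (nat_lit
        0x8776766576656554766565546554544376656554655454436554544354434332766565546554544365545443544343326554544354434332544343324332322176656554655454436554544354434332655454435443433254434332433232216554544354434332544343324332322154434332433232214332322132212110)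
        (Nat.mul (nat_lit 4) (Nat.shiftRight u30 (nat_lit 8)))) (nat_lit 15)))) (Nat.xor An
        (Nat.land An (Nat.land (Nat.shiftRight S (Nat.mul (nat_lit 16) (Nat.add (nat_lit 64) x)))
        (nat_lit 65535))))) j) (@Bool.rec (fun _ => Bool) false (Nat.ble x dU) (Nat.ble t0 x))))))
        (Nat.add x (Nat.sub (Nat.sub (Nat.add L1 (Nat.sub (Nat.sub A0 (Nat.add H2 (Nat.mul (Nat.sub
        J (Nat.succ j)) hm))) L1)) D) x)))) (Nat.land s (nat_lit 31)) (Nat.add Lc (Nat.add j le)))))
        m

noncomputable def srcF (w wT gs k C Y T P Q NT cl dom v s b : ℕ) : ℕ :=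
  ((fun (I : ℕ) => ((fun (U1 : ℕ) => ((fun (U0 : ℕ) => ((fun (a : ℕ) (e : ℕ) => (conMF (evF w wT gs
      k C (nat_lit 60)) k C (Nat.lor Y a) (Nat.lor T e) (Nat.xor P (Nat.land P e)) (Nat.xor Q
      (Nat.land Q a)) (Nat.lor (Nat.land (Nat.shiftRight NT (Nat.mul (nat_lit 16) v)) (nat_lit
      65535)) I) cl (Nat.lor dom (Nat.shiftLeft (nat_lit 1) v)) U1 (Nat.sub (Nat.shiftLeft (nat_lit
      1) k) (nat_lit 1)) (nat_lit 0) (nat_lit 0) (nat_lit 0) v s b)) (Nat.shiftLeft U0 (Nat.mul
      (nat_lit 16) v)) (Nat.shiftLeft (Nat.land (Nat.mul U0 (nat_lit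
      0x200040008001000200040008001000200040008001000200040008001)) (nat_lit
      0x1000100010001000100010001000100010001000100010001000100010001)) v))) (Nat.xor U1 (Nat.land
      U1 (Nat.shiftLeft (nat_lit 1) v))))) ((fun (u31 : ℕ) => (Nat.xor u31 (Nat.land u31 I)))
      (Nat.sub (Nat.shiftLeft (nat_lit 1) k) (nat_lit 1))))) (Nat.land (Nat.shiftRight T (Nat.mul
      (nat_lit 16) v)) (nat_lit 65535)))

noncomputable def srcsF (w wT gs k C Y T P Q NT cl dom L : ℕ) (m : ℕ) : ℕ → ℕ :=
  @Nat.rec (fun _ => ℕ → ℕ) (fun (r : ℕ) => (Nat.shiftRight r (nat_lit 48)))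
    (fun (i : ℕ) (rc_ : ℕ → ℕ) => (fun (r : ℕ) => (@Bool.rec (fun _ => ℕ) (rc_ r) ((fun (r1 : ℕ) =>
        (@Bool.rec (fun _ => ℕ) (rc_ r1) (nat_lit 0) (Nat.beq r1 (nat_lit 0)))) (srcF w wT gs k C Y
        T P Q NT cl dom i (Nat.shiftRight r (nat_lit 48)) (Nat.land r (nat_lit 0xffffffffffff))))
        (Nat.beq (Nat.land (Nat.shiftRight L i) (nat_lit 1)) (nat_lit 1))))) m

noncomputable def ilfF (w wT gs tg k S s : ℕ) : ℕ :=
  ((fun (Q : ℕ) (u : ℕ) => (Nat.shiftRight (evF w wT gs k (Nat.lor (Nat.lor (Nat.land
      (Nat.shiftRight S (Nat.mul (nat_lit 256) (nat_lit 1))) (nat_lit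
      0xffffffffffffffffffffffffffffffffffffffffffffffffffffffffffffffff)) (Nat.shiftLeft (Nat.land
      Q (Nat.mul (nat_lit 0x1000100010001000100010001000100010001000100010001000100010001) (Nat.sub
      (Nat.shiftLeft (nat_lit 1) k) (nat_lit 1)))) (nat_lit 256))) (Nat.shiftLeft (Nat.land
      (Nat.shiftRight S (nat_lit 1024)) (nat_lit
      0xffffffffffffffffffffffffffffffffffffffffffffffffffffffffffffffffffffffffffffffffffffffffffffffffffffffffffffffffffffffffffffffffffffffffffffffffffffffffffffffffffffffffffffffffffffffffffffffffffffffffffffffffffffffffffffffffffffffffffffffffffffffffffffffff))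
      (nat_lit 512))) (nat_lit 60) (Nat.land (Nat.shiftRight S (Nat.mul (nat_lit 256) (nat_lit 0)))
      (nat_lit 0xffffffffffffffffffffffffffffffffffffffffffffffffffffffffffffffff)) (Nat.land
      (Nat.shiftRight S (Nat.mul (nat_lit 256) (nat_lit 1))) (nat_lit
      0xffffffffffffffffffffffffffffffffffffffffffffffffffffffffffffffff)) (Nat.xor (Nat.land
      (Nat.shiftRight S (Nat.mul (nat_lit 256) (nat_lit 2))) (nat_lit
      0xffffffffffffffffffffffffffffffffffffffffffffffffffffffffffffffff)) (nat_lit
      0xffffffffffffffffffffffffffffffffffffffffffffffffffffffffffffffff)) Q u (Nat.land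
      (Nat.shiftRight S (Nat.mul (nat_lit 16) (nat_lit 128))) (nat_lit 65535)) (Nat.lor (Nat.land
      (Nat.shiftRight S (Nat.mul (nat_lit 16) (nat_lit 128))) (nat_lit 65535)) (Nat.land
      (Nat.shiftRight S (Nat.mul (nat_lit 16) (nat_lit 129))) (nat_lit 65535))) u u (nat_lit 0)
      (nat_lit 0) (nat_lit 0) s tg) (nat_lit 48))) (Nat.xor (Nat.land (Nat.shiftRight S (Nat.mul
      (nat_lit 256) (nat_lit 3))) (nat_lit
      0xffffffffffffffffffffffffffffffffffffffffffffffffffffffffffffffff)) (nat_lit
      0xffffffffffffffffffffffffffffffffffffffffffffffffffffffffffffffff)) (Nat.sub (Nat.shiftLeft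
      (nat_lit 1) k) (nat_lit 1)))

noncomputable def llfF (w wT gs ph tg hm nf k dU S s : ℕ) : ℕ :=
  ((fun (L : ℕ) (Lp : ℕ) (E : ℕ) (t0 : ℕ) (cd : ℕ) => ((fun (An : ℕ) (out : ℕ) (pr : ℕ) (le : ℕ) =>
      (@Bool.rec (fun _ => ℕ) (nat_lit 0) (hsF (fun (s1 : ℕ) (H : ℕ) => (hsF (fun (s2 : ℕ) (H2 : ℕ)
      => (tlF (fun (j : ℕ) (D : ℕ) (Lc : ℕ) (s3 : ℕ) (a : ℕ) => ((fun (a1 : ℕ) => (@Bool.rec (fun _
      => ℕ) (nat_lit 0) ((fun (Q : ℕ) => (srcsF w wT gs k (Nat.lor (Nat.lor (Nat.land
      (Nat.shiftRight S (Nat.mul (nat_lit 256) (nat_lit 1))) (nat_lit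
      0xffffffffffffffffffffffffffffffffffffffffffffffffffffffffffffffff)) (Nat.shiftLeft (Nat.land
      Q (Nat.mul (nat_lit 0x1000100010001000100010001000100010001000100010001000100010001) (Nat.sub
      (Nat.shiftLeft (nat_lit 1) k) (nat_lit 1)))) (nat_lit 256))) (Nat.shiftLeft (Nat.land
      (Nat.shiftRight S (nat_lit 1024)) (nat_lit
      0xffffffffffffffffffffffffffffffffffffffffffffffffffffffffffffffffffffffffffffffffffffffffffffffffffffffffffffffffffffffffffffffffffffffffffffffffffffffffffffffffffffffffffffffffffffffffffffffffffffffffffffffffffffffffffffffffffffffffffffffffffffffffffffffff))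
      (nat_lit 512))) (Nat.land (Nat.shiftRight S (Nat.mul (nat_lit 256) (nat_lit 0))) (nat_lit
      0xffffffffffffffffffffffffffffffffffffffffffffffffffffffffffffffff)) (Nat.land (Nat.shiftRight
      S (Nat.mul (nat_lit 256) (nat_lit 1))) (nat_lit
      0xffffffffffffffffffffffffffffffffffffffffffffffffffffffffffffffff)) (Nat.xor (Nat.land
      (Nat.shiftRight S (Nat.mul (nat_lit 256) (nat_lit 2))) (nat_lit
      0xffffffffffffffffffffffffffffffffffffffffffffffffffffffffffffffff)) (nat_lit
      0xffffffffffffffffffffffffffffffffffffffffffffffffffffffffffffffff)) Q (Nat.land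
      (Nat.shiftRight S (Nat.mul (nat_lit 256) (nat_lit 3))) (nat_lit
      0xffffffffffffffffffffffffffffffffffffffffffffffffffffffffffffffff)) (Nat.land (Nat.shiftRight
      S (Nat.mul (nat_lit 16) (nat_lit 128))) (nat_lit 65535)) cd L k (Nat.add (Nat.shiftLeft s3
      (nat_lit 48)) (Nat.sub tg a1)))) (Nat.xor (Nat.land (Nat.shiftRight S (Nat.mul (nat_lit 256)
      (nat_lit 3))) (nat_lit 0xffffffffffffffffffffffffffffffffffffffffffffffffffffffffffffffff))
      (nat_lit 0xffffffffffffffffffffffffffffffffffffffffffffffffffffffffffffffff))) (Nat.ble a1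
      tg))) (@Bool.rec (fun _ => ℕ) (@Bool.rec (fun _ => ℕ) (nat_lit 0xffffffffffff) a (Nat.ble nf
      (Nat.add j (Nat.add (Nat.land (Nat.shiftRight (nat_lit
      0x8776766576656554766565546554544376656554655454436554544354434332766565546554544365545443544343326554544354434332544343324332322176656554655454436554544354434332655454435443433254434332433232216554544354434332544343324332322154434332433232214332322132212110)
      (Nat.mul (nat_lit 4) (Nat.land L (nat_lit 255)))) (nat_lit 15)) (Nat.land (Nat.shiftRight
      (nat_lit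
      0x8776766576656554766565546554544376656554655454436554544354434332766565546554544365545443544343326554544354434332544343324332322176656554655454436554544354434332655454435443433254434332433232216554544354434332544343324332322154434332433232214332322132212110)
      (Nat.mul (nat_lit 4) (Nat.shiftRight L (nat_lit 8)))) (nat_lit 15)))))) (@Bool.rec (fun _ =>
      ℕ) (nat_lit 0xffffffffffff) (Nat.add a (Nat.land (Nat.shiftRight pr (Nat.mul (nat_lit 48)
      (Nat.add (nat_lit 62) (Nat.add j le)))) (nat_lit 0xffffffffffff))) (@Bool.rec (fun _ => Bool)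
      false (Nat.ble (Nat.add j le) (nat_lit 61)) (@Bool.rec (fun _ => Bool) false (Nat.ble t0
      (Nat.add j le)) (Nat.ble D Lc)))) (Nat.beq nf (nat_lit 0))))) S An dU t0 pr le (@Bool.rec (fun
      _ => ℕ) (Nat.add (Nat.div (Nat.mul nf (Nat.sub nf (nat_lit 1))) (nat_lit 2)) H) (nat_lit 0)
      (Nat.beq nf (nat_lit 0))) H2 (Nat.sub nf (Nat.add (Nat.land (Nat.shiftRight (nat_lit
      0x8776766576656554766565546554544376656554655454436554544354434332766565546554544365545443544343326554544354434332544343324332322176656554655454436554544354434332655454435443433254434332433232216554544354434332544343324332322154434332433232214332322132212110)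
      (Nat.mul (nat_lit 4) (Nat.land L (nat_lit 255)))) (nat_lit 15)) (Nat.land (Nat.shiftRight
      (nat_lit
      0x8776766576656554766565546554544376656554655454436554544354434332766565546554544365545443544343326554544354434332544343324332322176656554655454436554544354434332655454435443433254434332433232216554544354434332544343324332322154434332433232214332322132212110)
      (Nat.mul (nat_lit 4) (Nat.shiftRight L (nat_lit 8)))) (nat_lit 15)))) hm (Nat.land s2 (nat_lit
      63)) (nat_lit 0) H ((fun (u34 : ℕ) => (Nat.div (Nat.mul u34 (Nat.sub u34 (nat_lit 1)))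
      (nat_lit 2))) (Nat.add (Nat.land (Nat.shiftRight (nat_lit
      0x8776766576656554766565546554544376656554655454436554544354434332766565546554544365545443544343326554544354434332544343324332322176656554655454436554544354434332655454435443433254434332433232216554544354434332544343324332322154434332433232214332322132212110)
      (Nat.mul (nat_lit 4) (Nat.land Lp (nat_lit 255)))) (nat_lit 15)) (Nat.land (Nat.shiftRight
      (nat_lit
      0x8776766576656554766565546554544376656554655454436554544354434332766565546554544365545443544343326554544354434332544343324332322176656554655454436554544354434332655454435443433254434332433232216554544354434332544343324332322154434332433232214332322132212110)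
      (Nat.mul (nat_lit 4) (Nat.shiftRight Lp (nat_lit 8)))) (nat_lit 15)))) (Nat.shiftRight s2
      (nat_lit 6)) (nat_lit 0))) S (@Bool.rec (fun _ => ℕ) L (nat_lit 0) (Nat.beq nf (nat_lit 0)))
      (nat_lit 0) k s1 (nat_lit 0))) S Lp out k (Nat.shiftRight s (nat_lit 53)) (nat_lit 0))
      (@Bool.rec (fun _ => Bool) false (Nat.beq (Nat.land An (Nat.land (Nat.shiftRight S (Nat.mul
      (nat_lit 16) (Nat.add (nat_lit 64) t0))) (nat_lit 65535))) An) (@Bool.rec (fun _ => Bool)
      false (Nat.ble t0 (nat_lit 17)) (@Bool.rec (fun _ => Bool) false (Nat.ble t0 dU) (@Bool.rec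
      (fun _ => Bool) false ((fun (u33 : ℕ) => (Nat.beq (Nat.land u33 S) u33)) (Nat.mul (Nat.land
      (Nat.mul E (nat_lit 0x200040008001000200040008001000200040008001000200040008001)) (nat_lit
      0x1000100010001000100010001000100010001000100010001000100010001)) An)) (@Bool.rec (fun _ =>
      Bool) false (Nat.beq (Nat.land E (Nat.land out cd)) E) (@Bool.rec (fun _ => Bool) false
      (Nat.beq (Nat.land Lp L) Lp) (Nat.beq (Nat.land L (Nat.sub (Nat.shiftLeft (nat_lit 1) k)
      (nat_lit 1))) L))))))))) ((fun (u32 : ℕ) => (Nat.xor u32 (Nat.land u32 L))) (Nat.sub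
      (Nat.shiftLeft (nat_lit 1) k) (nat_lit 1))) (Nat.xor L (Nat.land L Lp)) (Nat.land
      (Nat.shiftRight ph (Nat.mul (nat_lit 5952) t0)) (nat_lit
      0xfffffffffffffffffffffffffffffffffffffffffffffffffffffffffffffffffffffffffffffffffffffffffffffffffffffffffffffffffffffffffffffffffffffffffffffffffffffffffffffffffffffffffffffffffffffffffffffffffffffffffffffffffffffffffffffffffffffffffffffffffffffffffffffffffffffffffffffffffffffffffffffffffffffffffffffffffffffffffffffffffffffffffffffffffffffffffffffffffffffffffffffffffffffffffffffffffffffffffffffffffffffffffffffffffffffffffffffffffffffffffffffffffffffffffffffffffffffffffffffffffffffffffffffffffffffffffffffffffffffffffffffffffffffffffffffffffffffffffffffffffffffffffffffffffffffffffffffffffffffffffffffffffffffffffffffffffffffffffffffffffffffffffffffffffffffffffffffffffffffffffffffffffffffffffffffffffffffffffffffffffffffffffffffffffffffffffffffffffffffffffffffffffffffffffffffffffffffffffffffffffffffffffffffffffffffffffffffffffffffffffffffffffffffffffffffffffffffffffffffffffffffffffffffffffff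fffffffffffffffffffffffffffffffffffffffffffffffffffffffffffffffffffffffffffffffffffffffffffffffffffffffffffffffffffffffffffffffffffffffffffffffffffffffffffffffffffffffffffffffffffffffffffffffffffffffffffffffffffffffffffffffffffffffffffffffffffffffffffffffffffffffffffffffffffffffffffffffffffffffffffffffffffffffffffffffffffffffffffffffffffffffffffffffffffffffffffffffffffffffffffffffffffffffffffffffffffffffffffffffffffffffffffffffffffffffffffffffffffffffffffffffffffffffffffffffffffffffffffffffffffffffffffffffffffffffffffffffffffffffffffffffffffffffffffffffffffffffffffffffffffffffffffff))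
      (Nat.add (Nat.add (Nat.land (Nat.shiftRight (nat_lit
      0x8776766576656554766565546554544376656554655454436554544354434332766565546554544365545443544343326554544354434332544343324332322176656554655454436554544354434332655454435443433254434332433232216554544354434332544343324332322154434332433232214332322132212110)
      (Nat.mul (nat_lit 4) (Nat.land Lp (nat_lit 255)))) (nat_lit 15)) (Nat.land (Nat.shiftRight
      (nat_lit
      0x8776766576656554766565546554544376656554655454436554544354434332766565546554544365545443544343326554544354434332544343324332322176656554655454436554544354434332655454435443433254434332433232216554544354434332544343324332322154434332433232214332322132212110)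
      (Nat.mul (nat_lit 4) (Nat.shiftRight Lp (nat_lit 8)))) (nat_lit 15))) (Nat.add (Nat.land
      (Nat.shiftRight (nat_lit
      0x8776766576656554766565546554544376656554655454436554544354434332766565546554544365545443544343326554544354434332544343324332322176656554655454436554544354434332655454435443433254434332433232216554544354434332544343324332322154434332433232214332322132212110)
      (Nat.mul (nat_lit 4) (Nat.land E (nat_lit 255)))) (nat_lit 15)) (Nat.land (Nat.shiftRight
      (nat_lit
      0x8776766576656554766565546554544376656554655454436554544354434332766565546554544365545443544343326554544354434332544343324332322176656554655454436554544354434332655454435443433254434332433232216554544354434332544343324332322154434332433232214332322132212110)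
      (Nat.mul (nat_lit 4) (Nat.shiftRight E (nat_lit 8)))) (nat_lit 15)))))) (Nat.land
      (Nat.shiftRight s (nat_lit 0)) (nat_lit 65535)) (Nat.land (Nat.shiftRight s (nat_lit 16))
      (nat_lit 65535)) (Nat.land (Nat.shiftRight s (nat_lit 32)) (nat_lit 65535)) (Nat.land
      (Nat.shiftRight s (nat_lit 48)) (nat_lit 31)) (Nat.lor (Nat.land (Nat.shiftRight S (Nat.mul
      (nat_lit 16) (nat_lit 128))) (nat_lit 65535)) (Nat.land (Nat.shiftRight S (Nat.mul (nat_lit
      16) (nat_lit 129))) (nat_lit 65535))))

noncomputable def rnF (g : ℕ → ℕ) (p kg d1 cl1 dm1 k dU S : ℕ) : ℕ :=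
  ((fun (im : ℕ) (S1 : ℕ) => ((fun (rest : ℕ) (S2 : ℕ) => (@Bool.rec (fun _ => ℕ) (nat_lit 0) (g
      (Nat.lor (Nat.lor (Nat.land S2 (nat_lit
      0xffffffffffffffffffffffffffffffffffffffffffffffffffffffffffffffffffffffffffffffffffffffffffffffffffffffffffffffffffffffffffffffffffffffffffffffffffffffffffffffffffffffffffffffffffffffffffffffffffffffffffffffffffffffffffffffffffffffffffffffffffffffffffffffffffffffffffffffffffffffffffffffffffffffffffffffffffffffffffffffffffffffffffffffffffffffffffffffffffffffffffffffffffffffffffffffffffffffffffffffffffffffffffffffffffffffffffffffffffffffffffffffffffffffffffffffffffffffffffffffffffffffffffffffffffffffffffffffff))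
      (Nat.shiftLeft (Nat.land (Nat.shiftRight S2 (Nat.mul (nat_lit 16) (nat_lit 130))) (nat_lit
      65535)) (nat_lit 2080))) (Nat.lor (Nat.shiftLeft cl1 (nat_lit 2048)) (Nat.shiftLeft dm1
      (nat_lit 2064))))) (@Bool.rec (fun _ => Bool) false ((fun (u37 : ℕ) => (Nat.beq (Nat.land u37
      S1) u37)) (Nat.mul (Nat.land (Nat.mul dm1 (nat_lit
      0x200040008001000200040008001000200040008001000200040008001)) (nat_lit
      0x1000100010001000100010001000100010001000100010001000100010001)) rest)) (@Bool.rec (fun _ =>
      Bool) false ((fun (u36 : ℕ) => (Nat.beq (Nat.land u36 (Nat.shiftRight S1 (nat_lit 768))) u36))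
      (Nat.mul (Nat.land (Nat.mul cl1 (nat_lit
      0x200040008001000200040008001000200040008001000200040008001)) (nat_lit
      0x1000100010001000100010001000100010001000100010001000100010001)) rest)) (@Bool.rec (fun _ =>
      Bool) false (Nat.beq (Nat.land dm1 (Nat.lor (Nat.land (Nat.shiftRight S2 (Nat.mul (nat_lit 16)
      (nat_lit 128))) (nat_lit 65535)) (Nat.land (Nat.shiftRight S2 (Nat.mul (nat_lit 16) (nat_lit
      129))) (nat_lit 65535)))) dm1) (@Bool.rec (fun _ => Bool) false (Nat.beq (Nat.land cl1
      (Nat.land (Nat.shiftRight S2 (Nat.mul (nat_lit 16) (nat_lit 128))) (nat_lit 65535))) cl1)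
      (@Bool.rec (fun _ => Bool) false (Nat.beq (Nat.land rest (Nat.land (Nat.shiftRight S (Nat.mul
      (nat_lit 16) (Nat.add (nat_lit 64) d1))) (nat_lit 65535))) rest) (@Bool.rec (fun _ => Bool)
      false (Nat.ble d1 dU) (@Bool.rec (fun _ => Bool) false (Nat.beq (Nat.land im (Nat.sub
      (Nat.shiftLeft (nat_lit 1) k) (nat_lit 1))) im) (Nat.beq (Nat.add (Nat.land (Nat.shiftRight
      (nat_lit
      0x8776766576656554766565546554544376656554655454436554544354434332766565546554544365545443544343326554544354434332544343324332322176656554655454436554544354434332655454435443433254434332433232216554544354434332544343324332322154434332433232214332322132212110)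
      (Nat.mul (nat_lit 4) (Nat.land im (nat_lit 255)))) (nat_lit 15)) (Nat.land (Nat.shiftRight
      (nat_lit
      0x8776766576656554766565546554544376656554655454436554544354434332766565546554544365545443544343326554544354434332544343324332322176656554655454436554544354434332655454435443433254434332433232216554544354434332544343324332322154434332433232214332322132212110)
      (Nat.mul (nat_lit 4) (Nat.shiftRight im (nat_lit 8)))) (nat_lit 15))) kg)))))))))) ((fun (u35
      : ℕ) => (Nat.xor u35 (Nat.land u35 im))) (Nat.sub (Nat.shiftLeft (nat_lit 1) k) (nat_lit 1)))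
      (pcolBF p S1 kg))) (orPowF p kg) (Nat.lor (prow4F p S kg) (Nat.shiftLeft (Nat.shiftRight S
      (nat_lit 1024)) (nat_lit 1024))))

noncomputable def xpF (c B : ℕ) (m : ℕ) : ℕ :=
  @Nat.rec (fun _ => ℕ) (Nat.lor B (Nat.shiftLeft (Nat.land (Nat.shiftRight c (nat_lit 9)) (nat_lit
      0xffffffffffff)) (nat_lit 2048)))
    (fun (i : ℕ) (rc_ : ℕ) => (Nat.lor (Nat.lor rc_ (Nat.shiftLeft (Nat.land (Nat.mul (Nat.land
        (Nat.shiftRight B (Nat.mul (nat_lit 16) i)) (nat_lit
        0xffff0000000000000000000000000000000000000000000000000000000000000000000000000000000000000000000000000000000000000000000000000000ffff))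
        (nat_lit 0x200040008001000200040008001000200040008001000200040008001)) (nat_lit
        0x100010001000100010001000100010001000100010001000100010001000100000000000000000000000000000000000000000000000000000000000000000001000100010001000100010001000100010001000100010001000100010001))
        (Nat.add (nat_lit 256) i))) ((fun (x : ℕ) => (Nat.lor (Nat.shiftLeft (Nat.shiftRight
        (nat_lit
        0x10001000100010001000100010001000100010001000100010001000100010001000100010001000100010001000100010001000100010001000100010001)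
        (Nat.mul (nat_lit 16) (Nat.sub (nat_lit 31) (Nat.land x (nat_lit 31))))) (Nat.add (nat_lit
        1024) i)) ((fun (u38 : ℕ) => (Nat.shiftLeft (Nat.shiftRight (nat_lit
        0x10001000100010001000100010001000100010001000100010001000100010001000100010001000100010001000100010001000100010001000100010001)
        (Nat.mul (nat_lit 16) u38)) (Nat.add (Nat.add (nat_lit 1536) i) (Nat.mul (nat_lit 16)
        u38)))) (Nat.land (Nat.shiftRight x (nat_lit 5)) (nat_lit 63))))) (Nat.shiftRight c (Nat.add
        (nat_lit 57) (Nat.mul (nat_lit 11) i)))))) m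

noncomputable def xpdF (c : ℕ) : ℕ :=
  (xpF c (Nat.lor (Nat.land (Nat.shiftRight c (nat_lit 222)) (nat_lit
      0xffffffffffffffffffffffffffffffffffffffffffffffffffffffffffff)) (Nat.shiftLeft
      (Nat.shiftRight c (nat_lit 462)) (nat_lit 512))) (Nat.land (Nat.shiftRight c (nat_lit 0))
      (nat_lit 15)))

noncomputable def addnF (hm k dU S : ℕ) : ℕ :=
  ((fun (cl : ℕ) (cd : ℕ) => (Nat.lor (Nat.lor (Nat.lor S (Nat.shiftLeft cd (Nat.mul (nat_lit 16)
      (Nat.add (nat_lit 16) k)))) (Nat.lor (Nat.shiftLeft (Nat.land (Nat.mul cd (nat_lit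
      0x200040008001000200040008001000200040008001000200040008001)) (nat_lit
      0x1000100010001000100010001000100010001000100010001000100010001)) k) (Nat.shiftLeft (Nat.land
      (Nat.mul cl (nat_lit 0x200040008001000200040008001000200040008001000200040008001)) (nat_lit
      0x1000100010001000100010001000100010001000100010001000100010001)) (Nat.add (nat_lit 768) k))))
      (Nat.lor (Nat.shiftLeft cl (Nat.mul (nat_lit 16) (Nat.add (nat_lit 32) k))) (Nat.lor
      (Nat.shiftLeft (Nat.shiftRight (nat_lit
      0x10001000100010001000100010001000100010001000100010001000100010001000100010001000100010001000100010001000100010001000100010001)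
      (Nat.mul (nat_lit 16) (Nat.sub (nat_lit 31) dU))) (Nat.add (nat_lit 1024) k)) (Nat.shiftLeft
      (Nat.shiftRight (nat_lit
      0x10001000100010001000100010001000100010001000100010001000100010001000100010001000100010001000100010001000100010001000100010001)
      (Nat.mul (nat_lit 16) hm)) (Nat.add (Nat.add (nat_lit 1536) k) (Nat.mul (nat_lit 16) hm)))))))
      (Nat.land (Nat.shiftRight S (Nat.mul (nat_lit 16) (nat_lit 128))) (nat_lit 65535)) (Nat.lor
      (Nat.land (Nat.shiftRight S (Nat.mul (nat_lit 16) (nat_lit 128))) (nat_lit 65535)) (Nat.land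
      (Nat.shiftRight S (Nat.mul (nat_lit 16) (nat_lit 129))) (nat_lit 65535))))

noncomputable def oBrF (g : G4) (hm k dU S t i s : ℕ) : ℕ :=
  (@Bool.rec (fun _ => ℕ) (@Bool.rec (fun _ => ℕ) ((fun (d : ℕ) => (@Bool.rec (fun _ => ℕ) (nat_lit
      0) ((fun (r : ℕ) => (@Bool.rec (fun _ => ℕ) (g (Nat.succ k) dU (Nat.lor (addnF hm k dU S)
      (Nat.shiftLeft (Nat.shiftRight (nat_lit
      0x10001000100010001000100010001000100010001000100010001000100010001000100010001000100010001000100010001000100010001000100010001)
      (Nat.mul (nat_lit 16) d)) (Nat.add (Nat.add (nat_lit 1536) k) (Nat.mul (nat_lit 16) d)))) r)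
      (nat_lit 0) (Nat.beq r (nat_lit 0)))) (g k (Nat.succ d) S (Nat.shiftRight s (nat_lit 9))))
      (@Bool.rec (fun _ => Bool) false (Nat.ble (Nat.succ d) (nat_lit 31)) (Nat.ble (Nat.succ k)
      (nat_lit 15))))) (Nat.land (Nat.shiftRight s (nat_lit 4)) (nat_lit 31))) ((fun (d : ℕ) =>
      (@Bool.rec (fun _ => ℕ) (nat_lit 0) ((fun (r : ℕ) => (@Bool.rec (fun _ => ℕ) (g k dU (Nat.lor
      S (Nat.shiftLeft (Nat.shiftRight (nat_lit
      0x10001000100010001000100010001000100010001000100010001000100010001000100010001000100010001000100010001000100010001000100010001)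
      (Nat.mul (nat_lit 16) d)) (Nat.add (Nat.add (nat_lit 1536) i) (Nat.mul (nat_lit 16) d)))) r)
      (nat_lit 0) (Nat.beq r (nat_lit 0)))) (g k dU (Nat.lor S (Nat.shiftLeft (Nat.shiftRight
      (nat_lit
      0x10001000100010001000100010001000100010001000100010001000100010001000100010001000100010001000100010001000100010001000100010001)
      (Nat.mul (nat_lit 16) (Nat.sub (nat_lit 31) (Nat.succ d)))) (Nat.add (nat_lit 1024) i)))
      (Nat.shiftRight s (nat_lit 13)))) (Nat.ble (Nat.succ i) k))) (Nat.land (Nat.shiftRight s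
      (nat_lit 8)) (nat_lit 31))) (Nat.beq t (nat_lit 6))) (@Bool.rec (fun _ => ℕ) (nat_lit 0) ((fun
      (r : ℕ) => (@Bool.rec (fun _ => ℕ) (g (Nat.succ k) dU (Nat.lor (addnF hm k dU S) (Nat.lor
      (Nat.shiftLeft (nat_lit 1) (Nat.add (Nat.mul (nat_lit 16) k) i)) (Nat.shiftLeft (nat_lit 1)
      (Nat.add (nat_lit 256) (Nat.add (Nat.mul (nat_lit 16) i) k))))) r) (nat_lit 0) (Nat.beq r
      (nat_lit 0)))) (g k dU (Nat.lor S (Nat.shiftLeft (nat_lit 1) (Nat.add (nat_lit 2048) i)))
      (Nat.shiftRight s (nat_lit 8)))) (@Bool.rec (fun _ => Bool) false (Nat.ble (Nat.succ k)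
      (nat_lit 15)) (Nat.ble (Nat.succ i) k))) (Nat.beq t (nat_lit 5)))

noncomputable def oDgF (g : G4) (nf k dU S t i s : ℕ) : ℕ :=
  (@Bool.rec (fun _ => ℕ) (nat_lit 0) ((fun (I : ℕ) (p : ℕ) => (@Bool.rec (fun _ => ℕ) (@Bool.rec
      (fun _ => ℕ) (@Bool.rec (fun _ => ℕ) (@Bool.rec (fun _ => ℕ) (nat_lit 0) (g k dU (Nat.lor
      (Nat.lor S (Nat.shiftLeft p (Nat.mul (nat_lit 16) (Nat.add (nat_lit 16) i)))) (Nat.shiftLeft
      (Nat.land (Nat.mul p (nat_lit 0x200040008001000200040008001000200040008001000200040008001))
      (nat_lit 0x1000100010001000100010001000100010001000100010001000100010001)) i)) s) (@Bool.rec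
      (fun _ => Bool) false (Nat.beq (Nat.land (Nat.shiftRight (Nat.land (Nat.shiftRight S (Nat.mul
      (nat_lit 16) (Nat.add (nat_lit 64) (Nat.add (Nat.land (Nat.shiftRight (nat_lit
      0x8776766576656554766565546554544376656554655454436554544354434332766565546554544365545443544343326554544354434332544343324332322176656554655454436554544354434332655454435443433254434332433232216554544354434332544343324332322154434332433232214332322132212110)
      (Nat.mul (nat_lit 4) (Nat.land p (nat_lit 255)))) (nat_lit 15)) (Nat.land (Nat.shiftRight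
      (nat_lit
      0x8776766576656554766565546554544376656554655454436554544354434332766565546554544365545443544343326554544354434332544343324332322176656554655454436554544354434332655454435443433254434332433232216554544354434332544343324332322154434332433232214332322132212110)
      (Nat.mul (nat_lit 4) (Nat.shiftRight p (nat_lit 8)))) (nat_lit 15)))))) (nat_lit 65535)) i)
      (nat_lit 1)) (nat_lit 1)) (Nat.beq (Nat.land (Nat.shiftRight (Nat.land (Nat.shiftRight S
      (Nat.mul (nat_lit 16) (nat_lit 128))) (nat_lit 65535)) i) (nat_lit 1)) (nat_lit 1))))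
      (@Bool.rec (fun _ => ℕ) (nat_lit 0) (g k dU (Nat.lor (Nat.lor S (Nat.shiftLeft (nat_lit 1)
      (Nat.add (nat_lit 2048) i))) ((fun (u42 : ℕ) => (Nat.lor (Nat.shiftLeft (Nat.mul u42 (nat_lit
      0x1000000000000000000000000000000000000000000000000000000000000000000000000000000000000000000000000000000000000000000000000000000000000000000000000000000000000000000000000000000000000000000000001))
      (Nat.mul (nat_lit 16) i)) (Nat.shiftLeft (Nat.mul (Nat.land (Nat.mul u42 (nat_lit
      0x200040008001000200040008001000200040008001000200040008001)) (nat_lit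
      0x1000100010001000100010001000100010001000100010001000100010001)) (nat_lit
      0x100000000000000000000000000000000000000000000000000000000000000010000000000000000000000000000000000000000000000000000000000000000))
      i))) (Nat.xor p (Nat.land p I)))) s) (Nat.beq (Nat.land (Nat.shiftRight (Nat.land
      (Nat.shiftRight S (Nat.mul (nat_lit 16) (Nat.add (nat_lit 96) (Nat.add (Nat.land
      (Nat.shiftRight (nat_lit
      0x8776766576656554766565546554544376656554655454436554544354434332766565546554544365545443544343326554544354434332544343324332322176656554655454436554544354434332655454435443433254434332433232216554544354434332544343324332322154434332433232214332322132212110)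
      (Nat.mul (nat_lit 4) (Nat.land I (nat_lit 255)))) (nat_lit 15)) (Nat.land (Nat.shiftRight
      (nat_lit
      0x8776766576656554766565546554544376656554655454436554544354434332766565546554544365545443544343326554544354434332544343324332322176656554655454436554544354434332655454435443433254434332433232216554544354434332544343324332322154434332433232214332322132212110)
      (Nat.mul (nat_lit 4) (Nat.shiftRight I (nat_lit 8)))) (nat_lit 15)))))) (nat_lit 65535)) i)
      (nat_lit 1)) (nat_lit 1))) (Nat.beq t (nat_lit 10))) (@Bool.rec (fun _ => ℕ) (@Bool.rec (fun _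
      => ℕ) (g k dU (Nat.lor S ((fun (u41 : ℕ) => (Nat.shiftLeft (Nat.shiftRight (nat_lit
      0x10001000100010001000100010001000100010001000100010001000100010001000100010001000100010001000100010001000100010001000100010001)
      (Nat.mul (nat_lit 16) u41)) (Nat.add (Nat.add (nat_lit 1536) i) (Nat.mul (nat_lit 16) u41))))
      (Nat.add (Nat.add (Nat.land (Nat.shiftRight (nat_lit
      0x8776766576656554766565546554544376656554655454436554544354434332766565546554544365545443544343326554544354434332544343324332322176656554655454436554544354434332655454435443433254434332433232216554544354434332544343324332322154434332433232214332322132212110)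
      (Nat.mul (nat_lit 4) (Nat.land p (nat_lit 255)))) (nat_lit 15)) (Nat.land (Nat.shiftRight
      (nat_lit
      0x8776766576656554766565546554544376656554655454436554544354434332766565546554544365545443544343326554544354434332544343324332322176656554655454436554544354434332655454435443433254434332433232216554544354434332544343324332322154434332433232214332322132212110)
      (Nat.mul (nat_lit 4) (Nat.shiftRight p (nat_lit 8)))) (nat_lit 15))) (Nat.sub nf k)))) s)
      (nat_lit 0) (Nat.beq nf (nat_lit 0))) (g k dU (Nat.lor S ((fun (u40 : ℕ) => (Nat.shiftLeft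
      (Nat.shiftRight (nat_lit
      0x10001000100010001000100010001000100010001000100010001000100010001000100010001000100010001000100010001000100010001000100010001)
      (Nat.mul (nat_lit 16) u40)) (Nat.add (Nat.add (nat_lit 1536) i) (Nat.mul (nat_lit 16) u40))))
      (Nat.add (Nat.land (Nat.shiftRight (nat_lit
      0x8776766576656554766565546554544376656554655454436554544354434332766565546554544365545443544343326554544354434332544343324332322176656554655454436554544354434332655454435443433254434332433232216554544354434332544343324332322154434332433232214332322132212110)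
      (Nat.mul (nat_lit 4) (Nat.land p (nat_lit 255)))) (nat_lit 15)) (Nat.land (Nat.shiftRight
      (nat_lit
      0x8776766576656554766565546554544376656554655454436554544354434332766565546554544365545443544343326554544354434332544343324332322176656554655454436554544354434332655454435443433254434332433232216554544354434332544343324332322154434332433232214332322132212110)
      (Nat.mul (nat_lit 4) (Nat.shiftRight p (nat_lit 8)))) (nat_lit 15))))) s) (Nat.beq (Nat.land
      (Nat.shiftRight (Nat.land (Nat.shiftRight S (Nat.mul (nat_lit 16) (nat_lit 128))) (nat_lit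
      65535)) i) (nat_lit 1)) (nat_lit 1))) (Nat.beq t (nat_lit 9))) (g k dU (Nat.lor S
      (Nat.shiftLeft (Nat.shiftRight (nat_lit
      0x10001000100010001000100010001000100010001000100010001000100010001000100010001000100010001000100010001000100010001000100010001)
      (Nat.mul (nat_lit 16) (Nat.sub (nat_lit 31) (Nat.add (Nat.land (Nat.shiftRight (nat_lit
      0x8776766576656554766565546554544376656554655454436554544354434332766565546554544365545443544343326554544354434332544343324332322176656554655454436554544354434332655454435443433254434332433232216554544354434332544343324332322154434332433232214332322132212110)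
      (Nat.mul (nat_lit 4) (Nat.land I (nat_lit 255)))) (nat_lit 15)) (Nat.land (Nat.shiftRight
      (nat_lit
      0x8776766576656554766565546554544376656554655454436554544354434332766565546554544365545443544343326554544354434332544343324332322176656554655454436554544354434332655454435443433254434332433232216554544354434332544343324332322154434332433232214332322132212110)
      (Nat.mul (nat_lit 4) (Nat.shiftRight I (nat_lit 8)))) (nat_lit 15)))))) (Nat.add (nat_lit
      1024) i))) s) (Nat.beq t (nat_lit 8)))) (Nat.land (Nat.shiftRight S (Nat.mul (nat_lit 16)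
      (Nat.add (nat_lit 16) i))) (nat_lit 65535)) ((fun (u39 : ℕ) => (Nat.xor u39 (Nat.land u39
      (Nat.lor (Nat.land (Nat.shiftRight S (Nat.mul (nat_lit 16) (Nat.add (nat_lit 48) i))) (nat_lit
      65535)) (Nat.shiftLeft (nat_lit 1) i))))) (Nat.sub (Nat.shiftLeft (nat_lit 1) k) (nat_lit
      1)))) (Nat.ble (Nat.succ i) k))

noncomputable def oExF (g : G4) (sg nf k dU S t i s : ℕ) : ℕ :=
  (@Bool.rec (fun _ => ℕ) (@Bool.rec (fun _ => ℕ) (@Bool.rec (fun _ => ℕ) ((fun (u : ℕ) =>
      (@Bool.rec (fun _ => ℕ) (@Bool.rec (fun _ => ℕ) (@Bool.rec (fun _ => ℕ) ((fun (a : ℕ) (j : ℕ)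
      => (@Bool.rec (fun _ => ℕ) (nat_lit 0) (pthF (fun (x : ℕ) (s1 : ℕ) => (@Bool.rec (fun _ => ℕ)
      (nat_lit 0) (pthF (fun (y : ℕ) (s2 : ℕ) => (@Bool.rec (fun _ => ℕ) (nat_lit 0) (g k dU
      (Nat.lor S (Nat.lor (Nat.shiftLeft (nat_lit
      0x100000000000000000000000000000000000000000000000000000000000000010000000000000000000000000000000000000000000000000000000000000000)
      (Nat.add (Nat.mul (nat_lit 16) a) j)) (Nat.shiftLeft (nat_lit
      0x1000000000000000000000000000000000000000000000000000000000000000000000000000000000000000000000000000000000000000000000000000000000000000000000000000000000000000000000000000000000000000000000001)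
      (Nat.add (Nat.mul (nat_lit 16) j) a)))) s2) (Nat.beq y a))) S (Nat.land (Nat.shiftRight s
      (nat_lit 18)) (nat_lit 15)) j s1) (Nat.beq x j))) S (Nat.land (Nat.shiftRight s (nat_lit 14))
      (nat_lit 15)) a (Nat.shiftRight s (nat_lit 22))) (Nat.beq (Nat.land (Nat.shiftRight (Nat.land
      (Nat.shiftRight S (Nat.mul (nat_lit 16) (Nat.add (nat_lit 16) a))) (nat_lit 65535)) j)
      (nat_lit 1)) (nat_lit 1)))) (Nat.land (Nat.shiftRight s (nat_lit 6)) (nat_lit 15)) (Nat.land
      (Nat.shiftRight s (nat_lit 10)) (nat_lit 15))) (@Bool.rec (fun _ => ℕ) (nat_lit 0) (g k dU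
      (Nat.lor S (Nat.shiftLeft (Nat.sub (Nat.shiftLeft (nat_lit 1) k) (nat_lit 1)) (nat_lit 2048)))
      (Nat.shiftRight s (nat_lit 6))) (@Bool.rec (fun _ => Bool) false (Nat.ble nf k) (@Bool.rec
      (fun _ => Bool) true false (Nat.beq nf (nat_lit 0))))) (Nat.beq u (nat_lit 2))) (@Bool.rec
      (fun _ => ℕ) (Nat.shiftRight s (nat_lit 6)) (nat_lit 0) (Nat.beq (Nat.land (Nat.land
      (Nat.shiftRight S (Nat.mul (nat_lit 256) (nat_lit 0))) (nat_lit
      0xffffffffffffffffffffffffffffffffffffffffffffffffffffffffffffffff)) (Nat.land (Nat.shiftRight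
      S (Nat.mul (nat_lit 256) (nat_lit 2))) (nat_lit
      0xffffffffffffffffffffffffffffffffffffffffffffffffffffffffffffffff))) (nat_lit 0))) (Nat.beq u
      (nat_lit 1))) ((fun (j : ℕ) (d : ℕ) => (@Bool.rec (fun _ => ℕ) (nat_lit 0) (Nat.shiftRight s
      (nat_lit 15)) (@Bool.rec (fun _ => Bool) false (Nat.beq (Nat.land (Nat.shiftRight (Nat.land
      (Nat.land (Nat.shiftRight S (Nat.mul (nat_lit 16) (Nat.add (nat_lit 65) d))) (nat_lit 65535))
      (Nat.land (Nat.shiftRight S (Nat.mul (nat_lit 16) (Nat.add (nat_lit 96) d))) (nat_lit 65535)))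
      j) (nat_lit 1)) (nat_lit 1)) (Nat.ble (Nat.succ d) (nat_lit 31))))) (Nat.land (Nat.shiftRight
      s (nat_lit 6)) (nat_lit 15)) (Nat.land (Nat.shiftRight s (nat_lit 10)) (nat_lit 31))) (Nat.beq
      u (nat_lit 0)))) (Nat.land (Nat.shiftRight s (nat_lit 4)) (nat_lit 3))) ((fun (A : ℕ) => ((fun
      (X : ℕ) => (@Bool.rec (fun _ => ℕ) (nat_lit 0) (hsF (fun (s1 : ℕ) (H : ℕ) => (@Bool.rec (fun _
      => ℕ) (@Bool.rec (fun _ => ℕ) (nat_lit 0) (g k dU (Nat.lor (ltcF S A X k) (Nat.shiftLeft A
      (nat_lit 2048))) s1) (Nat.beq H ((fun (u45 : ℕ) => (Nat.div (Nat.mul u45 (Nat.sub u45 (nat_lit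
      1))) (nat_lit 2))) (Nat.add (Nat.land (Nat.shiftRight (nat_lit
      0x8776766576656554766565546554544376656554655454436554544354434332766565546554544365545443544343326554544354434332544343324332322176656554655454436554544354434332655454435443433254434332433232216554544354434332544343324332322154434332433232214332322132212110)
      (Nat.mul (nat_lit 4) (Nat.land A (nat_lit 255)))) (nat_lit 15)) (Nat.land (Nat.shiftRight
      (nat_lit
      0x8776766576656554766565546554544376656554655454436554544354434332766565546554544365545443544343326554544354434332544343324332322176656554655454436554544354434332655454435443433254434332433232216554544354434332544343324332322154434332433232214332322132212110)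
      (Nat.mul (nat_lit 4) (Nat.shiftRight A (nat_lit 8)))) (nat_lit 15)))))) s1 (Nat.ble (Nat.succ
      H) ((fun (u44 : ℕ) => (Nat.div (Nat.mul u44 (Nat.sub u44 (nat_lit 1))) (nat_lit 2))) (Nat.add
      (Nat.land (Nat.shiftRight (nat_lit
      0x8776766576656554766565546554544376656554655454436554544354434332766565546554544365545443544343326554544354434332544343324332322176656554655454436554544354434332655454435443433254434332433232216554544354434332544343324332322154434332433232214332322132212110)
      (Nat.mul (nat_lit 4) (Nat.land A (nat_lit 255)))) (nat_lit 15)) (Nat.land (Nat.shiftRight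
      (nat_lit
      0x8776766576656554766565546554544376656554655454436554544354434332766565546554544365545443544343326554544354434332544343324332322176656554655454436554544354434332655454435443433254434332433232216554544354434332544343324332322154434332433232214332322132212110)
      (Nat.mul (nat_lit 4) (Nat.shiftRight A (nat_lit 8)))) (nat_lit 15))))))) S A X k
      (Nat.shiftRight s (nat_lit 20)) (nat_lit 0)) (Nat.beq (Nat.land A (Nat.sub (Nat.shiftLeft
      (nat_lit 1) k) (nat_lit 1))) A))) ((fun (u43 : ℕ) => (Nat.xor u43 (Nat.land u43 A))) (Nat.sub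
      (Nat.shiftLeft (nat_lit 1) k) (nat_lit 1))))) (Nat.land (Nat.shiftRight s (nat_lit 4))
      (nat_lit 65535))) (Nat.beq t (nat_lit 14))) ((fun (j : ℕ) => (@Bool.rec (fun _ => ℕ) (nat_lit
      0) (g k dU (Nat.lor S (Nat.shiftLeft (Nat.shiftRight (nat_lit
      0x10001000100010001000100010001000100010001000100010001000100010001000100010001000100010001000100010001000100010001000100010001)
      (Nat.mul (nat_lit 16) (Nat.sub (nat_lit 31) (Nat.succ sg)))) (Nat.add (nat_lit 1024) j)))
      (Nat.shiftRight s (nat_lit 12))) (@Bool.rec (fun _ => Bool) false (Nat.beq (Nat.land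
      (Nat.shiftRight (Nat.land (Nat.land (Nat.shiftRight S (Nat.mul (nat_lit 16) i)) (nat_lit
      65535)) (Nat.land (Nat.shiftRight S (Nat.mul (nat_lit 16) (Nat.add (nat_lit 16) i))) (nat_lit
      65535))) j) (nat_lit 1)) (nat_lit 1)) (Nat.beq (Nat.land (Nat.shiftRight (Nat.land
      (Nat.shiftRight S (Nat.mul (nat_lit 16) (Nat.add (nat_lit 96) sg))) (nat_lit 65535)) i)
      (nat_lit 1)) (nat_lit 1))))) (Nat.land (Nat.shiftRight s (nat_lit 8)) (nat_lit 15))) (Nat.beq
      t (nat_lit 13))) ((fun (j : ℕ) (h : ℕ) (d : ℕ) => (@Bool.rec (fun _ => ℕ) (nat_lit 0) (g k dU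
      (Nat.lor S (Nat.lor (Nat.shiftLeft (nat_lit
      0x100000000000000000000000000000000000000000000000000000000000000010000000000000000000000000000000000000000000000000000000000000000)
      (Nat.add (Nat.mul (nat_lit 16) i) j)) (Nat.shiftLeft (nat_lit
      0x1000000000000000000000000000000000000000000000000000000000000000000000000000000000000000000000000000000000000000000000000000000000000000000000000000000000000000000000000000000000000000000000001)
      (Nat.add (Nat.mul (nat_lit 16) j) i)))) (Nat.shiftRight s (nat_lit 12))) (@Bool.rec (fun _ =>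
      Bool) false (@Bool.rec (fun _ => Bool) (@Bool.rec (fun _ => Bool) false (Nat.beq (Nat.land
      (Nat.shiftRight d j) (nat_lit 1)) (nat_lit 1)) (Nat.beq (Nat.land (Nat.shiftRight d i)
      (nat_lit 1)) (nat_lit 1))) true (@Bool.rec (fun _ => Bool) false (Nat.beq (Nat.land
      (Nat.shiftRight h j) (nat_lit 1)) (nat_lit 1)) (Nat.beq (Nat.land (Nat.shiftRight h i)
      (nat_lit 1)) (nat_lit 1)))) (Nat.beq (Nat.land (Nat.shiftRight (Nat.land (Nat.shiftRight S
      (Nat.mul (nat_lit 16) (Nat.add (nat_lit 16) i))) (nat_lit 65535)) j) (nat_lit 1)) (nat_lit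
      1))))) (Nat.land (Nat.shiftRight s (nat_lit 8)) (nat_lit 15)) (Nat.land (Nat.shiftRight S
      (Nat.mul (nat_lit 16) (Nat.add (nat_lit 96) sg))) (nat_lit 65535)) (Nat.land (Nat.shiftRight S
      (Nat.mul (nat_lit 16) (nat_lit 130))) (nat_lit 65535))) (Nat.beq t (nat_lit 12)))

noncomputable def otSF (tbl : ℕ → ℕ) (w wT gs ph tg sg hm nf jx : ℕ) (g : G4) (k dU S s : ℕ) : ℕ :=
  ((fun (t : ℕ) (i : ℕ) => (@Bool.rec (fun _ => ℕ) (@Bool.rec (fun _ => ℕ) (@Bool.rec (fun _ => ℕ)
      (oExF g sg nf k dU S t i s) (oDgF g nf k dU S t i (Nat.shiftRight s (nat_lit 8))) (Nat.ble t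
      (nat_lit 11))) (oBrF g hm k dU S t i s) (Nat.ble t (nat_lit 7))) (@Bool.rec (fun _ => ℕ)
      (@Bool.rec (fun _ => ℕ) (@Bool.rec (fun _ => ℕ) (llfF w wT gs ph tg hm nf k dU S
      (Nat.shiftRight s (nat_lit 4))) ((fun (x : ℕ) => (@Bool.rec (fun _ => ℕ) (nat_lit 0) ((fun (c
      : ℕ) => ((fun (E : ℕ) (kg : ℕ) => (rnF (fun (S3 : ℕ) => (@Bool.rec (fun _ => ℕ) (nat_lit 0)
      (Nat.shiftRight s (Nat.add (nat_lit 21) (Nat.mul (nat_lit 4) kg))) (Nat.beq (Nat.land E S3)
      E))) (Nat.shiftRight s (nat_lit 21)) kg (Nat.land (Nat.shiftRight c (nat_lit 4)) (nat_lit 31))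
      (Nat.land (Nat.shiftRight E (Nat.mul (nat_lit 16) (nat_lit 128))) (nat_lit 65535)) (Nat.land
      (Nat.shiftRight E (Nat.mul (nat_lit 16) (nat_lit 129))) (nat_lit 65535)) k dU S)) (xpdF c)
      (Nat.land (Nat.shiftRight c (nat_lit 0)) (nat_lit 15)))) (tbl x)) (Nat.ble (Nat.succ x) jx)))
      (Nat.land (Nat.shiftRight s (nat_lit 4)) (nat_lit 131071))) (Nat.beq t (nat_lit 3))) (ilfF w
      wT gs tg k S (Nat.shiftRight s (nat_lit 4))) (Nat.beq t (nat_lit 2))) (@Bool.rec (fun _ => ℕ)
      ((fun (d1 : ℕ) => (rnF (fun (S3 : ℕ) => (g i d1 S3 (Nat.shiftRight s (Nat.add (nat_lit 45)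
      (Nat.mul (nat_lit 4) i))))) (Nat.shiftRight s (nat_lit 45)) i d1 (Nat.land (Nat.shiftRight s
      (nat_lit 13)) (nat_lit 65535)) (Nat.land (Nat.shiftRight s (nat_lit 29)) (nat_lit 65535)) k dU
      S)) (Nat.land (Nat.shiftRight s (nat_lit 8)) (nat_lit 31))) ((fun (j : ℕ) => (@Bool.rec (fun _
      => ℕ) (nat_lit 0) ((fun (r : ℕ) => (@Bool.rec (fun _ => ℕ) (g k dU (Nat.lor S (Nat.lor
      (Nat.shiftLeft (nat_lit
      0x100000000000000000000000000000000000000000000000000000000000000010000000000000000000000000000000000000000000000000000000000000000)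
      (Nat.add (Nat.mul (nat_lit 16) j) i)) (Nat.shiftLeft (nat_lit
      0x1000000000000000000000000000000000000000000000000000000000000000000000000000000000000000000000000000000000000000000000000000000000000000000000000000000000000000000000000000000000000000000000001)
      (Nat.add (Nat.mul (nat_lit 16) i) j)))) r) (nat_lit 0) (Nat.beq r (nat_lit 0)))) (g k dU
      (Nat.lor S (Nat.lor (Nat.shiftLeft (nat_lit 1) (Nat.add (Nat.mul (nat_lit 16) j) i))
      (Nat.shiftLeft (nat_lit 1) (Nat.add (nat_lit 256) (Nat.add (Nat.mul (nat_lit 16) i) j)))))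
      (Nat.shiftRight s (nat_lit 12)))) (@Bool.rec (fun _ => Bool) false (@Bool.rec (fun _ => Bool)
      true false (Nat.beq i j)) (@Bool.rec (fun _ => Bool) false (Nat.ble (Nat.succ j) k) (Nat.ble
      (Nat.succ i) k))))) (Nat.land (Nat.shiftRight s (nat_lit 8)) (nat_lit 15))) (Nat.beq t
      (nat_lit 0))) (Nat.ble t (nat_lit 1))) (Nat.ble t (nat_lit 4)))) (Nat.land s (nat_lit 15))
      (Nat.land (Nat.shiftRight s (nat_lit 4)) (nat_lit 15)))

noncomputable def otF (tbl : ℕ → ℕ) (w wT gs ph tg sg hm nf jx : ℕ) (f : ℕ) : G4 :=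
  @Nat.rec (fun _ => G4) (fun _ _ _ _ => nat_lit 0)
    (fun _ g => otSF tbl w wT gs ph tg sg hm nf jx g) f

noncomputable def chk1F (tbl : ℕ → ℕ) (w wT gs ph tg sg hm nf j s : ℕ) : Bool :=
  ((fun (c : ℕ) => (@Bool.rec (fun _ => Bool) true false (Nat.beq (otF tbl w wT gs ph tg sg hm nf j
      (nat_lit 3000) (Nat.land (Nat.shiftRight c (nat_lit 0)) (nat_lit 15)) (Nat.land
      (Nat.shiftRight c (nat_lit 4)) (nat_lit 31)) (xpdF c) s) (nat_lit 0)))) (tbl j))

noncomputable def chkLF (tbl : ℕ → ℕ) (w wT gs ph tg sg hm nf : ℕ) (L : List ℕ) : ℕ → Bool :=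
  @List.rec ℕ (fun _ => ℕ → Bool) (fun _ => true)
    (fun s _ g j => @Bool.rec (fun _ => Bool) false (g (Nat.succ j)) (chk1F tbl w wT gs ph tg sg hm
        nf j s)) L

theorem or_eq (a b : Bool) : (bif a then true else b) = (a || b) := by
  cases a <;> rfl

theorem orPowF_eq : orPowF = orPow := by
  funext p m
  exact MP_75ef89_co.orPowF_eq p m

theorem con2F_eq : con2F = con2 := by
  funext g Y T P Q pres cl dom U hv NI c tp y s b
  simp only [con2F, cond_eq, and_eq, not_eq, or_eq]
  rfl

theorem topMF_eq : topMF = topM := by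
  funext g C T0 Q0 cd hv0 y Y T P Q pres cl dom U hv NI c tp s b
  simp only [topMF, cond_eq, and_eq, not_eq, or_eq]
  rfl

theorem jMF_eq : jMF = jM := by
  funext g k C Y0 dom0 y Y T P Q pres cl dom U hv NI c tp s b
  simp only [jMF, cond_eq, and_eq, not_eq, or_eq]
  rfl

theorem conMF_eq : conMF = conM := by
  funext g k C Y T P Q pres cl dom U hv NI c tp y s b
  simp only [conMF, con2F_eq, topMF_eq, jMF_eq, cond_eq, and_eq, not_eq, or_eq]
  rfl

theorem brGF_eq : brGF = brG := by
  funext cn g Y T P Q pres cl dom U hv NI c tp y s b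
  simp only [brGF, cond_eq, and_eq, not_eq, or_eq]
  rfl

theorem brmGF_eq : brmGF = brmG := by
  funext cn g Y T P Q pres cl dom U hv NI c tp y s b
  simp only [brmGF, cond_eq, and_eq, not_eq, or_eq]
  rfl

theorem ubdF_eq : ubdF = ubd := by
  funext C Q cl U hv j y d
  simp only [ubdF, cond_eq, and_eq, not_eq, or_eq]
  rfl

theorem lbdF_eq : lbdF = lbd := by
  funext C T U W f j y a
  simp only [lbdF, cond_eq, and_eq, not_eq, or_eq]
  rfl

theorem evdF_eq : evdF = evd := by
  funext C Y T Q cl U hv W f h s
  simp only [evdF, ubdF_eq, lbdF_eq, cond_eq, and_eq, not_eq, or_eq]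
  rfl

theorem prfF_eq : prfF = prf := by
  funext C T P Q cl U hv W f cd s
  simp only [prfF, ubdF_eq, lbdF_eq, cond_eq, and_eq, not_eq, or_eq]
  rfl

theorem lfCF_eq : lfCF = lfC := by
  funext w wT C Y T P Q cl U hv tp f m W s b
  simp only [lfCF, ubdF_eq, evdF_eq, prfF_eq, cond_eq, and_eq, not_eq, or_eq]
  rfl

theorem prdF_eq : prdF = prd := by
  funext g gs k Y T P Q pres cl dom U hv NI c tp S s b
  simp only [prdF, cond_eq, and_eq, not_eq, or_eq]
  rfl

theorem uniF_eq : uniF = uni := by
  funext Y T P Q S W a
  simp only [uniF, cond_eq, and_eq, not_eq, or_eq]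
  rfl

theorem mdlF_eq : mdlF = mdl := by
  funext g gs k C Y T P Q pres cl dom U hv NI c tp S K a s b
  simp only [mdlF, conMF_eq, uniF_eq, cond_eq, and_eq, not_eq, or_eq]
  rfl

theorem stpF_eq : stpF = stp := by
  funext g Y T P Q pres cl dom U hv NI c D s b
  simp only [stpF, cond_eq, and_eq, not_eq, or_eq]
  rfl

theorem evSF_eq : evSF = evS := by
  funext w wT gs k C g Y T P Q pres cl dom U hv NI c tp s b
  simp only [evSF, con2F_eq, conMF_eq, brGF_eq, brmGF_eq, lfCF_eq, prdF_eq, mdlF_eq, stpF_eq,
      pruneF_eq, cond_eq, and_eq, not_eq, or_eq]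
  rfl

theorem evF_eq : evF = ev := by
  funext w wT gs k C f
  induction f with
  | zero => rfl
  | succ f ih => rw [ev, ← ih, ← evSF_eq]; rfl

theorem prow4F_eq : prow4F = prow4 := by
  funext p S m
  induction m with
  | zero => rw [prow4]; rfl
  | succ i ih =>
    rw [prow4, ← ih]
    change (fun (rc_ : ℕ) => (Nat.lor rc_ (Nat.shiftLeft (Nat.land (Nat.shiftRight S (Nat.mul
        (nat_lit 16) (Nat.land (Nat.shiftRight p (Nat.mul (nat_lit 4) i)) (nat_lit 15)))) (nat_lit
        0xffff000000000000000000000000000000000000000000000000000000000000ffff000000000000000000000000000000000000000000000000000000000000ffff000000000000000000000000000000000000000000000000000000000000ffff))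
        (Nat.mul (nat_lit 16) i)))) (prow4F p S i)  = _
    simp only [cond_eq, and_eq, not_eq, or_eq]
    rfl

theorem pcolBF_eq : pcolBF = pcolB := by
  funext p S m
  induction m with
  | zero => rw [pcolB]; rfl
  | succ i ih =>
    rw [pcolB, ← ih]
    change (fun (rc_ : ℕ) => (Nat.lor rc_ (Nat.shiftLeft (Nat.land (Nat.shiftRight S (Nat.land
        (Nat.shiftRight p (Nat.mul (nat_lit 4) i)) (nat_lit 15))) (nat_lit
        0x10001000100010001000100010001000100010001000100010001000100010001000100010001000100010001000100010001000100010001000100010001000100010001000100010001000100010001000100010001000100010001000100010001000100010001000100010001000100010001000100010001000100010001000100010001000100010001000100010001000100010001000100010001000100010001000100010001000100010001000100010001000100010001000100010001000100010001000100010001000100010001000100010001000100010001000100010001000100010001000100010001000100010001000100010001000100010001))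
        i))) (pcolBF p S i)  = _
    simp only [cond_eq, and_eq, not_eq, or_eq]
    rfl

theorem hsF_eq : hsF = hs := by
  funext g S A out m
  induction m with
  | zero => funext s H; rw [hs]; rfl
  | succ i ih =>
    funext s H; rw [hs, ← ih]
    change (fun (rc_ : ℕ → ℕ → ℕ) => (fun (s H : ℕ) => (@Bool.rec (fun _ => ℕ) (rc_ s H) ((fun (h :
        ℕ) => (@Bool.rec (fun _ => ℕ) (nat_lit 0) (rc_ (Nat.shiftRight s (nat_lit 5)) (Nat.add H
        (Nat.sub h ((fun (u28 : ℕ) => (Nat.add (Nat.land (Nat.shiftRight (nat_lit
        0x8776766576656554766565546554544376656554655454436554544354434332766565546554544365545443544343326554544354434332544343324332322176656554655454436554544354434332655454435443433254434332433232216554544354434332544343324332322154434332433232214332322132212110)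
        (Nat.mul (nat_lit 4) (Nat.land u28 (nat_lit 255)))) (nat_lit 15)) (Nat.land (Nat.shiftRight
        (nat_lit
        0x8776766576656554766565546554544376656554655454436554544354434332766565546554544365545443544343326554544354434332544343324332322176656554655454436554544354434332655454435443433254434332433232216554544354434332544343324332322154434332433232214332322132212110)
        (Nat.mul (nat_lit 4) (Nat.shiftRight u28 (nat_lit 8)))) (nat_lit 15)))) (Nat.land (Nat.land
        (Nat.shiftRight S (Nat.mul (nat_lit 16) (Nat.add (nat_lit 16) i))) (nat_lit 65535)) out)))))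
        (Nat.beq (Nat.land (Nat.shiftRight (Nat.land (Nat.shiftRight S (Nat.mul (nat_lit 16)
        (Nat.add (nat_lit 96) h))) (nat_lit 65535)) i) (nat_lit 1)) (nat_lit 1)))) (Nat.land s
        (nat_lit 31))) (Nat.beq (Nat.land (Nat.shiftRight A i) (nat_lit 1)) (nat_lit 1))))) (hsF g S
        A out i) s H = _
    simp only [cond_eq, and_eq, not_eq, or_eq]
    rfl

theorem ltcF_eq : ltcF = ltc := by
  funext S A X m
  induction m with
  | zero => rw [ltc]; rfl
  | succ i ih =>
    rw [ltc, ← ih]
    change (fun (rc_ : ℕ) => (@Bool.rec (fun _ => ℕ) rc_ (Nat.lor rc_ ((fun (u29 : ℕ) => (Nat.lor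
        (Nat.shiftLeft (Nat.mul u29 (nat_lit
        0x1000000000000000000000000000000000000000000000000000000000000000000000000000000000000000000000000000000000000000000000000000000000000000000000000000000000000000000000000000000000000000000000001))
        (Nat.mul (nat_lit 16) i)) (Nat.shiftLeft (Nat.mul (Nat.land (Nat.mul u29 (nat_lit
        0x200040008001000200040008001000200040008001000200040008001)) (nat_lit
        0x1000100010001000100010001000100010001000100010001000100010001)) (nat_lit
        0x100000000000000000000000000000000000000000000000000000000000000010000000000000000000000000000000000000000000000000000000000000000))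
        i))) (Nat.xor X (Nat.land X (Nat.land (Nat.shiftRight S (Nat.mul (nat_lit 16) (Nat.add
        (nat_lit 16) i))) (nat_lit 65535)))))) (Nat.beq (Nat.land (Nat.shiftRight A i) (nat_lit 1))
        (nat_lit 1)))) (ltcF S A X i)  = _
    simp only [cond_eq, and_eq, not_eq, or_eq]
    rfl

theorem pthF_eq : pthF = pth := by
  funext g S m
  induction m with
  | zero => funext x s; rw [pth]; rfl
  | succ i ih =>
    funext x s; rw [pth, ← ih]
    change (fun (rc_ : ℕ → ℕ → ℕ) => (fun (x s : ℕ) => ((fun (z : ℕ) => (@Bool.rec (fun _ => ℕ)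
        (nat_lit 0) (rc_ z (Nat.shiftRight s (nat_lit 4))) (Nat.beq (Nat.land (Nat.shiftRight
        (Nat.land (Nat.shiftRight S (Nat.mul (nat_lit 16) (Nat.add (nat_lit 32) x))) (nat_lit
        65535)) z) (nat_lit 1)) (nat_lit 1)))) (Nat.land s (nat_lit 15))))) (pthF g S i) x s = _
    simp only [cond_eq, and_eq, not_eq, or_eq]
    rfl

theorem tlF_eq : tlF = tl := by
  funext g S An dU t0 ph le A0 H2 J hm m
  induction m with
  | zero => funext j D Lc s a; rw [tl]; rfl
  | succ i ih =>
    funext j D Lc s a; rw [tl, ← ih]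
    change (fun (rc_ : ℕ → ℕ → ℕ → ℕ → ℕ → ℕ) => (fun (j D Lc s a : ℕ) => ((fun (x : ℕ) (L1 : ℕ) =>
        ((fun (e : ℕ) => (@Bool.rec (fun _ => ℕ) (nat_lit 0) (rc_ (Nat.succ j) (Nat.add D e) L1
        (Nat.shiftRight s (nat_lit 5)) (Nat.add a (Nat.land (Nat.shiftRight ph (Nat.mul (nat_lit 48)
        e)) (nat_lit 0xffffffffffff)))) (@Bool.rec (fun _ => Bool) false (Nat.ble e (nat_lit 60))
        (@Bool.rec (fun _ => Bool) false (Nat.ble ((fun (u30 : ℕ) => (Nat.add (Nat.land
        (Nat.shiftRight (nat_lit
        0x8776766576656554766565546554544376656554655454436554544354434332766565546554544365545443544343326554544354434332544343324332322176656554655454436554544354434332655454435443433254434332433232216554544354434332544343324332322154434332433232214332322132212110)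
        (Nat.mul (nat_lit 4) (Nat.land u30 (nat_lit 255)))) (nat_lit 15)) (Nat.land (Nat.shiftRight
        (nat_lit
        0x8776766576656554766565546554544376656554655454436554544354434332766565546554544365545443544343326554544354434332544343324332322176656554655454436554544354434332655454435443433254434332433232216554544354434332544343324332322154434332433232214332322132212110)
        (Nat.mul (nat_lit 4) (Nat.shiftRight u30 (nat_lit 8)))) (nat_lit 15)))) (Nat.xor An
        (Nat.land An (Nat.land (Nat.shiftRight S (Nat.mul (nat_lit 16) (Nat.add (nat_lit 64) x)))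
        (nat_lit 65535))))) j) (@Bool.rec (fun _ => Bool) false (Nat.ble x dU) (Nat.ble t0 x))))))
        (Nat.add x (Nat.sub (Nat.sub (Nat.add L1 (Nat.sub (Nat.sub A0 (Nat.add H2 (Nat.mul (Nat.sub
        J (Nat.succ j)) hm))) L1)) D) x)))) (Nat.land s (nat_lit 31)) (Nat.add Lc (Nat.add j le)))))
        (tlF g S An dU t0 ph le A0 H2 J hm i) j D Lc s a = _
    simp only [cond_eq, and_eq, not_eq, or_eq]
    rfl

theorem srcF_eq : srcF = src := by
  funext w wT gs k C Y T P Q NT cl dom v s b
  simp only [srcF, conMF_eq, evF_eq, cond_eq, and_eq, not_eq, or_eq]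
  rfl

theorem srcsF_eq : srcsF = srcs := by
  funext w wT gs k C Y T P Q NT cl dom L m
  induction m with
  | zero => funext r; rw [srcs]; rfl
  | succ i ih =>
    funext r; rw [srcs, ← ih]
    change (fun (rc_ : ℕ → ℕ) => (fun (r : ℕ) => (@Bool.rec (fun _ => ℕ) (rc_ r) ((fun (r1 : ℕ) =>
        (@Bool.rec (fun _ => ℕ) (rc_ r1) (nat_lit 0) (Nat.beq r1 (nat_lit 0)))) (srcF w wT gs k C Y
        T P Q NT cl dom i (Nat.shiftRight r (nat_lit 48)) (Nat.land r (nat_lit 0xffffffffffff))))
        (Nat.beq (Nat.land (Nat.shiftRight L i) (nat_lit 1)) (nat_lit 1))))) (srcsF w wT gs k C Y T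
        P Q NT cl dom L i) r = _
    simp only [srcF_eq, cond_eq, and_eq, not_eq, or_eq]
    rfl

theorem ilfF_eq : ilfF = ilf := by
  funext w wT gs tg k S s
  simp only [ilfF, evF_eq, cond_eq, and_eq, not_eq, or_eq]
  rfl

theorem llfF_eq : llfF = llf := by
  funext w wT gs ph tg hm nf k dU S s
  simp only [llfF, hsF_eq, tlF_eq, srcsF_eq, cond_eq, and_eq, not_eq, or_eq]
  rfl

theorem rnF_eq : rnF = rn := by
  funext g p kg d1 cl1 dm1 k dU S
  simp only [rnF, prow4F_eq, pcolBF_eq, orPowF_eq, cond_eq, and_eq, not_eq, or_eq]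
  rfl

theorem xpF_eq : xpF = xp := by
  funext c B m
  induction m with
  | zero => rw [xp]; rfl
  | succ i ih =>
    rw [xp, ← ih]
    change (fun (rc_ : ℕ) => (Nat.lor (Nat.lor rc_ (Nat.shiftLeft (Nat.land (Nat.mul (Nat.land
        (Nat.shiftRight B (Nat.mul (nat_lit 16) i)) (nat_lit
        0xffff0000000000000000000000000000000000000000000000000000000000000000000000000000000000000000000000000000000000000000000000000000ffff))
        (nat_lit 0x200040008001000200040008001000200040008001000200040008001)) (nat_lit
        0x100010001000100010001000100010001000100010001000100010001000100000000000000000000000000000000000000000000000000000000000000000001000100010001000100010001000100010001000100010001000100010001))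
        (Nat.add (nat_lit 256) i))) ((fun (x : ℕ) => (Nat.lor (Nat.shiftLeft (Nat.shiftRight
        (nat_lit
        0x10001000100010001000100010001000100010001000100010001000100010001000100010001000100010001000100010001000100010001000100010001)
        (Nat.mul (nat_lit 16) (Nat.sub (nat_lit 31) (Nat.land x (nat_lit 31))))) (Nat.add (nat_lit
        1024) i)) ((fun (u38 : ℕ) => (Nat.shiftLeft (Nat.shiftRight (nat_lit
        0x10001000100010001000100010001000100010001000100010001000100010001000100010001000100010001000100010001000100010001000100010001)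
        (Nat.mul (nat_lit 16) u38)) (Nat.add (Nat.add (nat_lit 1536) i) (Nat.mul (nat_lit 16)
        u38)))) (Nat.land (Nat.shiftRight x (nat_lit 5)) (nat_lit 63))))) (Nat.shiftRight c (Nat.add
        (nat_lit 57) (Nat.mul (nat_lit 11) i)))))) (xpF c B i)  = _
    simp only [cond_eq, and_eq, not_eq, or_eq]
    rfl

theorem xpdF_eq : xpdF = xpd := by
  funext c
  simp only [xpdF, xpF_eq, cond_eq, and_eq, not_eq, or_eq]
  rfl

theorem addnF_eq : addnF = addn := by
  funext hm k dU S
  simp only [addnF, cond_eq, and_eq, not_eq, or_eq]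
  rfl

theorem oBrF_eq : oBrF = oBr := by
  funext g hm k dU S t i s
  simp only [oBrF, addnF_eq, cond_eq, and_eq, not_eq, or_eq]
  rfl

theorem oDgF_eq : oDgF = oDg := by
  funext g nf k dU S t i s
  simp only [oDgF, cond_eq, and_eq, not_eq, or_eq]
  rfl

theorem oExF_eq : oExF = oEx := by
  funext g sg nf k dU S t i s
  simp only [oExF, hsF_eq, ltcF_eq, pthF_eq, cond_eq, and_eq, not_eq, or_eq]
  rfl

theorem otSF_eq : otSF = otS := by
  funext tbl w wT gs ph tg sg hm nf jx g k dU S s
  simp only [otSF, ilfF_eq, llfF_eq, rnF_eq, xpdF_eq, oBrF_eq, oDgF_eq, oExF_eq, cond_eq, and_eq,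
      not_eq, or_eq]
  rfl

theorem otF_eq : otF = ot := by
  funext tbl w wT gs ph tg sg hm nf jx f
  induction f with
  | zero => rfl
  | succ f ih => rw [ot, ← ih, ← otSF_eq]; rfl

theorem chk1F_eq : chk1F = chk1 := by
  funext tbl w wT gs ph tg sg hm nf j s
  simp only [chk1F, xpdF_eq, otF_eq, cond_eq, and_eq, not_eq, or_eq]
  rfl

theorem chkLF_eq (tbl : ℕ → ℕ) (w wT gs ph tg sg hm nf : ℕ) :
    ∀ L j, chkLF tbl w wT gs ph tg sg hm nf L j = chkL tbl w wT gs ph tg sg hm nf L j
  | [], _ => rfl
  | s :: L, j => by
    rw [chkL, ← chkLF_eq tbl w wT gs ph tg sg hm nf L, ← chk1F_eq, ← and_eq, ← cond_eq]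
    rfl

/-- Binary trees of numbers; a leaf packs 32 codes of 702 bits. -/
inductive Tr : Type
  | lf (x : ℕ) : Tr
  | nd (a b : Tr) : Tr

noncomputable def Tr.look (t : Tr) (d j : ℕ) : ℕ :=
  @Tr.rec (fun _ => ℕ → ℕ)
    (fun x _ => Nat.land (Nat.shiftRight x (Nat.mul (nat_lit 702) (Nat.land j (nat_lit 31))))
      (nat_lit
          0x3fffffffffffffffffffffffffffffffffffffffffffffffffffffffffffffffffffffffffffffffffffffffffffffffffffffffffffffffffffffffffffffffffffffffffffffffffffffffffffffffffffffffffffffff))
    (fun _ _ ga gb d => @Bool.rec (fun _ => ℕ) (ga (Nat.sub d (nat_lit 1))) (gb (Nat.sub d (nat_lit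
        1)))
      (Nat.beq (Nat.land (Nat.shiftRight j d) (nat_lit 1)) (nat_lit 1))) t d

end Pool.Agent.MP_75ef89_co.Ex
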