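import Pool.Agent.MP_75ef89_co.Ex.Defs

/-! Layered digraphs: closure properties, reversal, products, modules. -/

namespace Pool.Agent.MP_75ef89_co.Ex

open Finset

variable {α : Type} [DecidableEq α] {r : α → α → Prop} {V S W A B : Finset α} {X : α → Prop}

/-! ### layers -/

omit [DecidableEq α] in
theorem Lay.mono {V' : Finset α} (h : Lay r V) (hs : V' ⊆ V) : Lay r V' :=
  h.imp fun _ h a ha b hb => h a (hs ha) b (hs hb)

omit [DecidableEq α] in
theorem Lay.of_asymm (h : ∀ a ∈ V, ∀ b ∈ V, r a b → ¬ r b a) : Lay r V :=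
  ⟨fun _ => 0, fun a ha b hb => ⟨fun h => absurd h (lt_irrefl _), fun _ => h a ha b hb⟩⟩

theorem Lay.con (hV : SC r V) (h : Lay r V) {y : α} (hy : y ∈ V) : Lay (rc r y) (Vc r V y) := by
  classical
  obtain ⟨l, h⟩ := h
  refine ⟨fun z => 2 * l z + if l z = l y ∧ r y z then 1 else 0, fun a ha b hb => ?_⟩
  rw [mem_Vc] at ha hb
  have k1 : ∀ z ∈ V, z ≠ y → ¬ (r z y ∧ r y z) → r z y → l z ≤ l y := fun z hz _ h2 h3 =>
    not_lt.1 fun hl => h2 ⟨h3, (h y hy z hz).1 hl⟩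
  have k2 : ∀ z ∈ V, z ≠ y → ¬ (r z y ∧ r y z) → r y z → l y ≤ l z := fun z hz _ h2 h3 =>
    not_lt.1 fun hl => h2 ⟨(h z hz y hy).1 hl, h3⟩
  have k3 : ∀ a ∈ V, a ≠ y → ¬ (r a y ∧ r y a) → ∀ b ∈ V, b ≠ y → ¬ (r b y ∧ r y b) → r a y →
      r y b → 2 * l a + (if l a = l y ∧ r y a then 1 else 0) <
        2 * l b + if l b = l y ∧ r y b then 1 else 0 := by
    intro a ha h1 h2 b hb h3 h4 h5 h6
    have := k1 a ha h1 h2 h5
    have := k2 b hb h3 h4 h6
    rw [if_neg fun e => h2 ⟨h5, e.2⟩]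
    split_ifs with e
    · omega
    · have : l b ≠ l y := fun e' => e ⟨e', h6⟩
      omega
  refine ⟨fun hl => ?_, fun hl h1 h2 => ?_⟩
  · by_cases e : l a < l b
    · exact .inl ((h a ha.1 b hb.1).1 e)
    · dsimp only at hl
      split_ifs at hl with e1 e2 e2 <;> try omega
      refine .inr ⟨(hV.tot a ha.1 y hy ha.2.1).resolve_right fun k => e1 ⟨by omega, k⟩, e2.2⟩
  · dsimp only at hl
    rcases h1 with h1 | h1
    · rcases h2 with h2 | h2
      · exact (h a ha.1 b hb.1).2 (by split_ifs at hl <;> omega) h1 h2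
      · have := k3 b hb.1 hb.2.1 hb.2.2 a ha.1 ha.2.1 ha.2.2 h2.1 h2.2
        omega
    · have := k3 a ha.1 ha.2.1 ha.2.2 b hb.1 hb.2.1 hb.2.2 h1.1 h1.2
      omega

omit [DecidableEq α] in
theorem Lay.rev (h : Lay r V) : Lay (fun a b => r b a) V := by
  obtain ⟨l, h⟩ := h
  refine ⟨fun z => V.sup l - l z, fun a ha b hb => ?_⟩
  have h1 : l a ≤ V.sup l := le_sup ha
  have h2 : l b ≤ V.sup l := le_sup hb
  dsimp only
  exact ⟨fun e => (h b hb a ha).1 (by omega), fun e => (h b hb a ha).2 (by omega)⟩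

omit [DecidableEq α] in
theorem _root_.Pool.Agent.MP_75ef89_co.SC.rev (h : SC r V) : SC (fun a b => r b a) V :=
  ⟨h.irr, fun a ha b hb e => (h.tot a ha b hb e).symm⟩

omit [DecidableEq α] in
theorem ac_rev : Ac (fun a b => r b a) W ↔ Ac r W :=
  ⟨fun h => ⟨fun a ha b hb h1 h2 => h.1 a ha b hb h2 h1,
    fun a ha b hb c hc h1 h2 h3 => h.2 a ha c hc b hb h3 h2 h1⟩,
  fun h => ⟨fun a ha b hb h1 h2 => h.1 a ha b hb h2 h1,
    fun a ha b hb c hc h1 h2 h3 => h.2 a ha c hc b hb h3 h2 h1⟩⟩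

/-! ### dominating sets -/

theorem Top.inter {S' : Finset α} (h : Top r V S) (h' : Top r V S') : Top r V (S ∩ S') :=
  ⟨inter_subset_left.trans h.1, fun a ha b hb hn => by
    rw [mem_inter] at ha hn
    by_cases k : b ∈ S
    · exact h'.2 a ha.2 b hb fun k' => hn ⟨k, k'⟩
    · exact h.2 a ha.1 b hb k⟩

omit [DecidableEq α] in
theorem Top.card_le (h : Top r V S) {b : α} (hb : b ∈ V) (hn : b ∉ S) : #S ≤ indeg r V b := by
  classical
  unfold indeg
  exact card_le_card fun a ha => mem_filter.2 ⟨h.1 ha, h.2 a ha b hb hn⟩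

omit [DecidableEq α] in
theorem Closed.top (hV : SC r V) (h : Closed r V S) : Top r V S :=
  ⟨h.1, fun a ha b hb hn => (hV.tot a (h.1 ha) b hb fun e => hn (e ▸ ha)).resolve_right
    fun k => hn (h.2 a ha b hb k)⟩

omit [DecidableEq α] in
/-- A digon is cut by a dominating set. -/
theorem Lay.cut (h : Lay r V) {a b : α} (ha : a ∈ V) (hb : b ∈ V) (h1 : r a b) (h2 : r b a) :
    (∃ S, Top r V S ∧ a ∈ S ∧ b ∉ S ∧ #S ≤ indeg r V b) ∨
      ∃ S, Top r V S ∧ b ∈ S ∧ a ∉ S ∧ #S ≤ indeg r V a := by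
  obtain ⟨l, h⟩ := h
  have key : ∀ a ∈ V, ∀ b ∈ V, l a < l b →
      ∃ S, Top r V S ∧ a ∈ S ∧ b ∉ S ∧ #S ≤ indeg r V b := by
    intro a ha b hb e
    have hT : Top r V {z ∈ V | l z < l b} := ⟨filter_subset _ _, fun x hx y hy hn => by
      rw [mem_filter] at hx hn
      exact (h x hx.1 y hy).1 (hx.2.trans_le (not_lt.1 fun k => hn ⟨hy, k⟩))⟩
    have hn : b ∉ ({z ∈ V | l z < l b} : Finset α) := by simp
    exact ⟨_, hT, mem_filter.2 ⟨ha, e⟩, hn, hT.card_le hb hn⟩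
  rcases lt_trichotomy (l a) (l b) with e | e | e
  · exact .inl (key a ha b hb e)
  · exact absurd h2 ((h a ha b hb).2 e h1)
  · exact .inr (key b hb a ha e)

/-! ### the family of maximal acyclic sets -/

open Classical in
noncomputable def MS (r : α → α → Prop) (V : Finset α) (X : α → Prop) : Finset (Finset α) :=
  {W ∈ V.powerset | MA r V W ∧ ∀ x ∈ W, ¬ X x}

theorem mem_MS : W ∈ MS r V X ↔ MA r V W ∧ ∀ x ∈ W, ¬ X x := by
  classical
  simp only [MS, mem_filter, mem_powerset]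
  exact and_iff_right_of_imp fun h => h.1.1

theorem cnt_eq (r : α → α → Prop) (V : Finset α) (X : α → Prop) : cnt r V X = #(MS r V X) := rfl

theorem cnt_rev (r : α → α → Prop) (V : Finset α) (X : α → Prop) :
    cnt (fun a b => r b a) V X = cnt r V X := by
  rw [cnt_eq, cnt_eq]
  congr 1
  ext W
  simp only [mem_MS, MA, ac_rev (r := r)]

theorem M_rev (r : α → α → Prop) (V : Finset α) : M (fun a b => r b a) V = M r V := cnt_rev _ _ _

theorem exists_MA (r : α → α → Prop) (V : Finset α) : ∃ W, MA r V W := by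
  classical
  obtain ⟨W, hW, hm⟩ := exists_max_image {W ∈ V.powerset | Ac r W} card
    ⟨∅, mem_filter.2 ⟨empty_mem_powerset V, by simp [Ac]⟩⟩
  simp only [mem_filter, mem_powerset] at hW hm
  refine ⟨W, hW.1, hW.2, fun x hx hn h => ?_⟩
  have := hm _ ⟨insert_subset hx hW.1, h⟩
  rw [card_insert_of_notMem hn] at this
  omega

theorem M_pos (r : α → α → Prop) (V : Finset α) : 0 < M r V :=
  card_pos.2 ((exists_MA r V).imp fun _ h => mem_MS.2 ⟨h, fun _ _ => id⟩)

omit [DecidableEq α] in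
theorem not_ac_two {a b : α} (ha : a ∈ W) (hb : b ∈ W) (h1 : r a b) (h2 : r b a) : ¬ Ac r W :=
  fun h => h.1 a ha b hb h1 h2

omit [DecidableEq α] in
theorem not_ac_three {a b c : α} (ha : a ∈ W) (hb : b ∈ W) (hc : c ∈ W) (h1 : r a b) (h2 : r b c)
    (h3 : r c a) : ¬ Ac r W := fun h => h.2 a ha b hb c hc h1 h2 h3

/-- Relabelling the vertices. -/
theorem M_image {β : Type} [DecidableEq β] {r' : β → β → Prop} {U : Finset β} {e : β → α}
    (he : Set.InjOn e U) (h : ∀ a ∈ U, ∀ b ∈ U, r' a b ↔ r (e a) (e b)) :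
    M r' U = M r (U.image e) := by
  have hac : ∀ T ⊆ U, (Ac r (T.image e) ↔ Ac r' T) := fun T hT => by
    simp only [Ac, forall_mem_image]
    refine and_congr ?_ ?_
    · exact forall₂_congr fun a ha => forall₂_congr fun b hb => by
        rw [h a (hT ha) b (hT hb), h b (hT hb) a (hT ha)]
    · exact forall₂_congr fun a ha => forall₂_congr fun b hb => forall₂_congr fun c hc => by
        rw [h a (hT ha) b (hT hb), h b (hT hb) c (hT hc), h c (hT hc) a (hT ha)]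
  have hm : ∀ T ⊆ U, ∀ x ∈ U, (e x ∈ T.image e ↔ x ∈ T) := fun T hT x hx =>
    ⟨fun k => by
      obtain ⟨y, hy, k⟩ := mem_image.1 k
      exact he (hT hy) hx k ▸ hy, mem_image_of_mem e⟩
  have hma : ∀ T ⊆ U, (MA r (U.image e) (T.image e) ↔ MA r' U T) := fun T hT => by
    simp only [MA, forall_mem_image, hac T hT, image_subset_image hT, hT, true_and]
    refine and_congr_right fun _ => forall₂_congr fun x hx => ?_
    rw [hm T hT x hx, ← image_insert, hac _ (insert_subset hx hT)]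
  refine card_nbij (fun T => T.image e) (fun T hT => ?_) (fun T hT T' hT' k => ?_) fun T hT => ?_
  · have := (mem_MS.1 hT).1
    exact mem_MS.2 ⟨(hma T this.1).2 this, fun _ _ => id⟩
  · have h1 := (mem_MS.1 hT).1.1
    have h2 := (mem_MS.1 hT').1.1
    ext x
    dsimp only at k
    exact ⟨fun hx => (hm T' h2 x (h1 hx)).1 (k ▸ mem_image_of_mem e hx),
      fun hx => (hm T h1 x (h2 hx)).1 (k ▸ mem_image_of_mem e hx)⟩
  · have := (mem_MS.1 hT).1
    obtain ⟨T', h1, rfl⟩ := subset_image_iff.1 this.1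
    exact ⟨T', mem_MS.2 ⟨(hma T' h1).1 this, fun _ _ => id⟩, rfl⟩

theorem M_congr {r' : α → α → Prop} (h : ∀ a ∈ V, ∀ b ∈ V, r' a b ↔ r a b) : M r' V = M r V := by
  have := M_image (e := id) (U := V) (r := r) (fun _ _ _ _ => id) h
  rwa [image_id] at this

/-! ### products -/

theorem Closed.ac (h : Closed r V S) (hW : W ⊆ V) : Ac r W ↔ Ac r (W ∩ S) ∧ Ac r (W \ S) := by
  refine ⟨fun k => ⟨k.mono inter_subset_left, k.mono sdiff_subset⟩, fun ⟨k1, k2⟩ =>
    ⟨fun a ha b hb h1 h2 => ?_, fun a ha b hb c hc h1 h2 h3 => ?_⟩⟩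
  · by_cases e : a ∈ S
    · exact k1.1 a (mem_inter.2 ⟨ha, e⟩) b (mem_inter.2 ⟨hb, h.2 a e b (hW hb) h2⟩) h1 h2
    · exact k2.1 a (mem_sdiff.2 ⟨ha, e⟩) b (mem_sdiff.2 ⟨hb, fun k => e (h.2 b k a (hW ha) h1)⟩)
        h1 h2
  · by_cases e : a ∈ S
    · have e3 := h.2 a e c (hW hc) h3
      exact k1.2 a (mem_inter.2 ⟨ha, e⟩) b (mem_inter.2 ⟨hb, h.2 c e3 b (hW hb) h2⟩) c
        (mem_inter.2 ⟨hc, e3⟩) h1 h2 h3
    · have e2 : b ∉ S := fun k => e (h.2 b k a (hW ha) h1)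
      exact k2.2 a (mem_sdiff.2 ⟨ha, e⟩) b (mem_sdiff.2 ⟨hb, e2⟩) c
        (mem_sdiff.2 ⟨hc, fun k => e2 (h.2 c k b (hW hb) h2)⟩) h1 h2 h3

theorem Closed.ma (h : Closed r V S) (hW : W ⊆ V) :
    MA r V W ↔ MA r S (W ∩ S) ∧ MA r (V \ S) (W \ S) := by
  constructor
  · rintro ⟨-, h1, h2⟩
    obtain ⟨k1, k2⟩ := (h.ac hW).1 h1
    refine ⟨⟨inter_subset_right, k1, fun x hx hn k => ?_⟩,
      sdiff_subset_sdiff hW le_rfl, k2, fun x hx hn k => ?_⟩
    · refine h2 x (h.1 hx) (fun e => hn (mem_inter.2 ⟨e, hx⟩))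
        ((h.ac (insert_subset (h.1 hx) hW)).2 ⟨?_, ?_⟩)
      · rwa [insert_inter_of_mem hx]
      · rwa [insert_sdiff_of_mem _ hx]
    · rw [mem_sdiff] at hx
      refine h2 x hx.1 (fun e => hn (mem_sdiff.2 ⟨e, hx.2⟩))
        ((h.ac (insert_subset hx.1 hW)).2 ⟨?_, ?_⟩)
      · rwa [insert_inter_of_notMem hx.2]
      · rwa [insert_sdiff_of_notMem _ hx.2]
  · rintro ⟨⟨-, k1, k2⟩, -, k3, k4⟩
    refine ⟨hW, (h.ac hW).2 ⟨k1, k3⟩, fun x hx hn k => ?_⟩
    by_cases e : x ∈ S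
    · exact k2 x e (fun k' => hn (mem_inter.1 k').1)
        (k.mono (insert_subset_insert _ inter_subset_left))
    · exact k4 x (mem_sdiff.2 ⟨hx, e⟩) (fun k' => hn (mem_sdiff.1 k').1)
        (k.mono (insert_subset_insert _ sdiff_subset))

/-- The product rule. -/
theorem Closed.cnt_eq (h : Closed r V S) (X : α → Prop) :
    cnt r V X = cnt r S X * cnt r (V \ S) X := by
  rw [Ex.cnt_eq, Ex.cnt_eq, Ex.cnt_eq, ← card_product]
  refine card_nbij' (fun W => (W ∩ S, W \ S)) (fun p => p.1 ∪ p.2) (fun W hW => ?_)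
    (fun p hp => ?_) (fun W _ => ?_) fun p hp => ?_
  · obtain ⟨h1, h2⟩ := mem_MS.1 hW
    obtain ⟨k1, k2⟩ := (h.ma h1.1).1 h1
    exact mem_coe.2 (mem_product.2 ⟨mem_MS.2 ⟨k1, fun x hx => h2 x (mem_inter.1 hx).1⟩,
      mem_MS.2 ⟨k2, fun x hx => h2 x (mem_sdiff.1 hx).1⟩⟩)
  all_goals try
    obtain ⟨h1, h2⟩ := mem_product.1 (mem_coe.1 hp)
    rw [mem_MS] at h1 h2
    have e1 : (p.1 ∪ p.2) ∩ S = p.1 := by
      ext x
      have := @h1.1.1 x
      have := @h2.1.1 x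
      simp only [mem_inter, mem_union, mem_sdiff] at *
      tauto
    have e2 : (p.1 ∪ p.2) \ S = p.2 := by
      ext x
      have := @h1.1.1 x
      have := @h2.1.1 x
      simp only [mem_union, mem_sdiff] at *
      tauto
  · refine mem_MS.2 ⟨(h.ma (union_subset (h1.1.1.trans h.1) (h2.1.1.trans sdiff_subset))).2 ?_,
      fun x hx => (mem_union.1 hx).elim (h1.2 x) (h2.2 x)⟩
    rw [e1, e2]
    exact ⟨h1.1, h2.1⟩
  · exact (union_comm _ _).trans (sdiff_union_inter _ _)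
  · exact Prod.ext e1 e2

theorem Closed.M_eq (h : Closed r V S) : M r V = M r S * M r (V \ S) := h.cnt_eq _

/-! ### modules -/

/-- `v` has the same relation to all members of `A`. -/
def Unif (r : α → α → Prop) (A : Finset α) (v : α) : Prop :=
  ∀ a ∈ A, ∀ a' ∈ A, (r v a → r v a') ∧ (r a v → r a' v)

/-- A maximal acyclic set that meets a module induces a maximal acyclic set of the module. -/
theorem MA.inter_module (hV : SC r V) (hA : A ⊆ V) (h : MA r V W)
    (hu : ∀ v ∈ W, v ∉ A → Unif r A v) {p : α} (hp : p ∈ W ∩ A) : MA r A (W ∩ A) := by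
  obtain ⟨p1, p2⟩ := mem_inter.1 hp
  refine ⟨inter_subset_right, h.2.1.mono inter_subset_left, fun x hx hn => ?_⟩
  obtain ⟨b, hb, h1, h2⟩ := blocked (hV.irr x (hA hx)) h.2.1
    (h.2.2 x (hA hx) fun e => hn (mem_inter.2 ⟨e, hx⟩))
  have hi : ∀ c ∈ W, c ∈ A → c ∈ insert x (W ∩ A) := fun c k1 k2 =>
    mem_insert_of_mem (mem_inter.2 ⟨k1, k2⟩)
  rcases h2 with h2 | ⟨a, ha, h2, h3⟩
  · by_cases e : b ∈ A
    · exact not_ac_two (mem_insert_self _ _) (hi b hb e) h2 h1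
    · exact absurd h.2.1 (not_ac_two hb p1 ((hu b hb e x hx p p2).1 h1)
        ((hu b hb e x hx p p2).2 h2))
  · by_cases e : b ∈ A <;> by_cases e' : a ∈ A
    · exact not_ac_three (mem_insert_self _ _) (hi a ha e') (hi b hb e) h2 h3 h1
    · exact absurd h.2.1 (not_ac_two ha hb h3 ((hu a ha e' x hx b e).2 h2))
    · exact absurd h.2.1 (not_ac_two ha hb h3 ((hu b hb e x hx a e').1 h1))
    · exact absurd h.2.1 (not_ac_three p1 ha hb ((hu a ha e' x hx p p2).2 h2) h3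
        ((hu b hb e x hx p p2).1 h1))

/-- A uniform vertex that is blocked by `W` is blocked by any `W'` that contains the part of `W`
outside the module and one vertex of the module. -/
theorem blocked_module {W' : Finset α} {x q : α} (hx : ¬ r x x) (hW : Ac r W)
    (hb : ¬ Ac r (insert x W)) (hu : ∀ v ∈ W, v ∉ A → Unif r A v) (hux : Unif r A x)
    (hq : q ∈ W') (hqA : q ∈ A) (hs : ∀ v ∈ W, v ∉ A → v ∈ W') : ¬ Ac r (insert x W') := by
  obtain ⟨b, hb, h1, h2⟩ := blocked hx hW hb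
  have m0 := mem_insert_self x W'
  have mq := mem_insert_of_mem (b := x) hq
  rcases h2 with h2 | ⟨a, ha, h2, h3⟩
  · by_cases e : b ∈ A
    · exact not_ac_two m0 mq ((hux b e q hqA).1 h2) ((hux b e q hqA).2 h1)
    · exact not_ac_two m0 (mem_insert_of_mem (hs b hb e)) h2 h1
  · by_cases e : b ∈ A <;> by_cases e' : a ∈ A
    · exact not_ac_two m0 mq ((hux a e' q hqA).1 h2) ((hux b e q hqA).2 h1)
    · exact not_ac_three m0 (mem_insert_of_mem (hs a ha e')) mq h2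
        ((hu a ha e' b e q hqA).1 h3) ((hux b e q hqA).2 h1)
    · exact not_ac_three m0 mq (mem_insert_of_mem (hs b hb e)) ((hux a e' q hqA).1 h2)
        ((hu b hb e a e' q hqA).2 h3) h1
    · exact not_ac_three m0 (mem_insert_of_mem (hs a ha e')) (mem_insert_of_mem (hs b hb e))
        h2 h3 h1

/-- The module rule. `U` is any set of uniform vertices outside `A` that contains all vertices
outside `A` that are not excluded. -/
theorem cnt_module (hV : SC r V) (hA : A ⊆ V) {a : α} (ha : a ∈ A) {U : Finset α}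
    (hU : ∀ v ∈ U, v ∈ V ∧ v ∉ A ∧ Unif r A v) (hX : ∀ v ∈ V, v ∉ A → ¬ X v → v ∈ U) :
    cnt r V X ≤ M r A * cnt (rc r a) (Vc r (insert a U) a) X + cnt r V fun x => X x ∨ x ∈ A := by
  classical
  rw [cnt_eq r V X, ← card_filter_add_card_filter_not (s := MS r V X) fun W => (W ∩ A).Nonempty]
  have hV' : SC r (insert a U) := hV.mono (insert_subset (hA ha) fun v hv => (hU v hv).1)
  refine add_le_add ?_ (card_le_card fun W hW => ?_)
  · rw [M, cnt_eq, cnt_eq, ← card_product]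
    refine card_le_card_of_injOn (fun W => (W ∩ A, W \ A)) (fun W hW => ?_) fun W _ W' _ e => ?_
    · obtain ⟨h1, p, hp⟩ := mem_filter.1 (mem_coe.1 hW)
      obtain ⟨h1, h2⟩ := mem_MS.1 h1
      obtain ⟨p1, p2⟩ := mem_inter.1 hp
      have hin : ∀ v ∈ W, v ∉ A → v ∈ U := fun v k1 k2 => hX v (h1.1 k1) k2 (h2 v k1)
      have hu : ∀ v ∈ W, v ∉ A → Unif r A v := fun v k1 k2 => (hU v (hin v k1 k2)).2.2
      refine mem_coe.2 (mem_product.2 ⟨mem_MS.2 ⟨MA.inter_module hV hA h1 hu hp, fun _ _ => id⟩,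
        mem_MS.2 ⟨?_, fun x hx => h2 x (mem_sdiff.1 hx).1⟩⟩)
      have hn : a ∉ W \ A := fun k => (mem_sdiff.1 k).2 ha
      have hac : Ac r (insert a (W \ A)) := by
        by_contra hc
        obtain ⟨b, hb, k1, k2⟩ := blocked (hV.irr a (hA ha)) (h1.2.1.mono sdiff_subset) hc
        rw [mem_sdiff] at hb
        have ub := hu b hb.1 hb.2 a ha p p2
        rcases k2 with k2 | ⟨c, hc, k2, k3⟩
        · exact h1.2.1.1 b hb.1 p p1 (ub.1 k1) (ub.2 k2)
        · rw [mem_sdiff] at hc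
          exact h1.2.1.2 p p1 c hc.1 b hb.1 ((hu c hc.1 hc.2 a ha p p2).2 k2) k3 (ub.1 k1)
      have hma : MA r (insert a U) (insert a (W \ A)) := by
        refine ⟨insert_subset_insert _ fun v hv => hin v (mem_sdiff.1 hv).1 (mem_sdiff.1 hv).2,
          hac, fun x hx hxn => ?_⟩
        have hxU := (mem_insert.1 hx).resolve_left fun e => hxn (e ▸ mem_insert_self _ _)
        obtain ⟨k1, k2, k3⟩ := hU x hxU
        exact blocked_module (hV.irr x k1) h1.2.1
          (h1.2.2 x k1 fun e => hxn (mem_insert_of_mem (mem_sdiff.2 ⟨e, k2⟩))) hu k3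
          (mem_insert_self _ _) ha fun v k k' => mem_insert_of_mem (mem_sdiff.2 ⟨k, k'⟩)
      have := hma.con hV' (mem_insert_self _ _)
      rwa [erase_insert hn] at this
    · rw [← sdiff_union_inter W A, ← sdiff_union_inter W' A, (Prod.mk.inj e).1, (Prod.mk.inj e).2]
  · obtain ⟨h1, h2⟩ := mem_filter.1 hW
    obtain ⟨h1, h3⟩ := mem_MS.1 h1
    exact mem_MS.2 ⟨h1, fun x hx k => k.elim (h3 x hx) fun k => h2 ⟨x, mem_inter.2 ⟨hx, k⟩⟩⟩

/-- The twin rule: `A ∪ B` is a module and no arc goes from `B` to `A`. -/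
theorem cnt_twin (hV : SC r V) (hA : A ⊆ V) (hB : B ⊆ V) (hne : B.Nonempty) (hd : Disjoint A B)
    (hAB : ∀ a ∈ A, ∀ b ∈ B, ¬ r b a) {U : Finset α}
    (hU : ∀ v ∈ U, v ∈ V ∧ v ∉ A ∪ B ∧ Unif r (A ∪ B) v)
    (hX : ∀ v ∈ V, v ∉ A ∪ B → ¬ X v → v ∈ U) : cnt r V X ≤ M r A * cnt r (B ∪ U) X := by
  classical
  obtain ⟨W₀, hW₀⟩ := exists_MA r A
  have hC : Closed r (A ∪ B) A := ⟨subset_union_left, fun a ha b hb k =>
    (mem_union.1 hb).resolve_right fun e => hAB a ha b e k⟩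
  have hBA : (A ∪ B) \ A = B := union_sdiff_cancel_left hd
  have key : ∀ W ∈ MS r V X, (∀ v ∈ W, v ∉ A ∪ B → v ∈ U) ∧ ((W ∩ (A ∪ B)).Nonempty →
      MA r A (W ∩ A) ∧ MA r B (W ∩ B) ∧ (W ∩ B).Nonempty ∧ (A.Nonempty → (W ∩ A).Nonempty)) := by
    intro W hW
    obtain ⟨h1, h2⟩ := mem_MS.1 hW
    have hin : ∀ v ∈ W, v ∉ A ∪ B → v ∈ U := fun v k1 k2 => hX v (h1.1 k1) k2 (h2 v k1)
    refine ⟨hin, fun ⟨p, hp⟩ => ?_⟩
    have h3 := (hC.ma inter_subset_right).1 (MA.inter_module hV (union_subset hA hB) h1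
      (fun v k1 k2 => (hU v (hin v k1 k2)).2.2) hp)
    have e1 : W ∩ (A ∪ B) ∩ A = W ∩ A := by rw [inter_assoc, union_inter_cancel_left]
    have e2 : (W ∩ (A ∪ B)) \ A = W ∩ B := by rw [inter_sdiff_assoc, hBA]
    rw [e1, e2, hBA] at h3
    have ne : ∀ C ⊆ V, ∀ T, MA r C T → C.Nonempty → T.Nonempty := fun C hCV T hT ⟨c, hc⟩ => by
      rw [nonempty_iff_ne_empty]
      rintro rfl
      refine hT.2.2 c hc (notMem_empty c) ?_
      have := hV.irr c (hCV hc)
      simp [Ac, this]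
    exact ⟨h3.1, h3.2, ne B hB _ h3.2 hne, ne A hA _ h3.1⟩
  rw [M, cnt_eq, cnt_eq, cnt_eq, ← card_product]
  refine card_le_card_of_injOn (fun W => (if (W ∩ B).Nonempty then W ∩ A else W₀, W \ A))
    (fun W hW => ?_) fun W hW W' hW' e => ?_
  · obtain ⟨h1, h2⟩ := mem_MS.1 hW
    obtain ⟨hin, h3⟩ := key W hW
    refine mem_coe.2 (mem_product.2 ⟨mem_MS.2 ⟨?_, fun _ _ => id⟩, mem_MS.2
      ⟨⟨fun v hv => ?_, h1.2.1.mono sdiff_subset, fun x hx hn => ?_⟩,
        fun x hx => h2 x (mem_sdiff.1 hx).1⟩⟩)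
    · dsimp only
      split_ifs with k
      · exact (h3 (k.mono (inter_subset_inter le_rfl subset_union_right))).1
      · exact hW₀
    · rw [mem_sdiff] at hv
      by_cases k : v ∈ B
      · exact mem_union_left _ k
      · exact mem_union_right _ (hin v hv.1 fun k' => (mem_union.1 k').elim hv.2 k)
    · have hxA : x ∉ A := fun k => (mem_union.1 hx).elim (disjoint_left.1 hd k)
        fun k' => (hU x k').2.1 (mem_union_left _ k)
      have hxV : x ∈ V := (mem_union.1 hx).elim (@hB x) fun k => (hU x k).1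
      have hxW : x ∉ W := fun k => hn (mem_sdiff.2 ⟨k, hxA⟩)
      by_cases k : (W ∩ (A ∪ B)).Nonempty
      · obtain ⟨-, k2, ⟨q, hq⟩, -⟩ := h3 k
        rw [mem_inter] at hq
        rcases mem_union.1 hx with k3 | k3
        · exact fun k4 => k2.2.2 x k3 (fun k5 => hxW (mem_inter.1 k5).1) (k4.mono
            (insert_subset_insert _ fun v hv => mem_sdiff.2 ⟨(mem_inter.1 hv).1,
              disjoint_right.1 hd (mem_inter.1 hv).2⟩))
        · exact blocked_module (hV.irr x hxV) h1.2.1 (h1.2.2 x hxV hxW)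
            (fun v k1 k2 => (hU v (hin v k1 k2)).2.2) (hU x k3).2.2
            (mem_sdiff.2 ⟨hq.1, disjoint_right.1 hd hq.2⟩) (mem_union_right _ hq.2)
            fun v k1 k2 => mem_sdiff.2 ⟨k1, fun k4 => k2 (mem_union_left _ k4)⟩
      · have : W \ A = W := sdiff_eq_self_of_disjoint (disjoint_left.2 fun v k1 k2 =>
          k ⟨v, mem_inter.2 ⟨k1, mem_union_left _ k2⟩⟩)
        dsimp only
        rw [this]
        exact h1.2.2 x hxV hxW
  · obtain ⟨e1, e2⟩ := Prod.mk.inj e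
    have hB' : ∀ T : Finset α, T ∩ B = (T \ A) ∩ B := fun T => by
      ext v
      have := @disjoint_left.1 hd v
      simp only [mem_inter, mem_sdiff]
      tauto
    have e3 : W ∩ B = W' ∩ B := by rw [hB' W, hB' W', e2]
    have emp : ∀ T ∈ MS r V X, ¬ (T ∩ B).Nonempty → T ∩ A = ∅ := fun T hT k =>
      not_nonempty_iff_eq_empty.1 fun k' =>
        k ((key T hT).2 (k'.mono (inter_subset_inter le_rfl subset_union_left))).2.2.1
    rw [← sdiff_union_inter W A, ← sdiff_union_inter W' A, e2]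
    by_cases k : (W ∩ B).Nonempty
    · rw [if_pos k, if_pos (e3 ▸ k)] at e1
      rw [e1]
    · rw [emp W hW k, emp W' hW' (e3 ▸ k)]

end Pool.Agent.MP_75ef89_co.Ex
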