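import Mathlib
import Pool.Agent.MP_75ef89_co.Inner
import Pool.Agent.MP_75ef89_co.Ex.Layer
import Pool.Agent.MP_75ef89_co.Ex.Chk2

/-! What the states of the checker mean, and the statements of the soundness theorems. -/

namespace Pool.Agent.MP_75ef89_co.Ex

open Finset

variable {α : Type} [DecidableEq α]

/-- `z` has no name. -/
def Un (k : ℕ) (e : ℕ → α) (z : α) : Prop := ∀ j < k, e j ≠ z

/-- `z` has a name in the mask `x`. -/
def Im (e : ℕ → α) (x : ℕ) (z : α) : Prop := ∃ i, x.testBit i = true ∧ e i = z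

open Classical in
/-- The unnamed vertices. -/
noncomputable def RR (k : ℕ) (e : ℕ → α) (Ω : Finset α) : Finset α := {z ∈ Ω | Un k e z}

open Classical in
/-- The undecided vertices without a name in `x`. -/
noncomputable def Rest (k : ℕ) (e : ℕ → α) (V : Finset α) (U x : ℕ) : Finset α :=
  {z ∈ V | ¬ XU k e U z ∧ ¬ Im e x z}

/-! ### the inner checker -/

/-- The root digraph `ρ` on `Ω`, the names, and the data `C` about the root. -/
structure Root (n k : ℕ) (ρ : α → α → Prop) (Ω : Finset α) (e : ℕ → α) (C : ℕ) : Prop where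
  le : k ≤ 15
  card : #Ω = n
  sc : SC ρ Ω
  mem : ∀ i < k, e i ∈ Ω
  inj : ∀ i < k, ∀ j < k, e i = e j → i = j
  hT0 : ∀ i < k, ∀ j < 16, C.testBit (16 * i + j) = true → j < k ∧ ρ (e j) (e i)
  hQ0 : ∀ i < k, ∀ j < k, ρ (e j) (e i) → C.testBit (16 * (16 + i) + j) = true
  hLo : ∀ d < 32, ∀ i < k, C.testBit (16 * (32 + d) + i) = true → d ≤ indeg ρ Ω (e i)
  hHi : ∀ d, ∀ i < k, C.testBit (16 * (64 + d) + i) = true → indeg ρ Ω (e i) ≤ d

/-- The invariant of the inner checker. -/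
structure Hold2 (n k : ℕ) (ρ : α → α → Prop) (Ω : Finset α) (e : ℕ → α) (r : α → α → Prop)
    (V : Finset α) (Y T P Q pres cl dom U hv NI c tp : ℕ) : Prop where
  hold : Hold k e (RR k e Ω) r V Y T P Q pres cl dom U
  lay : Lay r V
  sub : V ⊆ Ω
  mono : ∀ a ∈ V, ∀ b ∈ V, ρ a b → r a b
  hhv : ∀ i < k, hv.testBit i = true → e i ∈ V → ∀ z ∈ V, ¬ XU k e U z → r z (e i) → ρ z (e i)
  hNI : ∀ i, NI.testBit i = true → i < k
  hc : c ≤ 32
  hJ : #(Rest k e V U NI) + pc NI + c ≤ n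
  htp : ∃ S ⊆ V, (∀ a ∈ S, ¬ XU k e U a → ∀ b ∈ V, ¬ XU k e U b → b ∉ S → r a b) ∧
    (∀ i, (row tp 0).testBit i = true → i < k ∧ (e i ∈ V → ¬ XU k e U (e i) → e i ∈ S)) ∧
    #(Rest k e S U (row tp 1)) ≤ Nat.shiftRight tp 32
  htn : ∀ i, (row tp 1).testBit i = true → i < k

/-- Two vertices with in-degrees in prescribed intervals. -/
def Prof (cd : ℕ) (r : α → α → Prop) (V : Finset α) : Prop :=
  ∃ y ∈ V, ∃ z ∈ V, y ≠ z ∧ nib cd 0 ≤ indeg r V y ∧ indeg r V y ≤ nib cd 4 ∧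
    nib cd 8 ≤ indeg r V z ∧ indeg r V z ≤ nib cd 12 ∧ (cd.testBit 16 = true → ¬ (r y z ∧ r z y))

/-- The classes of digraphs of the weight table. -/
def Cls (w m c : ℕ) (r : α → α → Prop) (V : Finset α) : Prop :=
  if c ≤ 5 then Prof (wt2 w m (c - 2)) r V else if c = 6 then Ev (wt2 w m 0) (wt2 w m 1) r V
  else if c ≤ 9 then ∃ v ∈ V, indeg r V v ≤ c - 7 else True

/-- What the weight tables have to satisfy. -/
structure Tab (α : Type) [DecidableEq α] (n w wT gs : ℕ) (Z : ℝ) : Prop where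
  nonneg : 0 ≤ Z
  zero : ∀ c, 4 ≤ c → c ≤ 10 → wt2 w 0 c = m48
  zeroT : ∀ l < 8, ∀ h < 8, wtT wT 0 l h = m48
  leaf : ∀ (r : α → α → Prop) (V : Finset α), SC r V → Lay r V → ∀ m c, 1 ≤ m → m ≤ 47 → 4 ≤ c →
    c ≤ 10 → #V + m ≤ n → (#V + m + 1 ≤ n ∨ Cls w m c r V) → (M r V : ℝ) ≤ wt2 w m c * Z
  top : ∀ (r : α → α → Prop) (V : Finset α), SC r V → Lay r V → ∀ m, 1 ≤ m → m ≤ 47 → ∀ l < 8,
    ∀ h < 8, #V + m ≤ n → (#V + m + 1 ≤ n ∨ ∃ S, Top r V S ∧ l ≤ #S ∧ #S ≤ h) →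
      (M r V : ℝ) ≤ wtT wT m l h * Z
  blk : ∀ (r : α → α → Prop) (V : Finset α), SC r V → Lay r V → ∀ s ≤ 15, #V ≤ s → #V < n →
    M r V ≤ ent gs s
  ok : ∀ s, (ent gs 16).testBit s = true → s ≠ n

/-- The budget does not grow. -/
def Le14 (g : G14) : Prop := ∀ Y T P Q pres cl dom U hv NI c tp s b, b ≤ m48 →
  g Y T P Q pres cl dom U hv NI c tp s b ≠ 0 → lo2 (g Y T P Q pres cl dom U hv NI c tp s b) ≤ b

/-- The budget that is spent pays for the count. -/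
def Sound14 (n k : ℕ) (ρ : α → α → Prop) (Ω : Finset α) (e : ℕ → α) (Z : ℝ) (g : G14) : Prop :=
  ∀ (r : α → α → Prop) (V : Finset α) (Y T P Q pres cl dom U hv NI c tp s b : ℕ),
    Hold2 n k ρ Ω e r V Y T P Q pres cl dom U hv NI c tp → b < m48 →
    g Y T P Q pres cl dom U hv NI c tp s b ≠ 0 →
    (cnt r V (XU k e U) : ℝ) + lo2 (g Y T P Q pres cl dom U hv NI c tp s b) * Z ≤ b * Z

/-- Soundness of the inner checker. -/
def InnerStmt : Prop := ∀ (α : Type) [DecidableEq α] (n k w wT gs C : ℕ) (Z : ℝ)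
  (ρ : α → α → Prop) (Ω : Finset α) (e : ℕ → α), Tab α n w wT gs Z → Root n k ρ Ω e C →
    ∀ f, Le14 (ev w wT gs k C f) ∧ Sound14 n k ρ Ω e Z (ev w wT gs k C f)

/-- Soundness of a contraction. -/
def ConStmt : Prop := ∀ (α : Type) [DecidableEq α] (n k C : ℕ) (Z : ℝ)
  (ρ : α → α → Prop) (Ω : Finset α) (e : ℕ → α) (g : G14), 0 ≤ Z → Root n k ρ Ω e C → Le14 g →
    Sound14 n k ρ Ω e Z g →
    ∀ (r : α → α → Prop) (V : Finset α) (Y T P Q pres cl dom U hv NI c tp y s b : ℕ),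
      Hold2 n k ρ Ω e r V Y T P Q pres cl dom U hv NI c tp → U.testBit y = true → e y ∈ V →
      b < m48 → conM g k C Y T P Q pres cl dom U hv NI c tp y s b ≠ 0 →
      lo2 (conM g k C Y T P Q pres cl dom U hv NI c tp y s b) ≤ b ∧
      (cnt (rc r (e y)) (Vc r V (e y)) (XU k e U) : ℝ) +
        lo2 (conM g k C Y T P Q pres cl dom U hv NI c tp y s b) * Z ≤ b * Z

/-! ### the outer checker -/

/-- The assumptions on the digraph that do not depend on the names. -/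
structure Glob (n sg hm nf : ℕ) (ρ : α → α → Prop) (Ω : Finset α) (ND : α → Prop) : Prop where
  sc : SC ρ Ω
  lay : Lay ρ Ω
  card : #Ω = n
  pos : 0 < n
  sgle : sg ≤ 31
  sig : ∀ a ∈ Ω, ∀ b ∈ Ω, indeg ρ Ω a ≤ sg → indeg ρ Ω b ≤ sg → ρ a b → ¬ ρ b a
  hmax : hm ≤ 31 → ∀ v ∈ Ω, indeg ρ Ω v ≤ hm
  fin : nf ≠ 0 → n = nf ∧ hm ≤ 31
  nd : ∀ a ∈ Ω, ∀ b ∈ Ω, ND a → ND b → ρ a b → ¬ ρ b a

/-- The meaning of bit `i` of row `a` of the state. -/
def Mean (k : ℕ) (ρ : α → α → Prop) (Ω : Finset α) (e : ℕ → α) (ND : α → Prop) (a i : ℕ) : Prop :=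
  i < k ∧
    if a < 16 then a < k ∧ ρ (e a) (e i)
    else if a < 32 then a - 16 < k ∧ ρ (e i) (e (a - 16))
    else if a < 48 then a - 32 < k ∧ a - 32 ≠ i ∧ ¬ ρ (e (a - 32)) (e i)
    else if a < 64 then a - 48 < k ∧ a - 48 ≠ i ∧ ¬ ρ (e i) (e (a - 48))
    else if a < 96 then a - 64 ≤ indeg ρ Ω (e i)
    else if a < 128 then indeg ρ Ω (e i) ≤ a - 96
    else if a = 128 then ∀ z ∈ Ω, Un k e z → ¬ ρ z (e i)
    else if a = 129 then ∀ z ∈ Ω, Un k e z → ρ (e i) z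
    else ND (e i)

/-- The invariant of the outer checker. -/
structure OH2 (k dU S : ℕ) (ρ : α → α → Prop) (Ω : Finset α) (e : ℕ → α) (ND : α → Prop) :
    Prop where
  le : k ≤ 15
  mem : ∀ i < k, e i ∈ Ω
  inj : ∀ i < k, ∀ j < k, e i = e j → i = j
  low : ∀ z ∈ Ω, Un k e z → dU ≤ indeg ρ Ω z
  bits : ∀ a, ∀ i < 16, S.testBit (16 * a + i) = true → Mean k ρ Ω e ND a i

/-- What the table for the vertices of large in-degree has to satisfy. -/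
def PhiOK (ρ : α → α → Prop) (Ω : Finset α) (nf ph : ℕ) (Z : ℝ) : Prop := ∀ t ≤ 17, ∃ φ : ℕ → ℝ,
  (∀ d, 0 ≤ φ d) ∧ (∀ d, t ≤ d → φ (d + 1) ≤ φ d) ∧
  (∀ d, t ≤ d → 2 * φ (d + 1) ≤ φ d + φ (d + 2)) ∧
  (∀ v ∈ Ω, t ≤ indeg ρ Ω v → (M ρ (outN ρ Ω v) : ℝ) ≤ φ (indeg ρ Ω v) * Z) ∧
  (∀ d, t ≤ d → d ≤ 60 → φ d ≤ ent (phr ph t) d) ∧
  (nf = 0 → ∀ d N, t ≤ d → d ≤ 61 → ∑ i ∈ range N, φ (d + i) ≤ ent (phr ph t) (62 + d))

/-- Soundness of the include / exclude leaf. -/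
def ILeafStmt : Prop := ∀ (α : Type) [DecidableEq α] (n sg hm nf w wT gs tg : ℕ) (Z : ℝ)
  (ρ : α → α → Prop) (Ω : Finset α) (ND : α → Prop), Tab α n w wT gs Z →
    Glob n sg hm nf ρ Ω ND → tg < m48 → ∀ (k dU S s : ℕ) (e : ℕ → α), OH2 k dU S ρ Ω e ND →
      ilf w wT gs tg k S s ≠ 0 → (M ρ Ω : ℝ) ≤ tg * Z

/-- Soundness of the leaf that branches on the source. -/
def LLeafStmt : Prop := ∀ (α : Type) [DecidableEq α] (n sg hm nf w wT gs ph tg : ℕ) (Z : ℝ)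
  (ρ : α → α → Prop) (Ω : Finset α) (ND : α → Prop), Tab α n w wT gs Z → PhiOK ρ Ω nf ph Z →
    Glob n sg hm nf ρ Ω ND → tg < m48 → ∀ (k dU S s : ℕ) (e : ℕ → α), OH2 k dU S ρ Ω e ND →
      llf w wT gs ph tg hm nf k dU S s ≠ 0 → (M ρ Ω : ℝ) ≤ tg * Z

/-- The state with code `c` forces `Gd`. -/
def Good2 (ρ : α → α → Prop) (Ω : Finset α) (ND : α → Prop) (Gd : Prop) (c : ℕ) : Prop :=
  ∀ e : ℕ → α, OH2 (nib c 0) (f5 c 4) (xpd c) ρ Ω e ND → Gd

/-- Soundness of the outer checker, given the two kinds of leaves. -/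
def OuterStmt : Prop := ∀ (α : Type) [DecidableEq α] (n sg hm nf w wT gs ph tg : ℕ) (tbl : ℕ → ℕ)
  (ρ : α → α → Prop) (Ω : Finset α) (ND : α → Prop) (Gd : Prop), Glob n sg hm nf ρ Ω ND →
    (∀ (k dU S s : ℕ) (e : ℕ → α), OH2 k dU S ρ Ω e ND → ilf w wT gs tg k S s ≠ 0 → Gd) →
    (∀ (k dU S s : ℕ) (e : ℕ → α), OH2 k dU S ρ Ω e ND →
      llf w wT gs ph tg hm nf k dU S s ≠ 0 → Gd) →
    (∀ jx, (∀ i < jx, Good2 ρ Ω ND Gd (tbl i)) → ∀ (f k dU S s : ℕ) (e : ℕ → α),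
      OH2 k dU S ρ Ω e ND → ot tbl w wT gs ph tg sg hm nf jx f k dU S s ≠ 0 → Gd) ∧
    ∀ (L : List ℕ) (j : ℕ), chkL tbl w wT gs ph tg sg hm nf L j = true →
      (∀ i < j, Good2 ρ Ω ND Gd (tbl i)) → ∀ i < j + L.length, Good2 ρ Ω ND Gd (tbl i)

/-! ### small facts about bits -/

theorem m48_eq : m48 = 2 ^ 48 - 1 := by decide

theorem lo2_le (x : ℕ) : lo2 x ≤ m48 := Nat.and_le_right

theorem lo2_pk2 {s b : ℕ} (hb : b ≤ m48) : lo2 (pk2 s b) = b := by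
  have h1 : lo2 (pk2 s b) = (s <<< 48 + b) % 2 ^ 48 := Nat.and_two_pow_sub_one_eq_mod _ 48
  rw [h1, Nat.shiftLeft_eq]
  rw [m48_eq] at hb
  omega

theorem pay2_spec {s b c : ℕ} (hb : b ≤ m48) (h : pay2 s b c ≠ 0) :
    c ≤ b ∧ lo2 (pay2 s b c) = b - c := by
  unfold pay2 at h ⊢
  cases hc : Nat.ble c b
  · simp [hc] at h
  · rw [cond_true]
    exact ⟨Nat.le_of_ble_eq_true hc, lo2_pk2 (le_trans (Nat.sub_le _ _) hb)⟩

theorem pc_eq {x : ℕ} (hx : ∀ t, x.testBit t = true → t < 16) :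
    pc x = #{i ∈ range 16 | x.testBit i} := by
  have h8 : ∀ y < 256, #{i ∈ range 8 | y.testBit i} = nib t8 (Nat.mul 4 y) := by
    decide +kernel
  have hlt : x < 2 ^ 16 := lt_of_bits hx
  have h1 : Nat.land x 255 < 256 := Nat.lt_succ_of_le Nat.and_le_right
  have h2 : Nat.shiftRight x 8 < 256 := by
    change x >>> 8 < 256
    rw [Nat.shiftRight_eq_div_pow]
    omega
  unfold pc
  rw [← h8 _ h1, ← h8 _ h2, show (16 : ℕ) = 8 + 8 from rfl, card_filter, card_filter, card_filter,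
    sum_range_add]
  refine congrArg₂ _ (sum_congr rfl fun i hi => ?_) (sum_congr rfl fun i _ => ?_)
  · rw [tb_land, show (255 : ℕ) = 2 ^ 8 - 1 from rfl, Nat.testBit_two_pow_sub_one]
    simp [mem_range.1 hi]
  · rw [tb_shr]

theorem pc_le16 {x : ℕ} (hx : ∀ t, x.testBit t = true → t < 16) : pc x ≤ 16 := by
  rw [pc_eq hx]
  exact (card_filter_le _ _).trans (card_range 16).le

omit [DecidableEq α] in
/-- The named vertices in a mask are as many as its bits. -/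
theorem pc_le_card {k x : ℕ} {e : ℕ → α} (hk : k ≤ 16)
    (inj : ∀ i < k, ∀ j < k, e i = e j → i = j) (hx : ∀ t, x.testBit t = true → t < k)
    {A : Finset α} (hA : ∀ i, x.testBit i = true → e i ∈ A) : pc x ≤ #A := by
  rw [pc_eq fun t ht => (hx t ht).trans_le hk]
  refine card_le_card_of_injOn e (fun i hi => hA i (mem_filter.1 (mem_coe.1 hi)).2)
    fun i hi j hj => inj i (hx i (mem_filter.1 (mem_coe.1 hi)).2) j
      (hx j (mem_filter.1 (mem_coe.1 hj)).2)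

theorem tb_f16 (s i t : ℕ) : (f16 s i).testBit t = (s.testBit (i + t) && decide (t < 16)) := by
  unfold f16
  rw [tb_land, tb_shr, tb_ffff]

theorem f5_le (s i : ℕ) : f5 s i ≤ 31 := Nat.and_le_right

theorem tb_blk (S a t : ℕ) :
    (blk S a).testBit t = (S.testBit (256 * a + t) && decide (t < 256)) := by
  unfold blk
  rw [tb_land, tb_shr, show f256 = 2 ^ 256 - 1 by decide +kernel, Nat.testBit_two_pow_sub_one]
  rfl

theorem mx_eq (a b : ℕ) : mx a b = max a b := by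
  change a + (b - a) = _
  omega

theorem two_mul_tri (l : ℕ) : 2 * tri l = l * (l - 1) := by
  change 2 * (l * (l - 1) / 2) = _
  exact Nat.two_mul_div_two_of_even (Nat.even_mul_pred_self l)

end Pool.Agent.MP_75ef89_co.Ex
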