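import Mathlib
import Pool.Agent.MP_75ef89_co.Ex.Spec2

/-! Invariants of the inner (include / exclude) calculus: removed-vertex counts, valid in-degree
bounds, the dominating-set record, products, modules and sources. -/

namespace Pool.Agent.MP_75ef89_co.Ex.In

open Finset

variable {α : Type} [DecidableEq α]

open Classical in
/-- The vertices that are not excluded. -/
noncomputable def Act (k : ℕ) (e : ℕ → α) (V : Finset α) (U : ℕ) : Finset α :=
  {z ∈ V | ¬ XU k e U z}

variable {n k : ℕ} {e : ℕ → α} {R : Finset α} {r ρ : α → α → Prop} {V Ω A : Finset α}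
  {Y T P Q pres cl dom U hv c NI tp C : ℕ}

/-! ### bits and counts -/

theorem ne_tf {b : Bool} (h1 : b = true) (h2 : b = false) : False := by
  rw [h1] at h2
  exact absurd h2 (by decide)

theorem tf {b : Bool} (h : ¬ b = false) : b = true := by simpa using h

theorem ft {b : Bool} (h : ¬ b = true) : b = false := by simpa using h

theorem pc_split {x : ℕ} (hx : ∀ t, x.testBit t = true → t < 16) (y : ℕ) :
    pc x = pc (Nat.land x y) + pc (dif x y) := by
  rw [pc_eq hx, pc_eq (x := Nat.land x y), pc_eq (x := dif x y),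
    ← card_filter_add_card_filter_not (s := {i ∈ range 16 | x.testBit i}) fun i => y.testBit i,
    filter_filter, filter_filter]
  · congr 2 <;> ext i <;> simp [tb_land, tb_dif, -Nat.land_eq]
  · intro t ht
    rw [tb_dif, Bool.and_eq_true] at ht
    exact hx t ht.1
  · intro t ht
    rw [tb_land, Bool.and_eq_true] at ht
    exact hx t ht.1

theorem pc_le_of_lt {x k : ℕ} (hk : k ≤ 16) (hx : ∀ t, x.testBit t = true → t < k) : pc x ≤ k :=
  (pc_le_card (e := id) hk (fun _ _ _ _ => id) hx (A := range k)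
    fun i hi => mem_range.2 (hx i hi)).trans (card_range k).le

theorem pc_lor_bit {x y : ℕ} (hx : ∀ t, x.testBit t = true → t < 16) (hy : y < 16) :
    pc (Nat.lor x (bit y)) ≤ pc x + 1 := by
  rw [pc_eq hx, pc_eq (x := Nat.lor x (bit y))]
  · refine le_trans (card_le_card fun i hi => ?_) (card_insert_le y _)
    simp only [mem_filter, mem_insert, tb_lor, tb_bit, Bool.or_eq_true, decide_eq_true_eq] at hi ⊢
    exact hi.2.elim (fun h => .inr ⟨hi.1, h⟩) fun h => .inl h.symm
  · intro t ht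
    rw [tb_lor, tb_bit, Bool.or_eq_true, decide_eq_true_eq] at ht
    exact ht.elim (hx t) fun h => h ▸ hy

theorem two_bits {x : ℕ} (hx : ∀ t, x.testBit t = true → t < 16) (h : 2 ≤ pc x) :
    ∃ i j, i ≠ j ∧ x.testBit i = true ∧ x.testBit j = true := by
  rw [pc_eq hx] at h
  obtain ⟨i, hi, j, hj, hne⟩ := one_lt_card.1 h
  exact ⟨i, j, hne, (mem_filter.1 hi).2, (mem_filter.1 hj).2⟩

theorem row_lt {M i t : ℕ} (h : (row M i).testBit t = true) : t < 16 := by
  rw [tb_row, Bool.and_eq_true, decide_eq_true_eq] at h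
  exact h.2

theorem row_bit {M i t : ℕ} (h : (row M i).testBit t = true) : M.testBit (16 * i + t) = true := by
  rw [tb_row, Bool.and_eq_true] at h
  exact h.1

theorem bit_row {M i t : ℕ} (ht : t < 16) (h : M.testBit (16 * i + t) = true) :
    (row M i).testBit t = true := by
  rw [tb_row, h]
  simp [ht]

/-- The bits of an outer product. -/
theorem tb_sprmul {S W : ℕ} (hS : ∀ t, S.testBit t = true → t < 15)
    (hW : ∀ t, W.testBit t = true → t < 16) {i j : ℕ} (h1 : S.testBit i = true)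
    (h2 : W.testBit j = true) : (Nat.mul (spr S) W).testBit (16 * i + j) = true := by
  rw [tb_outer _ hW i (hW j h2), tb_spr hS, show 16 * i / 16 = i by omega, h1, h2]
  · simp
  · intro t ht
    rw [tb_spr hS, Bool.and_eq_true, decide_eq_true_eq] at ht
    exact ht.1

theorem zero_bit {a b t : ℕ} (h : Nat.beq (Nat.land a b) 0 = true) (ha : a.testBit t = true) :
    b.testBit t = false := by
  have h1 := tb_land a b t
  rw [Nat.eq_of_beq_eq_true h, ha] at h1
  simpa using h1.symm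

/-! ### the active set -/

omit [DecidableEq α] in
theorem mem_Act {z : α} : z ∈ Act k e V U ↔ z ∈ V ∧ ¬ XU k e U z := by
  classical
  unfold Act
  exact mem_filter

omit [DecidableEq α] in
theorem mem_RR {z : α} : z ∈ RR k e Ω ↔ z ∈ Ω ∧ Un k e z := by
  classical
  unfold RR
  exact mem_filter

omit [DecidableEq α] in
theorem mem_Rest {x : ℕ} {z : α} : z ∈ Rest k e V U x ↔ z ∈ V ∧ ¬ XU k e U z ∧ ¬ Im e x z := by
  classical
  unfold Rest
  exact mem_filter

omit [DecidableEq α] in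
theorem Act_sub : Act k e V U ⊆ V := fun _ h => (mem_Act.1 h).1

omit [DecidableEq α] in
theorem act_bit {i : ℕ} (hi : i < k) (h : ¬ XU k e U (e i)) : U.testBit i = true :=
  tf fun hc => h ⟨i, hi, rfl, hc⟩

omit [DecidableEq α] in
theorem bit_act (inj : ∀ i < k, ∀ j < k, e i = e j → i = j) {i : ℕ} (hi : i < k)
    (hU : U.testBit i = true) : ¬ XU k e U (e i) := fun ⟨j, hj, h1, h2⟩ =>
  ne_tf hU (inj j hj i hi h1 ▸ h2)

omit [DecidableEq α] in
theorem act_mono {U' : ℕ} (h2 : ∀ i, U'.testBit i = true → U.testBit i = true) {z : α}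
    (hz : ¬ XU k e U' z) : ¬ XU k e U z := fun ⟨i, hi, k1, k2⟩ =>
  hz ⟨i, hi, k1, ft fun k => ne_tf (h2 i k) k2⟩

theorem cnt_le_Act : cnt r V (XU k e U) ≤ M r (Act k e V U) := cnt_del fun _ => mem_Act

/-- Deleting excluded vertices and un-excluding vertices only increases the count. -/
theorem cnt_shrink {V' : Finset α} {X X' : α → Prop} (h1 : V' ⊆ V)
    (h2 : ∀ x ∈ V, ¬ X x → x ∈ V') (h3 : ∀ x ∈ V', X' x → X x) : cnt r V X ≤ cnt r V' X' := by
  rw [cnt_eq, cnt_eq]
  refine card_le_card fun W hW => ?_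
  obtain ⟨k1, k2⟩ := mem_MS.1 hW
  have hs : W ⊆ V' := fun x hx => h2 x (k1.1 hx) (k2 x hx)
  exact mem_MS.2 ⟨⟨hs, k1.2.1, fun x hx => k1.2.2 x (h1 hx)⟩,
    fun x hx k => k2 x hx (h3 x (hs hx) k)⟩

omit [DecidableEq α] in
theorem k_le (hR : Root n k ρ Ω e C) : k ≤ n := by
  rw [← hR.card, ← card_range k]
  exact card_le_card_of_injOn e (fun i hi => hR.mem i (mem_range.1 (mem_coe.1 hi)))
    fun i hi j hj => hR.inj i (mem_range.1 (mem_coe.1 hi)) j (mem_range.1 (mem_coe.1 hj))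

theorem names (hR : Root n k ρ Ω e C) : Names n k e (RR k e Ω) := by
  refine ⟨hR.le, hR.inj, ?_⟩
  have h1 : #((range k).image e) = k := by
    rw [card_image_of_injOn fun i hi j hj => hR.inj i (mem_range.1 (mem_coe.1 hi)) j
      (mem_range.1 (mem_coe.1 hj)), card_range]
  have h2 : Disjoint (RR k e Ω) ((range k).image e) := disjoint_left.2 fun z h h' => by
    obtain ⟨i, hi, k1⟩ := mem_image.1 h'
    exact (mem_RR.1 h).2 i (mem_range.1 hi) k1
  have h3 := card_le_card (union_subset (s := RR k e Ω) (u := Ω) (t := (range k).image e)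
    (fun z hz => (mem_RR.1 hz).1) fun z hz => by
      obtain ⟨i, hi, rfl⟩ := mem_image.1 hz
      exact hR.mem i (mem_range.1 hi))
  rw [card_union_of_disjoint h2, h1, hR.card] at h3
  exact h3

omit [DecidableEq α] in
theorem named_of (h : Hold k e R r V Y T P Q pres cl dom U) {z : α} (hz : z ∈ V)
    (hx : ¬ XU k e U z) (hR : z ∉ R) : ∃ i < k, U.testBit i = true ∧ e i = z := by
  obtain ⟨i, hi, rfl⟩ := (h.cov z hz).resolve_left hR
  exact ⟨i, hi, act_bit hi hx, rfl⟩

omit [DecidableEq α] in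
theorem Rest_mono {V' : Finset α} {U' x : ℕ} (h1 : V' ⊆ V)
    (h2 : ∀ i, U'.testBit i = true → U.testBit i = true) : Rest k e V' U' x ⊆ Rest k e V U x :=
  fun _ hz => mem_Rest.2 ⟨h1 (mem_Rest.1 hz).1, act_mono h2 (mem_Rest.1 hz).2.1,
    (mem_Rest.1 hz).2.2⟩

/-! ### weakening a state -/

theorem tp_mono {V' : Finset α} {U' : ℕ} {r' : α → α → Prop}
    (h : Hold2 n k ρ Ω e r V Y T P Q pres cl dom U hv NI c tp) (hs : V' ⊆ V)
    (hU : ∀ i, U'.testBit i = true → U.testBit i = true) (hr : ∀ a b, r a b → r' a b) :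
    ∃ S ⊆ V', (∀ a ∈ S, ¬ XU k e U' a → ∀ b ∈ V', ¬ XU k e U' b → b ∉ S → r' a b) ∧
      (∀ i, (row tp 0).testBit i = true → i < k ∧ (e i ∈ V' → ¬ XU k e U' (e i) → e i ∈ S)) ∧
      #(Rest k e S U' (row tp 1)) ≤ Nat.shiftRight tp 32 := by
  obtain ⟨S, -, h2, h3, h4⟩ := h.htp
  exact ⟨S ∩ V', inter_subset_right, fun a ha k1 b hb k2 k3 => hr _ _ (h2 a (mem_inter.1 ha).1
      (act_mono hU k1) b (hs hb) (act_mono hU k2) fun k4 => k3 (mem_inter.2 ⟨k4, hb⟩)),
    fun i hi => ⟨(h3 i hi).1, fun k1 k2 =>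
      mem_inter.2 ⟨(h3 i hi).2 (hs k1) (act_mono hU k2), k1⟩⟩,
    (card_le_card (Rest_mono inter_subset_left hU)).trans h4⟩

theorem shrink (h : Hold2 n k ρ Ω e r V Y T P Q pres cl dom U hv NI c tp) {V' : Finset α}
    {pres' U' : ℕ} (hs : V' ⊆ V) (hp : ∀ i, pres'.testBit i = true → i < k ∧ e i ∈ V')
    (hU : ∀ i, U'.testBit i = true → U.testBit i = true) :
    Hold2 n k ρ Ω e r V' Y T P Q pres' cl dom U' hv NI c tp :=
  ⟨⟨h.hold.sc.mono hs, fun z hz => h.hold.cov z (hs hz),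
      fun i hi j hj h1 h2 => h.hold.hY i hi j hj (hs h1) (hs h2),
      fun i hi j hj h1 h2 => h.hold.hT i hi j hj (hs h1) (hs h2),
      fun i hi j hj h1 h2 => h.hold.hP i hi j hj (hs h1) (hs h2),
      fun i hi j hj h1 h2 => h.hold.hQ i hi j hj (hs h1) (hs h2), hp,
      fun i hi h1 h2 z hz => h.hold.hcl i hi h1 (hs h2) z (hs hz),
      fun i hi h1 h2 z hz => h.hold.hdom i hi h1 (hs h2) z (hs hz),
      fun i hi => h.hold.hU i (hU i hi)⟩,
    h.lay.mono hs, hs.trans h.sub, fun a ha b hb => h.mono a (hs ha) b (hs hb),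
    fun i hi k1 k2 z hz k3 => h.hhv i hi k1 (hs k2) z (hs hz) (act_mono hU k3), h.hNI, h.hc,
    le_trans (Nat.add_le_add_right (Nat.add_le_add_right (card_le_card (Rest_mono hs hU)) _) _)
      h.hJ, tp_mono h hs hU fun _ _ => id, h.htn⟩

/-- The name of a present undecided vertex can be added to `NI`. -/
theorem addNI (hR : Root n k ρ Ω e C) (h : Hold2 n k ρ Ω e r V Y T P Q pres cl dom U hv NI c tp)
    {y : ℕ} (hy : U.testBit y = true) (hyV : e y ∈ V) :
    Hold2 n k ρ Ω e r V Y T P Q pres cl dom U hv (Nat.lor NI (bit y)) c tp := by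
  have hk := hR.le
  have hyk := h.hold.hU y hy
  refine { h with hNI := fun i hi => ?_, hJ := ?_ }
  · rw [tb_lor, tb_bit, Bool.or_eq_true, decide_eq_true_eq] at hi
    exact hi.elim (h.hNI i) fun k => k ▸ hyk
  · by_cases k1 : NI.testBit y = true
    · have : Nat.lor NI (bit y) = NI := Nat.eq_of_testBit_eq fun i => by
        rw [tb_lor, tb_bit]
        by_cases k2 : y = i
        · simp [← k2, k1]
        · simp [k2]
      rw [this]
      exact h.hJ
    · have k2 : e y ∈ Rest k e V U NI := mem_Rest.2 ⟨hyV, bit_act hR.inj hyk hy,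
        fun ⟨i, k3, k4⟩ => k1 (hR.inj i (h.hNI i k3) y hyk k4 ▸ k3)⟩
      have k3 : Rest k e V U (Nat.lor NI (bit y)) ⊆ (Rest k e V U NI).erase (e y) := by
        intro z hz
        rw [mem_Rest] at hz
        refine mem_erase.2 ⟨fun k4 => hz.2.2 ⟨y, ?_, k4.symm⟩,
          mem_Rest.2 ⟨hz.1, hz.2.1, fun ⟨i, k4, k5⟩ => hz.2.2 ⟨i, ?_, k5⟩⟩⟩
        · simp [tb_lor, tb_bit, -Nat.lor_eq]
        · rw [tb_lor, k4]
          rfl
      have k4 := card_le_card k3
      have k5 := card_erase_add_one k2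
      have k6 := pc_lor_bit (x := NI) (y := y) (fun t ht => by have := h.hNI t ht; omega)
        (by omega)
      have := h.hJ
      omega

/-! ### in-degree bounds on the active set -/

theorem ub_cl (h : Hold k e R r V Y T P Q pres cl dom U) (hk : k ≤ 15) {y : ℕ}
    (hy : y < k) (hc : cl.testBit y = true) (hA : e y ∈ V) :
    indeg r (Act k e V U) (e y) ≤ pc (dif (Nat.land U (row Q y)) (bit y)) := by
  classical
  unfold indeg
  refine card_image_le_pc (e := e) (fun t ht => ?_) fun z hz => ?_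
  · rw [tb_dif, tb_land, Bool.and_eq_true, Bool.and_eq_true] at ht
    exact row_lt ht.1.2
  · rw [mem_filter, mem_Act] at hz
    obtain ⟨i, hi, k1, rfl⟩ := named_of h hz.1.1 hz.1.2 fun hR =>
      h.hcl y hy hc hA z hz.1.1 hR hz.2
    have k2 : y ≠ i := fun k => h.sc.irr _ hA (k ▸ hz.2)
    refine ⟨i, ?_, rfl⟩
    rw [tb_dif, tb_land, k1, bit_row (by omega) (h.hQ y hy i hi hA hz.1.1 hz.2), tb_bit]
    simp [k2]

theorem ub_hv (hR : Root n k ρ Ω e C) (h : Hold2 n k ρ Ω e r V Y T P Q pres cl dom U hv NI c tp)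
    {y : ℕ} (hy : y < k) (hc : hv.testBit y = true) (hA : e y ∈ V) :
    indeg r (Act k e V U) (e y) + pc (dif (row C y) U) ≤ indeg ρ Ω (e y) := by
  classical
  have hk := hR.le
  have hb : ∀ t, (dif (row C y) U).testBit t = true →
      (t < k ∧ ρ (e t) (e y)) ∧ U.testBit t = false := fun t ht => by
    rw [tb_dif, Bool.and_eq_true, Bool.not_eq_true'] at ht
    exact ⟨hR.hT0 y hy t (row_lt ht.1) (row_bit ht.1), ht.2⟩
  have k1 : pc (dif (row C y) U) ≤ #{z ∈ Ω | ρ z (e y) ∧ z ∉ Act k e V U} :=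
    pc_le_card (by omega) hR.inj (fun t ht => (hb t ht).1.1) fun t ht =>
      mem_filter.2 ⟨hR.mem t (hb t ht).1.1, (hb t ht).1.2, fun k4 =>
        ne_tf (act_bit (hb t ht).1.1 (mem_Act.1 k4).2) (hb t ht).2⟩
  have k2 : indeg r (Act k e V U) (e y) + #{z ∈ Ω | ρ z (e y) ∧ z ∉ Act k e V U} ≤
      indeg ρ Ω (e y) := by
    unfold indeg
    rw [← card_union_of_disjoint]
    · refine card_le_card fun z hz => ?_
      simp only [mem_union, mem_filter] at hz ⊢
      exact hz.elim (fun k => ⟨h.sub (Act_sub k.1),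
        h.hhv y hy hc hA z (Act_sub k.1) (mem_Act.1 k.1).2 k.2⟩) fun k => ⟨k.1, k.2.1⟩
    · rw [disjoint_left]
      intro z k1 k2
      exact (mem_filter.1 k2).2.2 (mem_filter.1 k1).1
  omega

/-- If no unnamed vertex and no undecided name is missing, the root in-degree survives. -/
theorem lb_full (hR : Root n k ρ Ω e C) (h : Hold2 n k ρ Ω e r V Y T P Q pres cl dom U hv NI c tp)
    (h1 : RR k e Ω ⊆ Act k e V U) (h2 : ∀ i, U.testBit i = true → e i ∈ Act k e V U) {y : ℕ}
    (hy : y < k) (hA : e y ∈ V) :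
    indeg ρ Ω (e y) ≤ indeg r (Act k e V U) (e y) + pc (dif (row C (16 + y)) U) := by
  classical
  have hk := hR.le
  have k1 : #{z ∈ Ω | ρ z (e y) ∧ z ∉ Act k e V U} ≤ pc (dif (row C (16 + y)) U) := by
    refine card_image_le_pc (e := e) (fun t ht => ?_) fun z hz => ?_
    · rw [tb_dif, Bool.and_eq_true] at ht
      exact row_lt ht.1
    · rw [mem_filter] at hz
      have : ∃ i < k, e i = z := by
        by_contra hc
        exact hz.2.2 (h1 (mem_RR.2 ⟨hz.1, fun i hi k => hc ⟨i, hi, k⟩⟩))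
      obtain ⟨i, hi, rfl⟩ := this
      refine ⟨i, ?_, rfl⟩
      rw [tb_dif, bit_row (by omega) (hR.hQ0 y hy i hi hz.2.1), ft fun k => hz.2.2 (h2 i k)]
      rfl
  have k2 : indeg ρ Ω (e y) ≤ indeg r (Act k e V U) (e y) +
      #{z ∈ Ω | ρ z (e y) ∧ z ∉ Act k e V U} := by
    unfold indeg
    refine le_trans (card_le_card fun z hz => ?_) (card_union_le _ _)
    simp only [mem_union, mem_filter] at hz ⊢
    by_cases k : z ∈ Act k e V U
    · exact .inl ⟨k, h.mono _ (Act_sub k) _ hA hz.2⟩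
    · exact .inr ⟨hz.1, hz.2, k⟩
  omega

/-! ### the number of removed vertices -/

/-- The situation at a leaf: at least `m` vertices are gone; if exactly `m` are gone then the names
in `W` are active, and in the form `f` all unnamed vertices too. -/
def Lf (n k : ℕ) (Ω : Finset α) (e : ℕ → α) (V : Finset α) (U : ℕ) (f : Bool) (m W : ℕ) : Prop :=
  m ≤ 47 ∧ #(Act k e V U) + m ≤ n ∧ (#(Act k e V U) + m + 1 ≤ n ∨
    (∀ i, W.testBit i = true → i < k ∧ e i ∈ Act k e V U) ∧
      (f = true → RR k e Ω ⊆ Act k e V U ∧ ∀ i, U.testBit i = true → e i ∈ Act k e V U))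

theorem lf_names (hR : Root n k ρ Ω e C)
    (h : Hold2 n k ρ Ω e r V Y T P Q pres cl dom U hv NI c tp) :
    Lf n k Ω e V U true (Nat.sub k (pc U)) U := by
  have hk := hR.le
  have hU := h.hold.hU
  set I : Finset ℕ := {i ∈ range k | ¬ U.testBit i} with hI
  have k1 : #(I.image e) = #I := card_image_of_injOn fun i hi j hj =>
    hR.inj i (mem_range.1 (mem_filter.1 (mem_coe.1 hi)).1) j
      (mem_range.1 (mem_filter.1 (mem_coe.1 hj)).1)
  have k2 : #{i ∈ range k | U.testBit i} + #I = k := by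
    rw [hI, card_filter_add_card_filter_not, card_range]
  have k3 : #{i ∈ range k | U.testBit i} ≤ pc U := by
    rw [pc_eq fun t ht => by have := hU t ht; omega]
    refine card_le_card fun i hi => ?_
    simp only [mem_filter, mem_range] at hi ⊢
    exact ⟨by omega, hi.2⟩
  have hd : Disjoint (Act k e V U) (I.image e) := disjoint_right.2 fun z hz k => by
    obtain ⟨i, hi, rfl⟩ := mem_image.1 hz
    rw [mem_filter, mem_range] at hi
    exact hi.2 (act_bit hi.1 (mem_Act.1 k).2)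
  have hs : Act k e V U ∪ I.image e ⊆ Ω := union_subset (Act_sub.trans h.sub) fun z hz => by
    obtain ⟨i, hi, rfl⟩ := mem_image.1 hz
    exact hR.mem i (mem_range.1 (mem_filter.1 hi).1)
  have k4 := card_le_card hs
  rw [card_union_of_disjoint hd, hR.card] at k4
  rw [Nat.sub_eq]
  refine ⟨by omega, by omega, ?_⟩
  by_cases k5 : #(Act k e V U) + (k - pc U) + 1 ≤ n
  · exact .inl k5
  have k6 := eq_of_subset_of_card_le hs (by rw [card_union_of_disjoint hd, hR.card]; omega)
  have k7 : ∀ z ∈ Ω, z ∉ I.image e → z ∈ Act k e V U := fun z hz hn =>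
    (mem_union.1 (k6 ▸ hz)).resolve_right hn
  have k8 : ∀ i, U.testBit i = true → e i ∈ Act k e V U := fun i hb =>
    k7 _ (hR.mem i (hU i hb)) fun k => by
      obtain ⟨j, hj, k9⟩ := mem_image.1 k
      rw [mem_filter, mem_range] at hj
      exact hj.2 (hR.inj j hj.1 i (hU i hb) k9 ▸ hb)
  refine .inr ⟨fun i hi => ⟨hU i hi, k8 i hi⟩, fun _ => ⟨fun z hz => ?_, k8⟩⟩
  rw [mem_RR] at hz
  refine k7 z hz.1 fun k => ?_
  obtain ⟨i, hi, k9⟩ := mem_image.1 k
  exact hz.2 i (mem_range.1 (mem_filter.1 hi).1) k9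

theorem lf_J (hR : Root n k ρ Ω e C) (h : Hold2 n k ρ Ω e r V Y T P Q pres cl dom U hv NI c tp) :
    Lf n k Ω e V U false (Nat.add c (pc (dif NI U))) (Nat.land U NI) := by
  have hk := hR.le
  have h16 : ∀ t, NI.testBit t = true → t < 16 := fun t ht => by have := h.hNI t ht; omega
  have k1 := pc_split h16 U
  have k2 : pc (dif NI U) ≤ k := pc_le_of_lt (by omega) fun t ht => by
    rw [tb_dif, Bool.and_eq_true] at ht
    exact h.hNI t ht.1
  have key : ∀ B : Finset α, (∀ z ∈ B, z ∈ Act k e V U ∨ Im e (Nat.land NI U) z) →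
      #B ≤ #(Rest k e V U NI) + pc (Nat.land NI U) := by
    intro B hB
    have k3 : #(B \ Rest k e V U NI) ≤ pc (Nat.land NI U) := by
      refine card_image_le_pc (e := e) (fun t ht => ?_) fun z hz => ?_
      · rw [tb_land, Bool.and_eq_true] at ht
        exact h16 t ht.1
      · rw [mem_sdiff, mem_Rest] at hz
        refine (hB z hz.1).elim (fun k => ?_) id
        rw [mem_Act] at k
        obtain ⟨i, k4, rfl⟩ : Im e NI z := by_contra fun k4 => hz.2 ⟨k.1, k.2, k4⟩
        exact ⟨i, by rw [tb_land, k4, act_bit (h.hNI i k4) k.2]; rfl, rfl⟩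
    have k4 : #B ≤ #(B \ Rest k e V U NI) + #(Rest k e V U NI) := card_le_card_sdiff_add_card
    omega
  have k3 := key _ fun z hz => .inl hz
  have := h.hJ
  have := h.hc
  rw [Nat.add_eq]
  refine ⟨by omega, by omega, ?_⟩
  by_cases k5 : ∀ i, (Nat.land U NI).testBit i = true → i < k ∧ e i ∈ Act k e V U
  · exact .inr ⟨k5, fun k => absurd k (by decide)⟩
  left
  push Not at k5
  obtain ⟨i, k5, k6⟩ := k5
  rw [tb_land, Bool.and_eq_true] at k5
  have k7 := key (insert (e i) (Act k e V U)) fun z hz => (mem_insert.1 hz).elim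
    (fun k => .inr ⟨i, by rw [tb_land, k5.1, k5.2]; rfl, k.symm⟩) .inl
  rw [card_insert_of_notMem (k6 (h.hNI i k5.2))] at k7
  omega

/-! ### contraction -/

theorem no_unnamed (h : Hold k e R r V Y T P Q pres cl dom U) {y : ℕ} (hy : y < k)
    (hyV : e y ∈ V) (hd : cl.testBit y = true ∨ dom.testBit y = true) {z : α}
    (hz : z ∈ Vc r V (e y)) (hr : r z (e y)) : ∃ j < k, e j = z := by
  rw [mem_Vc] at hz
  exact (h.cov z hz.1).resolve_left fun hR => hd.elim (fun k => h.hcl y hy k hyV z hz.1 hR hr)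
    fun k => hz.2.2 ⟨hr, h.hdom y hy k hyV z hz.1 hR⟩

theorem Vc_sub {y : α} : Vc r V y ⊆ V := fun _ hz => (mem_Vc.1 hz).1

/-- The invariant after a plain contraction. -/
theorem con (hR : Root n k ρ Ω e C) (h : Hold2 n k ρ Ω e r V Y T P Q pres cl dom U hv NI c tp)
    {y : ℕ} (hy : U.testBit y = true) (hyV : e y ∈ V) :
    Hold2 n k ρ Ω e (rc r (e y)) (Vc r V (e y))
      (Nat.lor Y (Nat.mul (col Y y) (row Y y))) (Nat.lor T (Nat.mul (col T y) (row T y)))
      (Nat.lor P (Nat.mul (dif (col P y) (col T y)) (dif (row P y) (row T y))))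
      (Nat.lor Q (Nat.mul (dif (col Q y) (col Y y)) (dif (row Q y) (row Y y))))
      (dif pres (Nat.lor (Nat.land (row P y) (row Q y)) (bit y)))
      (bif tb dom y then cl else dif cl (dif (row P y) (row T y)))
      (bif tb dom y then Nat.lor dom (row T y) else dom)
      (dif U (Nat.lor (Nat.land (row Y y) (row T y)) (bit y)))
      (bif (tb dom y && Nat.beq (Nat.land (dif U (Nat.lor (Nat.land (row Y y) (row T y)) (bit y)))
        (row Q y)) 0) then hv else dif hv (dif (row P y) (row T y)))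
      (Nat.lor NI (bit y)) c tp := by
  have hk := hR.le
  have hyk := h.hold.hU y hy
  have hU : ∀ i, (dif U (Nat.lor (Nat.land (row Y y) (row T y)) (bit y))).testBit i = true →
      U.testBit i = true := fun i hi => by
    rw [tb_dif, Bool.and_eq_true] at hi
    exact hi.1
  have h' := addNI hR h hy hyV
  refine ⟨h.hold.con (names hR) hyk hyV, h.lay.con h.hold.sc hyV, Vc_sub.trans h.sub,
    fun a ha b hb k => .inl (h.mono a (Vc_sub ha) b (Vc_sub hb) k),
    fun i hi k1 k2 z hz k3 k4 => ?_, h'.hNI, h.hc,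
    le_trans (Nat.add_le_add_right (Nat.add_le_add_right
      (card_le_card (Rest_mono Vc_sub hU)) _) _) h'.hJ,
    tp_mono h Vc_sub hU fun _ _ => .inl, h.htn⟩
  have k5 := mem_Vc.1 k2
  cases hd : (tb dom y && Nat.beq (Nat.land (dif U (Nat.lor (Nat.land (row Y y) (row T y))
    (bit y))) (row Q y)) 0)
  · rw [hd, cond_false, tb_dif, tb_dif, Bool.and_eq_true] at k1
    rcases k4 with k4 | k4
    · exact h.hhv i hi k1.1 k5.1 z (Vc_sub hz) (act_mono hU k3) k4
    · have k6 := k1.2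
      rw [bit_row (by omega) (h.hold.hP y hyk i hi hyV k5.1 k4.2)] at k6
      exact absurd ⟨h.hold.hT y hyk i hi hyV k5.1 (row_bit (by simpa using k6)), k4.2⟩ k5.2.2
  · rw [hd, cond_true] at k1
    rw [Bool.and_eq_true, tb_eq] at hd
    rcases k4 with k4 | k4
    · exact h.hhv i hi k1 k5.1 z (Vc_sub hz) (act_mono hU k3) k4
    · obtain ⟨j, hj, rfl⟩ := no_unnamed h.hold hyk hyV (.inr hd.1) hz k4.1
      exact (ne_tf (bit_row (by omega) (h.hold.hQ y hyk j hj hyV (Vc_sub hz) k4.1))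
        (zero_bit hd.2 (act_bit hj k3))).elim

/-- A new count of removed vertices from the root in-degree of the contracted vertex. -/
theorem newJ (hR : Root n k ρ Ω e C) (h : Hold2 n k ρ Ω e r V Y T P Q pres cl dom U hv NI c tp)
    {y U' l : ℕ} (hy : y < k) (hyV : e y ∈ V) (hd : dom.testBit y = true)
    (hU : U'.testBit y = false) (hl : l ≤ indeg ρ Ω (e y)) :
    (∀ i, (Nat.lor (dif (msk k) (Nat.lor (row C (16 + y)) (bit y)))
      (dif (Nat.land (row C (16 + y)) U') (row Y y))).testBit i = true →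
        U'.testBit i = true ∨ i < k) ∧
    ((∀ i, U'.testBit i = true → i < k) →
      #(Rest k e (Vc r V (e y)) U' (Nat.lor (dif (msk k) (Nat.lor (row C (16 + y)) (bit y)))
        (dif (Nat.land (row C (16 + y)) U') (row Y y)))) +
      pc (Nat.lor (dif (msk k) (Nat.lor (row C (16 + y)) (bit y)))
        (dif (Nat.land (row C (16 + y)) U') (row Y y))) +
      (l + 1 - pc (dif (Nat.land (row C (16 + y)) U') (row Y y))) ≤ n) := by
  classical
  have hk := hR.le
  set K := dif (Nat.land (row C (16 + y)) U') (row Y y) with hK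
  set N := Nat.lor (dif (msk k) (Nat.lor (row C (16 + y)) (bit y))) K with hN
  have bK : ∀ i, K.testBit i = ((row C (16 + y)).testBit i && U'.testBit i &&
      !(row Y y).testBit i) := fun i => by rw [hK, tb_dif, tb_land]
  have bN : ∀ i, N.testBit i = ((decide (i < k) && !((row C (16 + y)).testBit i ||
      decide (y = i))) || K.testBit i) := fun i => by
    rw [hN, tb_lor, tb_dif, tb_lor, tb_msk, tb_bit]
  have n1 : ∀ i, N.testBit i = true → U'.testBit i = true ∨ i < k := fun i hi => by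
    rw [bN, bK] at hi
    simp only [Bool.or_eq_true, Bool.and_eq_true, decide_eq_true_eq] at hi
    exact hi.elim (fun k => .inr k.1) fun k => .inl k.1.2
  refine ⟨n1, fun hUk => ?_⟩
  have n2 : ∀ i, N.testBit i = true → i < k := fun i hi => (n1 i hi).elim (hUk i) id
  set B : Finset α := {z ∈ Ω | ρ z (e y) ∧ ¬ Im e N z} with hB
  set D : Finset α := {z ∈ Ω | Im e N z} with hD
  have hyB : e y ∉ B := fun k => hR.sc.irr _ (hR.mem y hy) (mem_filter.1 k).2.1
  have hyN : ¬ Im e N (e y) := fun ⟨i, k3, k4⟩ => by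
    rw [hR.inj i (n2 i k3) y hy k4, bN, bK, hU] at k3
    simp at k3
  have k1 : #{z ∈ Ω | ρ z (e y) ∧ Im e N z} ≤ pc K := by
    refine card_image_le_pc (e := e) (fun t ht => ?_) fun z hz => ?_
    · rw [bK, Bool.and_eq_true, Bool.and_eq_true] at ht
      exact row_lt ht.1.1
    · obtain ⟨-, k2, i, k3, rfl⟩ := mem_filter.1 hz
      refine ⟨i, ?_, rfl⟩
      have k4 := n2 i k3
      rw [bN, bit_row (by omega) (hR.hQ0 y hy i k4 k2)] at k3
      simpa using k3
  have k2 : indeg ρ Ω (e y) ≤ #B + #{z ∈ Ω | ρ z (e y) ∧ Im e N z} := by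
    unfold indeg
    refine le_trans (card_le_card fun z hz => ?_) (card_union_le _ _)
    simp only [hB, mem_union, mem_filter] at hz ⊢
    tauto
  have k3 : pc N ≤ #D := pc_le_card (by omega) hR.inj n2 fun i hi =>
    mem_filter.2 ⟨hR.mem i (n2 i hi), i, hi, rfl⟩
  have d1 : Disjoint (Rest k e (Vc r V (e y)) U' N) D := disjoint_left.2 fun z k4 k5 =>
    (mem_Rest.1 k4).2.2 (mem_filter.1 k5).2
  have d2 : Disjoint (Rest k e (Vc r V (e y)) U' N ∪ D) (insert (e y) B) := by
    rw [disjoint_left]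
    intro z k4 k5
    rcases mem_union.1 k4 with k4 | k4
    · rw [mem_Rest] at k4
      have k7 := mem_Vc.1 k4.1
      obtain ⟨-, k8, k9⟩ := mem_filter.1 ((mem_insert.1 k5).resolve_left k7.2.1)
      have k10 := h.mono z k7.1 _ hyV k8
      obtain ⟨j, hj, rfl⟩ := no_unnamed h.hold hy hyV (.inr hd) k4.1 k10
      refine k7.2.2 ⟨k10, h.hold.hY y hy j hj hyV k7.1 (row_bit (tf fun k11 => k9 ⟨j, ?_, rfl⟩))⟩
      rw [bN, bK, bit_row (by omega) (hR.hQ0 y hy j hj k8), act_bit hj k4.2.1, k11]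
      simp
    · exact (mem_insert.1 k5).elim (fun k => hyN (k ▸ (mem_filter.1 k4).2))
        fun k => (mem_filter.1 k).2.2 (mem_filter.1 k4).2
  have k4 := card_le_card (union_subset (union_subset (fun z hz => h.sub (Vc_sub (mem_Rest.1
    (show z ∈ Rest k e (Vc r V (e y)) U' N from hz)).1)) (filter_subset (Im e N) Ω))
    (insert_subset (hR.mem y hy) (filter_subset (fun z => ρ z (e y) ∧ ¬ Im e N z) Ω)))
  rw [card_union_of_disjoint d2, card_union_of_disjoint d1, card_insert_of_notMem hyB,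
    hR.card] at k4
  omega

/-- The in-neighbours of the contracted vertex dominate everything else. -/
theorem newT (h : Hold k e R r V Y T P Q pres cl dom U) {y U' tp' : ℕ} (hy : y < k)
    (hyV : e y ∈ V)
    (hS : ∀ i, (row tp' 0).testBit i = true → i < k ∧ T.testBit (16 * y + i) = true)
    {B : Finset α} (hB : #B ≤ Nat.shiftRight tp' 32)
    (hN : ∀ z ∈ Vc r V (e y), ¬ XU k e U' z → r z (e y) → ¬ Im e (row tp' 1) z → z ∈ B) :
    ∃ S ⊆ Vc r V (e y), (∀ a ∈ S, ¬ XU k e U' a → ∀ b ∈ Vc r V (e y), ¬ XU k e U' b → b ∉ S →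
        rc r (e y) a b) ∧
      (∀ i, (row tp' 0).testBit i = true → i < k ∧
        (e i ∈ Vc r V (e y) → ¬ XU k e U' (e i) → e i ∈ S)) ∧
      #(Rest k e S U' (row tp' 1)) ≤ Nat.shiftRight tp' 32 := by
  classical
  refine ⟨{z ∈ Vc r V (e y) | r z (e y)}, filter_subset _ _, fun a ha _ b hb _ hn => ?_,
    fun i hi => ⟨(hS i hi).1, fun k2 _ => mem_filter.2 ⟨k2,
      h.hT y hy i (hS i hi).1 hyV (Vc_sub k2) (hS i hi).2⟩⟩,
    le_trans (card_le_card fun z hz => ?_) hB⟩
  · have k1 := mem_Vc.1 hb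
    exact .inr ⟨(mem_filter.1 ha).2, (h.sc.tot b k1.1 _ hyV k1.2.1).resolve_left
      fun k => hn (mem_filter.2 ⟨hb, k⟩)⟩
  · rw [mem_Rest, mem_filter] at hz
    exact hN z hz.1.1 hz.2.1 hz.1.2 hz.2.2

/-- The root in-neighbours that are not known. -/
theorem card_unk (hR : Root n k ρ Ω e C) {y : ℕ} (hy : y < k) :
    ∃ B : Finset α, #B + pc (row C y) ≤ indeg ρ Ω (e y) ∧
      ∀ z ∈ Ω, ρ z (e y) → ¬ Im e (row C y) z → z ∈ B := by
  classical
  have hk := hR.le
  have hb : ∀ t, (row C y).testBit t = true → t < k ∧ ρ (e t) (e y) := fun t ht =>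
    hR.hT0 y hy t (row_lt ht) (row_bit ht)
  have k1 : pc (row C y) ≤ #{z ∈ Ω | ρ z (e y) ∧ Im e (row C y) z} :=
    pc_le_card (by omega) hR.inj (fun t ht => (hb t ht).1) fun t ht =>
      mem_filter.2 ⟨hR.mem t (hb t ht).1, (hb t ht).2, t, ht, rfl⟩
  have k2 : #{z ∈ Ω | ρ z (e y) ∧ ¬ Im e (row C y) z} + #{z ∈ Ω | ρ z (e y) ∧ Im e (row C y) z} ≤
      indeg ρ Ω (e y) := by
    unfold indeg
    rw [← card_union_of_disjoint]
    · refine card_le_card fun z hz => ?_
      simp only [mem_union, mem_filter] at hz ⊢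
      tauto
    · rw [disjoint_left]
      intro z k1 k2
      exact (mem_filter.1 k1).2.2 (mem_filter.1 k2).2.2
  exact ⟨{z ∈ Ω | ρ z (e y) ∧ ¬ Im e (row C y) z}, by omega,
    fun z k3 k4 k5 => mem_filter.2 ⟨k3, k4, k5⟩⟩

/-- Reading the record at a leaf. -/
theorem top_use (hR : Root n k ρ Ω e C) (h : Hold2 n k ρ Ω e r V Y T P Q pres cl dom U hv NI c tp)
    {W : ℕ} (hW : ∀ i, W.testBit i = true → i < k ∧ e i ∈ Act k e V U) :
    ∃ S, Top r (Act k e V U) S ∧ pc (Nat.land (row tp 0) W) ≤ #S ∧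
      #S ≤ Nat.shiftRight tp 32 + pc (Nat.land (row tp 1) U) := by
  have hk := hR.le
  obtain ⟨S, -, h1, h2, h3⟩ := h.htp
  refine ⟨S ∩ Act k e V U, ⟨inter_subset_right, fun a ha b hb hn => ?_⟩,
    pc_le_card (by omega) hR.inj (fun t ht => ?_) fun t ht => ?_, ?_⟩
  · rw [mem_inter] at ha hn
    exact h1 a ha.1 (mem_Act.1 ha.2).2 b (Act_sub hb) (mem_Act.1 hb).2 fun k => hn ⟨k, hb⟩
  · rw [tb_land, Bool.and_eq_true] at ht
    exact (hW t ht.2).1
  · rw [tb_land, Bool.and_eq_true] at ht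
    have k1 := (hW t ht.2).2
    exact mem_inter.2 ⟨(h2 t ht.1).2 (Act_sub k1) (mem_Act.1 k1).2, k1⟩
  · have k1 : #((S ∩ Act k e V U) \ Rest k e S U (row tp 1)) ≤ pc (Nat.land (row tp 1) U) := by
      refine card_image_le_pc (e := e) (fun t ht => ?_) fun z hz => ?_
      · rw [tb_land, Bool.and_eq_true] at ht
        exact row_lt ht.1
      · rw [mem_sdiff, mem_inter, mem_Rest, mem_Act] at hz
        obtain ⟨i, k2, rfl⟩ : Im e (row tp 1) z := by_contra fun k => hz.2 ⟨hz.1.1, hz.1.2.2, k⟩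
        exact ⟨i, by rw [tb_land, k2, act_bit (h.htn i k2) hz.1.2.2]; rfl, rfl⟩
    have k2 : #(S ∩ Act k e V U) ≤ #((S ∩ Act k e V U) \ Rest k e S U (row tp 1)) +
        #(Rest k e S U (row tp 1)) := card_le_card_sdiff_add_card
    omega

/-! ### products, modules, sources -/

open Classical in
/-- The members of `V` that are named by the mask `m`. -/
noncomputable def Nm (e : ℕ → α) (V : Finset α) (m : ℕ) : Finset α := {z ∈ V | Im e m z}

omit [DecidableEq α] in
theorem mem_Nm {m : ℕ} {z : α} : z ∈ Nm e V m ↔ z ∈ V ∧ Im e m z := by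
  classical
  unfold Nm
  exact mem_filter

theorem card_Nm {m : ℕ} (hm : ∀ t, m.testBit t = true → t < 16) : #(Nm e V m) ≤ pc m :=
  card_image_le_pc (e := e) hm fun _ hz => (mem_Nm.1 hz).2

/-- The product rule: no active arc enters the closed set named by `S`. -/
theorem cnt_prod (h : Hold k e R r V Y T P Q pres cl dom U) {S : ℕ}
    (hS : ∀ i, S.testBit i = true → i < k ∧ cl.testBit i = true ∧ ∀ j,
      (dif U S).testBit j = true → Q.testBit (16 * i + j) = false) :
    cnt r V (XU k e U) ≤ M r (Nm e (Act k e V U) S) *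
      cnt r (Act k e V U \ Nm e (Act k e V U) S) (XU k e (dif U S)) := by
  have hC : Closed r (Act k e V U) (Nm e (Act k e V U) S) := by
    refine ⟨fun z hz => (mem_Nm.1 hz).1, fun a ha b hb hr => mem_Nm.2 ⟨hb, ?_⟩⟩
    obtain ⟨k1, i, k2, rfl⟩ := mem_Nm.1 ha
    obtain ⟨hi, k4, k5⟩ := hS i k2
    obtain ⟨j, hj, k3, rfl⟩ := named_of h (Act_sub hb) (mem_Act.1 hb).2 fun hR =>
      h.hcl i hi k4 (Act_sub k1) b (Act_sub hb) hR hr
    refine ⟨j, tf fun k6 => ne_tf (h.hQ i hi j hj (Act_sub k1) (Act_sub hb) hr) (k5 j ?_), rfl⟩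
    rw [tb_dif, k3, k6]
    rfl
  refine cnt_le_Act.trans (hC.M_eq.trans_le (Nat.mul_le_mul_left _ (cnt_mono ?_)))
  rintro x hx ⟨i, hi, rfl, k1⟩
  rw [mem_sdiff] at hx
  rw [tb_dif, act_bit hi (mem_Act.1 hx.1).2, ft fun k => hx.2 (mem_Nm.2 ⟨hx.1, i, k, rfl⟩)] at k1
  exact absurd k1 (by decide)

open Classical in
/-- The vertex set left by the module rule: unnamed vertices, the names in `W`, and `a`. -/
noncomputable def Vm (k : ℕ) (e : ℕ → α) (R V : Finset α) (W a : ℕ) : Finset α :=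
  insert (e a) {z ∈ V | z ∈ R ∨ ∃ i < k, W.testBit i = true ∧ e i = z}

theorem mem_Vm {W a : ℕ} {z : α} : z ∈ Vm k e R V W a ↔
    z = e a ∨ z ∈ V ∧ (z ∈ R ∨ ∃ i < k, W.testBit i = true ∧ e i = z) := by
  classical
  unfold Vm
  rw [mem_insert, mem_filter]

theorem Vm_sub {W a : ℕ} (ha : e a ∈ V) : Vm k e R V W a ⊆ V := fun _ hz =>
  (mem_Vm.1 hz).elim (fun k => k ▸ ha) And.left

/-- The module rule. `W` names vertices outside `S` that see `S` uniformly, among them all
undecided ones. -/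
theorem cnt_mod (hR : Root n k ρ Ω e C) (h : Hold k e (RR k e Ω) r V Y T P Q pres cl dom U)
    {S W a : ℕ} (haS : S.testBit a = true) (haV : e a ∈ V)
    (hS : ∀ i, S.testBit i = true → i < k ∧ cl.testBit i = true ∧ W.testBit i = false)
    (hK : ∀ i, (dif U S).testBit i = true → W.testBit i = true)
    (hu : ∀ v < k, W.testBit v = true →
      ((∀ i, S.testBit i = true → T.testBit (16 * i + v) = true) ∨
        ∀ i, S.testBit i = true → Q.testBit (16 * i + v) = false) ∧
      ((∀ i, S.testBit i = true → Y.testBit (16 * i + v) = true) ∨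
        ∀ i, S.testBit i = true → P.testBit (16 * i + v) = false)) :
    cnt r V (XU k e U) ≤ M r (Nm e V S) * cnt (rc r (e a)) (Vc r (Vm k e (RR k e Ω) V W a) (e a))
      (XU k e (Nat.lor (dif U S) (bit a))) + cnt r V (XU k e (dif U S)) := by
  classical
  have hs : Nm e V S ⊆ V := fun z hz => (mem_Nm.1 hz).1
  refine (cnt_module h.sc (X := XU k e U) hs (a := e a) (mem_Nm.2 ⟨haV, a, haS, rfl⟩)
    (U := {z ∈ V | z ∈ RR k e Ω ∨ ∃ i < k, W.testBit i = true ∧ e i = z}) (fun v hv => ?_)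
    fun v hv k1 k2 => ?_).trans (add_le_add (Nat.mul_le_mul_left _ (cnt_mono ?_)) (cnt_mono ?_))
  · obtain ⟨k1, k2⟩ := mem_filter.1 hv
    refine ⟨k1, fun k3 => ?_, fun b hb b' hb' => ?_⟩
    · obtain ⟨-, i, k4, rfl⟩ := mem_Nm.1 k3
      rcases k2 with k2 | ⟨j, hj, k5, k6⟩
      · exact (mem_RR.1 k2).2 i (hS i k4).1 rfl
      · exact ne_tf (hR.inj j hj i (hS i k4).1 k6 ▸ k5) (hS i k4).2.2
    · obtain ⟨k3, i, k4, rfl⟩ := mem_Nm.1 hb
      obtain ⟨k5, j, k6, rfl⟩ := mem_Nm.1 hb'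
      have hi := (hS i k4).1
      have hj := (hS j k6).1
      rcases k2 with k2 | ⟨t, ht, k7, rfl⟩
      · exact ⟨fun k => absurd k (h.hcl i hi (hS i k4).2.1 k3 v k1 k2), fun _ =>
          (h.sc.tot _ k5 v k1 ((mem_RR.1 k2).2 j hj)).resolve_right
            (h.hcl j hj (hS j k6).2.1 k5 v k1 k2)⟩
      · obtain ⟨u1, u2⟩ := hu t ht k7
        exact ⟨fun k => u1.elim (fun u => h.hT j hj t ht k5 k1 (u j k6))
            fun u => (ne_tf (h.hQ i hi t ht k3 k1 k) (u i k4)).elim,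
          fun k => u2.elim (fun u => h.hY j hj t ht k5 k1 (u j k6))
            fun u => (ne_tf (h.hP i hi t ht k3 k1 k) (u i k4)).elim⟩
  · refine mem_filter.2 ⟨hv, (h.cov v hv).imp_right fun ⟨i, hi, k3⟩ => ⟨i, hi, ?_, k3⟩⟩
    subst k3
    refine hK i ?_
    rw [tb_dif, act_bit hi k2, ft fun k => k1 (mem_Nm.2 ⟨hv, i, k, rfl⟩)]
    rfl
  · rintro x hx ⟨i, hi, rfl, k1⟩
    refine ⟨i, hi, rfl, ft fun k2 => ?_⟩
    rw [tb_lor, tb_dif, k2] at k1
    have k3 : S.testBit i = true := by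
      revert k1
      cases S.testBit i <;> simp
    have k4 := mem_Vc.1 hx
    rcases (mem_filter.1 ((mem_insert.1 k4.1).resolve_left k4.2.1)).2 with k5 | ⟨j, hj, k5, k6⟩
    · exact (mem_RR.1 k5).2 i hi rfl
    · exact ne_tf (hR.inj j hj i hi k6 ▸ k5) (hS i k3).2.2
  · rintro x hx ⟨i, hi, rfl, k1⟩
    by_cases k2 : S.testBit i = true
    · exact .inr (mem_Nm.2 ⟨hx, i, k2, rfl⟩)
    · refine .inl ⟨i, hi, rfl, ?_⟩
      rw [tb_dif, ft k2] at k1
      simpa using k1

/-- The number of maximal acyclic sets with source `v`. -/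
noncomputable def srcN (r : α → α → Prop) (V : Finset α) (v : α) : ℕ :=
  cnt (rc r v) (Vc r V v) fun z => r z v

theorem M_le_sum_src (hV : SC r V) (hne : V.Nonempty) : M r V ≤ ∑ v ∈ V, srcN r V v := by
  classical
  rw [M, cnt_eq]
  refine le_trans (card_le_card (t := V.biUnion fun v =>
    (MS (rc r v) (Vc r V v) fun z => r z v).image (insert v)) fun W hW => ?_)
    (card_biUnion_le.trans (sum_le_sum fun v _ => card_image_le))
  obtain ⟨k1, -⟩ := mem_MS.1 hW
  obtain ⟨v, hv, h⟩ := k1.source hV hne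
  exact mem_biUnion.2 ⟨v, k1.1 hv, mem_image.2 ⟨W.erase v, mem_MS.2 ⟨k1.con hV hv,
    fun x hx => (mem_outN.1 (h.1 hx)).2.2⟩, insert_erase hv⟩⟩

theorem srcN_le (hV : SC r V) {v : α} (hv : v ∈ V) : srcN r V v ≤ M r (outN r V v) := by
  have h1 : M (rc r v) (outN r V v) = M r (outN r V v) := M_congr fun a ha b _ =>
    ⟨fun k => k.resolve_right fun k' => (mem_outN.1 ha).2.2 k'.1, .inl⟩
  refine le_trans (cnt_del fun x => ?_) h1.le
  rw [mem_outN, mem_Vc]
  exact ⟨fun k => ⟨⟨k.1, fun e => hV.irr v hv (e ▸ k.2.1), fun e => k.2.2 e.1⟩, k.2.2⟩,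
    fun k => ⟨k.1.1, (hV.tot x k.1.1 v hv k.1.2.1).resolve_left k.2, k.2⟩⟩

end Pool.Agent.MP_75ef89_co.Ex.In
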