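import Mathlib
import Pool.Agent.MP_75ef89_co.Ex.Inv

/-! Soundness of the inner checker. -/

namespace Pool.Agent.MP_75ef89_co.Ex

open Finset In

variable {α : Type} [DecidableEq α]

namespace In

/-- The budget does not grow. -/
def Ok (b x : ℕ) : Prop := x ≠ 0 → lo2 x ≤ b

/-- The budget that is spent pays for `N`. -/
def Sd (N : ℕ) (Z : ℝ) (b x : ℕ) : Prop := x ≠ 0 → (N : ℝ) + lo2 x * Z ≤ b * Z

theorem ci {p : ℕ → Prop} {c : Bool} {a b : ℕ} (h1 : c = true → p a) (h2 : c = false → p b) :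
    p (bif c then a else b) := by
  cases c
  · exact h2 rfl
  · exact h1 rfl

theorem Ok.zero {b : ℕ} : Ok b 0 := fun h => absurd rfl h

theorem Sd.zero {N b : ℕ} {Z : ℝ} : Sd N Z b 0 := fun h => absurd rfl h

theorem Ok.trans {a b x : ℕ} (h : Ok a x) (hb : a ≤ b) : Ok b x := fun k => (h k).trans hb

theorem Sd.mono {N N' b x : ℕ} {Z : ℝ} (h : Sd N Z b x) (hN : N' ≤ N) : Sd N' Z b x := fun k =>
  le_trans (add_le_add_left (Nat.cast_le.2 hN) _) (h k)

theorem ok_pay {s b c : ℕ} (hb : b ≤ m48) : Ok b (pay2 s b c) := fun h =>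
  (pay2_spec hb h).2 ▸ Nat.sub_le _ _

theorem sd_pay {N s b c : ℕ} {Z : ℝ} (hb : b < m48) (h : c < m48 → (N : ℝ) ≤ c * Z) :
    Sd N Z b (pay2 s b c) := fun h1 => by
  obtain ⟨h3, h4⟩ := pay2_spec hb.le h1
  rw [h4, Nat.cast_sub h3]
  linarith [h (by omega)]

theorem nz {x : ℕ} (h : Nat.beq x 0 = false) : x ≠ 0 := Nat.ne_of_beq_eq_false h

theorem mulB_le (b g q r : ℕ) : mulB b g q r ≤ b := Nat.sub_le _ _

theorem mulB_cast {b g r : ℕ} (hr : lo2 r ≤ Nat.div b g) :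
    (mulB b g (Nat.div b g) r : ℝ) = b - g * ((Nat.div b g : ℕ) - (lo2 r : ℝ)) := by
  have h1 : g * (Nat.div b g - lo2 r) ≤ b :=
    (Nat.mul_le_mul_left g (Nat.sub_le _ _)).trans (Nat.mul_div_le b g)
  change ((b - g * (Nat.div b g - lo2 r) : ℕ) : ℝ) = _
  rw [Nat.cast_sub h1, Nat.cast_mul, Nat.cast_sub hr]

/-! ### the budget does not grow -/

variable {g : G14} {Y T P Q pres cl dom U hv c NI tp C k s b y : ℕ}

theorem le_topM (hg : Le14 g) (C T0 Q0 cd hv0 y : ℕ) : Le14 (topM g C T0 Q0 cd hv0 y) := by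
  intro Y T P Q pres cl dom U hv NI c tp s b hb
  change Ok b _
  unfold topM
  exact ci (fun _ => hg _ _ _ _ _ _ _ _ _ _ _ _ _ _ hb) fun _ => ci
    (fun _ => ci (fun _ => hg _ _ _ _ _ _ _ _ _ _ _ _ _ _ hb) fun _ => .zero)
    fun _ => ci (fun _ => hg _ _ _ _ _ _ _ _ _ _ _ _ _ _ hb) fun _ => .zero

theorem le_jM (hg : Le14 g) (k C Y0 dom0 y : ℕ) : Le14 (jM g k C Y0 dom0 y) := by
  intro Y T P Q pres cl dom U hv NI c tp s b hb
  change Ok b _
  unfold jM
  exact ci (fun _ => ci (fun _ => hg _ _ _ _ _ _ _ _ _ _ _ _ _ _ hb) fun _ => .zero)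
    fun _ => hg _ _ _ _ _ _ _ _ _ _ _ _ _ _ hb

theorem le_con2 (hg : Le14 g) (hb : b ≤ m48) :
    Ok b (con2 g Y T P Q pres cl dom U hv NI c tp y s b) := hg _ _ _ _ _ _ _ _ _ _ _ _ _ _ hb

theorem le_conM (hg : Le14 g) (hb : b ≤ m48) :
    Ok b (conM g k C Y T P Q pres cl dom U hv NI c tp y s b) :=
  le_con2 (le_jM (le_topM hg _ _ _ _ _ _) _ _ _ _ _) hb

theorem le_brG {cn : ℕ → ℕ → ℕ} (hg : Le14 g) (hc : ∀ s b, b ≤ m48 → Ok b (cn s b))
    (hb : b ≤ m48) : Ok b (brG cn g Y T P Q pres cl dom U hv NI c tp y s b) := by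
  unfold brG
  exact ci (fun _ => ci (fun _ => .zero) fun h =>
    Ok.trans (hg _ _ _ _ _ _ _ _ _ _ _ _ _ _ (lo2_le _)) (hc _ _ hb (nz h))) fun _ => .zero

theorem le_brmG {cn : ℕ → ℕ → ℕ} (hg : Le14 g) (hb : b ≤ m48) :
    Ok b (brmG cn g Y T P Q pres cl dom U hv NI c tp y s b) := by
  unfold brmG
  refine ci (fun _ => ci (fun _ => .zero) fun h => ci (fun _ => .zero) fun _ =>
    ci (fun _ => .zero) fun _ _ => ?_) fun _ => .zero
  rw [min_cond, lo2_pk2 ((min_le_left _ _).trans (lo2_le _))]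
  exact (min_le_left _ _).trans (hg _ _ _ _ _ _ _ _ _ _ _ _ _ _ hb (nz h))

theorem le_lfC {w wT m W : ℕ} {f : Bool} (hb : b ≤ m48) :
    Ok b (lfC w wT C Y T P Q cl U hv tp f m W s b) := by
  unfold lfC
  exact ci (fun _ => ci (fun _ => ok_pay hb) fun _ => .zero) fun _ =>
    ci (fun _ => ci (fun _ => ok_pay hb) fun _ => .zero) fun _ =>
    ci (fun _ => ci (fun _ => ok_pay hb) fun _ => .zero) fun _ =>
    ci (fun _ => ok_pay hb) fun _ => .zero

theorem le_prd {gs S : ℕ} (hb : b ≤ m48) :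
    Ok b (prd g gs k Y T P Q pres cl dom U hv NI c tp S s b) := by
  unfold prd
  refine ci (fun _ => ci (fun _ => .zero) fun _ _ => ?_) fun _ => .zero
  rw [lo2_pk2 ((mulB_le _ _ _ _).trans hb)]
  exact mulB_le _ _ _ _

theorem le_mdl {gs S K a : ℕ} (hg : Le14 g) (hb : b ≤ m48) :
    Ok b (mdl g gs k C Y T P Q pres cl dom U hv NI c tp S K a s b) := by
  unfold mdl
  exact ci (fun _ => ci (fun _ => .zero) fun _ => Ok.trans
    (hg _ _ _ _ _ _ _ _ _ _ _ _ _ _ ((mulB_le _ _ _ _).trans hb)) (mulB_le _ _ _ _)) fun _ => .zero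

theorem le_stp {D : ℕ} (hg : Le14 g) (hb : b ≤ m48) :
    Ok b (stp g Y T P Q pres cl dom U hv NI c D s b) := by
  unfold stp
  exact ci (fun _ => hg _ _ _ _ _ _ _ _ _ _ _ _ _ _ hb) fun _ => .zero

theorem le_evS (hg : Le14 g) (w wT gs k C : ℕ) : Le14 (evS w wT gs k C g) := by
  intro Y T P Q pres cl dom U hv NI c tp s b hb
  change Ok b _
  unfold evS
  refine ci (fun _ => ci (fun _ => ci (fun _ => le_brG hg (fun _ _ => le_con2 hg) hb)
      fun _ => ok_pay hb) fun _ => ci (fun _ => ok_pay hb) fun _ => le_lfC hb) fun _ =>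
    ci (fun _ => ci (fun _ => le_lfC hb) fun _ => ci
      (fun _ => ci (fun _ _ => (lo2_pk2 hb).le) fun _ => .zero)
      fun _ => le_brG hg (fun _ _ => le_conM hg) hb) fun _ =>
    ci (fun _ => ci (fun _ => le_brmG hg hb) fun _ => le_brmG hg hb) fun _ =>
    ci (fun _ => le_prd hb) fun _ => ci (fun _ => le_mdl hg hb) fun _ => le_stp hg hb

/-! ### contraction -/

variable {n : ℕ} {e : ℕ → α} {r ρ : α → α → Prop} {V Ω : Finset α} {Z : ℝ}

theorem tp_row0 {a b c i : ℕ} (h : (row (Nat.lor a (Nat.lor (Nat.shiftLeft b 16)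
    (Nat.shiftLeft c 32))) 0).testBit i = true) : a.testBit i = true := by
  have h1 := row_lt h
  have h2 := row_bit h
  have h3 : ¬ 16 ≤ i := by omega
  have h4 : ¬ 32 ≤ i := by omega
  rw [tb_lor, tb_lor, tb_shl, tb_shl] at h2
  simpa [h3, h4] using h2

theorem tp_row1 {a b c i : ℕ} (ha : ∀ t, a.testBit t = true → t < 16) :
    (row (Nat.lor a (Nat.lor (Nat.shiftLeft b 16) (Nat.shiftLeft c 32))) 1).testBit i =
      (b.testBit i && decide (i < 16)) := by
  rw [tb_row, tb_lor, tb_lor, tb_shl, tb_shl, ft fun h => absurd (ha _ h) (by omega),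
    show 16 * 1 + i - 16 = i by omega]
  by_cases h : i < 16
  · have h4 : ¬ 32 ≤ 16 + i := by omega
    simp [h, h4]
  · simp [h]

theorem tp_hi (a b c : ℕ) :
    c ≤ Nat.shiftRight (Nat.lor a (Nat.lor b (Nat.shiftLeft c 32))) 32 :=
  Nat.le_of_testBit fun i hi => by
    rw [tb_shr, tb_lor, tb_lor, tb_shl, show 32 + i - 32 = i by omega, hi]
    simp

theorem lor_shl (a b : ℕ) : Nat.lor a (Nat.shiftLeft b 16) =
    Nat.lor a (Nat.lor (Nat.shiftLeft b 16) (Nat.shiftLeft 0 32)) :=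
  Nat.eq_of_testBit_eq fun i => by
    rw [tb_lor, tb_lor, tb_lor, tb_shl 0]
    simp

theorem sd_topM (hR : Root n k ρ Ω e C) (hs : Sound14 n k ρ Ω e Z g)
    (h : Hold2 n k ρ Ω e r V Y T P Q pres cl dom U hv NI c tp) (hy : y < k) (hyV : e y ∈ V)
    {Y' T' P' Q' pres' cl' dom' U' hv' NI' c' tp' : ℕ}
    (h' : Hold2 n k ρ Ω e (rc r (e y)) (Vc r V (e y)) Y' T' P' Q' pres' cl' dom' U' hv' NI' c' tp')
    (hU : ∀ i, U'.testBit i = true → U.testBit i = true) (hb : b < m48) :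
    Sd (cnt (rc r (e y)) (Vc r V (e y)) (XU k e U')) Z b
      (topM g C T Q (Nat.lor cl dom) hv y Y' T' P' Q' pres' cl' dom' U' hv' NI' c' tp' s b) := by
  have hk := hR.le
  have ha : ∀ t, (Nat.land (row T y) U').testBit t = true →
      t < 16 ∧ t < k ∧ T.testBit (16 * y + t) = true := fun t ht => by
    rw [tb_land, Bool.and_eq_true] at ht
    exact ⟨row_lt ht.1, h'.hold.hU t ht.2, row_bit ht.1⟩
  unfold topM
  refine ci (fun _ => hs _ _ _ _ _ _ _ _ _ _ _ _ _ _ _ _ h' hb) fun _ => ci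
    (fun _ => ci (fun hd => hs _ _ _ _ _ _ _ _ _ _ _ _ _ _ _ _
      { h' with htp := ?_, htn := fun i hi => ?_ } hb) fun _ => .zero)
    fun _ => ci (fun hd => hs _ _ _ _ _ _ _ _ _ _ _ _ _ _ _ _
      { h' with htp := ?_, htn := fun i hi => ?_ } hb) fun _ => .zero
  · rw [tb_eq, tb_lor, Bool.or_eq_true] at hd
    rw [lor_shl]
    refine newT h.hold hy hyV (fun i hi => (ha i (tp_row0 hi)).2) (B := ∅) (Nat.zero_le _)
      fun z hz k1 k2 k3 => absurd ?_ k3
    obtain ⟨j, hj, rfl⟩ := no_unnamed h.hold hy hyV hd hz k2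
    have : j < 16 := by omega
    refine ⟨j, ?_, rfl⟩
    rw [tp_row1 fun t ht => (ha t ht).1, tb_land,
      bit_row this (h.hold.hQ y hy j hj hyV (Vc_sub hz) k2), act_bit hj k1]
    simp [this]
  · rw [lor_shl, tp_row1 fun t ht => (ha t ht).1, tb_land, Bool.and_eq_true,
      Bool.and_eq_true] at hi
    exact h'.hold.hU i hi.1.2
  · rw [Bool.and_eq_true, tb_eq, tb_eq] at hd
    obtain ⟨B, k1, k2⟩ := card_unk hR hy
    have k3 := hR.hHi (Nat.add (nib s 2) (pc (row C y))) y hy (row_bit hd.2)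
    rw [Nat.add_eq] at k3
    refine newT h.hold hy hyV (fun i hi => (ha i (tp_row0 hi)).2) (B := B)
      (le_trans (by omega) (tp_hi _ _ _)) fun z hz k4 k5 k6 => k2 z (h.sub (Vc_sub hz))
        (h.hhv y hy hd.1 hyV z (Vc_sub hz) (act_mono hU k4) k5) fun ⟨j, k7, k8⟩ => k6 ⟨j, ?_, k8⟩
    rw [tp_row1 fun t ht => (ha t ht).1, k7]
    simp [row_lt k7]
  · rw [tp_row1 fun t ht => (ha t ht).1, Bool.and_eq_true] at hi
    exact (hR.hT0 y hy i (row_lt hi.1) (row_bit hi.1)).1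

theorem sd_con2 (hR : Root n k ρ Ω e C) (hs : Sound14 n k ρ Ω e Z g)
    (h : Hold2 n k ρ Ω e r V Y T P Q pres cl dom U hv NI c tp) (hy : U.testBit y = true)
    (hyV : e y ∈ V) (hb : b < m48) : Sd (cnt (rc r (e y)) (Vc r V (e y)) (XU k e U)) Z b
      (con2 g Y T P Q pres cl dom U hv NI c tp y s b) :=
  Sd.mono (hs _ _ _ _ _ _ _ _ _ _ _ _ _ _ s b (In.con hR h hy hyV) hb)
    (h.hold.cnt_con (names hR) (h.hold.hU y hy) hyV)

theorem sd_conM (hR : Root n k ρ Ω e C) (hs : Sound14 n k ρ Ω e Z g)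
    (h : Hold2 n k ρ Ω e r V Y T P Q pres cl dom U hv NI c tp) (hy : U.testBit y = true)
    (hyV : e y ∈ V) (hb : b < m48) : Sd (cnt (rc r (e y)) (Vc r V (e y)) (XU k e U)) Z b
      (conM g k C Y T P Q pres cl dom U hv NI c tp y s b) := by
  have hyk := h.hold.hU y hy
  have h' := In.con hR h hy hyV
  have hU : ∀ i, (dif U (Nat.lor (Nat.land (row Y y) (row T y)) (bit y))).testBit i = true →
      U.testBit i = true := fun i hi => by
    rw [tb_dif, Bool.and_eq_true] at hi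
    exact hi.1
  refine Sd.mono ?_ (h.hold.cnt_con (names hR) hyk hyV)
  unfold conM con2 jM
  refine ci (fun _ => ci (fun hd => ?_) fun _ => .zero) fun _ => sd_topM hR hs h hyk hyV h' hU hb
  rw [Bool.and_eq_true, Bool.and_eq_true, tb_eq, tb_eq] at hd
  have k0 := f5_le s 1
  obtain ⟨k1, k2⟩ := newJ hR h hyk hyV hd.1.1
    (U' := dif U (Nat.lor (Nat.land (row Y y) (row T y)) (bit y)))
    (by rw [tb_dif, tb_lor, tb_bit]; simp) (hR.hLo (f5 s 1) (by omega) y hyk (row_bit hd.1.2))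
  exact sd_topM hR hs h hyk hyV
    { h' with
      hNI := fun i hi => (k1 i hi).elim (h'.hold.hU i) id
      hc := (Nat.sub_le _ _).trans (Nat.succ_le_succ k0)
      hJ := k2 h'.hold.hU } hU hb

/-! ### branching -/

theorem excl (h : Hold2 n k ρ Ω e r V Y T P Q pres cl dom U hv NI c tp) (hy : U.testBit y = true)
    {pres' : ℕ} (hp : ∀ i, pres'.testBit i = true → i < k ∧ e i ∈ V) :
    Hold2 n k ρ Ω e r V Y T P Q pres' cl dom (Nat.xor U (bit y)) hv NI c tp :=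
  shrink h subset_rfl hp fun i hi => by
    rw [tb_xor, tb_bit] at hi
    by_cases k1 : y = i
    · exact k1 ▸ hy
    · simpa [k1] using hi

theorem cnt_absent (hy : e y ∉ V) :
    cnt r V (XU k e U) ≤ cnt r V (XU k e (Nat.xor U (bit y))) :=
  cnt_mono fun _ hxV hx => (XU_excl hx).resolve_right fun h' => hy (h' ▸ hxV)

theorem cnt_br (hV : SC r V) : cnt r V (XU k e U) ≤ cnt (rc r (e y)) (Vc r V (e y)) (XU k e U) +
    cnt r V (XU k e (Nat.xor U (bit y))) :=
  (cnt_branch hV (XU k e U) (e y)).trans (add_le_add le_rfl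
    (cnt_mono (X' := XU k e (Nat.xor U (bit y))) fun _ _ hx => XU_excl hx))

theorem Sd.add {N N1 N2 b x1 x2 : ℕ} (h1 : Sd N1 Z b x1) (h0 : x1 ≠ 0) (h2 : Sd N2 Z (lo2 x1) x2)
    (hN : N ≤ N1 + N2) : Sd N Z b x2 := fun k => by
  have a1 := h1 h0
  have a2 := h2 k
  have a3 := (Nat.cast_le (α := ℝ)).2 hN
  push_cast at a3
  linarith

theorem sd_brG {cn : ℕ → ℕ → ℕ} (hZ : 0 ≤ Z) (hs : Sound14 n k ρ Ω e Z g)
    (h : Hold2 n k ρ Ω e r V Y T P Q pres cl dom U hv NI c tp) (hb : b < m48)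
    (hc : Ok b (cn s b)) (hc' : U.testBit y = true → e y ∈ V →
      Sd (cnt (rc r (e y)) (Vc r V (e y)) (XU k e U)) Z b (cn s b)) :
    Sd (cnt r V (XU k e U)) Z b (brG cn g Y T P Q pres cl dom U hv NI c tp y s b) := by
  unfold brG
  refine ci (fun hy => ci (fun _ => .zero) fun h0 => ?_) fun _ => .zero
  rw [tb_eq] at hy
  have l1 := hc (nz h0)
  have a2 : Sd _ Z _ _ := hs _ _ _ _ _ _ _ _ _ _ _ _ _ _ (hi2 (cn s b)) _
    (excl h hy h.hold.hpres) (l1.trans_lt hb)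
  by_cases hyV : e y ∈ V
  · exact (hc' hy hyV).add (nz h0) a2 (cnt_br h.hold.sc)
  · refine Sd.add (N1 := 0) (fun _ => ?_) (nz h0) a2 (by simpa using cnt_absent hyV)
    simpa using mul_le_mul_of_nonneg_right ((Nat.cast_le (α := ℝ)).2 l1) hZ

theorem sd_brmG {cn : ℕ → ℕ → ℕ} (hZ : 0 ≤ Z) (hR : Root n k ρ Ω e C) (hs : Sound14 n k ρ Ω e Z g)
    (h : Hold2 n k ρ Ω e r V Y T P Q pres cl dom U hv NI c tp) (hb : b < m48)
    (hc : ∀ s, Ok b (cn s b)) (hc' : U.testBit y = true → e y ∈ V → ∀ s,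
      Sd (cnt (rc r (e y)) (Vc r V (e y)) (XU k e U)) Z b (cn s b)) :
    Sd (cnt r V (XU k e U)) Z b (brmG cn g Y T P Q pres cl dom U hv NI c tp y s b) := by
  unfold brmG
  refine ci (fun hy => ci (fun _ => .zero) fun h0 => ci (fun _ => .zero) fun h1 =>
    ci (fun _ => .zero) fun h2 _ => ?_) fun _ => .zero
  rw [tb_eq] at hy
  rw [min_cond, lo2_pk2 ((min_le_left _ _).trans (lo2_le _))]
  by_cases hyV : e y ∈ V
  · refine le_trans (add_le_add le_rfl (mul_le_mul_of_nonneg_right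
      (Nat.cast_le.2 (min_le_right _ _)) hZ)) ?_
    exact (hc' hy hyV _).add (nz h1) (hs _ _ _ _ _ _ _ _ _ _ _ _ _ _ _ _
      (excl (addNI hR h hy hyV) hy (h.hold.setPres (h.hold.hU y hy) hyV).hpres)
      ((hc _ (nz h1)).trans_lt hb)) (cnt_br h.hold.sc) (nz h2)
  · refine le_trans (add_le_add (Nat.cast_le.2 (cnt_absent hyV)) (mul_le_mul_of_nonneg_right
      (Nat.cast_le.2 (min_le_left _ _)) hZ)) ?_
    exact hs _ _ _ _ _ _ _ _ _ _ _ _ _ _ _ _ (excl h hy h.hold.hpres) hb (nz h0)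

/-! ### leaves -/

variable {w wT gs m W : ℕ} {f : Bool}

theorem ubd_sound (hR : Root n k ρ Ω e C)
    (h : Hold2 n k ρ Ω e r V Y T P Q pres cl dom U hv NI c tp) {j : Bool} {d : ℕ} (hy : y < k)
    (hA : e y ∈ Act k e V U) (hu : ubd C Q cl U hv j y d = true) :
    indeg r (Act k e V U) (e y) ≤ d := by
  unfold ubd at hu
  cases j
  · rw [cond_false, Bool.and_eq_true, tb_eq] at hu
    exact (ub_cl h.hold hR.le hy hu.1 (Act_sub hA)).trans (Nat.le_of_ble_eq_true hu.2)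
  · rw [cond_true, Bool.and_eq_true, tb_eq, tb_eq] at hu
    have k1 := ub_hv hR h hy hu.1 (Act_sub hA)
    have k2 := hR.hHi (Nat.add d (pc (dif (row C y) U))) y hy (row_bit hu.2)
    rw [Nat.add_eq] at k2
    omega

omit [DecidableEq α] in
theorem in_of (h : Hold2 n k ρ Ω e r V Y T P Q pres cl dom U hv NI c tp)
    (hW : ∀ i, W.testBit i = true → i < k ∧ e i ∈ Act k e V U) (hy : y < k)
    (hA : e y ∈ Act k e V U) {t : ℕ} (ht : (Nat.land (row T y) W).testBit t = true) :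
    t < k ∧ e t ∈ Act k e V U ∧ r (e t) (e y) := by
  rw [tb_land, Bool.and_eq_true] at ht
  obtain ⟨k1, k2⟩ := hW t ht.2
  exact ⟨k1, k2, h.hold.hT y hy t k1 (Act_sub hA) (Act_sub k2) (row_bit ht.1)⟩

theorem lbd_sound (hR : Root n k ρ Ω e C)
    (h : Hold2 n k ρ Ω e r V Y T P Q pres cl dom U hv NI c tp)
    (hW : ∀ i, W.testBit i = true → i < k ∧ e i ∈ Act k e V U)
    (hf : f = true → RR k e Ω ⊆ Act k e V U ∧ ∀ i, U.testBit i = true → e i ∈ Act k e V U)
    {j : Bool} {a : ℕ} (ha : a < 16) (hy : y < k) (hA : e y ∈ Act k e V U)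
    (hu : lbd C T U W f j y a = true) : a ≤ indeg r (Act k e V U) (e y) := by
  classical
  have hk := hR.le
  unfold lbd at hu
  cases j
  · rw [cond_false] at hu
    exact (Nat.le_of_ble_eq_true hu).trans (pc_le_card (by omega) hR.inj
      (fun t ht => (in_of h hW hy hA ht).1) fun t ht => mem_filter.2 (in_of h hW hy hA ht).2)
  · rw [cond_true, Bool.and_eq_true, tb_eq] at hu
    have k1 := lb_full hR h (hf hu.1).1 (hf hu.1).2 hy (Act_sub hA)
    have k0 : pc (dif (row C (16 + y)) U) ≤ 16 := pc_le16 fun t ht => by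
      rw [tb_dif, Bool.and_eq_true] at ht
      exact row_lt ht.1
    have k2 := hR.hLo (a + pc (dif (row C (16 + y)) U)) (by omega) y hy (row_bit hu.2)
    omega

theorem evd_sound (hR : Root n k ρ Ω e C)
    (h : Hold2 n k ρ Ω e r V Y T P Q pres cl dom U hv NI c tp)
    (hW : ∀ i, W.testBit i = true → i < k ∧ e i ∈ Act k e V U)
    (hf : f = true → RR k e Ω ⊆ Act k e V U ∧ ∀ i, U.testBit i = true → e i ∈ Act k e V U)
    {x l : ℕ} (hu : evd C Y T Q cl U hv W f x s = true) : Ev x l r (Act k e V U) := by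
  unfold evd at hu
  beta_reduce at hu
  rw [Bool.and_eq_true, tb_eq] at hu
  obtain ⟨hy, hA⟩ := hW _ hu.1
  replace hu := hu.2
  cases h0 : Nat.beq (Nat.land s 3) 0
  swap
  · rw [h0, cond_true, Bool.and_eq_true, tb_eq, tb_eq, tb_land, Bool.and_eq_true] at hu
    obtain ⟨hz, hB⟩ := hW _ hu.1
    exact .inl ⟨_, hA, _, hB, h.hold.hY _ hy _ hz (Act_sub hA) (Act_sub hB) (row_bit hu.2.1),
      h.hold.hT _ hy _ hz (Act_sub hA) (Act_sub hB) (row_bit hu.2.2)⟩
  rw [h0, cond_false, Bool.and_eq_true] at hu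
  refine .inr ⟨_, hA, ubd_sound hR h hy hA hu.1, .inr ?_⟩
  replace hu := hu.2
  cases h1 : Nat.beq (Nat.land s 3) 1
  swap
  · rw [h1, cond_true] at hu
    exact .inl (lbd_sound hR h hW hf (by norm_num) hy hA hu)
  rw [h1, cond_false] at hu
  right
  cases h2 : Nat.beq (Nat.land s 3) 2
  swap
  · rw [h2, cond_true, Bool.and_eq_true, tb_eq] at hu
    obtain ⟨hz, hB, k1⟩ := in_of h hW hy hA hu.1
    obtain ⟨i, j, hne, hi, hj⟩ := two_bits (fun t ht => by
      rw [tb_land, Bool.and_eq_true] at ht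
      exact row_lt ht.1) (Nat.le_of_ble_eq_true hu.2)
    rw [tb_land, Bool.and_eq_true] at hi hj
    obtain ⟨i1, i2, i3⟩ := in_of h hW hy hA hi.2
    obtain ⟨j1, j2, j3⟩ := in_of h hW hy hA hj.2
    exact .inl ⟨_, hB, _, i2, _, j2, fun k => hne (hR.inj i i1 j j1 k), k1, i3, j3,
      h.hold.hY _ hz _ i1 (Act_sub hB) (Act_sub i2) (row_bit hi.1),
      h.hold.hY _ hz _ j1 (Act_sub hB) (Act_sub j2) (row_bit hj.1)⟩
  rw [h2, cond_false] at hu
  simp only [Bool.and_eq_true, tb_eq, Bool.not_eq_true'] at hu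
  obtain ⟨⟨⟨k1, k2⟩, k3⟩, k4⟩ := hu
  obtain ⟨hz, hB⟩ := hW _ k1
  obtain ⟨i, j, hne, hi, hj⟩ := two_bits (fun t ht => by
    rw [tb_land, tb_land, Bool.and_eq_true, Bool.and_eq_true] at ht
    exact row_lt ht.1.1) (Nat.le_of_ble_eq_true k4)
  rw [tb_land, tb_land, Bool.and_eq_true, Bool.and_eq_true] at hi hj
  obtain ⟨i1, i2⟩ := hW i hi.2
  obtain ⟨j1, j2⟩ := hW j hj.2
  exact .inr ⟨_, hB, fun k => Nat.ne_of_beq_eq_false k2 (hR.inj _ hy _ hz k.symm),
    ubd_sound hR h hz hB k3, _, i2, _, j2, fun k => hne (hR.inj i i1 j j1 k),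
    h.hold.hT _ hy _ i1 (Act_sub hA) (Act_sub i2) (row_bit hi.1.1),
    h.hold.hT _ hy _ j1 (Act_sub hA) (Act_sub j2) (row_bit hj.1.1),
    h.hold.hT _ hz _ i1 (Act_sub hB) (Act_sub i2) (row_bit hi.1.2),
    h.hold.hT _ hz _ j1 (Act_sub hB) (Act_sub j2) (row_bit hj.1.2)⟩

theorem prf_sound (hR : Root n k ρ Ω e C)
    (h : Hold2 n k ρ Ω e r V Y T P Q pres cl dom U hv NI c tp)
    (hW : ∀ i, W.testBit i = true → i < k ∧ e i ∈ Act k e V U)
    (hf : f = true → RR k e Ω ⊆ Act k e V U ∧ ∀ i, U.testBit i = true → e i ∈ Act k e V U)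
    {cd : ℕ} (hu : prf C T P Q cl U hv W f cd s = true) : Prof cd r (Act k e V U) := by
  have hk := hR.le
  unfold prf at hu
  simp only [Bool.and_eq_true, tb_eq, Bool.not_eq_true'] at hu
  obtain ⟨⟨⟨⟨⟨⟨⟨k1, k2⟩, k3⟩, k4⟩, k5⟩, k6⟩, k7⟩, k8⟩ := hu
  obtain ⟨hy, hA⟩ := hW _ k1
  obtain ⟨hz, hB⟩ := hW _ k2
  refine ⟨_, hA, _, hB, fun k => Nat.ne_of_beq_eq_false k3 (hR.inj _ hy _ hz k),
    lbd_sound hR h hW hf (nib_lt _ _) hy hA k5, ubd_sound hR h hy hA k4,
    lbd_sound hR h hW hf (nib_lt _ _) hz hB k7, ubd_sound hR h hz hB k6, fun k9 k10 => ?_⟩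
  rw [k9, tb_land, bit_row (by omega) (h.hold.hP _ hy _ hz (Act_sub hA) (Act_sub hB) k10.1),
    bit_row (by omega) (h.hold.hQ _ hy _ hz (Act_sub hA) (Act_sub hB) k10.2)] at k8
  exact absurd k8 (by decide)

theorem sd_cls (hT : Tab α n w wT gs Z) (h : Hold2 n k ρ Ω e r V Y T P Q pres cl dom U hv NI c tp)
    (hL : Lf n k Ω e V U f m W) (hb : b < m48) {x : ℕ} (h4 : 4 ≤ x) (h10 : x ≤ 10)
    (hc : (∀ i, W.testBit i = true → i < k ∧ e i ∈ Act k e V U) →
      (f = true → RR k e Ω ⊆ Act k e V U ∧ ∀ i, U.testBit i = true → e i ∈ Act k e V U) →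
      Cls w m x r (Act k e V U)) : Sd (cnt r V (XU k e U)) Z b (pay2 s b (wt2 w m x)) := by
  refine sd_pay hb fun hw => le_trans (Nat.cast_le.2 cnt_le_Act) ?_
  refine hT.leaf r _ (h.hold.sc.mono Act_sub) (h.lay.mono Act_sub) m x ?_ hL.1 h4 h10 hL.2.1
    (hL.2.2.imp_right fun k => hc k.1 k.2)
  by_contra k
  rw [show m = 0 by omega, hT.zero x h4 h10] at hw
  exact lt_irrefl _ hw

theorem sd_lfC (hT : Tab α n w wT gs Z) (hR : Root n k ρ Ω e C)
    (h : Hold2 n k ρ Ω e r V Y T P Q pres cl dom U hv NI c tp) (hL : Lf n k Ω e V U f m W)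
    (hb : b < m48) : Sd (cnt r V (XU k e U)) Z b (lfC w wT C Y T P Q cl U hv tp f m W s b) := by
  unfold lfC
  refine ci (fun hd => ci (fun hu => ?_) fun _ => .zero) fun _ =>
    ci (fun _ => ci (fun hu => ?_) fun _ => .zero) fun _ =>
    ci (fun _ => ci (fun hu => ?_) fun _ => .zero) fun _ => ci (fun hu => ?_) fun _ => .zero
  · have k1 := Nat.le_of_ble_eq_true hd
    rw [Bool.and_eq_true, tb_eq] at hu
    rw [Nat.add_eq]
    refine sd_cls hT h hL hb (by omega) (by omega) fun hW _ => ?_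
    obtain ⟨hy, hA⟩ := hW _ hu.1
    rw [Cls, if_neg (by omega), if_neg (by omega), if_pos (by omega), Nat.add_sub_cancel_left]
    exact ⟨_, hA, ubd_sound hR h hy hA hu.2⟩
  · rw [Bool.and_eq_true] at hu
    have l1 : Nat.land (Nat.shiftRight s 3) 7 < 8 := Nat.lt_succ_of_le Nat.and_le_right
    have l2 : Nat.land (Nat.shiftRight s 6) 7 < 8 := Nat.lt_succ_of_le Nat.and_le_right
    refine sd_pay hb fun hw => le_trans (Nat.cast_le.2 cnt_le_Act) ?_
    refine hT.top r _ (h.hold.sc.mono Act_sub) (h.lay.mono Act_sub) m ?_ hL.1 _ l1 _ l2 hL.2.1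
      (hL.2.2.imp_right fun k => ?_)
    · by_contra k
      rw [show m = 0 by omega, hT.zeroT _ l1 _ l2] at hw
      exact lt_irrefl _ hw
    · obtain ⟨S, k1, k2, k3⟩ := top_use hR h k.1
      exact ⟨S, k1, (Nat.le_of_ble_eq_true hu.1).trans k2, k3.trans (Nat.le_of_ble_eq_true hu.2)⟩
  · refine sd_cls hT h hL hb (by omega) (by omega) fun hW hf => ?_
    rw [Cls, if_neg (by omega), if_pos rfl]
    exact evd_sound hR h hW hf hu
  · have l1 : Nat.land s 1 ≤ 1 := Nat.and_le_right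
    rw [Nat.add_eq] at hu ⊢
    refine sd_cls hT h hL hb (by omega) (by omega) fun hW hf => ?_
    rw [Cls, if_pos (by omega), show 4 + Nat.land s 1 - 2 = 2 + Nat.land s 1 by omega]
    exact prf_sound hR h hW hf hu

/-! ### products, modules, dominating sets -/

theorem blk_le (hT : Tab α n w wT gs Z) (hR : Root n k ρ Ω e C) {S : ℕ} {B : Finset α}
    (hS : ∀ i, S.testBit i = true → i < k) (ho : okS gs k (pc S) = true) (h1 : SC r B)
    (h2 : Lay r B) : M r (Nm e B S) ≤ ent gs (pc S) := by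
  have hk := hR.le
  have k1 := k_le hR
  have k2 := pc_le_of_lt (by omega) hS
  have k3 : #(Nm e B S) ≤ pc S := card_Nm fun t ht => by have := hS t ht; omega
  have k4 : Nm e B S ⊆ B := fun z hz => (mem_Nm.1 hz).1
  refine hT.blk r _ (h1.mono k4) (h2.mono k4) _ (by omega) k3 ?_
  rw [okS, Bool.or_eq_true, Nat.blt_eq, tb_eq] at ho
  rcases ho with ho | ho
  · omega
  · have := hT.ok _ ho
    omega

theorem sd_mul (hZ : 0 ≤ Z) {N N1 g0 x : ℕ} (h0 : x ≠ 0) (h1 : Ok (Nat.div b g0) x)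
    (h2 : Sd N1 Z (Nat.div b g0) x) (hN : N ≤ g0 * N1) :
    (N : ℝ) + mulB b g0 (Nat.div b g0) x * Z ≤ b * Z := by
  have _ := hZ
  have a1 := mul_le_mul_of_nonneg_left (h2 h0) (Nat.cast_nonneg (α := ℝ) g0)
  have a2 := (Nat.cast_le (α := ℝ)).2 hN
  rw [mulB_cast (h1 h0)]
  push_cast at a2
  linarith

theorem sd_prd (hT : Tab α n w wT gs Z) (hR : Root n k ρ Ω e C) (hg : Le14 g)
    (hs : Sound14 n k ρ Ω e Z g) (h : Hold2 n k ρ Ω e r V Y T P Q pres cl dom U hv NI c tp)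
    (hb : b < m48) {S : ℕ} :
    Sd (cnt r V (XU k e U)) Z b (prd g gs k Y T P Q pres cl dom U hv NI c tp S s b) := by
  have hk := hR.le
  unfold prd
  refine ci (fun hu => ci (fun _ => .zero) fun h0 _ => ?_) fun _ => .zero
  rw [Bool.and_eq_true, Bool.and_eq_true] at hu
  have hS : ∀ i, S.testBit i = true → U.testBit i = true ∧ cl.testBit i = true := fun i hi => by
    have := sub_imp hu.1.1 hi
    rwa [tb_land, Bool.and_eq_true] at this
  have hSk : ∀ i, S.testBit i = true → i < k := fun i hi => h.hold.hU i (hS i hi).1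
  have hU : ∀ i, (dif U S).testBit i = true → U.testBit i = true ∧ S.testBit i = false :=
    fun i hi => by rwa [tb_dif, Bool.and_eq_true, Bool.not_eq_true'] at hi
  have hq : Nat.div b (ent gs (pc S)) ≤ b := Nat.div_le_self _ _
  have k1 := cnt_prod h.hold (S := S) fun i hi => ⟨hSk i hi, (hS i hi).2, fun j hj =>
    zero_bit hu.1.2 (tb_sprmul (fun t ht => by have := hSk t ht; omega)
      (fun t ht => by have := h.hold.hU t (hU t ht).1; omega) hi hj)⟩
  have h' : Hold2 n k ρ Ω e r (Act k e V U \ Nm e (Act k e V U) S) Y T P Q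
      (Nat.land pres (dif U S)) cl dom (dif U S) hv NI c tp := by
    refine shrink h (sdiff_subset.trans Act_sub) (fun i hi => ?_) fun i hi => (hU i hi).1
    rw [tb_land, Bool.and_eq_true] at hi
    obtain ⟨k2, k3⟩ := h.hold.hpres i hi.1
    refine ⟨k2, mem_sdiff.2 ⟨mem_Act.2 ⟨k3, bit_act hR.inj k2 (hU i hi.2).1⟩, fun k4 => ?_⟩⟩
    obtain ⟨-, j, k5, k6⟩ := mem_Nm.1 k4
    exact ne_tf (hR.inj j (hSk j k5) i k2 k6 ▸ k5) (hU i hi.2).2
  rw [lo2_pk2 ((mulB_le _ _ _ _).trans hb.le)]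
  exact sd_mul hT.nonneg (nz h0) (hg _ _ _ _ _ _ _ _ _ _ _ _ _ _ (hq.trans hb.le))
    (hs _ _ _ _ _ _ _ _ _ _ _ _ _ _ _ _ h' (hq.trans_lt hb))
    (k1.trans (Nat.mul_le_mul_right _
      (blk_le hT hR hSk hu.2 (h.hold.sc.mono Act_sub) (h.lay.mono Act_sub))))

theorem uni_half {A B S W a v : ℕ} (hS : ∀ t, S.testBit t = true → t < 15)
    (hW : ∀ t, W.testBit t = true → t < 16)
    (h1 : sub (Nat.mul (spr S) (Nat.land W (row A a))) A = true)
    (h2 : Nat.beq (Nat.land (Nat.mul (spr S) (dif W (row A a))) B) 0 = true)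
    (hv : W.testBit v = true) : (∀ i, S.testBit i = true → A.testBit (16 * i + v) = true) ∨
      ∀ i, S.testBit i = true → B.testBit (16 * i + v) = false := by
  cases h : (row A a).testBit v
  · refine .inr fun i hi => zero_bit h2 (tb_sprmul hS (fun t ht => ?_) hi ?_)
    · rw [tb_dif, Bool.and_eq_true] at ht
      exact hW t ht.1
    · rw [tb_dif, hv, h]
      rfl
  · refine .inl fun i hi => sub_imp h1 (tb_sprmul hS (fun t ht => ?_) hi ?_)
    · rw [tb_land, Bool.and_eq_true] at ht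
      exact hW t ht.1
    · rw [tb_land, hv, h]
      rfl

theorem sd_mdl (hT : Tab α n w wT gs Z) (hR : Root n k ρ Ω e C) (hg : Le14 g)
    (hs : Sound14 n k ρ Ω e Z g) (h : Hold2 n k ρ Ω e r V Y T P Q pres cl dom U hv NI c tp)
    (hb : b < m48) {S K a : ℕ} (hK : ∀ t, K.testBit t = true → t < 16) :
    Sd (cnt r V (XU k e U)) Z b (mdl g gs k C Y T P Q pres cl dom U hv NI c tp S K a s b) := by
  have hk := hR.le
  unfold mdl
  refine ci (fun hu => ci (fun _ => .zero) fun h0 h1 => ?_) fun _ => .zero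
  simp only [uni, Bool.and_eq_true, tb_eq] at hu
  obtain ⟨⟨⟨u1, u2⟩, u3⟩, ⟨⟨⟨u4, u5⟩, u6⟩, u7⟩, u8⟩ := hu
  have hS : ∀ i, S.testBit i = true → U.testBit i = true ∧ cl.testBit i = true := fun i hi => by
    have := sub_imp u1 hi
    rwa [tb_land, Bool.and_eq_true] at this
  have hSk : ∀ i, S.testBit i = true → i < k := fun i hi => h.hold.hU i (hS i hi).1
  have hS15 : ∀ i, S.testBit i = true → i < 15 := fun i hi => by have := hSk i hi; omega
  have hU : ∀ i, (dif U S).testBit i = true → U.testBit i = true := fun i hi => by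
    rw [tb_dif, Bool.and_eq_true] at hi
    exact hi.1
  have hW : ∀ t, (dif (Nat.lor U K) S).testBit t = true → t < 16 := fun t ht => by
    rw [tb_dif, tb_lor, Bool.and_eq_true, Bool.or_eq_true] at ht
    exact ht.1.elim (fun k1 => by have := h.hold.hU t k1; omega) (hK t)
  obtain ⟨ha, haV⟩ := h.hold.hpres a u2
  have hq : Nat.div b (ent gs (pc S)) ≤ b := Nat.div_le_self _ _
  have k1 := cnt_mod hR h.hold (W := dif (Nat.lor U K) S) u4 haV
    (fun i hi => ⟨hSk i hi, (hS i hi).2, by rw [tb_dif, hi]; simp⟩)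
    (fun i hi => by
      rw [tb_dif, Bool.and_eq_true] at hi
      rw [tb_dif, tb_lor, hi.1, hi.2]
      rfl)
    fun v _ hv => ⟨uni_half hS15 hW u5 u6 hv, uni_half hS15 hW u7 u8 hv⟩
  have h' : Hold2 n k ρ Ω e r (Vm k e (RR k e Ω) V (dif (Nat.lor U K) S) a) Y T P Q
      (Nat.land pres (dif (Nat.lor U K) S)) cl dom (Nat.lor (dif U S) (bit a)) hv NI c tp := by
    refine shrink h (Vm_sub haV) (fun i hi => ?_) fun i hi => ?_
    · rw [tb_land, Bool.and_eq_true] at hi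
      obtain ⟨k2, k3⟩ := h.hold.hpres i hi.1
      exact ⟨k2, mem_Vm.2 (.inr ⟨k3, .inr ⟨i, k2, hi.2, rfl⟩⟩)⟩
    · rw [tb_lor, tb_bit, Bool.or_eq_true, decide_eq_true_eq] at hi
      exact hi.elim (hU i) fun k2 => k2 ▸ (hS a u4).1
  have a1 := sd_mul hT.nonneg (nz h0) (le_conM hg (hq.trans hb.le))
    (sd_conM hR hs h' (by rw [tb_lor, tb_bit]; simp) (mem_Vm.2 (.inl rfl)) (hq.trans_lt hb))
    (Nat.mul_le_mul_right _ (blk_le hT hR hSk u3 h.hold.sc h.lay))
  have a2 := hs _ _ _ _ _ _ _ _ _ _ _ _ _ _ _ _ (shrink h subset_rfl h.hold.hpres hU)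
    ((mulB_le _ _ _ _).trans_lt hb) h1
  have a3 := (Nat.cast_le (α := ℝ)).2 k1
  push_cast at a1 a3
  linarith

theorem sd_stp (hR : Root n k ρ Ω e C) (hs : Sound14 n k ρ Ω e Z g)
    (h : Hold2 n k ρ Ω e r V Y T P Q pres cl dom U hv NI c tp) (hb : b < m48) {D : ℕ} :
    Sd (cnt r V (XU k e U)) Z b (stp g Y T P Q pres cl dom U hv NI c D s b) := by
  have hk := hR.le
  unfold stp
  refine ci (fun hu => ?_) fun _ => .zero
  rw [Bool.and_eq_true] at hu
  have hD : ∀ i, D.testBit i = true → U.testBit i = true ∧ dom.testBit i = true := fun i hi => by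
    have := sub_imp hu.1 hi
    rwa [tb_land, Bool.and_eq_true] at this
  have hDk : ∀ i, D.testBit i = true → i < k := fun i hi => h.hold.hU i (hD i hi).1
  have h16 : ∀ i, D.testBit i = true → i < 16 := fun i hi => by have := hDk i hi; omega
  refine hs _ _ _ _ _ _ _ _ _ _ _ _ _ _ _ _ { h with htp := ?_, htn := fun i hi => ?_ } hb
  · rw [lor_shl]
    refine ⟨Nm e V D, fun z hz => (mem_Nm.1 hz).1, fun a ha _ z hz k1 k2 => ?_,
      fun i hi => ⟨hDk i (tp_row0 hi), fun k1 _ => mem_Nm.2 ⟨k1, i, tp_row0 hi, rfl⟩⟩, ?_⟩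
    · obtain ⟨k3, i, k4, rfl⟩ := mem_Nm.1 ha
      by_cases k5 : z ∈ RR k e Ω
      · exact h.hold.hdom i (hDk i k4) (hD i k4).2 k3 z hz k5
      · obtain ⟨j, hj, k6, rfl⟩ := named_of h.hold hz k1 k5
        refine h.hold.hY i (hDk i k4) j hj k3 hz (sub_imp hu.2 (tb_sprmul
          (fun t ht => by have := hDk t ht; omega) (fun t ht => ?_) k4 ?_))
        · rw [tb_dif, Bool.and_eq_true] at ht
          have := h.hold.hU t ht.1
          omega
        · rw [tb_dif, k6, ft fun k7 => k2 (mem_Nm.2 ⟨hz, j, k7, rfl⟩)]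
          rfl
    · refine le_trans (card_eq_zero.2 (eq_empty_of_forall_notMem fun z hz => ?_)).le
        (Nat.zero_le _)
      rw [mem_Rest, mem_Nm] at hz
      obtain ⟨i, k1, k2⟩ := hz.1.2
      refine hz.2.2 ⟨i, ?_, k2⟩
      rw [tp_row1 h16, k1]
      simp [h16 i k1]
  · rw [lor_shl, tp_row1 h16, Bool.and_eq_true] at hi
    exact hDk i hi.1

theorem sd_evS (hT : Tab α n w wT gs Z) (hR : Root n k ρ Ω e C) (hg : Le14 g)
    (hs : Sound14 n k ρ Ω e Z g) : Sound14 n k ρ Ω e Z (evS w wT gs k C g) := by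
  intro r V Y T P Q pres cl dom U hv NI c tp s b h hb
  have hZ := hT.nonneg
  change Sd _ Z b _
  unfold evS
  refine ci (fun _ => ci (fun _ => ci
      (fun _ => sd_brG hZ hs h hb (le_con2 hg hb.le) fun k1 k2 => sd_con2 hR hs h k1 k2 hb)
      fun _ => sd_cls hT h (lf_names hR h) hb (by norm_num) le_rfl fun _ _ => by simp [Cls])
      fun _ => ci (fun _ => sd_cls hT h (lf_J hR h) hb (by norm_num) le_rfl fun _ _ => by simp [Cls])
        fun _ => sd_lfC hT hR h (lf_names hR h) hb) fun _ =>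
    ci (fun _ => ci (fun _ => sd_lfC hT hR h (lf_J hR h) hb) fun _ => ci
      (fun _ => ci (fun hp _ => ?_) fun _ => .zero)
      fun _ => sd_brG hZ hs h hb (le_conM hg hb.le) fun k1 k2 => sd_conM hR hs h k1 k2 hb) fun _ =>
    ci (fun _ => ci
      (fun _ => sd_brmG hZ hR hs h hb (fun _ => le_con2 hg hb.le)
        fun k1 k2 _ => sd_con2 hR hs h k1 k2 hb)
      fun _ => sd_brmG hZ hR hs h hb (fun _ => le_conM hg hb.le)
        fun k1 k2 _ => sd_conM hR hs h k1 k2 hb) fun _ =>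
    ci (fun _ => sd_prd hT hR hg hs h hb) fun _ =>
    ci (fun _ => sd_mdl hT hR hg hs h hb fun t ht => ?_) fun _ => sd_stp hR hs h hb
  · rw [lo2_pk2 hb.le, h.hold.prune (names hR) hp]
    simp
  · rw [tb_f16, Bool.and_eq_true, decide_eq_true_eq] at ht
    exact ht.2

end In

theorem conStmt : ConStmt := by
  intro α _ n k C Z ρ Ω e g _ hR hg hs r V Y T P Q pres cl dom U hv NI c tp y s b h hy hyV hb h0
  exact ⟨le_conM hg hb.le h0, sd_conM hR hs h hy hyV hb h0⟩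

theorem innerStmt : InnerStmt := by
  intro α _ n k w wT gs C Z ρ Ω e hT hR f
  induction f with
  | zero =>
    exact ⟨fun _ _ _ _ _ _ _ _ _ _ _ _ _ _ _ h => absurd rfl h,
      fun _ _ _ _ _ _ _ _ _ _ _ _ _ _ _ _ _ _ h => absurd rfl h⟩
  | succ f ih => exact ⟨le_evS ih.1 _ _ _ _ _, sd_evS hT hR ih.1 ih.2⟩

end Pool.Agent.MP_75ef89_co.Ex
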