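import Pool.Agent.MP_75ef89_co.Ex.Out0

/-! The leaves of the outer checker: Karamata's inequality, Landau's inequality with a known part,
the greedy in-degree sequence and the count by sources. -/

namespace Pool.Agent.MP_75ef89_co.Ex.Lf

open Finset

variable {α : Type} [DecidableEq α]

/-! ### Karamata's inequality -/

section
variable {φ : ℕ → ℝ} {t : ℕ}

theorem slope_anti (hc : ∀ d, t ≤ d → 2 * φ (d + 1) ≤ φ d + φ (d + 2)) {a b : ℕ} (ha : t ≤ a)
    (h : a ≤ b) : φ b - φ (b + 1) ≤ φ a - φ (a + 1) := by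
  induction b, h using Nat.le_induction with
  | base => exact le_rfl
  | succ b hb ih => linarith [hc b (ha.trans hb)]

theorem tang (hc : ∀ d, t ≤ d → 2 * φ (d + 1) ≤ φ d + φ (d + 2)) {m x : ℕ} (hm : t ≤ m)
    (hx : t ≤ x) : φ m + (φ m - φ (m + 1)) * ((m : ℝ) - x) ≤ φ x := by
  rcases le_total m x with h | h
  · induction x, h using Nat.le_induction with
    | base => simp
    | succ x h ih =>
      have := ih (hm.trans h)
      have := slope_anti hc hm h
      push_cast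
      linarith
  · induction m, h using Nat.le_induction with
    | base => simp
    | succ m h ih =>
      have h1 := ih (hx.trans h)
      have h2 := slope_anti hc (hx.trans h) (Nat.le_succ m)
      have h3 : (0 : ℝ) ≤ (m : ℝ) + 1 - x := by
        have : (x : ℝ) ≤ m := Nat.cast_le.2 h
        linarith
      have h4 := mul_le_mul_of_nonneg_right h2 h3
      push_cast
      linarith

theorem kar0 (hc : ∀ d, t ≤ d → 2 * φ (d + 1) ≤ φ d + φ (d + 2)) (d : α → ℕ) (x : ℕ → ℕ)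
    (A : Finset α) : (∀ v ∈ A, t ≤ d v) → (∀ i < #A, t ≤ x i) →
      (∀ B ⊆ A, ∑ i ∈ range #B, x i ≤ ∑ v ∈ B, d v) → ∀ M, t ≤ M → (∀ v ∈ A, d v ≤ M) →
      ∑ v ∈ A, φ (d v) + (φ M - φ (M + 1)) *
        ((∑ v ∈ A, d v : ℕ) - (∑ i ∈ range #A, x i : ℕ) : ℝ) ≤ ∑ i ∈ range #A, φ (x i) := by
  induction A using induction_on_max_value d with
  | empty => simp
  | insert a s ha hmax ih =>
    intro hd hx hL M hM0 hM
    have ta := hd a (mem_insert_self _ _)
    rw [card_insert_of_notMem ha] at hx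
    have h2 := ih (fun v hv => hd v (mem_insert_of_mem hv)) (fun i hi => hx i (by omega))
      (fun B hB => hL B (hB.trans (subset_insert _ _))) (d a) ta hmax
    have h3 := tang hc ta (hx #s (by omega))
    have h4 : (0 : ℝ) ≤ (∑ v ∈ insert a s, d v : ℕ) - (∑ i ∈ range #(insert a s), x i : ℕ) :=
      sub_nonneg.2 (Nat.cast_le.2 (hL _ subset_rfl))
    have h5 := mul_le_mul_of_nonneg_right (slope_anti hc ta (hM a (mem_insert_self _ _))) h4
    rw [card_insert_of_notMem ha, sum_range_succ, sum_insert ha] at h5 ⊢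
    rw [sum_range_succ, sum_insert ha]
    push_cast at h2 h5 ⊢
    linarith

theorem kar (ha : ∀ d, t ≤ d → φ (d + 1) ≤ φ d)
    (hc : ∀ d, t ≤ d → 2 * φ (d + 1) ≤ φ d + φ (d + 2)) {d : α → ℕ} {x : ℕ → ℕ} {A : Finset α}
    (hd : ∀ v ∈ A, t ≤ d v) (hx : ∀ i < #A, t ≤ x i)
    (hL : ∀ B ⊆ A, ∑ i ∈ range #B, x i ≤ ∑ v ∈ B, d v) :
    ∑ v ∈ A, φ (d v) ≤ ∑ i ∈ range #A, φ (x i) := by
  have h1 := kar0 hc d x A hd hx hL (max t (A.sup d)) (le_max_left _ _)
    fun v hv => (le_sup hv).trans (le_max_right _ _)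
  have h2 : (0 : ℝ) ≤ (∑ v ∈ A, d v : ℕ) - (∑ i ∈ range #A, x i : ℕ) :=
    sub_nonneg.2 (Nat.cast_le.2 (hL _ subset_rfl))
  have h3 := mul_nonneg (sub_nonneg.2 (ha _ (le_max_left t (A.sup d)))) h2
  linarith

end

/-! ### Landau's inequality -/

variable {r : α → α → Prop} {V : Finset α}

theorem tri_succ (m : ℕ) : tri (m + 1) = tri m + m := by
  have h1 := two_mul_tri (m + 1)
  have h2 := two_mul_tri m
  rcases m with _ | m
  · rfl
  · simp only [Nat.add_sub_cancel] at h1 h2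
    nlinarith

theorem tri_le (hV : SC r V) : tri #V ≤ ∑ v ∈ V, indeg r V v := by
  have h1 := landau hV subset_rfl
  have h2 := two_mul_tri #V
  omega

theorem indeg_add {C E : Finset α} (hC : C ⊆ V) (hE : E ⊆ V) (hd : Disjoint C E) {v : α}
    (h : ∀ a ∈ E, r a v) : indeg r C v + #E ≤ indeg r V v := by
  classical
  unfold indeg
  rw [← card_union_of_disjoint (disjoint_of_subset_left (filter_subset _ _) hd)]
  refine card_le_card fun z hz => ?_
  rcases mem_union.1 hz with hz | hz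
  · exact mem_filter.2 ⟨hC (mem_filter.1 hz).1, (mem_filter.1 hz).2⟩
  · exact mem_filter.2 ⟨hE hz, h z hz⟩

/-! ### the greedy sequence -/

/-- The invariant of the loop `tl`. -/
def TI (φ : ℕ → ℝ) (d : α → ℕ) (A : Finset α) (t H l e0 j D Lc a : ℕ) : Prop :=
  ∃ x : ℕ → ℕ, (∀ i < j, t ≤ x i) ∧ D = H + ∑ i ∈ range j, x i ∧ Lc = tri (j + l) + j * e0 ∧
    (∀ B ⊆ A, #B ≤ j → ∑ i ∈ range #B, x i ≤ ∑ v ∈ B, d v) ∧ ∑ i ∈ range j, φ (x i) ≤ a

omit [DecidableEq α] in
theorem TI.zero {φ : ℕ → ℝ} {d : α → ℕ} {A : Finset α} {t H l e0 : ℕ} :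
    TI φ d A t H l e0 0 H (tri l) 0 :=
  ⟨fun _ => 0, by simp, by simp, by simp, fun B _ h => by simp [Nat.le_zero.1 h], by simp⟩

theorem TI.step {φ : ℕ → ℝ} {d : α → ℕ} {A : Finset α} {t H l e0 j D Lc a y c : ℕ}
    (h : TI φ d A t H l e0 j D Lc a) (hy : t ≤ y) (hc : φ y ≤ c)
    (hB : ∀ B ⊆ A, #B = j + 1 → (∀ v ∈ B, D + d v ≤ H + ∑ v ∈ B, d v) →
      D + y ≤ H + ∑ v ∈ B, d v) :
    TI φ d A t H l e0 (j + 1) (D + y) (Lc + (j + (l + e0))) (a + c) := by
  obtain ⟨x, h1, h2, h3, h4, h5⟩ := h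
  have e1 : ∀ m ≤ j, ∀ {β : Type} [AddCommMonoid β] (F : ℕ → β),
      ∑ i ∈ range m, F (Function.update x j y i) = ∑ i ∈ range m, F (x i) := fun m hm _ _ F =>
    sum_congr rfl fun i hi => by rw [Function.update_of_ne (by have := mem_range.1 hi; omega)]
  refine ⟨Function.update x j y, fun i hi => ?_, ?_, ?_, fun B hA hj => ?_, ?_⟩
  · rcases Nat.lt_succ_iff_lt_or_eq.1 hi with hi | rfl
    · rw [Function.update_of_ne hi.ne]
      exact h1 i hi
    · rwa [Function.update_self]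
  · rw [sum_range_succ, e1 j le_rfl fun z => z, Function.update_self]
    omega
  · rw [h3, show j + 1 + l = j + l + 1 by ring, tri_succ]
    ring
  · rcases Nat.lt_succ_iff_lt_or_eq.1 (Nat.lt_succ_of_le hj) with hj | hj
    · rw [e1 _ (by omega) fun z => z]
      exact h4 B hA (by omega)
    · rw [hj, sum_range_succ, e1 j le_rfl fun z => z, Function.update_self]
      have := hB B hA hj fun v hv => by
        have k1 := h4 (B.erase v) ((erase_subset _ _).trans hA) (by rw [card_erase_of_mem hv]; omega)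
        rw [card_erase_of_mem hv, hj, Nat.add_sub_cancel] at k1
        rw [← add_sum_erase B d hv]
        omega
      omega
  · rw [sum_range_succ, e1 j le_rfl φ, Function.update_self]
    push_cast
    linarith

theorem tl_spec {φ : ℕ → ℝ} {d : α → ℕ} {A : Finset α} {g : ℕ → ℕ → ℕ → ℕ → ℕ → ℕ}
    {S An dU t ph A0 H H2 J hm l e0 : ℕ}
    (hx : ∀ x < 32, x ≤ dU → #{z ∈ A | d z < x} ≤ pc (dif An (row S (Nat.add 64 x))))
    (hL : ∀ B ⊆ A, tri (#B + l) + #B * e0 ≤ H + ∑ v ∈ B, d v)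
    (hF : ∀ B ⊆ A, A0 ≤ H + ∑ v ∈ B, d v + (H2 + (J - #B) * hm))
    (hφ : ∀ y, t ≤ y → y ≤ 60 → φ y ≤ ent ph y) : ∀ i j D Lc s a, TI φ d A t H l e0 j D Lc a →
      tl g S An dU t ph (Nat.add l e0) A0 H2 J hm i j D Lc s a ≠ 0 →
      ∃ j D Lc s a, TI φ d A t H l e0 j D Lc a ∧ g j D Lc s a ≠ 0
  | 0, j, D, Lc, s, a, h, h0 => ⟨j, D, Lc, s, a, h, h0⟩
  | i + 1, j, D, Lc, s, a, h, h0 => by
    rw [tl] at h0
    obtain ⟨h1, h2⟩ := cnd h0
    simp only [Bool.and_eq_true, Nat.ble_eq] at h1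
    obtain ⟨⟨⟨k1, k2⟩, k3⟩, k4⟩ := h1
    have k0 : Nat.land s 31 < 32 := Nat.lt_succ_of_le Nat.and_le_right
    generalize Nat.land s 31 = x at *
    have k5 := (hx x k0 k2).trans k3
    simp only [mx_eq, Nat.add_eq, Nat.sub_eq, Nat.mul_eq, Nat.succ_eq_add_one] at h2 k4
    have k6 := k1.trans (le_max_left x (max (Lc + (j + (l + e0)))
      (A0 - (H2 + (J - (j + 1)) * hm)) - D))
    refine tl_spec hx hL hF hφ i _ _ _ _ _ (h.step k6 (hφ _ k6 k4) fun B hA hj hv => ?_) h2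
    obtain ⟨v, v1, v2⟩ : ∃ v ∈ B, x ≤ d v := by
      by_contra hc
      push Not at hc
      have := card_le_card (s := B) (t := {z ∈ A | d z < x}) fun z hz =>
        mem_filter.2 ⟨hA hz, hc z hz⟩
      omega
    have k7 := hv v v1
    have k8 := hL B hA
    have k9 := hF B hA
    obtain ⟨-, -, -, h3, -⟩ := h
    rw [hj] at k8 k9
    rw [show j + 1 + l = j + l + 1 by ring, tri_succ, add_mul, one_mul] at k8
    omega

theorem TI.fin {φ : ℕ → ℝ} {d : α → ℕ} {A : Finset α} {t H l e0 j D Lc a : ℕ}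
    (h0 : ∀ d, 0 ≤ φ d) (ha : ∀ d, t ≤ d → φ (d + 1) ≤ φ d)
    (hc : ∀ d, t ≤ d → 2 * φ (d + 1) ≤ φ d + φ (d + 2)) (hd : ∀ v ∈ A, t ≤ d v)
    (h : TI φ d A t H l e0 j D Lc a) (hj : #A ≤ j) : ∑ v ∈ A, φ (d v) ≤ a := by
  obtain ⟨x, h1, -, -, h4, h5⟩ := h
  exact (kar ha hc hd (fun i hi => h1 i (by omega)) fun B hB =>
    h4 B hB ((card_le_card hB).trans hj)).trans
    ((sum_le_sum_of_subset_of_nonneg (range_mono hj) fun _ _ _ => h0 _).trans h5)

theorem TI.inf {φ : ℕ → ℝ} {d : α → ℕ} {A : Finset α} {t H l e0 j D Lc a : ℕ} {c : ℝ}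
    (h0 : ∀ d, 0 ≤ φ d) (ha : ∀ d, t ≤ d → φ (d + 1) ≤ φ d)
    (hc : ∀ d, t ≤ d → 2 * φ (d + 1) ≤ φ d + φ (d + 2)) (hd : ∀ v ∈ A, t ≤ d v)
    (hL : ∀ B ⊆ A, tri (#B + l) + #B * e0 ≤ H + ∑ v ∈ B, d v)
    (h : TI φ d A t H l e0 j D Lc a) (hD : D ≤ Lc) (ht : t ≤ j + (l + e0))
    (hs : ∀ N, ∑ i ∈ range N, φ (j + (l + e0) + i) ≤ c) : ∑ v ∈ A, φ (d v) ≤ a + c := by
  obtain ⟨x, h1, h2, h3, h4, h5⟩ := h
  set y : ℕ → ℕ := fun i => if i < j then x i else i + (l + e0) with hy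
  have e1 : ∀ m ≤ j, ∀ {β : Type} [AddCommMonoid β] (F : ℕ → β),
      ∑ i ∈ range m, F (y i) = ∑ i ∈ range m, F (x i) := fun m hm _ _ F =>
    sum_congr rfl fun i hi => by
      rw [hy]
      simp only [if_pos (show i < j by have := mem_range.1 hi; omega)]
  have e2 : ∀ m, j ≤ m → H + ∑ i ∈ range m, y i ≤ tri (m + l) + m * e0 := by
    intro m hm
    induction m, hm using Nat.le_induction with
    | base =>
      rw [e1 j le_rfl fun z => z]
      omega
    | succ m hm ih =>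
      rw [sum_range_succ, show m + 1 + l = m + l + 1 by ring, tri_succ, add_mul,
        show y m = m + (l + e0) from if_neg (by omega)]
      omega
  have k1 := kar (x := y) ha hc hd (fun i _ => by
    rw [hy]
    by_cases hi : i < j
    · simpa only [if_pos hi] using h1 i hi
    · simp only [if_neg hi]
      omega) fun B hB => by
    rcases le_total #B j with hj | hj
    · rw [e1 _ hj fun z => z]
      exact h4 B hB hj
    · have := e2 _ hj
      have := hL B hB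
      omega
  refine k1.trans ((sum_le_sum_of_subset_of_nonneg (range_mono (Nat.le_add_left #A j))
    fun _ _ _ => h0 _).trans ?_)
  rw [sum_range_add, e1 j le_rfl φ]
  refine add_le_add h5 (le_trans (le_of_eq (sum_congr rfl fun i _ => ?_)) (hs #A))
  rw [show y (j + i) = j + i + (l + e0) from if_neg (by omega), add_right_comm]

/-! ### counting by the source -/

/-- Deleting excluded vertices and un-excluding vertices only increases the count. -/
theorem cnt_shrink {V' : Finset α} {X X' : α → Prop} (h1 : V' ⊆ V)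
    (h2 : ∀ x ∈ V, ¬ X x → x ∈ V') (h3 : ∀ x ∈ V', X' x → X x) : cnt r V X ≤ cnt r V' X' := by
  rw [cnt_eq, cnt_eq]
  refine card_le_card fun W hW => ?_
  obtain ⟨k1, k2⟩ := mem_MS.1 hW
  have hs : W ⊆ V' := fun x hx => h2 x (k1.1 hx) (k2 x hx)
  exact mem_MS.2 ⟨⟨hs, k1.2.1, fun x hx => k1.2.2 x (h1 hx)⟩,
    fun x hx k => k2 x hx (h3 x (hs hx) k)⟩

/-- The number of maximal acyclic sets with source `v`. -/
noncomputable def srcN (r : α → α → Prop) (V : Finset α) (v : α) : ℕ :=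
  cnt (rc r v) (Vc r V v) fun z => r z v

theorem M_le_sum_src (hV : SC r V) (hne : V.Nonempty) : M r V ≤ ∑ v ∈ V, srcN r V v := by
  classical
  rw [M, cnt_eq]
  refine le_trans (card_le_card (t := V.biUnion fun v =>
    (MS (rc r v) (Vc r V v) fun z => r z v).image (insert v)) fun W hW => ?_)
    (card_biUnion_le.trans (sum_le_sum fun v _ => card_image_le))
  obtain ⟨k1, -⟩ := mem_MS.1 hW
  obtain ⟨v, hv, h⟩ := k1.source hV hne
  exact mem_biUnion.2 ⟨v, k1.1 hv, mem_image.2 ⟨W.erase v, mem_MS.2 ⟨k1.con hV hv,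
    fun x hx => (mem_outN.1 (h.1 hx)).2.2⟩, insert_erase hv⟩⟩

theorem srcN_le (hV : SC r V) {v : α} (hv : v ∈ V) : srcN r V v ≤ M r (outN r V v) := by
  have h1 : M (rc r v) (outN r V v) = M r (outN r V v) := M_congr fun a ha b _ =>
    ⟨fun k => k.resolve_right fun k' => (mem_outN.1 ha).2.2 k'.1, .inl⟩
  refine le_trans (cnt_del fun x => ?_) h1.le
  rw [mem_outN, mem_Vc]
  exact ⟨fun k => ⟨⟨k.1, fun e => hV.irr v hv (e ▸ k.2.1), fun e => k.2.2 e.1⟩, k.2.2⟩,
    fun k => ⟨k.1.1, (hV.tot x k.1.1 v hv k.1.2.1).resolve_left k.2, k.2⟩⟩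

end Pool.Agent.MP_75ef89_co.Ex.Lf
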