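import Pool.Agent.MP_75ef89_co.Ex.Lf1

/-! Soundness of the two kinds of leaves of the outer checker. -/

namespace Pool.Agent.MP_75ef89_co.Ex

open Finset

namespace Lf

variable {α : Type} [DecidableEq α] {n k dU S sg hm nf : ℕ} {ρ : α → α → Prop} {Ω : Finset α}
  {e : ℕ → α} {ND : α → Prop}

theorem tb_f256 (t : ℕ) : f256.testBit t = decide (t < 256) := by
  rw [show f256 = 2 ^ 256 - 1 by decide +kernel, Nat.testBit_two_pow_sub_one]

theorem tb_m1024 (t : ℕ) : m1024.testBit t = decide (t < 1024) := by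
  rw [show m1024 = 2 ^ 1024 - 1 by decide +kernel, Nat.testBit_two_pow_sub_one]

theorem tb_cpl (S a t : ℕ) : (Nat.xor (blk S a) f256).testBit t =
    (decide (t < 256) && !S.testBit (256 * a + t)) := by
  rw [tb_xor, tb_blk, tb_f256]
  by_cases h : t < 256 <;> simp [h]

theorem msk_lt {j : ℕ} (h : (msk k).testBit j = true) : j < k := by
  rwa [tb_msk, decide_eq_true_eq] at h

theorem lt_msk {j : ℕ} (h : j < k) : (msk k).testBit j = true := by
  rwa [tb_msk, decide_eq_true_eq]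

omit [DecidableEq α] in
theorem hP0 (h : OH2 k dU S ρ Ω e ND) {i j : ℕ} (hi : i < k) (hj : j < k) (hr : ρ (e i) (e j)) :
    (Nat.xor (blk S 2) f256).testBit (16 * i + j) = true := by
  have hk := h.le
  rw [tb_cpl, Bool.and_eq_true, decide_eq_true_eq, Bool.not_eq_true', ← Bool.not_eq_true]
  refine ⟨by omega, fun hb => ?_⟩
  exact ((mean_N (by omega)).1 (h.bits (32 + i) j (by omega)
    (by rw [← hb]; congr 1; ring))).2.2.2 hr

omit [DecidableEq α] in
theorem hQ0 (h : OH2 k dU S ρ Ω e ND) {i j : ℕ} (hi : i < k) (hj : j < k) (hr : ρ (e j) (e i)) :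
    (Nat.xor (blk S 3) f256).testBit (16 * i + j) = true := by
  have hk := h.le
  rw [tb_cpl, Bool.and_eq_true, decide_eq_true_eq, Bool.not_eq_true', ← Bool.not_eq_true]
  refine ⟨by omega, fun hb => ?_⟩
  exact ((mean_NT (by omega)).1 (h.bits (48 + i) j (by omega)
    (by rw [← hb]; congr 1; ring))).2.2.2 hr

omit [DecidableEq α] in
theorem hY0 (h : OH2 k dU S ρ Ω e ND) {i j : ℕ} (hj : j < 16)
    (hb : (blk S 0).testBit (16 * i + j) = true) : ρ (e i) (e j) := by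
  obtain ⟨h1, h2⟩ := h.blk hj hb
  rw [mul_zero, zero_add] at h2
  exact ((mean_Y h1).1 h2).2.2

omit [DecidableEq α] in
theorem hT0 (h : OH2 k dU S ρ Ω e ND) {i j : ℕ} (hj : j < 16)
    (hb : (blk S 1).testBit (16 * i + j) = true) : j < k ∧ ρ (e j) (e i) := by
  obtain ⟨h1, h2⟩ := h.blk hj hb
  exact ⟨h2.1, ((mean_T h1).1 h2).2.2⟩

theorem tb_mkC (k S t : ℕ) : (mkC k S (Nat.xor (blk S 3) f256)).testBit t =
    ((blk S 1).testBit t || decide (256 ≤ t) && ((Nat.xor (blk S 3) f256).testBit (t - 256) &&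
      (Nat.mul ones (msk k)).testBit (t - 256)) ||
      decide (512 ≤ t) && (S.testBit (1024 + (t - 512)) && decide (t - 512 < 1024))) := by
  rw [mkC, tb_lor, tb_lor, tb_shl, tb_shl, tb_land, tb_land, tb_shr, tb_m1024]

theorem mkC_hi {k S t : ℕ} (ht : 512 ≤ t)
    (h : (mkC k S (Nat.xor (blk S 3) f256)).testBit t = true) :
    S.testBit (512 + t) = true ∧ t < 1536 := by
  rw [tb_mkC, tb_blk, tb_cpl] at h
  simp only [Bool.or_eq_true, Bool.and_eq_true, decide_eq_true_eq] at h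
  rcases h with (h | h) | h
  · omega
  · omega
  · exact ⟨(show 1024 + (t - 512) = 512 + t by omega) ▸ h.2.1, by omega⟩

omit [DecidableEq α] in
theorem root (hG : Glob n sg hm nf ρ Ω ND) (h : OH2 k dU S ρ Ω e ND) :
    Root n k ρ Ω e (mkC k S (Nat.xor (blk S 3) f256)) := by
  have hk := h.le
  refine ⟨hk, hG.card, hG.sc, h.mem, h.inj, fun i hi j hj hb => ?_, fun i hi j hj hr => ?_,
    fun d hd i hi hb => ?_, fun d i hi hb => ?_⟩
  · rw [tb_mkC] at hb
    simp only [Bool.or_eq_true, Bool.and_eq_true, decide_eq_true_eq] at hb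
    rcases hb with (hb | hb) | hb
    · exact hT0 h hj hb
    · omega
    · omega
  · rw [tb_mkC, show 16 * (16 + i) + j - 256 = 16 * i + j by omega, hQ0 h hi hj hr,
      tb_outer (fun t ht => by
        rw [tb_ones, Bool.and_eq_true, decide_eq_true_eq] at ht
        exact ht.1) (fun t ht => by have := msk_lt ht; omega) i (by omega), lt_msk hj, tb_ones]
    simp only [Bool.or_eq_true, Bool.and_eq_true, decide_eq_true_eq, and_true, true_and]
    exact .inl (.inr (by omega))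
  · obtain ⟨h1, -⟩ := mkC_hi (by omega) hb
    exact ((mean_Lo hd).1 (h.bits (64 + d) i (by omega) (by rw [← h1]; congr 1; ring))).2
  · obtain ⟨h1, h2⟩ := mkC_hi (by omega) hb
    exact ((mean_Hi (by omega)).1
      (h.bits (96 + d) i (by omega) (by rw [← h1]; congr 1; ring))).2

omit [DecidableEq α] in
theorem mem_RR {z : α} : z ∈ RR k e Ω ↔ z ∈ Ω ∧ Un k e z := by
  classical
  exact mem_filter

omit [DecidableEq α] in
theorem cov {z : α} (hz : z ∈ Ω) : z ∈ RR k e Ω ∨ ∃ i < k, e i = z := by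
  by_contra hc
  push Not at hc
  exact hc.1 (mem_RR.2 ⟨hz, hc.2⟩)

omit [DecidableEq α] in
theorem Rest_sub (V : Finset α) (U x : ℕ) : Rest k e V U x ⊆ V := by
  classical
  exact filter_subset _ _

omit [DecidableEq α] in
/-- The extra invariants hold trivially as long as nothing has been contracted. -/
theorem hold2 (hG : Glob n sg hm nf ρ Ω ND) {V : Finset α} (hV : V ⊆ Ω)
    {Y T P Q pres cl dom U hv : ℕ} (h : Hold k e (RR k e Ω) ρ V Y T P Q pres cl dom U) :
    Hold2 n k ρ Ω e ρ V Y T P Q pres cl dom U hv 0 0 0 := by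
  have r0 : ∀ a, row 0 a = 0 := fun a => by simp [row]
  refine ⟨h, hG.lay.mono hV, hV, fun _ _ _ _ k => k, fun _ _ _ _ _ _ _ k => k, fun i hi => ?_,
    Nat.zero_le _, ?_, ⟨∅, empty_subset _, by simp, fun i hi => ?_, ?_⟩, fun i hi => ?_⟩
  · simp at hi
  · exact (card_le_card ((Rest_sub _ _ _).trans hV)).trans hG.card.le
  · simp [r0] at hi
  · exact (card_le_card (Rest_sub _ _ _)).trans (Nat.zero_le _)
  · simp [r0] at hi

theorem hi2_ne {x : ℕ} (h : hi2 x ≠ 0) : x ≠ 0 := by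
  rintro rfl
  exact h rfl

/-- One source. -/
theorem src_spec (hI : InnerStmt) (hC : ConStmt) {w wT gs : ℕ} {Z : ℝ} (hT : Tab α n w wT gs Z)
    (hG : Glob n sg hm nf ρ Ω ND) (h : OH2 k dU S ρ Ω e ND) {v s b : ℕ} (hv : v < k)
    (hb : b < m48) {x : ℕ} (hx : x = src w wT gs k (mkC k S (Nat.xor (blk S 3) f256)) (blk S 0)
      (blk S 1) (Nat.xor (blk S 2) f256) (Nat.xor (blk S 3) f256) (blk S 3) (row S 128)
      (Nat.lor (row S 128) (row S 129)) v s b) (h0 : x ≠ 0) :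
    lo2 x ≤ b ∧ (srcN ρ Ω (e v) : ℝ) + lo2 x * Z ≤ b * Z := by
  classical
  have hk := h.le
  have hR := root hG h
  obtain ⟨l1, l2⟩ := hI α n k w wT gs _ Z ρ Ω e hT hR 60
  set I := row (blk S 1) v with hIv
  have hIb : ∀ i, I.testBit i = true → i < k ∧ ρ (e i) (e v) := fun i hi => by
    rw [hIv, tb_row, Bool.and_eq_true, decide_eq_true_eq] at hi
    exact hT0 h hi.2 hi.1
  set U1 := dif (msk k) I with hU1
  set U0 := dif U1 (bit v) with hU0
  have hvv := hG.sc.irr _ (h.mem v hv)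
  set V1 : Finset α := {z ∈ Ω | ¬ ρ z (e v) ∨ Im e I z} with hV1
  have sub : V1 ⊆ Ω := filter_subset _ _
  have u0 : ∀ j, U0.testBit j = true → j < k ∧ j ≠ v ∧ (e j ∈ V1 → ¬ ρ (e j) (e v)) := by
    intro j hj
    rw [hU0, tb_dif, hU1, tb_dif, tb_bit] at hj
    simp only [Bool.and_eq_true, Bool.not_eq_true', decide_eq_false_iff_not] at hj
    refine ⟨msk_lt hj.1.1, fun k => hj.2 k.symm, fun k => (mem_filter.1 k).2.resolve_right ?_⟩
    rintro ⟨t, t1, t2⟩
    rw [h.inj t (hIb t t1).1 j (msk_lt hj.1.1) t2, hj.1.2] at t1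
    exact absurd t1 (by decide)
  have out : ∀ z ∈ Ω, z ≠ e v → ¬ ρ z (e v) → ρ (e v) z := fun z hz k1 k2 =>
    (hG.sc.tot z hz _ (h.mem v hv) k1).resolve_left k2
  have ha : ∀ i j, j < 16 → (Nat.shiftLeft U0 (Nat.mul 16 v)).testBit (16 * i + j) = true →
      i = v ∧ U0.testBit j = true := by
    intro i j hj hb
    rw [tb_shl, Bool.and_eq_true, decide_eq_true_eq] at hb
    have k1 := (u0 _ hb.2).1
    have k2 := hb.1
    simp only [Nat.mul_eq] at k1 k2 hb
    obtain rfl : i = v := by omega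
    exact ⟨rfl, by simpa using hb.2⟩
  have he : ∀ i j, j < 16 → (Nat.shiftLeft (spr U0) v).testBit (16 * i + j) = true →
      j = v ∧ U0.testBit i = true := by
    intro i j hj hb
    rw [tb_shl, tb_spr fun t ht => by have := (u0 t ht).1; omega] at hb
    simp only [Bool.and_eq_true, decide_eq_true_eq] at hb
    obtain rfl : j = v := by omega
    exact ⟨rfl, by simpa using hb.2.2⟩
  have hH : Hold k e (RR k e Ω) ρ V1 (Nat.lor (blk S 0) (Nat.shiftLeft U0 (Nat.mul 16 v)))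
      (Nat.lor (blk S 1) (Nat.shiftLeft (spr U0) v))
      (dif (Nat.xor (blk S 2) f256) (Nat.shiftLeft (spr U0) v))
      (dif (Nat.xor (blk S 3) f256) (Nat.shiftLeft U0 (Nat.mul 16 v)))
      (Nat.lor (row (blk S 3) v) I) (row S 128)
      (Nat.lor (Nat.lor (row S 128) (row S 129)) (bit v)) U1 := by
    refine ⟨hG.sc.mono sub, fun z hz => cov (sub hz), fun i hi j hj k1 k2 hb => ?_,
      fun i hi j hj k1 k2 hb => ?_, fun i hi j hj k1 k2 hr => ?_, fun i hi j hj k1 k2 hr => ?_,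
      fun i hb => ?_, fun i _ hb _ z hz hR => (h.cl hb).2 z (sub hz) (mem_RR.1 hR).2,
      fun i hi hb _ z hz hR => ?_, fun i hb => ?_⟩
    · rw [tb_lor, Bool.or_eq_true] at hb
      refine hb.elim (hY0 h (by omega)) fun hb => ?_
      obtain ⟨rfl, k3⟩ := ha i j (by omega) hb
      exact out _ (sub k2) (h.ne hj hi (u0 j k3).2.1) ((u0 j k3).2.2 k2)
    · rw [tb_lor, Bool.or_eq_true] at hb
      refine hb.elim (fun hb => (hT0 h (by omega) hb).2) fun hb => ?_
      obtain ⟨rfl, k3⟩ := he i j (by omega) hb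
      exact out _ (sub k1) (h.ne hi hj (u0 i k3).2.1) ((u0 i k3).2.2 k1)
    · rw [tb_dif, hP0 h hi hj hr, Bool.true_and, Bool.not_eq_true', ← Bool.not_eq_true]
      intro hb
      obtain ⟨rfl, k3⟩ := he i j (by omega) hb
      exact (u0 i k3).2.2 k1 hr
    · rw [tb_dif, hQ0 h hi hj hr, Bool.true_and, Bool.not_eq_true', ← Bool.not_eq_true]
      intro hb
      obtain ⟨rfl, k3⟩ := ha i j (by omega) hb
      exact (u0 j k3).2.2 k2 hr
    · rw [tb_lor, Bool.or_eq_true] at hb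
      rcases hb with hb | hb
      · rw [tb_row, Bool.and_eq_true, decide_eq_true_eq] at hb
        obtain ⟨k1, k2⟩ := h.blk hb.2 hb.1
        obtain ⟨k3, -, -, k4⟩ := (mean_NT k1).1 k2
        exact ⟨k3, mem_filter.2 ⟨h.mem i k3, .inl k4⟩⟩
      · exact ⟨(hIb i hb).1, mem_filter.2 ⟨h.mem i (hIb i hb).1, .inr ⟨i, hb, rfl⟩⟩⟩
    · rw [tb_lor, Bool.or_eq_true, tb_bit, decide_eq_true_eq] at hb
      have hu := (mem_RR.1 hR).2
      rcases hb with hb | rfl
      · exact (h.cd hG.sc hb).2 z (sub hz) hu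
      · refine out z (sub hz) (hu v hv).symm ((mem_filter.1 hz).2.resolve_right ?_)
        rintro ⟨t, t1, t2⟩
        exact hu t (hIb t t1).1 t2
    · rw [hU1, tb_dif, Bool.and_eq_true] at hb
      exact msk_lt hb.1
  have hU : U1.testBit v = true := by
    rw [hU1, tb_dif, lt_msk hv, Bool.true_and, Bool.not_eq_true', ← Bool.not_eq_true]
    exact fun k => hvv (hIb v k).2
  subst hx
  obtain ⟨k1, k2⟩ := hC α n k _ Z ρ Ω e _ hT.nonneg hR l1 l2 ρ V1 _ _ _ _ _ _ _ _ (msk k) 0 0 0 v s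
    b (hold2 hG sub hH) hU (mem_filter.2 ⟨h.mem v hv, .inl hvv⟩) hb h0
  refine ⟨k1, le_trans (add_le_add_left (Nat.cast_le.2 ?_) _) k2⟩
  refine cnt_shrink (fun z hz => ?_) (fun z hz k => ?_) ?_
  · rw [mem_Vc] at hz ⊢
    exact ⟨sub hz.1, hz.2⟩
  · rw [mem_Vc] at hz ⊢
    exact ⟨mem_filter.2 ⟨hz.1, .inl k⟩, hz.2⟩
  · rintro _ _ ⟨i, hi, rfl, hb⟩
    rw [hU1, tb_dif, lt_msk hi, Bool.true_and, Bool.not_eq_false'] at hb
    exact (hIb i hb).2

theorem srcs_spec (hI : InnerStmt) (hC : ConStmt) {w wT gs : ℕ} {Z : ℝ} (hT : Tab α n w wT gs Z)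
    (hG : Glob n sg hm nf ρ Ω ND) (h : OH2 k dU S ρ Ω e ND) {L : ℕ} : ∀ i ≤ k, ∀ x, lo2 x < m48 →
      srcs w wT gs k (mkC k S (Nat.xor (blk S 3) f256)) (blk S 0)
        (blk S 1) (Nat.xor (blk S 2) f256) (Nat.xor (blk S 3) f256) (blk S 3) (row S 128)
        (Nat.lor (row S 128) (row S 129)) L i x ≠ 0 →
      ∑ j ∈ range i with L.testBit j, (srcN ρ Ω (e j) : ℝ) ≤ lo2 x * Z
  | 0, _, x, _, _ => by simpa using mul_nonneg (Nat.cast_nonneg _) hT.nonneg
  | i + 1, hi, x, hx, h0 => by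
    rw [srcs, tb_eq] at h0
    rw [range_add_one, filter_insert]
    cases hL : L.testBit i
    · rw [hL, cond_false] at h0
      rw [if_neg (by simp)]
      exact srcs_spec hI hC hT hG h i (by omega) x hx h0
    · rw [hL, cond_true] at h0
      obtain ⟨h1, h2⟩ := cne h0
      obtain ⟨k1, k2⟩ := src_spec hI hC hT hG h (by omega) hx rfl h1
      have k3 := srcs_spec hI hC hT hG h i (by omega) _ (k1.trans_lt hx) h2
      rw [if_pos rfl, sum_insert (by simp)]
      linarith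

/-- The vertices with a name in the mask `x`. -/
def im (k : ℕ) (e : ℕ → α) (x : ℕ) : Finset α :=
  ({i ∈ range k | x.testBit i} : Finset ℕ).image e

theorem mem_im {x : ℕ} {z : α} : z ∈ im k e x ↔ ∃ i < k, x.testBit i = true ∧ e i = z := by
  simp [im, and_assoc]

theorem sum_im {β : Type} [AddCommMonoid β] (h : OH2 k dU S ρ Ω e ND) (x : ℕ) (F : α → β) :
    ∑ z ∈ im k e x, F z = ∑ i ∈ range k with x.testBit i, F (e i) :=
  sum_image fun i hi j hj => h.inj i (mem_range.1 (mem_filter.1 (mem_coe.1 hi)).1) j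
    (mem_range.1 (mem_filter.1 (mem_coe.1 hj)).1)

theorem card_im (h : OH2 k dU S ρ Ω e ND) {x : ℕ} (hx : ∀ t, x.testBit t = true → t < k) :
    #(im k e x) = pc x := by
  have hk := h.le
  rw [card_eq_sum_ones, sum_im h, ← card_eq_sum_ones, pc_eq fun t ht => by have := hx t ht; omega]
  congr 1
  ext t
  simp only [mem_filter, mem_range]
  exact ⟨fun k => ⟨by omega, k.2⟩, fun k => ⟨hx t k.2, k.2⟩⟩

theorem im_sub (h : OH2 k dU S ρ Ω e ND) (x : ℕ) : im k e x ⊆ Ω := fun _ hz => by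
  obtain ⟨i, hi, -, rfl⟩ := mem_im.1 hz
  exact h.mem i hi

theorem mem_im' (h : OH2 k dU S ρ Ω e ND) {x i : ℕ} (hi : i < k) :
    e i ∈ im k e x ↔ x.testBit i = true := by
  rw [mem_im]
  exact ⟨fun ⟨j, hj, k1, k2⟩ => h.inj j hj i hi k2 ▸ k1, fun k => ⟨i, hi, k, rfl⟩⟩

theorem outside (h : OH2 k dU S ρ Ω e ND) {L : ℕ} {z : α} (hz : z ∈ Ω \ im k e L) :
    z ∈ Ω ∧ (Un k e z ∨ ∃ j < k, (dif (msk k) L).testBit j = true ∧ e j = z) := by
  rw [mem_sdiff] at hz
  refine ⟨hz.1, (cov (k := k) (e := e) hz.1).imp (fun k => (mem_RR.1 k).2) ?_⟩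
  rintro ⟨j, hj, rfl⟩
  refine ⟨j, hj, ?_, rfl⟩
  rw [tb_dif, lt_msk hj, Bool.true_and, Bool.not_eq_true', ← Bool.not_eq_true, ← mem_im' h hj]
  exact hz.2

/-- Few vertices outside `L` have small in-degree. -/
theorem few (h : OH2 k dU S ρ Ω e ND) (L x : ℕ) (hx : x < 32) (hd : x ≤ dU) :
    #{z ∈ Ω \ im k e L | indeg ρ Ω z < x} ≤ pc (dif (dif (msk k) L) (row S (Nat.add 64 x))) := by
  have hk := h.le
  refine card_image_le_pc (e := e) (fun t ht => ?_) fun z hz => ?_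
  · rw [tb_dif, tb_dif, Bool.and_eq_true, Bool.and_eq_true] at ht
    have := msk_lt ht.1.1
    omega
  · obtain ⟨h1, h2⟩ := mem_filter.1 hz
    obtain ⟨h3, h4 | ⟨j, hj, h4, rfl⟩⟩ := outside h h1
    · have := h.low z h3 h4
      omega
    · refine ⟨j, ?_, rfl⟩
      rw [tb_dif, h4, Bool.true_and, Bool.not_eq_true', ← Bool.not_eq_true]
      exact fun k => h2.not_ge (h.Lo hx k).2

/-- Landau's inequality for a set outside `L` together with `Lp`. -/
theorem land (hG : Glob n sg hm nf ρ Ω ND) (h : OH2 k dU S ρ Ω e ND) {L Lp E H : ℕ}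
    (h1 : sub L (msk k) = true) (h2 : sub Lp L = true)
    (h3 : sub E (Nat.land (dif L Lp) (Nat.lor (row S 128) (row S 129))) = true)
    (h4 : sub (Nat.mul (spr E) (dif (msk k) L)) S = true)
    (hH : ∑ i ∈ range k with Lp.testBit i,
      (indeg ρ Ω (e i) - pc (Nat.land (row S (Nat.add 16 i)) (dif L Lp))) ≤ H)
    (B : Finset α) (hB : B ⊆ Ω \ im k e L) :
    tri (#B + pc Lp) + #B * pc E ≤ H + ∑ v ∈ B, indeg ρ Ω v := by
  have hk := h.le
  have hE : ∀ t, E.testBit t = true → (dif L Lp).testBit t = true ∧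
      (Nat.lor (row S 128) (row S 129)).testBit t = true := fun t ht => by
    have := sub_imp h3 ht
    rwa [tb_land, Bool.and_eq_true] at this
  have hO : ∀ t, (dif L Lp).testBit t = true → t < k ∧ L.testBit t = true ∧
      Lp.testBit t = false := fun t ht => by
    rw [tb_dif, Bool.and_eq_true, Bool.not_eq_true'] at ht
    exact ⟨msk_lt (sub_imp h1 ht.1), ht⟩
  have dj : Disjoint B (im k e Lp) := disjoint_left.2 fun z hz hz' => by
    obtain ⟨i, hi, k1, rfl⟩ := mem_im.1 hz'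
    exact (mem_sdiff.1 (hB hz)).2 ((mem_im' h hi).2 (sub_imp h2 k1))
  have hC : B ∪ im k e Lp ⊆ Ω := union_subset (hB.trans sdiff_subset) (im_sub h _)
  have dO : ∀ x : ℕ, (∀ t, x.testBit t = true → (dif L Lp).testBit t = true) →
      Disjoint (B ∪ im k e Lp) (im k e x) := fun x hx => disjoint_right.2 fun z hz hz' => by
    obtain ⟨i, hi, k1, rfl⟩ := mem_im.1 hz
    obtain ⟨-, k2, k3⟩ := hO i (hx i k1)
    rcases mem_union.1 hz' with k | k
    · exact (mem_sdiff.1 (hB k)).2 ((mem_im' h hi).2 k2)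
    · rw [mem_im' h hi, k3] at k
      exact absurd k (by decide)
  have k1 := tri_le (hG.sc.mono hC)
  rw [card_union_of_disjoint dj, sum_union dj, sum_im h,
    card_im h fun t ht => msk_lt (sub_imp h1 (sub_imp h2 ht))] at k1
  have k2 : ∑ v ∈ B, (indeg ρ (B ∪ im k e Lp) v + pc E) ≤ ∑ v ∈ B, indeg ρ Ω v := by
    refine sum_le_sum fun v hv => ?_
    rw [← card_im h fun t ht => (hO t (hE t ht).1).1]
    refine indeg_add hC (im_sub h _) (dO E fun t ht => (hE t ht).1) fun a ha => ?_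
    obtain ⟨i, hi, t1, rfl⟩ := mem_im.1 ha
    obtain ⟨t2, t3 | ⟨j, hj, t3, rfl⟩⟩ := outside h (hB hv)
    · exact (h.cd hG.sc (hE i t1).2).2 v t2 t3
    · have s15 : ∀ t, E.testBit t = true → t < 15 := fun t ht => by
        have := (hO t (hE t ht).1).1
        omega
      refine ((mean_Y (by omega)).1 (h.bits i j (by omega) (sub_imp h4 ?_))).2.2
      rw [tb_outer (fun t ht => by
        rw [tb_spr s15, Bool.and_eq_true, decide_eq_true_eq] at ht
        exact ht.1) (fun t ht => by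
          rw [tb_dif, Bool.and_eq_true] at ht
          have := msk_lt ht.1
          omega) i (by omega), t3, tb_spr s15]
      simpa using t1
  have k3 : ∑ i ∈ range k with Lp.testBit i, indeg ρ (B ∪ im k e Lp) (e i) ≤ H := by
    refine le_trans (sum_le_sum fun i hi => Nat.le_sub_of_add_le ?_) hH
    have hi' := mem_range.1 (mem_filter.1 hi).1
    have hx : ∀ t, (Nat.land (row S (Nat.add 16 i)) (dif L Lp)).testBit t = true →
        (row S (Nat.add 16 i)).testBit t = true ∧ (dif L Lp).testBit t = true := fun t ht => by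
      rwa [tb_land, Bool.and_eq_true] at ht
    rw [← card_im h fun t ht => (hO t (hx t ht).2).1]
    refine indeg_add hC (im_sub h _) (dO _ fun t ht => (hx t ht).2) fun a ha => ?_
    obtain ⟨t, -, t1, rfl⟩ := mem_im.1 ha
    exact (h.T (by omega) (hx t t1).1).2.2
  rw [sum_add_distrib, sum_const, smul_eq_mul] at k2
  omega

/-- The total in-degree of a digraph of known order. -/
theorem total (hG : Glob n sg hm nf ρ Ω ND) (h : OH2 k dU S ρ Ω e ND) {L H2 : ℕ} (hnf : nf ≠ 0)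
    (h1 : sub L (msk k) = true) (hH : ∑ i ∈ range k with L.testBit i, indeg ρ Ω (e i) ≤ H2)
    (B : Finset α) (hB : B ⊆ Ω \ im k e L) :
    tri nf ≤ ∑ v ∈ B, indeg ρ Ω v + (H2 + (nf - pc L - #B) * hm) := by
  obtain ⟨k1, k2⟩ := hG.fin hnf
  have k3 := tri_le hG.sc
  rw [← sum_sdiff (im_sub h L), ← sum_sdiff hB, sum_im h, hG.card, k1] at k3
  have k4 := sum_le_card_nsmul ((Ω \ im k e L) \ B) (fun v => indeg ρ Ω v) hm fun v hv =>
    hG.hmax k2 v (mem_sdiff.1 (mem_sdiff.1 hv).1).1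
  rw [card_sdiff_of_subset hB, card_sdiff_of_subset (im_sub h L), hG.card, k1,
    card_im h fun t ht => msk_lt (sub_imp h1 ht), smul_eq_mul] at k4
  omega

end Lf

open Lf

theorem iLeaf (hI : InnerStmt) : ILeafStmt := by
  intro α _ n sg hm nf w wT gs tg Z ρ Ω ND hT hG htg k dU S s e h h0
  have hk := h.le
  have hH : Hold k e (RR k e Ω) ρ Ω (blk S 0) (blk S 1) (Nat.xor (blk S 2) f256)
      (Nat.xor (blk S 3) f256) (msk k) (row S 128) (Nat.lor (row S 128) (row S 129)) (msk k) :=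
    ⟨hG.sc, fun z hz => cov hz, fun i _ j hj _ _ hb => hY0 h (by omega) hb,
      fun i _ j hj _ _ hb => (hT0 h (by omega) hb).2, fun i hi j hj _ _ hr => hP0 h hi hj hr,
      fun i hi j hj _ _ hr => hQ0 h hi hj hr, fun i hi => ⟨msk_lt hi, h.mem i (msk_lt hi)⟩,
      fun i _ hb _ z hz hR => (h.cl hb).2 z hz (mem_RR.1 hR).2,
      fun i _ hb _ z hz hR => (h.cd hG.sc hb).2 z hz (mem_RR.1 hR).2, fun i hi => msk_lt hi⟩
  have h1 := (hI α n k w wT gs _ Z ρ Ω e hT (root hG h) 60).2 ρ Ω _ _ _ _ _ _ _ _ (msk k) 0 0 0 s tg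
    (hold2 hG subset_rfl hH) htg (hi2_ne h0)
  have h2 : M ρ Ω ≤ cnt ρ Ω (XU k e (msk k)) := cnt_mono (by
    rintro x _ ⟨i, hi, -, hb⟩
    simp [tb_msk, hi] at hb)
  exact le_trans (Nat.cast_le.2 h2) (le_trans
    (le_add_of_nonneg_right (mul_nonneg (Nat.cast_nonneg _) hT.nonneg)) h1)

theorem lLeaf (hI : InnerStmt) (hC : ConStmt) : LLeafStmt := by
  intro α _ n sg hm nf w wT gs ph tg Z ρ Ω ND hT hP hG htg k dU S s e h h0
  rw [llf] at h0
  generalize f16 s 0 = L, f16 s 16 = Lp, f16 s 32 = E, f5 s 48 = t at h0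
  obtain ⟨c, h0⟩ := cnd h0
  simp only [Bool.and_eq_true, Nat.ble_eq] at c
  obtain ⟨⟨⟨⟨⟨⟨c1, c2⟩, c3⟩, c4⟩, c5⟩, c6⟩, c7⟩ := c
  obtain ⟨φ, p0, p1, p2, p3, p4, p5⟩ := hP t c6
  obtain ⟨s1, H, h0, hH⟩ := hs_spec h _ _ _ h0
  obtain ⟨s2, H2, h0, hH2⟩ := hs_spec h _ _ _ h0
  rw [zero_add] at hH hH2
  have hL := land hG h c1 c2 c3 c4 hH
  have hF : ∀ B ⊆ Ω \ im k e L, (bif Nat.beq nf 0 then 0 else Nat.add (tri nf) H) ≤
      H + ∑ v ∈ B, indeg ρ Ω v + (H2 + (Nat.sub nf (pc L) - #B) * hm) := by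
    intro B hB
    cases hnf : Nat.beq nf 0
    · rw [hnf, cond_false] at hH2
      have := total hG h (Nat.ne_of_beq_eq_false hnf) c1
        (le_trans (sum_le_sum fun i _ => le_of_eq (by
          rw [show Nat.land (row S (Nat.add 16 i)) 0 = 0 from Nat.and_zero _]
          rfl)) hH2) B hB
      simp only [cond_false, Nat.add_eq, Nat.sub_eq]
      omega
    · exact Nat.zero_le _
  obtain ⟨j, D, Lc, s3, a, hTI, h0⟩ := tl_spec (φ := φ) (few h L) hL hF p4 _ _ _ _ _ _ TI.zero h0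
  obtain ⟨c8, h0⟩ := cnd h0
  rw [Nat.ble_eq] at c8
  have hd : ∀ v ∈ Ω \ im k e L, t ≤ indeg ρ Ω v := fun v hv => by
    obtain ⟨k1, k2 | ⟨i, -, k2, rfl⟩⟩ := outside h hv
    · exact c5.trans (h.low v k1 k2)
    · exact (h.Lo (by omega) (sub_imp c7 k2)).2
  generalize ha1 : (bif Nat.beq nf 0 then _ else _ : ℕ) = a1 at c8 h0
  have k1 : ∑ v ∈ Ω \ im k e L, φ (indeg ρ Ω v) ≤ a1 := by
    have ne : a1 ≠ m48 := by omega
    cases hnf : Nat.beq nf 0
    · rw [hnf, cond_false] at ha1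
      cases hc : Nat.ble nf (Nat.add j (pc L))
      · rw [hc, cond_false] at ha1
        exact absurd ha1.symm ne
      · rw [hc, cond_true] at ha1
        rw [Nat.ble_eq, Nat.add_eq] at hc
        refine ha1 ▸ hTI.fin p0 p1 p2 hd ?_
        rw [card_sdiff_of_subset (im_sub h L), hG.card, (hG.fin (Nat.ne_of_beq_eq_false hnf)).1,
          card_im h fun t ht => msk_lt (sub_imp c1 ht)]
        omega
    · rw [hnf, cond_true] at ha1
      generalize hc : (_ && _ : Bool) = c at ha1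
      cases c
      · exact absurd ha1.symm ne
      · simp only [Bool.and_eq_true, Nat.ble_eq, Nat.add_eq] at hc
        rw [cond_true] at ha1
        rw [← ha1, Nat.add_eq, Nat.cast_add]
        exact hTI.inf p0 p1 p2 hd hL hc.1.1 hc.1.2 fun N =>
          p5 (Nat.eq_of_beq_eq_true hnf) _ N hc.1.2 hc.2
  have hb : tg - a1 ≤ m48 := by omega
  have k2 := srcs_spec hI hC hT hG h k le_rfl _ (by rw [Nat.sub_eq, lo2_pk2 hb]; omega) h0
  rw [Nat.sub_eq, lo2_pk2 hb, Nat.cast_sub c8, ← sum_im h L fun z => (srcN ρ Ω z : ℝ)] at k2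
  have k3 : ∑ v ∈ Ω \ im k e L, (srcN ρ Ω v : ℝ) ≤ ∑ v ∈ Ω \ im k e L, φ (indeg ρ Ω v) * Z := by
    refine sum_le_sum fun v hv => ?_
    have v1 := (mem_sdiff.1 hv).1
    exact le_trans (Nat.cast_le.2 (srcN_le hG.sc v1)) (p3 v v1 (hd v hv))
  have k4 := (Nat.cast_le (α := ℝ)).2
    (M_le_sum_src hG.sc (card_pos.1 (by rw [hG.card]; exact hG.pos)))
  rw [Nat.cast_sum, ← sum_sdiff (im_sub h L)] at k4
  rw [← sum_mul] at k3
  have k5 := mul_le_mul_of_nonneg_right k1 hT.nonneg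
  linarith

end Pool.Agent.MP_75ef89_co.Ex
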