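import Mathlib
import Pool.Agent.MP_75ef89_co.Ex.Spec2

/-! The constants of the induction, the checks of the tables, and the list of case trees. -/

set_option synthInstance.maxSize 4000

namespace Pool.Agent.MP_75ef89_co.Ex

/-! ### constants, per residue of the number of vertices modulo 7, in units of 1/1000 -/

def vv (r : ℕ) : ℕ := [441, 525, 903, 1366, 1849, 3087, 5292].getD r 0
/-- a vertex of in-degree at most 1 -/
def cB1 (r : ℕ) : ℕ := [720, 1000, 1000, 969, 1000, 1000, 780].getD r 1000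
/-- a vertex of in-degree at most 2 -/
def cB2 (r : ℕ) : ℕ := [750, 1000, 1000, 1000, 1000, 1000, 1000].getD r 1000
/-- `Ev (hN r) (lN r)` -/
def cN (r : ℕ) : ℕ := [840, 1000, 1000, 1000, 1000, 940, 900].getD r 1000
def hN (r : ℕ) : ℕ := [9, 0, 0, 0, 0, 7, 8].getD r 0
def lN (r : ℕ) : ℕ := [2, 0, 0, 0, 0, 0, 1].getD r 0
/-- a dominating set of size `s` -/
def cT (r s : ℕ) : ℕ :=
  ([[1000, 730, 680, 640, 640, 690, 730], [1000, 986, 960, 840, 840, 870, 990],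
    [1000, 980, 980, 840, 710, 730, 870], [1000, 985, 975, 975, 750, 760, 810],
    [1000, 990, 985, 955, 960, 960, 960], [1000, 900, 890, 880, 860, 1000, 980],
    [1000, 850, 780, 780, 770, 840, 1000]].getD r []).getD s 1000
/-- `Prof (cdK r q)` -/
def cK (r q : ℕ) : ℕ := ([[], [880], [920], [920, 920], [890], [890], []].getD r []).getD q 1000
def cdK (r q : ℕ) : ℕ :=
  ([[], [0x12010], [0x13020], [0x13022, 0x13220], [0x11010], [0x1010], []].getD r []).getD q 0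
/-- the general trees for the plain bound are only valid from this size on -/
def nmin (r : ℕ) : ℕ := [0, 15, 0, 17, 18, 0, 0].getD r 0

/-- The largest `g ≤ mx` with `cT r s ≤ c` for `1 ≤ s ≤ g`. -/
def sigf (r c : ℕ) : ℕ → ℕ
  | 0 => 0
  | mx + 1 => if sigf r c mx = mx ∧ cT r (mx + 1) ≤ c then mx + 1 else sigf r c mx

def cst (r c : ℕ) : ℕ :=
  if c ≤ 5 then cK r (c - 4) else if c = 6 then cN r else if c = 8 then cB1 r
  else if c = 9 then cB2 r else 1000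

/-! ### checks of the tables -/

/-- `x` (in the unit of the tree) is at least `c / 1000 * g (n - m)`; here `n % 7 = r`, and `n = nf`
if `nf ≠ 0`. The unit is `21 ^ (n / 7) / (441000 * 9261)` if `nf = 0` and `1` otherwise. -/
def Fit (r nf m c x : ℕ) : Prop :=
  if nf = 0 then c * vv ((r + 70 - m) % 7) * 9261 ≤ x * 21 ^ ((m + 6 - r) / 7)
  else nf < m ∨ c * G (nf - m) < 441000 * (x + 1)

instance (r nf m c x : ℕ) : Decidable (Fit r nf m c x) := by unfold Fit; infer_instance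

def TabChk (r nf nm w wT gs : ℕ) : Prop :=
  (∀ c < 11, 4 ≤ c → wt2 w 0 c = m48) ∧ (∀ l < 8, ∀ h < 8, wtT wT 0 l h = m48) ∧
  (∀ m < 48, 1 ≤ m → wt2 w m 0 = hN ((r + 70 - m) % 7) ∧ wt2 w m 1 = lN ((r + 70 - m) % 7) ∧
    wt2 w m 2 = cdK ((r + 70 - m) % 7) 0 ∧ wt2 w m 3 = cdK ((r + 70 - m) % 7) 1 ∧
    (∀ c < 11, 4 ≤ c → Fit r nf (m + 1) 1000 (wt2 w m c) ∧
      (c = 7 ∨ Fit r nf m (cst ((r + 70 - m) % 7) c) (wt2 w m c))) ∧
    ∀ l < 8, ∀ h < 8, Fit r nf (m + 1) 1000 (wtT wT m l h) ∧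
      ∀ s < 8, l ≤ s → s ≤ h → Fit r nf m (cT ((r + 70 - m) % 7) s) (wtT wT m l h)) ∧
  (∀ s < 16, G s < 441 * (ent gs s + 1)) ∧ ent gs 16 < 2 ^ 16 ∧
  ∀ s < 16, (ent gs 16).testBit s = true → if nf = 0 then s < nm ∨ s % 7 ≠ r else s ≠ nf

instance (r nf nm w wT gs : ℕ) : Decidable (TabChk r nf nm w wT gs) := by
  unfold TabChk; infer_instance

/-- The function is continued by `φ (60 + i) = φ 60 * (2 / 3) ^ i` if `nf = 0`, and by the constant
`φ 60` otherwise. For `nf ≠ 0` the digraph is a tournament with in-degrees at most `hm`. -/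
def PhiChk (r nf hm ph : ℕ) : Prop := ∀ t < 18,
  (∀ d < 60, t ≤ d → ent (phr ph t) (d + 1) ≤ ent (phr ph t) d) ∧
  (∀ d < 59, t ≤ d → 2 * ent (phr ph t) (d + 1) ≤ ent (phr ph t) d + ent (phr ph t) (d + 2)) ∧
  if nf = 0 then
    4 * ent (phr ph t) 60 ≤ 3 * ent (phr ph t) 59 ∧
    (∀ d < 60, t ≤ d → Fit r 0 (d + 1) 1000 (ent (phr ph t) d)) ∧
    (∀ i < 7, 1000 * vv ((r + 70 - (61 + i)) % 7) * 9261 * 3 ^ i ≤
      ent (phr ph t) 60 * 2 ^ i * 21 ^ ((61 + i + 6 - r) / 7)) ∧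
    2 * ent (phr ph t) 60 ≤ ent (phr ph t) (62 + 61) ∧
    ∀ d < 61, t ≤ d → ent (phr ph t) d + ent (phr ph t) (62 + (d + 1)) ≤ ent (phr ph t) (62 + d)
  else ∀ d < nf, t ≤ d → d ≤ hm → F (nf - 1 - d) ≤ ent (phr ph t) d

instance (r nf hm ph : ℕ) : Decidable (PhiChk r nf hm ph) := by unfold PhiChk; infer_instance

/-! ### the trees -/

/-- The entries `j0, …, j1 - 1` of the table have been checked. -/
def Chain (tbl : ℕ → ℕ) (w wT gs ph tg sg hm nf j0 j1 : ℕ) : Prop := ∀ P : ℕ → Prop,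
  (∀ L j, chkL tbl w wT gs ph tg sg hm nf L j = true → (∀ i < j, P i) → ∀ i < j + L.length, P i) →
    (∀ i < j0, P i) → ∀ i < j1, P i

theorem Chain.one {tbl : ℕ → ℕ} {w wT gs ph tg sg hm nf j0 j1 : ℕ} {L : List ℕ}
    (h : chkL tbl w wT gs ph tg sg hm nf L j0 = true) (hl : j0 + L.length = j1) :
    Chain tbl w wT gs ph tg sg hm nf j0 j1 := fun _ hP h0 => hl ▸ hP L j0 h h0

theorem Chain.trans {tbl : ℕ → ℕ} {w wT gs ph tg sg hm nf j0 j1 j2 : ℕ}
    (h1 : Chain tbl w wT gs ph tg sg hm nf j0 j1) (h2 : Chain tbl w wT gs ph tg sg hm nf j1 j2) :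
    Chain tbl w wT gs ph tg sg hm nf j0 j2 := fun P hP h0 => h2 P hP (h1 P hP h0)

/-- The target `c / 1000 * g n` in the unit of the general trees. -/
def tgv (r c : ℕ) : ℕ := c * vv r * 9261

/-- One vertex of in-degree `d` (no vertex if `d = 5`), all in-degrees at least `d`. -/
def rootD (d : ℕ) : ℕ := if d = 5 then 5 * 16 else 1 + d * 16 + (d + d * 32) * 2 ^ 57

/-- `s` vertices that dominate the others, all in-degrees at least `d`, no digon among the `s`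
vertices if `nds`. -/
def rootT (s d : ℕ) (nds : Bool) : ℕ :=
  s + max d s * 16 + (2 ^ s - 1) * 2 ^ 25 + (if nds then (2 ^ s - 1) * 2 ^ 41 else 0) +
    (∑ i ∈ Finset.range s, (d + 63 * 32) * 2 ^ (11 * i)) * 2 ^ 57

/-- Two vertices with the profile `cd`, all in-degrees at least `1`. -/
def rootK (cd : ℕ) : ℕ :=
  2 + 16 + (if cd.testBit 16 then 3 * 2 ^ 41 else 0) +
    (max (nib cd 0) 1 + nib cd 4 * 32 + (max (nib cd 8) 1 + nib cd 12 * 32) * 2 ^ 11) * 2 ^ 57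

/-- A general tree with root `c0`. -/
def Tree (r nm tg sg c0 : ℕ) : Prop := ∃ (tbl : ℕ → ℕ) (w wT gs ph N : ℕ),
  TabChk r 0 nm w wT gs ∧ PhiChk r 0 32 ph ∧ Chain tbl w wT gs ph tg sg 32 0 0 (N + 1) ∧ tbl N = c0

/-- A tree for tournaments on `nf` vertices with all in-degrees in `[d, nf - 1 - d]`. -/
def TreeF (nf d : ℕ) : Prop := ∃ (tbl : ℕ → ℕ) (w wT gs ph N : ℕ),
  TabChk (nf % 7) nf 0 w wT gs ∧ PhiChk (nf % 7) nf (nf - 1 - d) ph ∧
  Chain tbl w wT gs ph (F nf) 31 (nf - 1 - d) nf 0 (N + 1) ∧ tbl N = rootD d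

/-- The state `c` is a block without evidence: all names are closed and all arcs are known. -/
def Blk (r w gs c : ℕ) : Prop :=
  1 ≤ nib c 0 ∧ row (xpd c) 128 = msk (nib c 0) ∧
  (∀ i < nib c 0, ∀ j < nib c 0, i = j ∨ (row (xpd c) (16 + i)).testBit j = true ∨
    (row (xpd c) (48 + i)).testBit j = true) ∧
  (∀ i < nib c 0, lN r < pc (row (xpd c) (16 + i)) ∧ pc (row (xpd c) (16 + i)) ≤ 3) ∧
  (∀ i < nib c 0, ∀ j < nib c 0, (row (xpd c) (16 + i)).testBit j = true →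
    (row (xpd c) (16 + j)).testBit i = false) ∧
  (∀ i < nib c 0, ∀ j < nib c 0, i = j ∨
    pc (Nat.land (row (xpd c) (16 + i)) (row (xpd c) (16 + j))) ≤ 1) ∧
  (∀ y < nib c 0, ∀ a < nib c 0, ∀ b < nib c 0, ∀ d < nib c 0,
    (row (xpd c) (16 + y)).testBit a = true → (row (xpd c) (16 + y)).testBit b = true →
    (row (xpd c) (16 + y)).testBit d = true → (row (xpd c) (16 + b)).testBit a = true →
    (row (xpd c) (16 + d)).testBit a = true → b = d) ∧
  ent gs (nib c 0) * wt2 w (nib c 0) 6 ≤ tgv r (cN r) ∧ hN r ≤ nib c 0 + wt2 w (nib c 0) 1 ∧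
  wt2 w (nib c 0) 1 ≤ wt2 w (nib c 0) 0

instance (r w gs c : ℕ) : Decidable (Blk r w gs c) := by unfold Blk; infer_instance

/-- A tree that proves: the count is at most `cN r / 1000 * g n`, or there is no evidence and the
count is at most `g n`. The first `j0` entries of the table are blocks. -/
def TreeN (r d : ℕ) : Prop := ∃ (tbl : ℕ → ℕ) (w wT gs ph j0 N : ℕ),
  TabChk r 0 0 w wT gs ∧ PhiChk r 0 32 ph ∧
  (∀ i < j0, Blk r w gs (tbl i) ∧
    ∃ s, ilf w wT gs (tgv r 1000) (nib (tbl i) 0) (xpd (tbl i)) s ≠ 0) ∧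
  Chain tbl w wT gs ph (tgv r (cN r)) (sigf r (cN r) 6) 32 0 j0 (N + 1) ∧ tbl N = rootD d

def dT (r s : ℕ) : ℕ := if cB1 r ≤ cT r s ∧ cB1 r < 1000 then 2 else 1
def d0 (r : ℕ) : ℕ := 1 + (if cB1 r < 1000 then 1 else 0) + if cB2 r < 1000 then 1 else 0

/-- All trees. -/
structure AllTrees : Prop where
  b1 : ∀ r < 7, cB1 r < 1000 → Tree r 0 (tgv r (cB1 r)) 0 (rootD 1)
  t : ∀ r < 7, ∀ s < 7, 1 ≤ s → (cT r s < 1000 ∨ s ≤ sigf r (cN r) 6) →
    Tree r 0 (tgv r (cT r s)) (sigf r (cT r s) (s - 1))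
      (rootT s (dT r s) (decide (sigf r (cT r s) (s - 1) = s - 1)))
  b2 : ∀ r < 7, cB2 r < 1000 → Tree r 0 (tgv r (cB2 r)) (sigf r (cB2 r) 6) (rootD 2)
  k : ∀ r < 7, ∀ q < 2, cK r q < 1000 → Tree r 0 (tgv r (cK r q)) 0 (rootK (cdK r q))
  a : ∀ r < 7, cN r = 1000 → ∀ d < 6, d0 r ≤ d →
    Tree r (nmin r) (tgv r 1000) (sigf r 1000 6) (rootD d)
  n : ∀ r < 7, cN r < 1000 → ∀ d < 6, d0 r ≤ d → TreeN r d
  f : ∀ nf ∈ [3, 4, 8, 10, 11], ∀ d < 6, 1 ≤ d → 2 * d + 1 ≤ nf → TreeF nf d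

/-- The main induction. -/
def MainStmt : Prop := AllTrees → UpperStmt

end Pool.Agent.MP_75ef89_co.Ex
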