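import Mathlib
import Pool.Agent.MP_75ef89_co.Ex.Spec3

/-! The statement that is proved by induction, and the interface of the table checks. -/

namespace Pool.Agent.MP_75ef89_co.Ex

open Finset

/-- The bounds for one layered digraph on `n` vertices. -/
structure Bnd {α : Type} [DecidableEq α] (n : ℕ) (r : α → α → Prop) (V : Finset α) : Prop where
  a : 441 * M r V ≤ G n
  b0 : (∃ v ∈ V, indeg r V v ≤ 0) → 441 * M r V ≤ G (n - 1)
  b1 : (∃ v ∈ V, indeg r V v ≤ 1) → 441000 * M r V ≤ cB1 (n % 7) * G n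
  b2 : (∃ v ∈ V, indeg r V v ≤ 2) → 441000 * M r V ≤ cB2 (n % 7) * G n
  nn : Ev (hN (n % 7)) (lN (n % 7)) r V → 441000 * M r V ≤ cN (n % 7) * G n
  t : ∀ S, Top r V S → 441000 * M r V ≤ cT (n % 7) #S * G n
  k : ∀ q, Prof (cdK (n % 7) q) r V → 441000 * M r V ≤ cK (n % 7) q * G n
  f : (∀ a ∈ V, ∀ b ∈ V, r a b → ¬ r b a) → M r V ≤ F n

/-- The statement proved by induction on `n`. -/
def Claim (α : Type) [DecidableEq α] (n : ℕ) : Prop :=
  ∀ (r : α → α → Prop) (V : Finset α), SC r V → Lay r V → #V = n → Bnd n r V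

/-- The unit of the weights. -/
noncomputable def Zu (n nf : ℕ) : ℝ := if nf = 0 then 21 ^ (n / 7) / (441000 * 9261) else 1

/-- The checked weight tables are valid. -/
def TabStmt : Prop := ∀ (α : Type) [DecidableEq α] (n nf nm w wT gs : ℕ),
  (∀ m < n, Claim α m) → (nf = 0 ∨ nf = n) → nm ≤ n → TabChk (n % 7) nf nm w wT gs →
    Tab α n w wT gs (Zu n nf)

/-- The checked table for the vertices of large in-degree is valid. -/
def PhiStmt : Prop := ∀ (α : Type) [DecidableEq α] (n nf hm ph : ℕ) (ρ : α → α → Prop)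
  (Ω : Finset α), (∀ m < n, Claim α m) → SC ρ Ω → Lay ρ Ω → #Ω = n →
    (nf ≠ 0 → nf = n ∧ (∀ a ∈ Ω, ∀ b ∈ Ω, ρ a b → ¬ ρ b a) ∧ ∀ v ∈ Ω, indeg ρ Ω v ≤ hm) →
    PhiChk (n % 7) nf hm ph → PhiOK ρ Ω nf ph (Zu n nf)

theorem G_eq (n : ℕ) : G n = vv (n % 7) * 21 ^ (n / 7) := rfl

theorem G_add (n : ℕ) : G (n + 7) = 21 * G n := by
  rw [G_eq, G_eq, Nat.add_mod_right, Nat.add_div_right n (by norm_num), pow_succ]
  ring

/-- A ratio of two neighbouring values only depends on the residue. -/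
theorem G_ratio {a b : ℕ → ℕ} (h : ∀ i < 7, a ((i + 1) % 7) * G i ≤ b ((i + 1) % 7) * G (i + 1))
    (n : ℕ) : a ((n + 1) % 7) * G n ≤ b ((n + 1) % 7) * G (n + 1) := by
  induction n using Nat.strong_induction_on with
  | _ n ih =>
  by_cases hn : n < 7
  · exact h n hn
  · obtain ⟨m, rfl⟩ : ∃ m, n = m + 7 := ⟨n - 7, by omega⟩
    have := ih m (by omega)
    rw [show m + 7 + 1 = m + 1 + 7 by omega, G_add, G_add, Nat.add_mod_right]
    nlinarith

theorem G_mono : Monotone G := monotone_nat_of_le_succ fun n => by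
  simpa using G_ratio (a := fun _ => 1) (b := fun _ => 1) (by decide) n

end Pool.Agent.MP_75ef89_co.Ex
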