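import Mathlib
import Pool.Agent.MP_75ef89_co.Ex.Main0

/-! The checked tables are valid, given the claims for smaller digraphs. -/

namespace Pool.Agent.MP_75ef89_co.Ex

open Finset

theorem Zu_nonneg (n nf : ℕ) : 0 ≤ Zu n nf := by
  unfold Zu
  split_ifs <;> positivity

theorem G_sub {n m : ℕ} (hm : m ≤ n) (h70 : m ≤ 70) :
    G (n - m) * 21 ^ ((m + 6 - n % 7) / 7) = vv ((n % 7 + 70 - m) % 7) * 21 ^ (n / 7) := by
  rw [G_eq, mul_assoc, ← pow_add, show (n - m) % 7 = (n % 7 + 70 - m) % 7 by omega,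
    show (n - m) / 7 + (m + 6 - n % 7) / 7 = n / 7 by omega]

theorem le_Zu {n K a x b : ℕ} (ha : 0 < a) (h : 441000 * K * 9261 * a ≤ x * b * 21 ^ (n / 7)) :
    (K : ℝ) ≤ x * (b / a) * Zu n 0 := by
  have h1 : (441000 : ℝ) * K * 9261 * a ≤ x * b * 21 ^ (n / 7) := by exact_mod_cast h
  have h2 : (0 : ℝ) < a := by exact_mod_cast ha
  rw [Zu, if_pos rfl, mul_div_assoc', mul_div_assoc', div_mul_eq_mul_div, div_div,
    le_div_iff₀ (by positivity)]
  linarith

theorem fit_le {n nf m c x K : ℕ} (hnf : nf = 0 ∨ nf = n) (hm : m ≤ n) (h70 : m ≤ 70)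
    (h : Fit (n % 7) nf m c x) (hK : 441000 * K ≤ c * G (n - m)) : (K : ℝ) ≤ x * Zu n nf := by
  unfold Fit at h
  split_ifs at h with h0
  · subst h0
    have h1 := G_sub hm h70
    have h2 : 441000 * K * 9261 * 1 ≤ x * 1 * 21 ^ (n / 7) := by
      refine Nat.le_of_mul_le_mul_right ?_ (Nat.pos_of_ne_zero
        (pow_ne_zero ((m + 6 - n % 7) / 7) (by norm_num : 21 ≠ 0)))
      calc _ ≤ c * G (n - m) * 9261 * 1 * 21 ^ ((m + 6 - n % 7) / 7) := by gcongr
        _ = c * vv ((n % 7 + 70 - m) % 7) * 9261 * 21 ^ (n / 7) := by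
          rw [show ∀ a b d : ℕ, c * a * 9261 * 1 * b = c * 9261 * (a * b) from fun _ _ _ => by ring,
            h1]
          · ring
          · exact 0
        _ ≤ x * 21 ^ ((m + 6 - n % 7) / 7) * 21 ^ (n / 7) := by gcongr
        _ = _ := by ring
    simpa using le_Zu one_pos h2
  · obtain rfl : nf = n := hnf.resolve_left h0
    rw [Zu, if_neg h0, mul_one]
    exact_mod_cast (by omega : K ≤ x)

theorem below_le {α : Type} [DecidableEq α] {n j : ℕ} (ih : ∀ m < n, Claim α m) {r : α → α → Prop}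
    {V : Finset α} (hV : SC r V) (hL : Lay r V) (h1 : #V < n) (h2 : #V ≤ j) :
    441000 * M r V ≤ 1000 * G j := by
  have h3 := (ih _ h1 r V hV hL rfl).a
  have h4 := G_mono h2
  omega

theorem tabStmt : TabStmt := by
  intro α _ n nf nm w wT gs ih hnf hnm ⟨h1, h2, h3, h4, h5, h6⟩
  refine ⟨Zu_nonneg _ _, fun c a b => h1 c (by omega) a, h2, ?_, ?_, ?_, ?_⟩
  · intro r V hV hL m c m1 m2 c1 c2 hn hc
    obtain ⟨e0, e1, e2, e3, e4, -⟩ := h3 m (by omega) m1
    obtain ⟨f1, f2⟩ := e4 c (by omega) c1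
    by_cases hlt : #V + m + 1 ≤ n
    · exact fit_le hnf (by omega) (by omega) f1 (below_le ih hV hL (by omega) (by omega))
    have hB := ih (n - m) (by omega) r V hV hL (by omega)
    have hr : (n % 7 + 70 - m) % 7 = (n - m) % 7 := by omega
    rw [hr] at e0 e1 e2 e3 f2
    have hc := hc.resolve_left hlt
    unfold Cls at hc
    by_cases c7 : c = 7
    · subst c7
      obtain ⟨v, hv, h0⟩ : ∃ v ∈ V, indeg r V v ≤ 0 := by simpa using hc
      have := hB.b0 ⟨v, hv, h0⟩
      have := card_pos.2 ⟨v, hv⟩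
      exact fit_le hnf (by omega) (by omega) f1
        (by rw [show n - (m + 1) = n - m - 1 by omega]; omega)
    refine fit_le hnf (by omega) (by omega) (f2.resolve_left c7) ?_
    interval_cases c
    · exact hB.k 0 (e2 ▸ hc)
    · exact hB.k 1 (e3 ▸ hc)
    · exact hB.nn (e0 ▸ e1 ▸ hc)
    · exact absurd rfl c7
    · exact hB.b1 hc
    · exact hB.b2 hc
    · have := hB.a
      change _ ≤ 1000 * _
      omega
  · intro r V hV hL m m1 m2 l hl h hh hn hc
    obtain ⟨f1, f2⟩ := (h3 m (by omega) m1).2.2.2.2.2 l hl h hh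
    by_cases hlt : #V + m + 1 ≤ n
    · exact fit_le hnf (by omega) (by omega) f1 (below_le ih hV hL (by omega) (by omega))
    obtain ⟨S, hS, s1, s2⟩ := hc.resolve_left hlt
    refine fit_le hnf (by omega) (by omega) (f2 _ (by omega) s1 s2) ?_
    rw [show (n % 7 + 70 - m) % 7 = (n - m) % 7 by omega]
    exact (ih (n - m) (by omega) r V hV hL (by omega)).t S hS
  · intro r V hV hL s hs s1 s2
    have := below_le ih hV hL s2 s1
    have := h4 s (by omega)
    omega
  · intro s hs
    have s16 : s < 16 := by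
      by_contra hc
      rw [Nat.testBit_lt_two_pow (h5.trans_le (Nat.pow_le_pow_right two_pos (not_lt.1 hc)))] at hs
      exact absurd hs (by simp)
    have := h6 s s16 hs
    split_ifs at this with h0
    · rintro rfl
      omega
    · omega

theorem F_mono : Monotone F := monotone_nat_of_le_succ fun n => by
  induction n using Nat.strong_induction_on with
  | _ n ih =>
  by_cases h : n ≤ 17
  · rw [F, dif_pos (by omega), F, dif_pos (by omega)]
    clear ih
    revert n
    decide
  by_cases h2 : n = 18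
  · subst h2
    rw [F, dif_pos (by omega), F, dif_neg (by omega), F, dif_pos (by omega)]
    decide
  · have := ih (n - 7) (by omega)
    rw [F, dif_neg (by omega), F.eq_1 (n + 1), dif_neg (by omega),
      show n + 1 - 7 = n - 7 + 1 by omega]
    omega

theorem G_add_mul (n j : ℕ) : G (n + 7 * j) = 21 ^ j * G n := by
  induction j with
  | zero => simp
  | succ j ih =>
    rw [show n + 7 * (j + 1) = n + 7 * j + 7 by ring, G_add, ih]
    ring

theorem geo_le (N : ℕ) : ∑ i ∈ range N, (2 / 3 : ℝ) ^ (i + 1) ≤ 2 - 2 * (2 / 3) ^ N := by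
  induction N with
  | zero => simp
  | succ N ih =>
    rw [sum_range_succ, pow_succ]
    linarith

theorem phiStmt : PhiStmt := by
  intro α _ n nf hm ph ρ Ω ih hV hL hn hf hP t ht
  obtain ⟨h1, h2, h3⟩ := hP t (by omega)
  generalize ent (phr ph t) = x at *
  obtain ⟨q, hq, q0, q1⟩ : ∃ q : ℝ, q = (if nf = 0 then 2 / 3 else 1) ∧ 0 ≤ q ∧ q ≤ 1 :=
    ⟨_, rfl, by split_ifs <;> norm_num, by split_ifs <;> norm_num⟩
  obtain ⟨φ, lo, hi⟩ : ∃ φ : ℕ → ℝ, (∀ d ≤ 60, φ d = x d) ∧ ∀ i, φ (60 + i) = x 60 * q ^ i :=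
    ⟨fun d => x (min d 60) * q ^ (d - 60), fun d hd => by
      simp only [min_eq_left hd, Nat.sub_eq_zero_of_le hd, pow_zero, mul_one], fun i => by
      simp only [min_eq_right (Nat.le_add_right 60 i), Nat.add_sub_cancel_left]⟩
  have x0 : ∀ i, (0 : ℝ) ≤ x 60 * q ^ i := fun i => by positivity
  refine ⟨φ, fun d => ?_, fun d hd => ?_,
    fun d hd => ?_, fun v hv hd => ?_, fun d _ hd => (lo d hd).le, fun h0 d N hd h61 => ?_⟩
  · by_cases h : d ≤ 60
    · rw [lo d h]
      positivity
    · obtain ⟨i, rfl⟩ : ∃ i, d = 60 + i := ⟨d - 60, by omega⟩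
      exact hi i ▸ x0 i
  · by_cases h : d < 60
    · simp only [lo d h.le, lo (d + 1) h]
      exact_mod_cast h1 d h hd
    · obtain ⟨i, rfl⟩ : ∃ i, d = 60 + i := ⟨d - 60, by omega⟩
      simp only [add_assoc, hi, pow_succ]
      nlinarith [x0 i]
  · by_cases h : d < 59
    · simp only [lo d (by omega), lo (d + 1) (by omega), lo (d + 2) (by omega)]
      exact_mod_cast h2 d h hd
    by_cases h' : d = 59
    · subst h'
      have h4 := hi 1
      have h5 : (x 60 : ℝ) ≤ x 59 := by exact_mod_cast h1 59 (by omega) hd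
      simp only [lo 59 (by omega), lo (59 + 1) (by omega), show 59 + 2 = 60 + 1 from rfl, h4]
      split_ifs at h3 hq with h0
      · have h6 : (4 * x 60 : ℝ) ≤ 3 * x 59 := by exact_mod_cast h3.1
        rw [hq]
        linarith
      · rw [hq]
        linarith
    · obtain ⟨i, rfl⟩ : ∃ i, d = 60 + i := ⟨d - 60, by omega⟩
      simp only [add_assoc, hi, pow_add]
      nlinarith [mul_nonneg (x0 i) (sq_nonneg (q - 1))]
  · have hs : outN ρ Ω v ⊆ Ω := fun z hz => (mem_outN.1 hz).1
    have hc := card_outN hV hv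
    have hm' : nf ≠ 0 → indeg ρ Ω v ≤ hm := fun h => (hf h).2.2 v hv
    replace hf := fun h => (⟨(hf h).1, (hf h).2.1⟩ : _ ∧ _)
    generalize indeg ρ Ω v = d at *
    split_ifs at h3 hq with h0
    · subst h0
      have hb := below_le (j := n - (d + 1)) ih (hV.mono hs) (hL.mono hs) (by omega) (by omega)
      by_cases h : d < 60
      · simp only [lo d h.le]
        exact fit_le (.inl rfl) (by omega) (by omega) (h3.2.1 d h hd) hb
      obtain ⟨i, hi7, j, rfl⟩ : ∃ i < 7, ∃ j, d = 60 + (i + 7 * j) :=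
        ⟨(d - 60) % 7, by omega, (d - 60) / 7, by omega⟩
      have h4 := h3.2.2.1 i hi7
      have h5 := G_sub (n := n) (m := 61 + i) (by omega) (by omega)
      have h6 := G_add_mul (n - (60 + (i + 7 * j) + 1)) j
      rw [show n - (60 + (i + 7 * j) + 1) + 7 * j = n - (61 + i) by omega] at h6
      have h7 : 3 ^ (7 * j) ≤ 21 ^ j * 2 ^ (7 * j) := by
        rw [pow_mul, pow_mul, ← mul_pow]
        exact Nat.pow_le_pow_left (by norm_num) j
      have h8 : 1000 * G (n - (61 + i)) * 9261 * 3 ^ i ≤ x 60 * 2 ^ i * 21 ^ (n / 7) := by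
        refine Nat.le_of_mul_le_mul_right ?_ (Nat.pos_of_ne_zero
          (pow_ne_zero ((61 + i + 6 - n % 7) / 7) (by norm_num : 21 ≠ 0)))
        calc _ = 1000 * 9261 * 3 ^ i * (G (n - (61 + i)) * 21 ^ ((61 + i + 6 - n % 7) / 7)) := by
              ring
          _ = 1000 * vv ((n % 7 + 70 - (61 + i)) % 7) * 9261 * 3 ^ i * 21 ^ (n / 7) := by
              rw [h5]
              ring
          _ ≤ x 60 * 2 ^ i * 21 ^ ((61 + i + 6 - n % 7) / 7) * 21 ^ (n / 7) := by gcongr
          _ = _ := by ring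
      rw [hi, hq, div_pow]
      have h9 := le_Zu (n := n) (K := M ρ (outN ρ Ω v)) (x := x 60) (b := 2 ^ (i + 7 * j))
        (a := 3 ^ (i + 7 * j)) (by positivity) (by
          calc _ = 441000 * M ρ (outN ρ Ω v) * 3 ^ (7 * j) * 9261 * 3 ^ i := by ring
            _ ≤ 1000 * G (n - (60 + (i + 7 * j) + 1)) * (21 ^ j * 2 ^ (7 * j)) * 9261 * 3 ^ i := by
              gcongr
            _ = 1000 * G (n - (61 + i)) * 9261 * 3 ^ i * 2 ^ (7 * j) := by
              rw [h6]
              ring
            _ ≤ x 60 * 2 ^ i * 21 ^ (n / 7) * 2 ^ (7 * j) := by gcongr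
            _ = _ := by ring)
      exact_mod_cast h9
    · obtain ⟨rfl, ha⟩ := hf h0
      replace hm' := hm' h0
      have hb := (ih _ (by omega) ρ _ (hV.mono hs) (hL.mono hs) rfl).f
        fun a h b h' => ha a (hs h) b (hs h')
      rw [Zu, if_neg h0, mul_one]
      by_cases h : d ≤ 60
      · rw [lo d h]
        exact_mod_cast hb.trans ((F_mono (by omega)).trans (h3 d (by omega) hd hm'))
      · obtain ⟨i, rfl⟩ : ∃ i, d = 60 + i := ⟨d - 60, by omega⟩
        rw [hi, hq, one_pow, mul_one]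
        exact_mod_cast hb.trans ((F_mono (by omega)).trans (h3 60 (by omega) (by omega) (by omega)))
  · rw [if_pos h0] at h3 hq
    obtain ⟨-, -, -, h4, h5⟩ := h3
    induction h61 using Nat.decreasingInduction generalizing N with
    | self =>
      have h6 : (2 * x 60 : ℝ) ≤ x (62 + 61) := by exact_mod_cast h4
      have h7 := geo_le N
      simp only [show ∀ i, 61 + i = 60 + (i + 1) from fun i => by omega, hi, ← mul_sum]
      rw [hq]
      have h8 : (0 : ℝ) ≤ (2 / 3) ^ N := by positivity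
      have h9 : (0 : ℝ) ≤ x 60 := by positivity
      nlinarith
    | of_succ d h ih =>
      cases N with
      | zero => simp
      | succ N =>
        have h6 : (x d + x (62 + (d + 1)) : ℝ) ≤ x (62 + d) := by exact_mod_cast h5 d h hd
        have h7 := ih N (by omega)
        rw [sum_range_succ', add_zero, lo d (by omega)]
        simp only [add_assoc, add_comm 1] at h7
        linarith

end Pool.Agent.MP_75ef89_co.Ex
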