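import Pool.Agent.MP_75ef89_co.Ex.Spec2

/-! The outer checker: reading and writing bits of the state. -/

namespace Pool.Agent.MP_75ef89_co.Ex

open Finset

variable {α : Type} {k dU S X X' a i j d : ℕ} {ρ : α → α → Prop} {Ω : Finset α} {e : ℕ → α}
  {ND : α → Prop}

/-! ### the meaning of the rows -/

theorem mean_Y (ha : a < 16) : Mean k ρ Ω e ND a i ↔ i < k ∧ a < k ∧ ρ (e a) (e i) := by
  rw [Mean, if_pos ha]

theorem mean_T (ha : a < 16) : Mean k ρ Ω e ND (16 + a) i ↔ i < k ∧ a < k ∧ ρ (e i) (e a) := by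
  rw [Mean, if_neg (by omega), if_pos (by omega), Nat.add_sub_cancel_left]

theorem mean_N (ha : a < 16) :
    Mean k ρ Ω e ND (32 + a) i ↔ i < k ∧ a < k ∧ a ≠ i ∧ ¬ ρ (e a) (e i) := by
  rw [Mean, if_neg (by omega), if_neg (by omega), if_pos (by omega), Nat.add_sub_cancel_left]

theorem mean_NT (ha : a < 16) :
    Mean k ρ Ω e ND (48 + a) i ↔ i < k ∧ a < k ∧ a ≠ i ∧ ¬ ρ (e i) (e a) := by
  rw [Mean, if_neg (by omega), if_neg (by omega), if_neg (by omega), if_pos (by omega),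
    Nat.add_sub_cancel_left]

theorem mean_Lo (hd : d < 32) : Mean k ρ Ω e ND (64 + d) i ↔ i < k ∧ d ≤ indeg ρ Ω (e i) := by
  rw [Mean, if_neg (by omega), if_neg (by omega), if_neg (by omega), if_neg (by omega),
    if_pos (by omega), Nat.add_sub_cancel_left]

theorem mean_Hi (hd : d < 32) : Mean k ρ Ω e ND (96 + d) i ↔ i < k ∧ indeg ρ Ω (e i) ≤ d := by
  rw [Mean, if_neg (by omega), if_neg (by omega), if_neg (by omega), if_neg (by omega),
    if_neg (by omega), if_pos (by omega), Nat.add_sub_cancel_left]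

theorem mean_cl : Mean k ρ Ω e ND 128 i ↔ i < k ∧ ∀ z ∈ Ω, Un k e z → ¬ ρ z (e i) := by
  simp [Mean]

theorem mean_dom : Mean k ρ Ω e ND 129 i ↔ i < k ∧ ∀ z ∈ Ω, Un k e z → ρ (e i) z := by
  simp [Mean]

theorem mean_nd : Mean k ρ Ω e ND 130 i ↔ i < k ∧ ND (e i) := by
  simp [Mean]

/-- All bits of `X` are true statements. -/
def Ok (k : ℕ) (ρ : α → α → Prop) (Ω : Finset α) (e : ℕ → α) (ND : α → Prop) (X : ℕ) : Prop :=
  ∀ a, ∀ i < 16, X.testBit (16 * a + i) = true → Mean k ρ Ω e ND a i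

theorem row_lt (h : (row S a).testBit i = true) : i < 16 := by
  rw [tb_row, Bool.and_eq_true, decide_eq_true_eq] at h
  exact h.2

namespace OH2

theorem ok (h : OH2 k dU S ρ Ω e ND) : Ok k ρ Ω e ND S := h.bits

theorem row (h : OH2 k dU S ρ Ω e ND) (hb : (row S a).testBit i = true) :
    Mean k ρ Ω e ND a i := by
  rw [tb_row, Bool.and_eq_true, decide_eq_true_eq] at hb
  exact h.bits a i hb.2 hb.1

theorem row_lt_k (h : OH2 k dU S ρ Ω e ND) (hb : (MP_75ef89_co.row S a).testBit i = true) :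
    i < k := (h.row hb).1

theorem Y (h : OH2 k dU S ρ Ω e ND) (ha : a < 16) (hb : (MP_75ef89_co.row S a).testBit i = true) :
    i < k ∧ a < k ∧ ρ (e a) (e i) := (mean_Y ha).1 (h.row hb)

theorem T (h : OH2 k dU S ρ Ω e ND) (ha : a < 16)
    (hb : (MP_75ef89_co.row S (Nat.add 16 a)).testBit i = true) :
    i < k ∧ a < k ∧ ρ (e i) (e a) := (mean_T ha).1 (h.row hb)

theorem N (h : OH2 k dU S ρ Ω e ND) (ha : a < 16)
    (hb : (MP_75ef89_co.row S (Nat.add 32 a)).testBit i = true) :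
    i < k ∧ a < k ∧ a ≠ i ∧ ¬ ρ (e a) (e i) := (mean_N ha).1 (h.row hb)

theorem NT (h : OH2 k dU S ρ Ω e ND) (ha : a < 16)
    (hb : (MP_75ef89_co.row S (Nat.add 48 a)).testBit i = true) :
    i < k ∧ a < k ∧ a ≠ i ∧ ¬ ρ (e i) (e a) := (mean_NT ha).1 (h.row hb)

theorem Lo (h : OH2 k dU S ρ Ω e ND) (hd : d < 32)
    (hb : (MP_75ef89_co.row S (Nat.add 64 d)).testBit i = true) :
    i < k ∧ d ≤ indeg ρ Ω (e i) := (mean_Lo hd).1 (h.row hb)

theorem Hi (h : OH2 k dU S ρ Ω e ND) (hd : d < 32)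
    (hb : (MP_75ef89_co.row S (Nat.add 96 d)).testBit i = true) :
    i < k ∧ indeg ρ Ω (e i) ≤ d := (mean_Hi hd).1 (h.row hb)

theorem cl (h : OH2 k dU S ρ Ω e ND) (hb : (MP_75ef89_co.row S 128).testBit i = true) :
    i < k ∧ ∀ z ∈ Ω, Un k e z → ¬ ρ z (e i) := mean_cl.1 (h.row hb)

theorem dom (h : OH2 k dU S ρ Ω e ND) (hb : (MP_75ef89_co.row S 129).testBit i = true) :
    i < k ∧ ∀ z ∈ Ω, Un k e z → ρ (e i) z := mean_dom.1 (h.row hb)

theorem nd (h : OH2 k dU S ρ Ω e ND) (hb : (MP_75ef89_co.row S 130).testBit i = true) :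
    i < k ∧ ND (e i) := mean_nd.1 (h.row hb)

/-- Closed or dominating vertices dominate the unnamed vertices. -/
theorem cd (h : OH2 k dU S ρ Ω e ND) (hV : SC ρ Ω)
    (hb : (Nat.lor (MP_75ef89_co.row S 128) (MP_75ef89_co.row S 129)).testBit i = true) :
    i < k ∧ ∀ z ∈ Ω, Un k e z → ρ (e i) z := by
  rw [tb_lor, Bool.or_eq_true] at hb
  rcases hb with hb | hb
  · obtain ⟨h1, h2⟩ := h.cl hb
    exact ⟨h1, fun z hz hu => (hV.tot _ (h.mem i h1) z hz (hu i h1)).resolve_right (h2 z hz hu)⟩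
  · exact h.dom hb

/-- The blocks `0, 1, 2, 3` of the state. -/
theorem blk (h : OH2 k dU S ρ Ω e ND) {b : ℕ} (hi : i < 16)
    (hb : (blk S b).testBit (16 * a + i) = true) : a < 16 ∧ Mean k ρ Ω e ND (16 * b + a) i := by
  rw [tb_blk, Bool.and_eq_true, decide_eq_true_eq] at hb
  exact ⟨by omega, h.bits _ i hi (by rw [← hb.1]; congr 1; ring)⟩

theorem of_ok (h : OH2 k dU S ρ Ω e ND) (hX : Ok k ρ Ω e ND X) : OH2 k dU X ρ Ω e ND :=
  { h with bits := hX }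

theorem ne (h : OH2 k dU S ρ Ω e ND) (hi : i < k) (hj : j < k) (hne : i ≠ j) : e i ≠ e j :=
  fun he => hne (h.inj i hi j hj he)

end OH2

theorem Ok.lor (h : Ok k ρ Ω e ND X) (h' : Ok k ρ Ω e ND X') : Ok k ρ Ω e ND (Nat.lor X X') := by
  intro a i hi hb
  rw [tb_lor, Bool.or_eq_true] at hb
  exact hb.elim (h a i hi) (h' a i hi)

theorem OH2.lor (h : OH2 k dU S ρ Ω e ND) (hX : Ok k ρ Ω e ND X) :
    OH2 k dU (Nat.lor S X) ρ Ω e ND := h.of_ok (h.ok.lor hX)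

theorem OH2.sub (h : OH2 k dU S ρ Ω e ND) (hX : MP_75ef89_co.sub X S = true) :
    OH2 k dU X ρ Ω e ND := h.of_ok fun a i hi hb => h.bits a i hi (sub_imp hX hb)

/-! ### writing bits -/

/-- A mask written into a row. -/
theorem ok_row {t : ℕ} (ht : t = 16 * a)
    (h : ∀ j, X.testBit j = true → j < 16 ∧ Mean k ρ Ω e ND a j) :
    Ok k ρ Ω e ND (Nat.shiftLeft X t) := by
  intro b j hj hb
  rw [tb_shl, Bool.and_eq_true, decide_eq_true_eq] at hb
  obtain ⟨h1, h2⟩ := h _ hb.2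
  obtain rfl : b = a := by omega
  rwa [show 16 * b + j - t = j by omega] at h2

/-- A number whose bits are multiples of `16`, written into a column. -/
theorem ok_col {t : ℕ} (ht : t = 16 * a + i) (hi : i < 16)
    (h : ∀ j, X.testBit j = true → j % 16 = 0 ∧ Mean k ρ Ω e ND (a + j / 16) i) :
    Ok k ρ Ω e ND (Nat.shiftLeft X t) := by
  intro b j hj hb
  rw [tb_shl, Bool.and_eq_true, decide_eq_true_eq] at hb
  obtain ⟨h1, h2⟩ := h _ hb.2
  obtain rfl : j = i := by omega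
  rwa [show a + (16 * b + j - t) / 16 = b by omega] at h2

theorem ok_spr {t : ℕ} (ht : t = 16 * a + i) (hi : i < 16)
    (h : ∀ j, X.testBit j = true → j < 15 ∧ Mean k ρ Ω e ND (a + j) i) :
    Ok k ρ Ω e ND (Nat.shiftLeft (spr X) t) := ok_col ht hi fun j hj => by
  rw [tb_spr fun t ht => (h t ht).1, Bool.and_eq_true, decide_eq_true_eq] at hj
  exact ⟨hj.1, (h _ hj.2).2⟩

theorem ok_bit {t : ℕ} (ht : t = 16 * a + i) (hi : i < 16) (h : Mean k ρ Ω e ND a i) :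
    Ok k ρ Ω e ND (bit t) := by
  intro b j hj hb
  rw [tb_bit, decide_eq_true_eq] at hb
  obtain ⟨rfl, rfl⟩ : b = a ∧ j = i := by omega
  exact h

theorem tb_ones32 {t : ℕ} (h : ones32.testBit t = true) : t % 16 = 0 ∧ t < 512 := by
  by_cases h1 : t < 512
  · have : ∀ t < 512, ones32.testBit t = true → t % 16 = 0 := by decide +kernel
    exact ⟨this t h1 h, h1⟩
  · exact absurd ((Nat.testBit_lt_two_pow (lt_of_lt_of_le (by decide +kernel : ones32 < 2 ^ 512)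
      (Nat.pow_le_pow_right Nat.two_pos (not_lt.1 h1)))).symm.trans h) Bool.false_ne_true

theorem tb_loP {t : ℕ} (h : (loP i d).testBit t = true) :
    ∃ c ≤ d, c < 32 ∧ t = 16 * (64 + c) + i := by
  rw [loP, tb_shl, tb_shr, Bool.and_eq_true, decide_eq_true_eq] at h
  have h1 := tb_ones32 h.2
  have h2 := h.1
  simp only [Nat.add_eq, Nat.mul_eq, Nat.sub_eq] at h1 h2
  exact ⟨(t - (1024 + i)) / 16, by omega, by omega, by omega⟩

theorem tb_hiP {t : ℕ} (h : (hiP i d).testBit t = true) :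
    ∃ c, d ≤ c ∧ c < 32 ∧ t = 16 * (96 + c) + i := by
  rw [hiP, tb_shl, tb_shr, Bool.and_eq_true, decide_eq_true_eq] at h
  have h1 := tb_ones32 h.2
  have h2 := h.1
  simp only [Nat.add_eq, Nat.mul_eq] at h1 h2
  exact ⟨(t - (1536 + i)) / 16, by omega, by omega, by omega⟩

theorem ok_loP (hk : k ≤ 15) (hi : i < k) (h : d ≤ indeg ρ Ω (e i)) :
    Ok k ρ Ω e ND (loP i d) := by
  intro b j hj hb
  obtain ⟨c, h1, h2, h3⟩ := tb_loP hb
  obtain ⟨rfl, rfl⟩ : b = 64 + c ∧ j = i := by omega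
  exact (mean_Lo h2).2 ⟨hi, h1.trans h⟩

theorem ok_hiP (hk : k ≤ 15) (hi : i < k) (h : d ≤ 31 → indeg ρ Ω (e i) ≤ d) :
    Ok k ρ Ω e ND (hiP i d) := by
  intro b j hj hb
  obtain ⟨c, h1, h2, h3⟩ := tb_hiP hb
  obtain ⟨rfl, rfl⟩ : b = 96 + c ∧ j = i := by omega
  exact (mean_Hi h2).2 ⟨hi, (h (by omega)).trans h1⟩

theorem ok_arcY (hk : k ≤ 15) (hi : i < k) (hj : j < k) (h : ρ (e i) (e j)) :
    Ok k ρ Ω e ND (arcY i j) :=
  (ok_bit (a := i) rfl (by omega) ((mean_Y (by omega)).2 ⟨hj, hi, h⟩)).lor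
    (ok_bit (a := 16 + j) (i := i) (by simp only [Nat.add_eq, Nat.mul_eq]; omega) (by omega)
      ((mean_T (by omega)).2 ⟨hi, hj, h⟩))

theorem mul_cA {x : ℕ} (hx : x < 2 ^ 256) :
    Nat.mul x cA = Nat.lor (Nat.shiftLeft x 256) (Nat.shiftLeft x 512) := by
  have h1 : cA = 2 ^ 256 + 2 ^ 512 := by decide +kernel
  have h2 : x <<< 256 < 2 ^ 512 := by
    rw [Nat.shiftLeft_eq, show 512 = 256 + 256 from rfl, pow_add]
    exact Nat.mul_lt_mul_of_pos_right hx (by positivity)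
  change x * cA = x <<< 256 ||| x <<< 512
  rw [Nat.or_comm, ← Nat.shiftLeft_add_eq_or_of_lt h2, h1, Nat.shiftLeft_eq, Nat.shiftLeft_eq,
    mul_add, add_comm]

theorem mul_cB {x : ℕ} (hx : x < 2 ^ 768) : Nat.mul x cB = Nat.lor x (Nat.shiftLeft x 768) := by
  have h1 : cB = 1 + 2 ^ 768 := by decide +kernel
  change x * cB = x ||| x <<< 768
  rw [Nat.or_comm, ← Nat.shiftLeft_add_eq_or_of_lt hx, h1, Nat.shiftLeft_eq, mul_add, mul_one,
    add_comm]

theorem shl_lor (x y t : ℕ) :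
    Nat.shiftLeft (Nat.lor x y) t = Nat.lor (Nat.shiftLeft x t) (Nat.shiftLeft y t) :=
  Nat.shiftLeft_or_distrib

theorem shl_shl (x s t : ℕ) : Nat.shiftLeft (Nat.shiftLeft x s) t = Nat.shiftLeft x (s + t) :=
  (Nat.shiftLeft_add x s t).symm

theorem ok_noIn (hV : SC ρ Ω) (h : OH2 k dU S ρ Ω e ND) (hi : i < k)
    (hX : ∀ j, X.testBit j = true → j < k ∧ i ≠ j ∧ ¬ ρ (e j) (e i)) :
    Ok k ρ Ω e ND (noIn i X) := by
  have hk := h.le
  have h15 : ∀ j, X.testBit j = true → j < 15 := fun j hj => by have := (hX j hj).1; omega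
  have hY : ∀ j, X.testBit j = true → ρ (e i) (e j) := fun j hj =>
    (hV.tot _ (h.mem i hi) _ (h.mem j (hX j hj).1) (h.ne hi (hX j hj).1 (hX j hj).2.1)).resolve_right
      (hX j hj).2.2
  rw [noIn, mul_cB (lt_of_bits fun t ht => by have := h15 t ht; omega),
    mul_cA (lt_of_bits fun t ht => by
      rw [tb_spr h15, Bool.and_eq_true] at ht
      have := h15 _ ht.2
      omega), shl_lor, shl_lor, shl_shl, shl_shl, shl_shl]
  refine Ok.lor (Ok.lor (ok_row (a := i) rfl fun j hj => ?_)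
    (ok_row (a := 48 + i) (by simp only [Nat.mul_eq]; omega) fun j hj => ?_))
    (Ok.lor (ok_spr (a := 16) (i := i) rfl (by omega) fun j hj => ?_)
      (ok_spr (a := 32) (i := i) rfl (by omega) fun j hj => ?_))
  · exact ⟨by have := h15 j hj; omega, (mean_Y (by omega)).2 ⟨(hX j hj).1, hi, hY j hj⟩⟩
  · exact ⟨by have := h15 j hj; omega, (mean_NT (by omega)).2 ⟨(hX j hj).1, hi, (hX j hj).2⟩⟩
  · exact ⟨h15 j hj, (mean_T (by have := h15 j hj; omega)).2 ⟨hi, (hX j hj).1, hY j hj⟩⟩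
  · exact ⟨h15 j hj, (mean_N (by have := h15 j hj; omega)).2
      ⟨hi, (hX j hj).1, (hX j hj).2.1.symm, (hX j hj).2.2⟩⟩

theorem ok_arcN (hV : SC ρ Ω) (h : OH2 k dU S ρ Ω e ND) (hi : i < k) (hj : j < k) (hne : i ≠ j)
    (hr : ¬ ρ (e i) (e j)) : Ok k ρ Ω e ND (arcN i j) := by
  have hk := h.le
  have hY := (hV.tot _ (h.mem i hi) _ (h.mem j hj) (h.ne hi hj hne)).resolve_left hr
  rw [arcN, show cA = Nat.lor (bit 256) (bit 512) by decide +kernel,
    show cB = Nat.lor (bit 0) (bit 768) by decide +kernel, shl_lor, shl_lor, bit, bit, bit, bit,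
    shl_shl, shl_shl, shl_shl, shl_shl]
  refine Ok.lor (Ok.lor (ok_bit (a := 16 + i) (i := j) ?_ (by omega) ?_)
    (ok_bit (a := 32 + i) (i := j) ?_ (by omega) ?_))
    (Ok.lor (ok_bit (a := j) (i := i) ?_ (by omega) ?_)
      (ok_bit (a := 48 + j) (i := i) ?_ (by omega) ?_))
  any_goals simp only [Nat.add_eq, Nat.mul_eq]; omega
  · exact (mean_T (by omega)).2 ⟨hj, hi, hY⟩
  · exact (mean_N (by omega)).2 ⟨hj, hi, hne, hr⟩
  · exact (mean_Y (by omega)).2 ⟨hi, hj, hY⟩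
  · exact (mean_NT (by omega)).2 ⟨hi, hj, hne.symm, hr⟩

theorem cif {c : Bool} {x y : ℕ} (h : (bif c then x else y) ≠ 0) :
    (c = true ∧ x ≠ 0) ∨ (c = false ∧ y ≠ 0) := by
  cases c
  · exact .inr ⟨rfl, h⟩
  · exact .inl ⟨rfl, h⟩

theorem cnd {c : Bool} {y : ℕ} (h : (bif c then y else 0) ≠ 0) : c = true ∧ y ≠ 0 :=
  (cif h).resolve_right fun h => h.2 rfl

theorem cne {x y : ℕ} (h : (bif Nat.beq x 0 then 0 else y) ≠ 0) : x ≠ 0 ∧ y ≠ 0 :=
  ((cif h).resolve_left fun h => h.2 rfl).imp_left Nat.ne_of_beq_eq_false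

/-! ### sums of bounds for in-degrees -/

theorem hs_spec (h : OH2 k dU S ρ Ω e ND) {g : ℕ → ℕ → ℕ} {A out : ℕ} : ∀ (m s H0 : ℕ),
    hs g S A out m s H0 ≠ 0 → ∃ s1 H, g s1 H ≠ 0 ∧
      H0 + ∑ i ∈ range m with A.testBit i,
        (indeg ρ Ω (e i) - pc (Nat.land (row S (Nat.add 16 i)) out)) ≤ H
  | 0, s, H0, h0 => ⟨s, H0, h0, by simp⟩
  | m + 1, s, H0, h0 => by
    rw [hs, tb_eq] at h0
    rw [range_add_one, filter_insert]
    cases hA : A.testBit m
    · rw [hA, cond_false] at h0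
      rw [if_neg (by simp)]
      exact hs_spec h m s H0 h0
    · rw [hA, cond_true] at h0
      obtain ⟨h1, h2⟩ := cnd h0
      obtain ⟨s1, H, h3, h4⟩ := hs_spec h m _ _ h2
      rw [tb_eq] at h1
      have h5 := (h.Hi (Nat.lt_succ_of_le Nat.and_le_right) h1).2
      rw [if_pos rfl, sum_insert (by simp)]
      refine ⟨s1, H, h3, le_trans ?_ h4⟩
      rw [← add_assoc]
      exact Nat.add_le_add_right (Nat.add_le_add_left (Nat.sub_le_sub_right h5 _) _) _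

end Pool.Agent.MP_75ef89_co.Ex
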