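import Pool.Agent.MP_75ef89_co.Landau
import Pool.Agent.MP_75ef89_co.Ex.Out0

/-! Soundness of the outer checker. -/

namespace Pool.Agent.MP_75ef89_co.Ex

open Finset

variable {α : Type} [DecidableEq α] {n sg hm nf k dU S X x a i j d : ℕ} {ρ : α → α → Prop}
  {Ω : Finset α} {e : ℕ → α} {ND : α → Prop} {Gd : Prop} {g : G4}

/-! ### counting -/

open Classical in
/-- The in-neighbours. -/
noncomputable def IN (ρ : α → α → Prop) (Ω : Finset α) (v : α) : Finset α := {u ∈ Ω | ρ u v}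

omit [DecidableEq α] in
theorem mem_IN {u v : α} : u ∈ IN ρ Ω v ↔ u ∈ Ω ∧ ρ u v := by
  classical
  simp [IN]

omit [DecidableEq α] in
theorem card_IN (v : α) : #(IN ρ Ω v) = indeg ρ Ω v := rfl

/-- The vertices with a name in `x`. -/
def imK (k : ℕ) (e : ℕ → α) (x : ℕ) : Finset α := ({i ∈ range k | x.testBit i} : Finset ℕ).image e

theorem mem_imK {z : α} : z ∈ imK k e x ↔ ∃ i < k, x.testBit i = true ∧ e i = z := by
  simp [imK, and_assoc]

omit [DecidableEq α] in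
theorem OH2.injOn (h : OH2 k dU S ρ Ω e ND) (x : ℕ) :
    Set.InjOn e ({i ∈ range k | x.testBit i} : Finset ℕ) := fun i hi j hj =>
  h.inj i (mem_range.1 (mem_filter.1 (mem_coe.1 hi)).1) j
    (mem_range.1 (mem_filter.1 (mem_coe.1 hj)).1)

theorem pc_eq_k (hk : k ≤ 16) (hx : ∀ t, x.testBit t = true → t < k) :
    pc x = #{i ∈ range k | x.testBit i} := by
  rw [pc_eq fun t ht => (hx t ht).trans_le hk]
  congr 1
  ext t
  simp only [mem_filter, mem_range]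
  exact ⟨fun h => ⟨hx t h.2, h.2⟩, fun h => ⟨h.1.trans_le hk, h.2⟩⟩

theorem OH2.card_imK (h : OH2 k dU S ρ Ω e ND) (hx : ∀ t, x.testBit t = true → t < k) :
    #(imK k e x) = pc x := by
  rw [pc_eq_k (h.le.trans (by norm_num)) hx, imK, card_image_of_injOn (h.injOn x)]

theorem OH2.mem_imK (h : OH2 k dU S ρ Ω e ND) (hi : i < k) :
    e i ∈ imK k e x ↔ x.testBit i = true :=
  ⟨fun hm => by
    obtain ⟨j, hj, h1, h2⟩ := Ex.mem_imK.1 hm
    exact h.inj j hj i hi h2 ▸ h1, fun hb => Ex.mem_imK.2 ⟨i, hi, hb, rfl⟩⟩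

theorem not_mem_imK {z : α} (hu : Un k e z) : z ∉ imK k e x := fun hm => by
  obtain ⟨j, hj, -, h2⟩ := mem_imK.1 hm
  exact hu j hj h2

omit [DecidableEq α] in
theorem mem_RR {z : α} : z ∈ RR k e Ω ↔ z ∈ Ω ∧ Un k e z := by
  classical
  simp [RR]

theorem OH2.card_RR (h : OH2 k dU S ρ Ω e ND) : #(RR k e Ω) + k ≤ #Ω := by
  have h1 : #((range k).image e) = k := by
    rw [card_image_of_injOn fun i hi j hj => h.inj i (by simpa using hi) j (by simpa using hj),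
      card_range]
  have h2 : Disjoint (RR k e Ω) ((range k).image e) := disjoint_left.2 fun z hz hz' => by
    obtain ⟨i, hi, rfl⟩ := mem_image.1 hz'
    exact (mem_RR.1 hz).2 i (mem_range.1 hi) rfl
  have h3 : RR k e Ω ∪ (range k).image e ⊆ Ω := union_subset (fun z hz => (mem_RR.1 hz).1)
    fun z hz => by
      obtain ⟨i, hi, rfl⟩ := mem_image.1 hz
      exact h.mem i (mem_range.1 hi)
  have h4 := card_le_card h3
  rwa [card_union_of_disjoint h2, h1] at h4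

omit [DecidableEq α] in
theorem named_or (k : ℕ) (e : ℕ → α) (z : α) : Un k e z ∨ ∃ j < k, e j = z := by
  by_contra hc
  push Not at hc
  exact hc.1 hc.2

/-! ### new names -/

omit [DecidableEq α] in
theorem Mean.ext {k' : ℕ} {e' : ℕ → α} (h : Mean k ρ Ω e ND a i) (hk : k ≤ k')
    (he : ∀ j < k, e' j = e j) : Mean k' ρ Ω e' ND a i := by
  have hu : ∀ z, Un k' e' z → Un k e z := fun z hz j hj => he j hj ▸ hz j (hj.trans_le hk)
  obtain ⟨hi, h⟩ := h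
  refine ⟨hi.trans_le hk, ?_⟩
  rw [he i hi]
  split_ifs at h ⊢
  · exact ⟨h.1.trans_le hk, by rw [he _ h.1]; exact h.2⟩
  · exact ⟨h.1.trans_le hk, by rw [he _ h.1]; exact h.2⟩
  · exact ⟨h.1.trans_le hk, by rw [he _ h.1]; exact h.2⟩
  · exact ⟨h.1.trans_le hk, by rw [he _ h.1]; exact h.2⟩
  · exact h
  · exact h
  · exact fun z hz h1 => h z hz (hu z h1)
  · exact fun z hz h1 => h z hz (hu z h1)
  · exact h

omit [DecidableEq α] in
theorem OH2.addn (hG : Glob n sg hm nf ρ Ω ND) (h : OH2 k dU S ρ Ω e ND) (hk : k < 15) {z : α}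
    (hz : z ∈ Ω) (hu : Un k e z) :
    OH2 (Nat.succ k) dU (addn hm k dU S) ρ Ω (Function.update e k z) ND := by
  have e1 : ∀ i < k, Function.update e k z i = e i := fun i hi =>
    Function.update_of_ne (by omega) _ _
  have e2 : Function.update e k z k = z := Function.update_self _ _ _
  have h0 : OH2 (Nat.succ k) dU S ρ Ω (Function.update e k z) ND := by
    refine ⟨hk, fun i hi => ?_, fun i hi j hj he => ?_, fun y hy h1 => ?_,
      fun a i hi hb => (h.bits a i hi hb).ext (Nat.le_succ k) e1⟩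
    · rcases Nat.lt_succ_iff_lt_or_eq.1 hi with hi | rfl
      · rw [e1 i hi]
        exact h.mem i hi
      · rwa [e2]
    · rcases Nat.lt_succ_iff_lt_or_eq.1 hi with hi | rfl <;>
        rcases Nat.lt_succ_iff_lt_or_eq.1 hj with hj | rfl
      · rw [e1 i hi, e1 j hj] at he
        exact h.inj i hi j hj he
      · rw [e1 i hi, e2] at he
        exact absurd he (hu i hi)
      · rw [e1 j hj, e2] at he
        exact absurd he.symm (hu j hj)
      · rfl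
    · exact h.low y hy fun j hj => e1 j hj ▸ h1 j (Nat.lt_succ_of_lt hj)
  have kk := Nat.lt_succ_self k
  refine ((h0.lor (ok_row (a := 16 + k) rfl fun j hj => ?_)).lor (Ok.lor
    (ok_spr (a := 0) (i := k) (by omega) (by omega) fun j hj => ?_)
    (ok_spr (a := 48) (i := k) rfl (by omega) fun j hj => ?_))).lor
    ((ok_row (a := 32 + k) rfl fun j hj => ?_).lor
      ((ok_loP hk kk ?_).lor (ok_hiP hk kk fun h1 => ?_)))
  · obtain ⟨h1, h2⟩ := h.cd hG.sc hj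
    exact ⟨by omega, (mean_T (by omega)).2 ⟨by omega, kk, by rw [e1 j h1, e2]; exact h2 z hz hu⟩⟩
  · obtain ⟨h1, h2⟩ := h.cd hG.sc hj
    rw [Nat.zero_add]
    exact ⟨by omega, (mean_Y (by omega)).2 ⟨kk, by omega, by rw [e1 j h1, e2]; exact h2 z hz hu⟩⟩
  · obtain ⟨h1, h2⟩ := h.cl hj
    exact ⟨by omega, (mean_NT (by omega)).2
      ⟨kk, by omega, by omega, by rw [e1 j h1, e2]; exact h2 z hz hu⟩⟩
  · obtain ⟨h1, h2⟩ := h.cl hj
    exact ⟨by omega, (mean_N (by omega)).2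
      ⟨by omega, kk, by omega, by rw [e1 j h1, e2]; exact h2 z hz hu⟩⟩
  · rw [e2]
    exact h.low z hz hu
  · rw [e2]
    exact hG.hmax h1 z hz

/-! ### the rules -/

/-- A successful run of `g` forces `Gd`. -/
def Snd (ρ : α → α → Prop) (Ω : Finset α) (ND : α → Prop) (Gd : Prop) (g : G4) : Prop :=
  ∀ (k dU S s : ℕ) (e : ℕ → α), OH2 k dU S ρ Ω e ND → g k dU S s ≠ 0 → Gd

omit [DecidableEq α] in
theorem ok_cl (hk : k ≤ 15) (hi : i < k) (h : ∀ z ∈ Ω, Un k e z → ¬ ρ z (e i)) :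
    Ok k ρ Ω e ND (bit (Nat.add 2048 i)) :=
  ok_bit (a := 128) (i := i) rfl (by omega) (mean_cl.2 ⟨hi, h⟩)

omit [DecidableEq α] in
theorem oBr_sound (hG : Glob n sg hm nf ρ Ω ND) (hg : Snd ρ Ω ND Gd g) (h : OH2 k dU S ρ Ω e ND)
    {t s : ℕ} (h0 : oBr g hm k dU S t i s ≠ 0) : Gd := by
  have hk := h.le
  rcases cif h0 with ⟨-, h1⟩ | ⟨-, h1⟩
  · obtain ⟨hc, h2⟩ := cnd h1
    obtain ⟨h3, h4⟩ := cne h2
    simp only [Bool.and_eq_true, Nat.blt_eq] at hc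
    by_cases hx : ∀ z ∈ Ω, Un k e z → ¬ ρ z (e i)
    · exact hg _ _ _ _ _ (h.lor (ok_cl hk hc.1 hx)) h3
    · push Not at hx
      obtain ⟨z, hz, hu, hr⟩ := hx
      refine hg _ _ _ _ _ ((h.addn hG hc.2 hz hu).lor
        (ok_arcY hc.2 (Nat.lt_succ_self k) (Nat.lt_succ_of_lt hc.1) ?_)) h4
      rwa [Function.update_self, Function.update_of_ne (by omega)]
  rcases cif h1 with ⟨-, h1⟩ | ⟨-, h1⟩
  · obtain ⟨hc, h2⟩ := cnd h1
    obtain ⟨h3, h4⟩ := cne h2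
    rw [Nat.blt_eq] at hc
    rcases le_or_gt (indeg ρ Ω (e i)) (f5 s 8) with h5 | h5
    · exact hg _ _ _ _ _ (h.lor (ok_hiP hk hc fun _ => h5)) h4
    · exact hg _ _ _ _ _ (h.lor (ok_loP hk hc h5)) h3
  · obtain ⟨hc, h2⟩ := cnd h1
    obtain ⟨h3, h4⟩ := cne h2
    simp only [Bool.and_eq_true, Nat.blt_eq] at hc
    by_cases hx : ∀ z ∈ Ω, Un k e z → Nat.succ (f5 s 4) ≤ indeg ρ Ω z
    · exact hg _ _ _ _ _ { h with low := hx } h3
    · push Not at hx
      obtain ⟨z, hz, hu, hr⟩ := hx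
      refine hg _ _ _ _ _ ((h.addn hG hc.1 hz hu).lor
        (ok_hiP hc.1 (Nat.lt_succ_self k) fun _ => ?_)) h4
      rw [Function.update_self]
      exact Nat.le_of_lt_succ hr

theorem oDg_sound (hG : Glob n sg hm nf ρ Ω ND) (hg : Snd ρ Ω ND Gd g) (h : OH2 k dU S ρ Ω e ND)
    {t s : ℕ} (h0 : oDg g nf k dU S t i s ≠ 0) : Gd := by
  have hk := h.le
  obtain ⟨hi, h1⟩ := cnd h0
  rw [Nat.blt_eq] at hi
  have i16 : i < 16 := by omega
  generalize hI : row S (Nat.add 16 i) = I at h1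
  generalize hp : dif (msk k) (Nat.lor (row S (Nat.add 48 i)) (bit i)) = p at h1
  have I1 : ∀ j, I.testBit j = true → j < k := fun j hj => (h.T i16 (hI ▸ hj)).1
  have I2 : imK k e I ⊆ IN ρ Ω (e i) := fun z hz => by
    obtain ⟨j, hj, h2, rfl⟩ := mem_imK.1 hz
    exact mem_IN.2 ⟨h.mem j hj, (h.T i16 (hI ▸ h2)).2.2⟩
  have p1 : ∀ j, p.testBit j = true → j < k ∧ i ≠ j := fun j hj => by
    rw [← hp, tb_dif, tb_lor, tb_msk, tb_bit] at hj
    simp only [Bool.and_eq_true, decide_eq_true_eq, Bool.not_eq_true', Bool.or_eq_false_iff,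
      decide_eq_false_iff_not] at hj
    exact ⟨hj.1, hj.2.2⟩
  have p2 : ∀ z ∈ IN ρ Ω (e i), Un k e z ∨ z ∈ imK k e p := fun z hz => by
    refine (named_or k e z).imp_right ?_
    rintro ⟨j, hj, rfl⟩
    have h2 := (mem_IN.1 hz).2
    rw [h.mem_imK hj, ← hp, tb_dif, tb_lor, tb_msk, tb_bit]
    have h3 : i ≠ j := fun h3 => hG.sc.irr _ (h.mem i hi) (h3 ▸ h2)
    cases h4 : (row S (Nat.add 48 i)).testBit j
    · simp [hj, h3]
    · exact absurd h2 (h.NT i16 h4).2.2.2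
  have p3 : tb (row S 128) i = true → IN ρ Ω (e i) ⊆ imK k e p := fun hc z hz =>
    (p2 z hz).resolve_left fun hu =>
      (h.cl (tb_eq _ _ ▸ hc)).2 z (mem_IN.1 hz).1 hu (mem_IN.1 hz).2
  have cI := h.card_imK I1
  have cp := h.card_imK fun j hj => (p1 j hj).1
  have bI : pc I < 32 := (pc_le16 fun t ht => by have := I1 t ht; omega).trans_lt (by norm_num)
  have bp : pc p < 32 :=
    (pc_le16 fun t ht => by have := (p1 t ht).1; omega).trans_lt (by norm_num)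
  rcases cif h1 with ⟨-, h1⟩ | ⟨-, h1⟩
  · exact hg _ _ _ _ _ (h.lor (ok_loP hk hi (cI ▸ card_le_card I2))) h1
  rcases cif h1 with ⟨-, h1⟩ | ⟨-, h1⟩
  · rcases cif h1 with ⟨hc, h1⟩ | ⟨-, h1⟩
    · exact hg _ _ _ _ _ (h.lor (ok_hiP hk hi fun _ => cp ▸ card_le_card (p3 hc))) h1
    · obtain ⟨h2, h3⟩ := cne h1
      refine hg _ _ _ _ _ (h.lor (ok_hiP hk hi fun _ => ?_)) h3
      have h4 : IN ρ Ω (e i) ⊆ imK k e p ∪ RR k e Ω := fun z hz => mem_union.2
        ((p2 z hz).symm.imp_right fun hu => mem_RR.2 ⟨(mem_IN.1 hz).1, hu⟩)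
      have h5 := (card_le_card h4).trans (card_union_le _ _)
      have h6 := h.card_RR
      rw [hG.card, (hG.fin h2).1] at h6
      rw [card_IN, cp] at h5
      simp only [Nat.add_eq, Nat.sub_eq]
      omega
  rcases cif h1 with ⟨-, h1⟩ | ⟨-, h1⟩
  · obtain ⟨hc, h2⟩ := cnd h1
    have h3 := eq_of_subset_of_card_le I2 (cI ▸ (h.Hi bI (tb_eq _ _ ▸ hc)).2)
    refine hg _ _ _ _ _ ((h.lor (ok_cl hk hi fun z hz hu hr => ?_)).lor
      (ok_noIn hG.sc h hi fun j hj => ?_)) h2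
    · exact not_mem_imK hu (h3 ▸ mem_IN.2 ⟨hz, hr⟩)
    · rw [tb_dif, Bool.and_eq_true] at hj
      refine ⟨(p1 j hj.1).1, (p1 j hj.1).2, fun hr => ?_⟩
      have h4 := (h.mem_imK (p1 j hj.1).1).1 (h3 ▸ mem_IN.2 ⟨h.mem j (p1 j hj.1).1, hr⟩)
      simp [h4] at hj
  · obtain ⟨hc, h2⟩ := cnd h1
    rw [Bool.and_eq_true] at hc
    have h3 := eq_of_subset_of_card_le (p3 hc.1) (cp ▸ (h.Lo bp (tb_eq _ _ ▸ hc.2)).2)
    have h4 : ∀ j, p.testBit j = true → ρ (e j) (e i) := fun j hj =>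
      (mem_IN.1 (h3 ▸ (h.mem_imK (p1 j hj).1).2 hj)).2
    refine hg _ _ _ _ _ ((h.lor (ok_row (a := 16 + i) rfl fun j hj => ?_)).lor
      (ok_spr (a := 0) (i := i) (by omega) i16 fun j hj => ?_)) h2
    · exact ⟨by have := (p1 j hj).1; omega, (mean_T i16).2 ⟨(p1 j hj).1, hi, h4 j hj⟩⟩
    · have := (p1 j hj).1
      rw [Nat.zero_add]
      exact ⟨by omega, (mean_Y (by omega)).2 ⟨hi, this, h4 j hj⟩⟩

omit [DecidableEq α] in
theorem OH2.ltc (h : OH2 k dU S ρ Ω e ND) {A : ℕ}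
    (hA : ∀ i, A.testBit i = true →
      Ok k ρ Ω e ND (noIn i (dif X (MP_75ef89_co.row S (Nat.add 16 i))))) :
    ∀ m, OH2 k dU (ltc S A X m) ρ Ω e ND
  | 0 => h
  | m + 1 => by
    rw [Ex.ltc, tb_eq]
    cases hb : A.testBit m
    · exact h.ltc hA m
    · exact (h.ltc hA m).lor (hA m hb)

theorem landau_sound (hG : Glob n sg hm nf ρ Ω ND) (h : OH2 k dU S ρ Ω e ND) {A H : ℕ}
    (hA : sub A (msk k) = true)
    (hH : 0 + ∑ i ∈ range k with A.testBit i,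
      (indeg ρ Ω (e i) - pc (Nat.land (row S (Nat.add 16 i)) (dif (msk k) A))) ≤ H) :
    tri (pc A) ≤ H ∧ (H = tri (pc A) →
      OH2 k dU (Nat.lor (ltc S A (dif (msk k) A) k) (Nat.shiftLeft A 2048)) ρ Ω e ND) := by
  have hk := h.le
  have A1 : ∀ j, A.testBit j = true → j < k := fun j hj => by
    simpa [tb_msk] using sub_imp hA hj
  have hB : imK k e A ⊆ Ω := fun z hz => by
    obtain ⟨j, hj, -, rfl⟩ := mem_imK.1 hz
    exact h.mem j hj
  have h1 := landau (hG.sc.mono hB) (Subset.refl _)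
  rw [h.card_imK A1, ← two_mul_tri] at h1
  have h2 : ∑ v ∈ imK k e A, indeg ρ (imK k e A) v =
      ∑ i ∈ range k with A.testBit i, indeg ρ (imK k e A) (e i) := sum_image (h.injOn A)
  have key : ∀ i, A.testBit i = true →
      IN ρ (imK k e A) (e i) ∪ imK k e (Nat.land (row S (Nat.add 16 i)) (dif (msk k) A)) ⊆
        IN ρ Ω (e i) ∧
      #(IN ρ (imK k e A) (e i) ∪ imK k e (Nat.land (row S (Nat.add 16 i)) (dif (msk k) A))) =
        indeg ρ (imK k e A) (e i) + pc (Nat.land (row S (Nat.add 16 i)) (dif (msk k) A)) := by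
    intro i hi
    have i16 : i < 16 := by have := A1 i hi; omega
    refine ⟨union_subset (fun z hz => mem_IN.2 ⟨hB (mem_IN.1 hz).1, (mem_IN.1 hz).2⟩)
      fun z hz => ?_, ?_⟩
    · obtain ⟨j, hj, h3, rfl⟩ := mem_imK.1 hz
      rw [tb_land, Bool.and_eq_true] at h3
      exact mem_IN.2 ⟨h.mem j hj, (h.T i16 h3.1).2.2⟩
    · rw [card_union_of_disjoint (disjoint_left.2 fun z hz hz' => ?_), card_IN,
        h.card_imK fun t ht => ?_]
      · rw [tb_land, Bool.and_eq_true] at ht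
        exact h.row_lt_k ht.1
      · obtain ⟨j, hj, h3, rfl⟩ := mem_imK.1 hz'
        have h4 := (h.mem_imK hj).1 (mem_IN.1 hz).1
        simp [tb_dif, h4] at h3
  have h3 : ∀ i ∈ ({i ∈ range k | A.testBit i} : Finset ℕ), indeg ρ (imK k e A) (e i) ≤
      indeg ρ Ω (e i) - pc (Nat.land (row S (Nat.add 16 i)) (dif (msk k) A)) := fun i hi => by
    obtain ⟨h3, h4⟩ := key i (mem_filter.1 hi).2
    have := card_le_card h3
    rw [h4, card_IN] at this
    omega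
  have h4 := sum_le_sum h3
  refine ⟨by omega, fun hE => ?_⟩
  have h5 : ∀ i, A.testBit i = true → ∀ z ∈ Ω, ρ z (e i) →
      z ∈ imK k e A ∨ z ∈ imK k e (Nat.land (row S (Nat.add 16 i)) (dif (msk k) A)) := by
    intro i hi z hz hr
    have h6 := (sum_eq_sum_iff_of_le h3).1 (by omega) i
      (mem_filter.2 ⟨mem_range.2 (A1 i hi), hi⟩)
    obtain ⟨h7, h8⟩ := key i hi
    have h9 := eq_of_subset_of_card_le h7 (by rw [h8, card_IN]; omega)
    exact (mem_union.1 (h9 ▸ mem_IN.2 ⟨hz, hr⟩)).imp_left fun h => (mem_IN.1 h).1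
  refine (h.ltc (fun i hi => ok_noIn hG.sc h (A1 i hi) fun j hj => ?_) k).lor
    (ok_row (a := 128) rfl fun j hj => ⟨by have := A1 j hj; omega,
      mean_cl.2 ⟨A1 j hj, fun z hz hu hr => ?_⟩⟩)
  · rw [tb_dif, tb_dif, tb_msk] at hj
    simp only [Bool.and_eq_true, decide_eq_true_eq, Bool.not_eq_true'] at hj
    refine ⟨hj.1.1, fun h6 => by simp [← h6, hi] at hj, fun hr => ?_⟩
    rcases h5 i hi _ (h.mem j hj.1.1) hr with h6 | h6
    · simp [(h.mem_imK hj.1.1).1 h6] at hj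
    · have h7 := (h.mem_imK hj.1.1).1 h6
      rw [tb_land, hj.2] at h7
      simp at h7
  · exact (h5 j hj z hz hr).elim (not_mem_imK hu) (not_mem_imK hu)

omit [DecidableEq α] in
theorem pth_spec (h : OH2 k dU S ρ Ω e ND) {l : α → ℕ}
    (hl : ∀ a ∈ Ω, ∀ b ∈ Ω, l a < l b → ρ a b) {g : ℕ → ℕ → ℕ} : ∀ (m x s : ℕ), x < k →
    pth g S m x s ≠ 0 → ∃ z s1, z < k ∧ l (e z) ≤ l (e x) ∧ g z s1 ≠ 0
  | 0, x, s, hx, h0 => ⟨x, s, hx, le_rfl, h0⟩
  | m + 1, x, s, hx, h0 => by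
    obtain ⟨h1, h2⟩ := cnd h0
    rw [tb_eq] at h1
    obtain ⟨h3, -, -, h4⟩ := h.N (by have := h.le; omega) h1
    obtain ⟨z, s1, h5, h6, h7⟩ := pth_spec h hl m _ _ h3 h2
    exact ⟨z, s1, h5, h6.trans (not_lt.1 fun h8 => h4 (hl _ (h.mem _ hx) _ (h.mem _ h3) h8)), h7⟩

theorem oEx_sound (hG : Glob n sg hm nf ρ Ω ND) (hg : Snd ρ Ω ND Gd g) (h : OH2 k dU S ρ Ω e ND)
    {t s : ℕ} (i16 : i < 16) (h0 : oEx g sg nf k dU S t i s ≠ 0) : Gd := by
  have hk := h.le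
  have hs32 : sg < 32 := Nat.lt_succ_of_le hG.sgle
  rcases cif h0 with ⟨-, h1⟩ | ⟨-, h1⟩
  · obtain ⟨hc, h2⟩ := cnd h1
    simp only [Bool.and_eq_true, Bool.or_eq_true, tb_eq] at hc
    obtain ⟨hj, hi, hr⟩ := h.T i16 hc.1
    refine hg _ _ _ _ _ (h.lor (ok_arcN hG.sc h hi hj
      (fun h3 => hG.sc.irr _ (h.mem i hi) (h3 ▸ hr)) ?_)) h2
    rcases hc.2 with h3 | h3
    · exact hG.sig _ (h.mem _ hj) _ (h.mem _ hi) (h.Hi hs32 h3.2).2 (h.Hi hs32 h3.1).2 hr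
    · exact hG.nd _ (h.mem _ hj) _ (h.mem _ hi) (h.nd h3.2).2 (h.nd h3.1).2 hr
  rcases cif h1 with ⟨-, h1⟩ | ⟨-, h1⟩
  · obtain ⟨hc, h2⟩ := cnd h1
    simp only [Bool.and_eq_true, tb_eq, tb_land] at hc
    obtain ⟨hj, hi, hr⟩ := h.T i16 hc.2.2
    refine hg _ _ _ _ _ (h.lor (ok_loP hk hj (Nat.succ_le_of_lt (not_le.1 fun h3 => ?_)))) h2
    exact hG.sig _ (h.mem _ hj) _ (h.mem _ hi) h3 (h.Hi hs32 hc.1).2 hr (h.Y i16 hc.2.1).2.2
  rcases cif h1 with ⟨-, h1⟩ | ⟨-, h1⟩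
  · obtain ⟨hc, h2⟩ := cnd h1
    obtain ⟨s1, H, h3, h4⟩ := hs_spec h _ _ _ h2
    obtain ⟨h5, h6⟩ := landau_sound hG h hc h4
    rcases cif h3 with ⟨h7, -⟩ | ⟨-, h7⟩
    · exact absurd (Nat.blt_eq.mp h7) (not_lt.2 h5)
    · obtain ⟨h8, h9⟩ := cnd h7
      exact hg _ _ _ _ _ (h6 (Nat.eq_of_beq_eq_true h8)) h9
  rcases cif h1 with ⟨-, h1⟩ | ⟨-, h1⟩
  · obtain ⟨hc, -⟩ := cnd h1
    simp only [Bool.and_eq_true, tb_eq, tb_land, Nat.blt_eq] at hc
    have h2 := (h.Lo (d := 1 + f5 s 10) (by omega)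
      (by rw [show Nat.add 64 (1 + f5 s 10) = Nat.add 65 (f5 s 10) by
        simp only [Nat.add_eq]; omega]; exact hc.2.1)).2
    have h3 := (h.Hi (by omega) hc.2.2).2
    omega
  rcases cif h1 with ⟨-, h1⟩ | ⟨-, h1⟩
  · obtain ⟨t, ht⟩ := Nat.exists_testBit_of_ne_zero (cne h1).1
    rw [tb_land, Bool.and_eq_true, ← Nat.div_add_mod t 16] at ht
    have h2 := h.blk (Nat.mod_lt t (by norm_num)) ht.1
    have h3 := h.blk (Nat.mod_lt t (by norm_num)) ht.2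
    rw [Nat.mul_zero, Nat.zero_add, mean_Y h2.1] at h2
    exact absurd h2.2.2.2 ((mean_N h3.1).1 h3.2).2.2.2
  rcases cif h1 with ⟨-, h1⟩ | ⟨-, h1⟩
  · obtain ⟨hc, h2⟩ := cnd h1
    simp only [Bool.and_eq_true, Bool.not_eq_true', Nat.ble_eq] at hc
    refine hg _ _ _ _ _ (h.lor (ok_row (a := 128) rfl fun j hj => ?_)) h2
    rw [tb_msk, decide_eq_true_eq] at hj
    refine ⟨by omega, mean_cl.2 ⟨hj, fun z hz hu _ => ?_⟩⟩
    have h3 := h.card_RR
    rw [hG.card, (hG.fin (Nat.ne_of_beq_eq_false hc.1)).1] at h3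
    have h4 := card_pos.2 ⟨z, mem_RR.2 ⟨hz, hu⟩⟩
    omega
  · obtain ⟨hc, h2⟩ := cnd h1
    rw [tb_eq] at hc
    obtain ⟨hj, hi, hr⟩ := h.T (nib_lt _ _) hc
    obtain ⟨l, hl⟩ := hG.lay
    obtain ⟨x, s1, -, h3, h4⟩ := pth_spec h (fun a ha b hb => (hl a ha b hb).1) _ _ _ hi h2
    obtain ⟨h5, h6⟩ := cnd h4
    obtain ⟨y, s2, -, h7, h8⟩ := pth_spec h (fun a ha b hb => (hl a ha b hb).1) _ _ _ hj h6
    obtain ⟨h9, h10⟩ := cnd h8
    rw [Nat.eq_of_beq_eq_true h5] at h3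
    rw [Nat.eq_of_beq_eq_true h9] at h7
    exact hg _ _ _ _ _ (h.lor (ok_arcN hG.sc h hi hj
      (fun h3 => hG.sc.irr _ (h.mem _ hi) (h3 ▸ hr))
      ((hl _ (h.mem _ hj) _ (h.mem _ hi)).2 (le_antisymm h3 h7) hr))) h10

/-! ### renaming -/

theorem tb_const {c N : ℕ} {P : ℕ → Prop} (h1 : c < 2 ^ N)
    (h2 : ∀ t < N, c.testBit t = true → P t) {t : ℕ} (h : c.testBit t = true) : t < N ∧ P t := by
  have h3 : t < N := not_le.1 fun h3 => Bool.false_ne_true ((Nat.testBit_lt_two_pow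
    (h1.trans_le (Nat.pow_le_pow_right Nat.two_pos h3))).symm.trans h)
  exact ⟨h3, h2 t h3 h⟩

theorem tb_prow4 {p t : ℕ} : ∀ m ≤ 16, (prow4 p S m).testBit t = true →
    t < 1024 ∧ t % 256 / 16 < m ∧
      S.testBit (16 * (16 * (t / 256) + pv p (t % 256 / 16)) + t % 16) = true
  | 0, _, h => by simp [prow4] at h
  | m + 1, hm, h => by
    rw [prow4, tb_lor, Bool.or_eq_true] at h
    rcases h with h | h
    · obtain ⟨h1, h2, h3⟩ := tb_prow4 m (by omega) h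
      exact ⟨h1, by omega, h3⟩
    · rw [tb_shl, tb_land, tb_shr] at h
      simp only [Bool.and_eq_true, decide_eq_true_eq, Nat.mul_eq] at h
      obtain ⟨h1, h2, h3⟩ := h
      have h4 := tb_const (N := 784) (P := fun t => t % 256 < 16) (by decide +kernel)
        (by decide +kernel) h3
      have h5 : t % 256 / 16 = m := by omega
      refine ⟨by omega, by omega, ?_⟩
      rw [h5, ← h2]
      congr 1
      omega

theorem tb_pcolB {p : ℕ} (hj : j < 16) : ∀ m ≤ 16, (pcolB p S m).testBit (16 * a + j) = true →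
    j < m ∧ S.testBit (16 * a + pv p j) = true
  | 0, _, h => by simp [pcolB] at h
  | m + 1, hm, h => by
    rw [pcolB, tb_lor, Bool.or_eq_true] at h
    rcases h with h | h
    · obtain ⟨h1, h2⟩ := tb_pcolB hj m (by omega) h
      exact ⟨by omega, h2⟩
    · rw [tb_shl, tb_land, tb_shr] at h
      simp only [Bool.and_eq_true, decide_eq_true_eq] at h
      obtain ⟨h1, h2, h3⟩ := h
      have h4 := tb_const (N := 2081) (P := fun t => t % 16 = 0) (by decide +kernel)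
        (by decide +kernel) h3
      obtain rfl : j = m := by omega
      refine ⟨by omega, ?_⟩
      rw [← h2]
      congr 1
      omega

omit [DecidableEq α] in
theorem rn_sound (hV : SC ρ Ω) (h : OH2 k dU S ρ Ω e ND) {g : ℕ → ℕ} {p kg d1 cl1 dm1 : ℕ}
    (hkg : kg < 16) (hd : d1 ≤ 31) (h0 : rn g p kg d1 cl1 dm1 k dU S ≠ 0) :
    ∃ S3, OH2 kg d1 S3 ρ Ω (fun i => e (pv p i)) ND ∧ g S3 ≠ 0 := by
  have hk := h.le
  obtain ⟨hc, h1⟩ := cnd h0
  refine ⟨_, ?_, h1⟩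
  simp only [Bool.and_eq_true, Nat.beq_eq, Nat.ble_eq] at hc
  obtain ⟨⟨⟨⟨⟨⟨⟨c1, c2⟩, c3⟩, c4⟩, c5⟩, c6⟩, c7⟩, c8⟩ := hc
  generalize hS1 : Nat.lor (prow4 p S kg) (Nat.shiftLeft (Nat.shiftRight S 1024) 1024) = S1 at *
  have p16 : ∀ i, pv p i < 16 := fun i => nib_lt _ _
  have lt : ∀ i < kg, pv p i < k := fun i hi => by
    simpa [tb_msk] using sub_imp c2 ((tb_orPow p _ kg).2 ⟨i, hi, rfl⟩)
  have inj : Set.InjOn (pv p) (range kg : Finset ℕ) := by
    have h2 : (range kg).image (pv p) = {i ∈ range 16 | (orPow p kg).testBit i} := by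
      ext t
      simp only [mem_image, mem_range, mem_filter, tb_orPow]
      exact ⟨fun h => ⟨by obtain ⟨i, -, rfl⟩ := h; exact p16 i, h⟩, fun h => h.2⟩
    rw [← card_image_iff, card_range, h2, ← pc_eq fun t ht => ?_, c1]
    obtain ⟨i, -, rfl⟩ := (tb_orPow p t kg).1 ht
    exact p16 i
  have s1 : ∀ b < 4, ∀ a < 16, ∀ j < 16, S1.testBit (16 * (16 * b + a) + j) = true →
      a < kg ∧ Mean k ρ Ω e ND (16 * b + pv p a) j := by
    intro b hb a ha j hj ht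
    rw [← hS1, tb_lor, tb_shl, Bool.or_eq_true, Bool.and_eq_true, decide_eq_true_eq] at ht
    obtain ⟨-, h2, h3⟩ := tb_prow4 kg hkg.le (ht.resolve_right fun h => by omega)
    rw [show (16 * (16 * b + a) + j) % 256 / 16 = a by omega] at h2 h3
    rw [show (16 * (16 * b + a) + j) / 256 = b by omega,
      show (16 * (16 * b + a) + j) % 16 = j by omega] at h3
    exact ⟨h2, h.bits _ j hj h3⟩
  have s2 : ∀ a, 64 ≤ a → ∀ j < 16, (pcolB p S1 kg).testBit (16 * a + j) = true →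
      j < kg ∧ Mean k ρ Ω e ND a (pv p j) := by
    intro a ha j hj ht
    obtain ⟨h2, h3⟩ := tb_pcolB hj kg hkg.le ht
    rw [← hS1, tb_lor, tb_shl, tb_shr, Bool.or_eq_true, Bool.and_eq_true] at h3
    have h4 := (h3.resolve_left fun h => by have := (tb_prow4 kg hkg.le h).1; omega).2
    rw [show 1024 + (16 * a + pv p j - 1024) = 16 * a + pv p j by omega] at h4
    exact ⟨h2, h.bits _ _ (p16 j) h4⟩
  have s3 : ∀ a, 64 ≤ a → ∀ j, (row (pcolB p S1 kg) a).testBit j = true →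
      j < kg ∧ Mean k ρ Ω e ND a (pv p j) := fun a ha j hj => by
    rw [tb_row, Bool.and_eq_true, decide_eq_true_eq] at hj
    exact s2 a ha j hj.2 hj.1
  have un : ∀ z, Un kg (fun i => e (pv p i)) z → Un k e z ∨
      ∃ t < k, (dif (msk k) (orPow p kg)).testBit t = true ∧ e t = z := fun z hu => by
    refine (named_or k e z).imp_right ?_
    rintro ⟨t, ht, rfl⟩
    refine ⟨t, ht, ?_, rfl⟩
    rw [tb_dif, tb_msk]
    cases h2 : (orPow p kg).testBit t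
    · simp [ht]
    · obtain ⟨i, hi, rfl⟩ := (tb_orPow p t kg).1 h2
      exact absurd rfl (hu i hi)
  have out : ∀ x, (∀ j, x.testBit j = true → j < kg) → ∀ j, x.testBit j = true → ∀ t < k,
      (dif (msk k) (orPow p kg)).testBit t = true →
      (Nat.mul (spr x) (dif (msk k) (orPow p kg))).testBit (16 * j + t) = true := by
    intro x hx j hj t ht h2
    have h15 : ∀ j, x.testBit j = true → j < 15 := fun j hj => by have := hx j hj; omega
    rw [tb_outer (fun t ht => ?_) (fun t ht => ?_) j (by omega), tb_spr h15, h2,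
      show 16 * j / 16 = j by omega, hj]
    · simp
    · rw [tb_spr h15, Bool.and_eq_true, decide_eq_true_eq] at ht
      exact ht.1
    · rw [tb_dif, tb_msk, Bool.and_eq_true, decide_eq_true_eq] at ht
      omega
  have dm : ∀ j, dm1.testBit j = true → j < kg ∧ ∀ z ∈ Ω, Un k e z → ρ (e (pv p j)) z := by
    intro j hj
    have h2 := sub_imp c6 hj
    rw [tb_lor, Bool.or_eq_true] at h2
    rcases h2 with h2 | h2
    · obtain ⟨h3, h4⟩ := s3 _ (by norm_num) j h2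
      obtain ⟨h5, h6⟩ := mean_cl.1 h4
      exact ⟨h3, fun z hz hu =>
        (hV.tot _ (h.mem _ h5) z hz (hu _ h5)).resolve_right (h6 z hz hu)⟩
    · obtain ⟨h3, h4⟩ := s3 _ (by norm_num) j h2
      exact ⟨h3, (mean_dom.1 h4).2⟩
  refine ⟨by omega, fun i hi => h.mem _ (lt i hi), fun i hi j hj he =>
    inj (by simpa using hi) (by simpa using hj) (h.inj _ (lt i hi) _ (lt j hj) he),
    fun z hz hu => ?_, Ok.lor (Ok.lor (fun a j hj hb => ?_) (ok_row (a := 130) rfl fun j hj => ?_))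
      (Ok.lor (ok_row (a := 128) rfl fun j hj => ?_) (ok_row (a := 129) rfl fun j hj => ?_))⟩
  · rcases un z hu with h2 | ⟨t, -, h2, rfl⟩
    · exact c3.trans (h.low z hz h2)
    · exact (h.Lo (by omega) (sub_imp c4 h2)).2
  · rw [tb_land, Bool.and_eq_true] at hb
    have h2 := (tb_const (N := 2048) (P := fun _ => True) (by decide +kernel)
      (fun _ _ _ => trivial) hb.2).1
    by_cases ha : 64 ≤ a
    · obtain ⟨h3, h4⟩ := s2 a ha j hj hb.1
      refine ⟨h3, ?_⟩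
      have h5 := h4.2
      split_ifs at h5 ⊢ <;> first | exact h5 | omega
    · obtain ⟨h3, h4⟩ := tb_pcolB hj kg hkg.le hb.1
      rw [← Nat.div_add_mod a 16] at h4 ⊢
      have h5 : a % 16 < 16 := Nat.mod_lt a (by norm_num)
      have h6 : a / 16 < 4 := by omega
      obtain ⟨h7, h8⟩ := s1 _ h6 _ h5 _ (p16 j) h4
      generalize a / 16 = b at h6 h8
      generalize a % 16 = c at h5 h7 h8
      interval_cases b
      · rw [Nat.mul_zero, Nat.zero_add] at h8 ⊢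
        exact (mean_Y h5).2 ⟨h3, h7, ((mean_Y (p16 c)).1 h8).2.2⟩
      · exact (mean_T h5).2 ⟨h3, h7, ((mean_T (p16 c)).1 h8).2.2⟩
      · obtain ⟨-, -, h9, h10⟩ := (mean_N (p16 c)).1 h8
        exact (mean_N h5).2 ⟨h3, h7, fun h => h9 (h ▸ rfl), h10⟩
      · obtain ⟨-, -, h9, h10⟩ := (mean_NT (p16 c)).1 h8
        exact (mean_NT h5).2 ⟨h3, h7, fun h => h9 (h ▸ rfl), h10⟩
  · obtain ⟨h3, h4⟩ := s3 _ (by norm_num) j hj
    exact ⟨by omega, mean_nd.2 ⟨h3, (mean_nd.1 h4).2⟩⟩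
  · have h2 := fun j hj => s3 _ (by norm_num) j (sub_imp c5 hj)
    obtain ⟨h3, h4⟩ := h2 j hj
    refine ⟨by omega, mean_cl.2 ⟨h3, fun z hz hu => ?_⟩⟩
    rcases un z hu with h5 | ⟨t, ht, h5, rfl⟩
    · exact (mean_cl.1 h4).2 z hz h5
    · have h6 := sub_imp c7 (out cl1 (fun j hj => (h2 j hj).1) j hj t ht h5)
      rw [tb_shr, show 768 + (16 * j + t) = 16 * (16 * 3 + j) + t by omega] at h6
      exact ((mean_NT (p16 j)).1 (s1 3 (by norm_num) j (by omega) t (by omega) h6).2).2.2.2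
  · obtain ⟨h3, h4⟩ := dm j hj
    refine ⟨by omega, mean_dom.2 ⟨h3, fun z hz hu => ?_⟩⟩
    rcases un z hu with h5 | ⟨t, ht, h5, rfl⟩
    · exact h4 z hz h5
    · have h6 := sub_imp c8 (out dm1 (fun j hj => (dm j hj).1) j hj t ht h5)
      rw [show 16 * j + t = 16 * (16 * 0 + j) + t by omega] at h6
      have h7 := (s1 0 (by norm_num) j (by omega) t (by omega) h6).2
      rw [Nat.mul_zero, Nat.zero_add] at h7
      exact ((mean_Y (p16 j)).1 h7).2.2

/-! ### the checker -/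

theorem otS_sound {w wT gs ph tg jx : ℕ} {tbl : ℕ → ℕ} (hG : Glob n sg hm nf ρ Ω ND)
    (hI : ∀ (k dU S s : ℕ) (e : ℕ → α), OH2 k dU S ρ Ω e ND → ilf w wT gs tg k S s ≠ 0 → Gd)
    (hL : ∀ (k dU S s : ℕ) (e : ℕ → α), OH2 k dU S ρ Ω e ND →
      llf w wT gs ph tg hm nf k dU S s ≠ 0 → Gd)
    (hT : ∀ i < jx, Good2 ρ Ω ND Gd (tbl i)) (hg : Snd ρ Ω ND Gd g) :
    Snd ρ Ω ND Gd (otS tbl w wT gs ph tg sg hm nf jx g) := by
  intro k dU S s e h h0
  have hk := h.le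
  rcases cif h0 with ⟨-, h1⟩ | ⟨-, h1⟩
  · rcases cif h1 with ⟨-, h1⟩ | ⟨-, h1⟩
    · rcases cif h1 with ⟨-, h1⟩ | ⟨-, h1⟩
      · obtain ⟨hc, h2⟩ := cnd h1
        obtain ⟨h3, h4⟩ := cne h2
        simp only [Bool.and_eq_true, Nat.blt_eq, Bool.not_eq_true'] at hc
        by_cases hr : ρ (e (nib s 8)) (e (nib s 4))
        · exact hg _ _ _ _ _ (h.lor (ok_arcY hk hc.1.2 hc.1.1 hr)) h3
        · exact hg _ _ _ _ _ (h.lor (ok_arcN hG.sc h hc.1.2 hc.1.1
            (Ne.symm (Nat.ne_of_beq_eq_false hc.2)) hr)) h4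
      · obtain ⟨S3, h2, h3⟩ := rn_sound hG.sc h (nib_lt _ _) (f5_le _ _) h1
        exact hg _ _ _ _ _ h2 h3
    rcases cif h1 with ⟨-, h1⟩ | ⟨-, h1⟩
    · exact hI _ _ _ _ _ h h1
    rcases cif h1 with ⟨-, h1⟩ | ⟨-, h1⟩
    · obtain ⟨hc, h2⟩ := cnd h1
      obtain ⟨S3, h3, h4⟩ := rn_sound hG.sc h (nib_lt _ _) (f5_le _ _) h2
      exact hT _ (Nat.blt_eq.mp hc) _ (h3.sub (cnd h4).1)
    · exact hL _ _ _ _ _ h h1
  rcases cif h1 with ⟨-, h1⟩ | ⟨-, h1⟩
  · exact oBr_sound hG hg h h1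
  rcases cif h1 with ⟨-, h1⟩ | ⟨-, h1⟩
  · exact oDg_sound hG hg h h1
  · exact oEx_sound hG hg h (nib_lt _ _) h1

theorem outerStmt : OuterStmt := by
  intro α _ n sg hm nf w wT gs ph tg tbl ρ Ω ND Gd hG hI hL
  have key : ∀ jx, (∀ i < jx, Good2 ρ Ω ND Gd (tbl i)) →
      ∀ f, Snd ρ Ω ND Gd (ot tbl w wT gs ph tg sg hm nf jx f) := by
    intro jx hT f
    induction f with
    | zero => exact fun _ _ _ _ _ _ h => absurd rfl h
    | succ f ih => exact otS_sound hG hI hL hT ih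
  refine ⟨key, fun L => ?_⟩
  induction L with
  | nil => exact fun _ _ hT => hT
  | cons s L ih =>
    intro j h hT i hi
    rw [chkL, Bool.and_eq_true] at h
    refine ih (Nat.succ j) h.2 (fun i hi => ?_) i
      (by simp only [List.length_cons, Nat.succ_eq_add_one] at hi ⊢; omega)
    rcases Nat.lt_succ_iff_lt_or_eq.1 hi with hi | rfl
    · exact hT i hi
    · intro e hH
      have h1 := h.1
      rw [chk1, Bool.not_eq_true'] at h1
      exact key i hT 3000 _ _ _ s e hH (Nat.ne_of_beq_eq_false h1)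

end Pool.Agent.MP_75ef89_co.Ex
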