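import Mathlib
import Pool.Agent.MP_75ef89_co.Ex.MainT
import Pool.Agent.MP_75ef89_co.Ex.In1
import Pool.Agent.MP_75ef89_co.Ex.Out1
import Pool.Agent.MP_75ef89_co.Ex.Lf2

/-! The main induction: from the checked trees to the upper bound. -/

namespace Pool.Agent.MP_75ef89_co.Ex

open Finset

namespace Mn

variable {α : Type} [DecidableEq α] {n : ℕ} {ρ : α → α → Prop} {Ω : Finset α} {ND : α → Prop}

/-! ### roots -/

/-- The state with `k` names, given in-degree bounds, and no known arc. -/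
def exS (lw up : ℕ → ℕ) (dm nd : Bool) (k : ℕ) : ℕ → ℕ
  | 0 => Nat.lor (bif dm then Nat.shiftLeft (msk k) 2064 else 0)
      (bif nd then Nat.shiftLeft (msk k) 2080 else 0)
  | i + 1 => Nat.lor (exS lw up dm nd k i) (Nat.lor (loP i (lw i)) (hiP i (up i)))

def RootIs (c k dU : ℕ) (lw up : ℕ → ℕ) (dm nd : Bool) : Prop :=
  nib c 0 = k ∧ f5 c 4 = dU ∧ sub (xpd c) (exS lw up dm nd k k) = true

instance (c k dU : ℕ) (lw up : ℕ → ℕ) (dm nd : Bool) : Decidable (RootIs c k dU lw up dm nd) := by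
  unfold RootIs; infer_instance

omit [DecidableEq α] in
theorem RootIs.oh {c k dU : ℕ} {lw up : ℕ → ℕ} {dm nd : Bool} (h : RootIs c k dU lw up dm nd)
    {e : ℕ → α} (hk : k ≤ 15) (mem : ∀ i < k, e i ∈ Ω)
    (inj : ∀ i < k, ∀ j < k, e i = e j → i = j) (low : ∀ z ∈ Ω, Un k e z → dU ≤ indeg ρ Ω z)
    (hl : ∀ i < k, lw i ≤ indeg ρ Ω (e i)) (hu : ∀ i < k, up i ≤ 31 → indeg ρ Ω (e i) ≤ up i)
    (hd : dm = true → ∀ i < k, ∀ z ∈ Ω, Un k e z → ρ (e i) z)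
    (hn : nd = true → ∀ i < k, ND (e i)) : OH2 (nib c 0) (f5 c 4) (xpd c) ρ Ω e ND := by
  have z0 : Ok k ρ Ω e ND 0 := fun a i _ hb => by simp at hb
  have row : ∀ (b : Bool) (a t : ℕ), t = 16 * a → (b = true → ∀ j < k, Mean k ρ Ω e ND a j) →
      Ok k ρ Ω e ND (bif b then Nat.shiftLeft (msk k) t else 0) := by
    intro b a t ht hb
    cases b
    · exact z0
    · refine ok_row (a := a) ht fun j hj => ?_
      rw [tb_msk, decide_eq_true_eq] at hj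
      exact ⟨by omega, hb rfl j hj⟩
  have key : ∀ m ≤ k, Ok k ρ Ω e ND (exS lw up dm nd k m) := by
    intro m
    induction m with
    | zero =>
      intro _
      rw [exS]
      exact (row dm 129 2064 (by norm_num) fun b j hj => mean_dom.2 ⟨hj, hd b j hj⟩).lor
        (row nd 130 2080 (by norm_num) fun b j hj => mean_nd.2 ⟨hj, hn b j hj⟩)
    | succ m ih =>
      intro hm
      exact (ih (by omega)).lor ((ok_loP hk hm (hl m hm)).lor (ok_hiP hk hm (hu m hm)))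
  rw [h.1, h.2.1]
  exact OH2.sub ⟨hk, mem, inj, low, key k le_rfl⟩ h.2.2

theorem rootD_is : (∀ d < 5, RootIs (rootD d) 1 d (fun _ => d) (fun _ => d) false false) ∧
    RootIs (rootD 5) 0 5 (fun _ => 0) (fun _ => 0) false false := by decide +kernel

theorem rootT_is : ∀ s < 7, ∀ d < 3, ∀ b : Bool,
    RootIs (rootT s d b) s (max d s) (fun _ => d) (fun _ => 63) true b := by decide +kernel

theorem rootK_is : ∀ r < 7, ∀ q < 2, RootIs (rootK (cdK r q)) 2 1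
    (fun i => if i = 0 then max (nib (cdK r q) 0) 1 else max (nib (cdK r q) 8) 1)
    (fun i => if i = 0 then nib (cdK r q) 4 else nib (cdK r q) 12) false
    ((cdK r q).testBit 16) := by decide +kernel

omit [DecidableEq α] in
theorem rootD_oh {d : ℕ} (hd : d < 6) (hl : ∀ u ∈ Ω, d ≤ indeg ρ Ω u) {v : α} (hv : v ∈ Ω)
    (hu : d = 5 ∨ indeg ρ Ω v ≤ d) :
    ∃ e, OH2 (nib (rootD d) 0) (f5 (rootD d) 4) (xpd (rootD d)) ρ Ω e ND := by
  by_cases h : d = 5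
  · subst h
    exact ⟨fun _ => v, rootD_is.2.oh (by norm_num) (by simp) (by simp) (fun z hz _ => hl z hz)
      (by simp) (by simp) (by simp) (by simp)⟩
  · exact ⟨fun _ => v, (rootD_is.1 d (by omega)).oh (by norm_num) (fun _ _ => hv)
      (fun _ _ _ _ _ => by omega) (fun z hz _ => hl z hz) (fun _ _ => hl v hv)
      (fun _ _ _ => hu.resolve_left h) (by simp) (by simp)⟩

omit [DecidableEq α] in
theorem enum (S : Finset α) (v : α) : ∃ e : ℕ → α, (∀ i < #S, e i ∈ S) ∧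
    (∀ i < #S, ∀ j < #S, e i = e j → i = j) ∧ ∀ z ∈ S, ∃ i < #S, e i = z := by
  refine ⟨fun i => if h : i < #S then (S.equivFin.symm ⟨i, h⟩ : α) else v, fun i hi => ?_,
    fun i hi j hj h => ?_, fun z hz => ⟨S.equivFin ⟨z, hz⟩, (S.equivFin ⟨z, hz⟩).2, ?_⟩⟩
  · simp [hi]
  · simp only [hi, hj, dif_pos] at h
    exact congrArg Fin.val (S.equivFin.symm.injective (Subtype.ext h))
  · simp

/-! ### running a tree -/

/-- A layered semicomplete digraph on `n` vertices. -/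
structure Dg (n : ℕ) (ρ : α → α → Prop) (Ω : Finset α) : Prop where
  sc : SC ρ Ω
  lay : Lay ρ Ω
  card : #Ω = n

omit [DecidableEq α] in
theorem Dg.rev (h : Dg n ρ Ω) : Dg n (fun a b => ρ b a) Ω := ⟨h.sc.rev, h.lay.rev, h.card⟩

/-- The data of the induction step. -/
structure Ctx (α : Type) [DecidableEq α] (n : ℕ) : Prop where
  tab : TabStmt
  phi : PhiStmt
  all : AllTrees
  pos : 0 < n
  ih : ∀ m < n, Claim α m

theorem run (hC : Ctx α n) {tbl : ℕ → ℕ} {w wT gs ph tg sg hm nf nm j0 N : ℕ}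
    (h1 : TabChk (n % 7) nf nm w wT gs) (h2 : PhiChk (n % 7) nf hm ph)
    (hc : Chain tbl w wT gs ph tg sg hm nf j0 (N + 1)) (hG : Glob n sg hm nf ρ Ω ND)
    (hnm : nm ≤ n) (hf : nf ≠ 0 → ∀ a ∈ Ω, ∀ b ∈ Ω, ρ a b → ¬ ρ b a) (htg : tg < m48) {Gd : Prop}
    (hGd : (M ρ Ω : ℝ) ≤ tg * Zu n nf → Gd) (h0 : ∀ i < j0, Good2 ρ Ω ND Gd (tbl i)) :
    Good2 ρ Ω ND Gd (tbl N) := by
  have hT := hC.tab α n nf nm w wT gs hC.ih
    ((eq_or_ne nf 0).imp_right fun h => (hG.fin h).1.symm) hnm h1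
  have hP := hC.phi α n nf hm ph ρ Ω hC.ih hG.sc hG.lay hG.card
    (fun h => ⟨(hG.fin h).1.symm, hf h, hG.hmax (hG.fin h).2⟩) h2
  exact hc (fun i => Good2 ρ Ω ND Gd (tbl i)) (outerStmt α n sg hm nf w wT gs ph tg tbl ρ Ω ND Gd hG
    (fun k dU S s e h h' => hGd (iLeaf innerStmt α n sg hm nf w wT gs tg _ ρ Ω ND hT hG htg
      k dU S s e h h'))
    fun k dU S s e h h' => hGd (lLeaf innerStmt conStmt α n sg hm nf w wT gs ph tg _ ρ Ω ND hT hP
      hG htg k dU S s e h h')).2 h0 N (Nat.lt_succ_self N)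

theorem of_Z {x c : ℕ} (h : (x : ℝ) ≤ (tgv (n % 7) c : ℕ) * Zu n 0) : 441000 * x ≤ c * G n := by
  have h1 : ((tgv (n % 7) c : ℕ) : ℝ) * Zu n 0 = (c * G n : ℕ) / 441000 := by
    rw [tgv, Zu, if_pos rfl, G_eq]
    push_cast
    ring
  rw [h1, le_div_iff₀ (by norm_num)] at h
  have h2 : ((441000 * x : ℕ) : ℝ) ≤ (c * G n : ℕ) := by
    rw [Nat.cast_mul, mul_comm]
    exact_mod_cast h
  exact_mod_cast h2

theorem tgv_lt {r c : ℕ} (hr : r < 7) (hc : c ≤ 1000) : tgv r c < m48 := by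
  have h : ∀ r < 7, 1000 * vv r * 9261 < m48 := by decide
  exact lt_of_le_of_lt (Nat.mul_le_mul_right _ (Nat.mul_le_mul_right _ hc)) (h r hr)

theorem r7 (n : ℕ) : n % 7 < 7 := Nat.mod_lt _ (by norm_num)

theorem sigf_le (r c : ℕ) : ∀ m, sigf r c m ≤ m
  | 0 => le_rfl
  | m + 1 => by
    rw [sigf]
    split_ifs
    · exact le_rfl
    · exact (sigf_le r c m).trans (Nat.le_succ m)

theorem sigf_spec {r c s : ℕ} (h1 : 1 ≤ s) : ∀ m, s ≤ sigf r c m → cT r s ≤ c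
  | 0, h => absurd (h1.trans h) (by simp [sigf])
  | m + 1, h => by
    rw [sigf] at h
    split_ifs at h with k
    · rcases Nat.lt_succ_iff_lt_or_eq.1 (Nat.lt_succ_of_le h) with k1 | k1
      · exact sigf_spec h1 m (by omega)
      · exact k1 ▸ k.2
    · exact sigf_spec h1 m h

omit [DecidableEq α] in
theorem glob (hn : 0 < n) (h : Dg n ρ Ω) {sg : ℕ} (hs : sg ≤ 6)
    (h1 : ∀ a ∈ Ω, ∀ b ∈ Ω, indeg ρ Ω a ≤ sg → indeg ρ Ω b ≤ sg → ρ a b → ¬ ρ b a)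
    (h2 : ∀ a ∈ Ω, ∀ b ∈ Ω, ND a → ND b → ρ a b → ¬ ρ b a) : Glob n sg 32 0 ρ Ω ND :=
  ⟨h.sc, h.lay, h.card, hn, by omega, h1, fun k => absurd k (by norm_num), fun k => absurd rfl k,
    h2⟩

theorem tree (hC : Ctx α n) {nm c sg c0 : ℕ} (hT : Tree (n % 7) nm (tgv (n % 7) c) sg c0)
    (hc : c ≤ 1000) (hnm : nm ≤ n) (hG : Glob n sg 32 0 ρ Ω ND) {e : ℕ → α}
    (h : OH2 (nib c0 0) (f5 c0 4) (xpd c0) ρ Ω e ND) : 441000 * M ρ Ω ≤ c * G n := by
  obtain ⟨tbl, w, wT, gs, ph, N, h1, h2, h3, rfl⟩ := hT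
  exact run hC h1 h2 h3 hG hnm (fun k => absurd rfl k) (tgv_lt (r7 n) hc) of_Z (by simp) e h

omit [DecidableEq α] in
/-- A digon between vertices of small in-degree gives a small dominating set. -/
theorem sig_or (h : Dg n ρ Ω) {sg : ℕ} {Gd : Prop}
    (hT : ∀ S, Top ρ Ω S → 1 ≤ #S → #S ≤ sg → Gd) : Gd ∨
      ∀ a ∈ Ω, ∀ b ∈ Ω, indeg ρ Ω a ≤ sg → indeg ρ Ω b ≤ sg → ρ a b → ¬ ρ b a := by
  by_contra hc
  push Not at hc
  obtain ⟨k, a, ha, b, hb, k1, k2, k3, k4⟩ := hc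
  rcases h.lay.cut ha hb k3 k4 with ⟨S, s1, s2, -, s3⟩ | ⟨S, s1, s2, -, s3⟩
  · exact k (hT S s1 (card_pos.2 ⟨_, s2⟩) (by omega))
  · exact k (hT S s1 (card_pos.2 ⟨_, s2⟩) (by omega))

omit [DecidableEq α] in
theorem exists_min (hn : 0 < n) (h : Dg n ρ Ω) :
    ∃ v ∈ Ω, ∀ u ∈ Ω, indeg ρ Ω v ≤ indeg ρ Ω u :=
  exists_min_image Ω (indeg ρ Ω) (card_pos.1 (h.card ▸ hn))

theorem weak {x c c' : ℕ} (h : 441000 * x ≤ c * G n) (hc : c ≤ c') : 441000 * x ≤ c' * G n :=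
  h.trans (Nat.mul_le_mul_right _ hc)

/-! ### a source -/

theorem src_closed (h : Dg n ρ Ω) {v : α} (hv : v ∈ Ω) (h0 : indeg ρ Ω v ≤ 0) :
    M ρ Ω ≤ M ρ (Ω \ {v}) ∧ #(Ω \ {v}) + 1 = n := by
  classical
  have hC : Closed ρ Ω {v} := ⟨singleton_subset_iff.2 hv, fun a ha b hb hr => by
    rw [mem_singleton.1 ha] at hr
    exact absurd (card_pos.2 ⟨b, mem_filter.2 ⟨hb, hr⟩⟩) (not_lt.2 h0)⟩
  have h1 : M ρ {v} ≤ 1 := by
    rw [M, cnt_eq]
    refine card_le_one.2 fun W hW W' hW' => ?_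
    have key : ∀ W ∈ MS ρ {v} fun _ => False, W = {v} := fun W hW => by
      obtain ⟨⟨k1, -, k2⟩, -⟩ := mem_MS.1 hW
      refine (subset_singleton_iff.1 k1).resolve_left ?_
      rintro rfl
      refine k2 v (mem_singleton_self v) (notMem_empty v) ?_
      have := h.sc.irr v hv
      simp [Ac, this]
    rw [key W hW, key W' hW']
  refine ⟨hC.M_eq.trans_le ((Nat.mul_le_mul_right _ h1).trans (one_mul _).le), ?_⟩
  rw [← h.card, ← card_sdiff_add_card_eq_card hC.1, card_singleton]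

theorem sB0 (hC : Ctx α n) (h : Dg n ρ Ω) {v : α} (hv : v ∈ Ω) (h0 : indeg ρ Ω v ≤ 0) :
    441 * M ρ Ω ≤ G (n - 1) := by
  obtain ⟨h1, h2⟩ := src_closed h hv h0
  exact (Nat.mul_le_mul_left _ h1).trans (hC.ih (n - 1) (by omega) ρ _ (h.sc.mono sdiff_subset)
    (h.lay.mono sdiff_subset) (by omega)).a

def thr (r : ℕ) : ℕ := [572, 840, 582, 662, 739, 599, 584].getD r 0

theorem sB0' (hC : Ctx α n) (h : Dg n ρ Ω) {v : α} (hv : v ∈ Ω) (h0 : indeg ρ Ω v ≤ 0) {c : ℕ}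
    (hc : thr (n % 7) ≤ c) : 441000 * M ρ Ω ≤ c * G n := by
  have h1 := sB0 hC h hv h0
  have h2 := G_ratio (a := fun _ => 1000) (b := thr) (by decide) (n - 1)
  rw [show n - 1 + 1 = n by have := hC.pos; omega] at h2
  exact weak (c := thr (n % 7)) (by omega) hc

/-- Facts about the constants. -/
theorem side : ∀ r < 7, thr r ≤ cB1 r ∧ thr r ≤ cB2 r ∧ thr r ≤ cN r ∧ cN r ≤ 1000 ∧
    (∀ s < 7, thr r ≤ cT r s ∧ cT r s ≤ 1000) ∧ (∀ q < 2, thr r ≤ cK r q) ∧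
    (cB2 r < 1000 → cB1 r ≤ cB2 r ∧ cB2 r ≤ cN r) ∧ (cB1 r < 1000 → cB1 r ≤ cN r) ∧
    cT r 0 = 1000 ∧ (0 < nmin r → cN r = 1000 ∧ sigf r 1000 6 = 6) := by decide

theorem cT_big {r s : ℕ} (hr : r < 7) (hs : 7 ≤ s) : cT r s = 1000 := by
  unfold cT
  refine List.getD_eq_default _ _ (le_trans ?_ hs)
  interval_cases r <;> rfl

theorem cK_big {r q : ℕ} (hr : r < 7) (hq : 2 ≤ q) : cK r q = 1000 := by
  unfold cK
  refine List.getD_eq_default _ _ (le_trans ?_ hq)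
  interval_cases r <;> decide

/-! ### the classes with a tree -/

omit [DecidableEq α] in
theorem sig0 : ∀ a ∈ Ω, ∀ b ∈ Ω, indeg ρ Ω a ≤ 0 → indeg ρ Ω b ≤ 0 → ρ a b → ¬ ρ b a := by
  classical
  intro a ha b _ _ h2 h3 _
  exact absurd (card_pos.2 ⟨a, mem_filter.2 ⟨ha, h3⟩⟩) (not_lt.2 h2)

theorem sB1 (hC : Ctx α n) (h : Dg n ρ Ω) (hc : cB1 (n % 7) < 1000) {u : α} (hu : u ∈ Ω)
    (h1 : indeg ρ Ω u ≤ 1) : 441000 * M ρ Ω ≤ cB1 (n % 7) * G n := by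
  obtain ⟨v, hv, hm⟩ := exists_min hC.pos h
  by_cases h0 : indeg ρ Ω v ≤ 0
  · exact sB0' hC h hv h0 (side _ (r7 n)).1
  · obtain ⟨e, he⟩ := rootD_oh (ND := fun _ => False) (d := 1) (by norm_num)
      (fun z hz => by have := hm z hz; omega) hu (.inr h1)
    exact tree hC (hC.all.b1 _ (r7 n) hc) hc.le (Nat.zero_le _)
      (glob hC.pos h (by norm_num) sig0 (by simp)) he

theorem sT (hC : Ctx α n) (h : Dg n ρ Ω) : ∀ s < 7, 1 ≤ s →
    (cT (n % 7) s < 1000 ∨ s ≤ sigf (n % 7) (cN (n % 7)) 6) → ∀ S, Top ρ Ω S → #S = s →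
      441000 * M ρ Ω ≤ cT (n % 7) s * G n := by
  intro s
  induction s using Nat.strong_induction_on with
  | _ s ih =>
  intro h7 h1 hc S hS hs
  obtain ⟨-, -, -, -, k1, -⟩ := side _ (r7 n)
  obtain ⟨v, hv, hm⟩ := exists_min hC.pos h
  by_cases h0 : indeg ρ Ω v ≤ 0
  · exact sB0' hC h hv h0 (k1 s h7).1
  by_cases h2 : indeg ρ Ω v < dT (n % 7) s
  · unfold dT at h2
    split_ifs at h2 with k2
    · exact weak (sB1 hC h k2.2 hv (by omega)) k2.1
    · omega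
  have hd : dT (n % 7) s < 3 := by
    unfold dT
    split_ifs <;> norm_num
  have k3 := sigf_le (n % 7) (cT (n % 7) s) (s - 1)
  have small : ∀ S', Top ρ Ω S' → 1 ≤ #S' → #S' ≤ sigf (n % 7) (cT (n % 7) s) (s - 1) →
      441000 * M ρ Ω ≤ cT (n % 7) s * G n := fun S' s1 s2 s3 => by
    have s4 := sigf_spec s2 _ s3
    exact weak (ih _ (by omega) (by omega) s2 (hc.imp (fun k => by omega) fun k => by omega)
      S' s1 rfl) s4
  rcases sig_or h small with k4 | k4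
  · exact k4
  obtain ⟨e, e1, e2, e3⟩ := enum S v
  rw [hs] at e1 e2 e3
  have un : ∀ z, Un s e z → z ∉ S := fun z hz k => by
    obtain ⟨i, hi, k5⟩ := e3 z k
    exact hz i hi k5
  by_contra hcon
  refine hcon (tree hC (ND := fun z => sigf (n % 7) (cT (n % 7) s) (s - 1) = s - 1 ∧ z ∈ S)
    (e := e) (hC.all.t _ (r7 n) s h7 h1 hc) (k1 s h7).2 (Nat.zero_le _)
    (glob hC.pos h (by omega) k4 fun a ha b hb a1 b1 k5 k6 => hcon ?_)
    ((rootT_is s h7 _ hd _).oh (by omega) (fun i hi => hS.1 (e1 i hi)) e2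
      (fun z hz k5 => max_le (by have := hm z hz; omega) (hs ▸ hS.card_le hz (un z k5)))
      (fun i hi => by have := hm _ (hS.1 (e1 i hi)); omega) (fun _ _ k5 => absurd k5 (by norm_num))
      (fun _ i hi z hz k5 => hS.2 _ (e1 i hi) z hz (un z k5))
      fun k5 i hi => ⟨of_decide_eq_true k5, e1 i hi⟩))
  have cut : ∀ a b, a ∈ S → b ∈ S → ∀ S', Top ρ Ω S' → a ∈ S' → b ∉ S' →
      441000 * M ρ Ω ≤ cT (n % 7) s * G n := fun a b a2 b2 S' s1 s2 s3 => by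
    refine small _ (hS.inter s1) (card_pos.2 ⟨a, mem_inter.2 ⟨a2, s2⟩⟩) ?_
    have := card_lt_card (show S ∩ S' ⊂ S from ⟨inter_subset_left,
      fun k => s3 (mem_inter.1 (k b2)).2⟩)
    have := a1.1
    omega
  rcases h.lay.cut ha hb k5 k6 with ⟨S', s1, s2, s3, -⟩ | ⟨S', s1, s2, s3, -⟩
  · exact cut a b a1.2 b1.2 S' s1 s2 s3
  · exact cut b a b1.2 a1.2 S' s1 s2 s3

/-- Small dominating sets for a tree with target `c`. -/
theorem sSig (hC : Ctx α n) (h : Dg n ρ Ω) {c : ℕ} (hc : c < 1000 ∨ c = cN (n % 7)) :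
    441000 * M ρ Ω ≤ c * G n ∨ ∀ a ∈ Ω, ∀ b ∈ Ω, indeg ρ Ω a ≤ sigf (n % 7) c 6 →
      indeg ρ Ω b ≤ sigf (n % 7) c 6 → ρ a b → ¬ ρ b a := by
  refine sig_or h fun S s1 s2 s3 => ?_
  have s4 := sigf_spec s2 _ s3
  have s5 := sigf_le (n % 7) c 6
  exact weak (sT hC h _ (by omega) s2 (hc.imp (fun k => by omega) fun k => by rwa [← k]) S s1 rfl) s4

theorem sB2 (hC : Ctx α n) (h : Dg n ρ Ω) (hc : cB2 (n % 7) < 1000) {u : α} (hu : u ∈ Ω)
    (h1 : indeg ρ Ω u ≤ 2) : 441000 * M ρ Ω ≤ cB2 (n % 7) * G n := by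
  obtain ⟨-, k1, -, -, -, -, k2, -⟩ := side _ (r7 n)
  obtain ⟨v, hv, hm⟩ := exists_min hC.pos h
  by_cases h0 : indeg ρ Ω v ≤ 0
  · exact sB0' hC h hv h0 k1
  by_cases h2 : indeg ρ Ω v ≤ 1
  · exact weak (sB1 hC h ((k2 hc).1.trans_lt hc) hv h2) (k2 hc).1
  rcases sSig hC h (.inl hc) with k3 | k3
  · exact k3
  obtain ⟨e, he⟩ := rootD_oh (ND := fun _ => False) (d := 2) (by norm_num)
    (fun z hz => by have := hm z hz; omega) hu (.inr h1)
  exact tree hC (hC.all.b2 _ (r7 n) hc) hc.le (Nat.zero_le _)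
    (glob hC.pos h (sigf_le _ _ _) k3 (by simp)) he

theorem sK (hC : Ctx α n) (h : Dg n ρ Ω) {q : ℕ} (hq : q < 2) (hc : cK (n % 7) q < 1000)
    (hp : Prof (cdK (n % 7) q) ρ Ω) : 441000 * M ρ Ω ≤ cK (n % 7) q * G n := by
  obtain ⟨-, -, -, -, -, k1, -⟩ := side _ (r7 n)
  obtain ⟨v, hv, hm⟩ := exists_min hC.pos h
  by_cases h0 : indeg ρ Ω v ≤ 0
  · exact sB0' hC h hv h0 (k1 q hq)
  obtain ⟨y, hy, z, hz, hne, p1, p2, p3, p4, p5⟩ := hp
  have l1 := hm y hy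
  have l2 := hm z hz
  refine tree hC (ND := fun x => (cdK (n % 7) q).testBit 16 = true ∧ (x = y ∨ x = z))
    (e := fun i => if i = 0 then y else z) (hC.all.k _ (r7 n) q hq hc) hc.le (Nat.zero_le _)
    (glob hC.pos h (by norm_num) sig0 ?_)
    ((rootK_is _ (r7 n) q hq).oh (by norm_num) (fun i _ => ?_) (fun i hi j hj k => ?_)
      (fun x hx _ => by have := hm x hx; omega) (fun i _ => ?_) (fun i _ _ => ?_) (by simp)
      fun k i _ => ⟨k, ?_⟩)
  · rintro a ha b _ ⟨k2, rfl | rfl⟩ ⟨-, rfl | rfl⟩ k3 k4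
    · exact h.sc.irr _ ha k3
    · exact p5 k2 ⟨k3, k4⟩
    · exact p5 k2 ⟨k4, k3⟩
    · exact h.sc.irr _ ha k3
  · split_ifs <;> assumption
  · split_ifs at k with k2 k3 k3
    · omega
    · exact absurd k hne
    · exact absurd k.symm hne
    · omega
  · split_ifs <;> omega
  · split_ifs <;> assumption
  · split_ifs
    · exact .inl rfl
    · exact .inr rfl

/-! ### small tournaments -/

theorem deg_add (h : SC ρ Ω) (ha : ∀ a ∈ Ω, ∀ b ∈ Ω, ρ a b → ¬ ρ b a) {v : α} (hv : v ∈ Ω) :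
    indeg ρ Ω v + indeg (fun a b => ρ b a) Ω v + 1 ≤ #Ω := by
  classical
  refine le_trans ?_ (card_outN h hv)
  have : indeg (fun a b => ρ b a) Ω v ≤ #(outN ρ Ω v) := by
    unfold indeg
    exact card_le_card fun z hz => mem_outN.2 ⟨(mem_filter.1 hz).1, (mem_filter.1 hz).2,
      ha v hv z (mem_filter.1 hz).1 (mem_filter.1 hz).2⟩
  omega

theorem F_small : ∀ n ∈ [1, 2, 3, 4, 8, 10, 11], F (n - 1) ≤ F n ∧ F n < m48 ∧
    441 * F n ≤ G n ∧ (3 ≤ n → n ∈ [3, 4, 8, 10, 11]) ∧ n ≤ 11 := by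
  have key : ∀ n ≤ 18, F n = [1, 1, 1, 3, 3, 7, 12, 21, 25, 43, 63, 87, 147, 252, 441, 525, 903,
      1366, 1849].getD n 0 := fun n h => by rw [F, dif_pos h]
  intro n hn
  have h : n ≤ 11 := by
    have hn' := hn
    simp only [List.mem_cons, List.not_mem_nil, or_false] at hn'
    omega
  rw [key n (by omega), key (n - 1) (by omega)]
  revert hn
  interval_cases n <;> decide

theorem sF1 (hC : Ctx α n) (hn : n ∈ [1, 2, 3, 4, 8, 10, 11]) (h : Dg n ρ Ω)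
    (ha : ∀ a ∈ Ω, ∀ b ∈ Ω, ρ a b → ¬ ρ b a) {v : α} (hv : v ∈ Ω)
    (hm : ∀ u ∈ Ω, indeg ρ Ω v ≤ indeg ρ Ω u)
    (hm' : ∀ u ∈ Ω, indeg ρ Ω v ≤ indeg (fun a b => ρ b a) Ω u) : M ρ Ω ≤ F n := by
  obtain ⟨f1, f2, -, f3, f4⟩ := F_small n hn
  by_cases h0 : indeg ρ Ω v ≤ 0
  · obtain ⟨h1, h2⟩ := src_closed h hv h0
    exact h1.trans (((hC.ih (n - 1) (by omega) ρ _ (h.sc.mono sdiff_subset)
      (h.lay.mono sdiff_subset) (by omega)).f fun a k1 b k2 =>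
        ha a (sdiff_subset k1) b (sdiff_subset k2)).trans f1)
  have k1 := deg_add h.sc ha hv
  have k2 := hm' v hv
  rw [h.card] at k1
  obtain ⟨tbl, w, wT, gs, ph, N, h1, h2, h3, h4⟩ := hC.all.f n (f3 (by omega)) (indeg ρ Ω v)
    (by omega) (by omega) (by omega)
  obtain ⟨e, he⟩ := rootD_oh (ND := fun _ => False) (d := indeg ρ Ω v) (by omega) hm hv
    (.inr le_rfl)
  refine run hC h1 h2 h3 ⟨h.sc, h.lay, h.card, hC.pos, le_rfl, fun a k3 b k4 _ _ => ha a k3 b k4,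
    fun _ u hu => ?_, fun _ => ⟨rfl, by omega⟩, by simp⟩ (Nat.zero_le _) (fun _ => ha) f2
    (fun k => ?_) (by simp) e (h4 ▸ he)
  · have := deg_add h.sc ha hu
    have := hm' u hu
    have := h.card
    omega
  · rw [Zu, if_neg hC.pos.ne', mul_one] at k
    exact_mod_cast k

theorem sF (hC : Ctx α n) (hn : n ∈ [1, 2, 3, 4, 8, 10, 11]) (h : Dg n ρ Ω)
    (ha : ∀ a ∈ Ω, ∀ b ∈ Ω, ρ a b → ¬ ρ b a) : M ρ Ω ≤ F n := by
  obtain ⟨v, hv, hm⟩ := exists_min hC.pos h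
  obtain ⟨v', hv', hm'⟩ := exists_min hC.pos h.rev
  rcases le_total (indeg ρ Ω v) (indeg (fun a b => ρ b a) Ω v') with k | k
  · exact sF1 hC hn h ha hv hm fun u hu => k.trans (hm' u hu)
  · rw [← M_rev]
    exact sF1 hC hn h.rev (fun a k1 b k2 => ha b k2 a k1) hv' hm' fun u hu => k.trans (hm u hu)

theorem G_F (n : ℕ) (hn : n ∉ [1, 2, 3, 4, 8, 10, 11]) : G n = 441 * F n := by
  induction n using Nat.strong_induction_on with
  | _ n ih =>
  by_cases h : n ≤ 18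
  · rw [F, dif_pos h]
    revert hn
    interval_cases n <;> decide
  · obtain ⟨m, rfl⟩ : ∃ m, n = m + 7 := ⟨n - 7, by omega⟩
    rw [F, dif_neg h, G_add, Nat.add_sub_cancel, ih m (by omega) (by simp; omega)]
    ring

/-! ### blocks without evidence -/

theorem indeg_out {B : Finset α} (hB : Top ρ Ω B) {z : α} (hz : z ∈ Ω) (hn : z ∉ B) :
    indeg ρ (Ω \ B) z + #B ≤ indeg ρ Ω z := by
  classical
  unfold indeg
  rw [← card_union_of_disjoint]
  · refine card_le_card fun x hx => ?_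
    simp only [mem_union, mem_filter, mem_sdiff] at hx ⊢
    exact hx.elim (fun k => ⟨k.1.1, k.2⟩) fun k => ⟨hB.1 k, hB.2 x k z hz hn⟩
  · exact disjoint_left.2 fun x k1 k2 => (mem_sdiff.1 (mem_filter.1 k1).1).2 k2

theorem blk_bound {w wT gs c r : ℕ} {Z : ℝ} (hT : Tab α n w wT gs Z) (h : Dg n ρ Ω)
    (hb : Blk r w gs c) {e : ℕ → α} (ho : OH2 (nib c 0) (f5 c 4) (xpd c) ρ Ω e ND)
    (hE : Ev (hN r) (lN r) ρ Ω) : (M ρ Ω : ℝ) ≤ (tgv r (cN r) : ℕ) * Z := by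
  classical
  obtain ⟨b1, b2, b3, b4, b5, b6, b7, b8, b9, b10⟩ := hb
  generalize nib c 0 = k at *
  generalize xpd c = S at *
  have hk := ho.le
  set B : Finset α := (range k).image e with hB
  have mB : ∀ z, z ∈ B ↔ ∃ i < k, e i = z := fun z => by simp [hB]
  have cB : #B = k := by
    rw [card_image_of_injOn fun i hi j hj => ho.inj i (mem_range.1 (mem_coe.1 hi)) j
      (mem_range.1 (mem_coe.1 hj)), card_range]
  have hC : Closed ρ Ω B := by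
    refine ⟨fun z hz => ?_, fun a ha b hb hr => ?_⟩
    · obtain ⟨i, hi, rfl⟩ := (mB z).1 hz
      exact ho.mem i hi
    · obtain ⟨i, hi, rfl⟩ := (mB a).1 ha
      by_contra hc
      exact (ho.cl (i := i) (by rw [b2, tb_msk]; simpa using hi)).2 b hb
        (fun j hj k1 => hc ((mB b).2 ⟨j, hj, k1⟩)) hr
  have arc : ∀ i < k, ∀ j < k, ρ (e j) (e i) → (row S (16 + i)).testBit j = true := by
    intro i hi j hj hr
    rcases b3 i hi j hj with k1 | k1 | k1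
    · exact absurd (k1 ▸ hr) (h.sc.irr _ (ho.mem j hj))
    · exact k1
    · exact absurd hr (ho.NT (by omega) k1).2.2.2
  have inn : ∀ i < k, ∀ z ∈ Ω, ρ z (e i) →
      ∃ j < k, e j = z ∧ (row S (16 + i)).testBit j = true := fun i hi z hz hr => by
    obtain ⟨j, hj, rfl⟩ := (mB z).1 (hC.2 _ ((mB _).2 ⟨i, hi, rfl⟩) z hz hr)
    exact ⟨j, hj, rfl, arc i hi j hj hr⟩
  have dg : ∀ i < k, lN r < indeg ρ Ω (e i) ∧ indeg ρ Ω (e i) ≤ 3 := fun i hi => by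
    refine ⟨(b4 i hi).1.trans_le (pc_le_card (by omega) ho.inj
      (fun t ht => (ho.T (by omega) ht).1) fun t ht => mem_filter.2
        ⟨ho.mem t (ho.T (by omega) ht).1, (ho.T (by omega) ht).2.2⟩),
      le_trans (card_image_le_pc (e := e) (fun t ht => row_lt ht) fun z hz => ?_) (b4 i hi).2⟩
    obtain ⟨j, -, k1, k2⟩ := inn i hi z (mem_filter.1 hz).1 (mem_filter.1 hz).2
    exact ⟨j, k2, k1⟩
  have low : ∀ z ∈ Ω, z ∉ B → indeg ρ Ω z ≤ hN r →
      Ev (wt2 w k 0) (wt2 w k 1) ρ (Ω \ B) := fun z hz hn k1 => by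
    have := indeg_out (hC.top h.sc) hz hn
    exact .inr ⟨z, mem_sdiff.2 ⟨hz, hn⟩, by omega, .inl (by omega)⟩
  have hE' : Ev (wt2 w k 0) (wt2 w k 1) ρ (Ω \ B) := by
    rcases hE with ⟨a, ha, b, hb, k1, k2⟩ | ⟨y, hy, k1, k2⟩
    · have nd : ∀ a ∈ Ω, ∀ b ∈ Ω, ρ a b → ρ b a → a ∉ B := fun a _ b hb k1 k2 k3 => by
        obtain ⟨i, hi, rfl⟩ := (mB a).1 k3
        obtain ⟨j, hj, rfl, k4⟩ := inn i hi b hb k2
        exact In.ne_tf (arc j hj i hi k1) (b5 i hi j hj k4)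
      exact .inl ⟨a, mem_sdiff.2 ⟨ha, nd a ha b hb k1 k2⟩, b, mem_sdiff.2 ⟨hb, nd b hb a ha k2 k1⟩,
        k1, k2⟩
    by_cases hyB : y ∈ B
    swap
    · exact low y hy hyB k1
    obtain ⟨i, hi, rfl⟩ := (mB y).1 hyB
    have d1 := dg i hi
    rcases k2 with k2 | k2 | ⟨a, ha, b, hb, d, hd, k2, k3, k4, k5, k6, k7⟩ |
      ⟨z, hz, k2, k3, a, ha, b, hb, k4, k5, k6, k7, k8⟩
    · omega
    · omega
    · obtain ⟨a, a1, rfl, a2⟩ := inn i hi a ha k3
      obtain ⟨b, b1', rfl, b2'⟩ := inn i hi b hb k4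
      obtain ⟨d, d1', rfl, d2⟩ := inn i hi d hd k5
      exact absurd (congrArg e (b7 i hi a a1 b b1' d d1' a2 b2' d2 (arc b b1' a a1 k6)
        (arc d d1' a a1 k7))) k2
    · by_cases hzB : z ∈ B
      swap
      · exact low z hz hzB k3
      obtain ⟨j, hj, rfl⟩ := (mB z).1 hzB
      obtain ⟨a, a1, rfl, a2⟩ := inn i hi a ha k5
      obtain ⟨b, b1', rfl, b2'⟩ := inn i hi b hb k6
      have k9 := (b6 i hi j hj).resolve_left fun k => k2 (k ▸ rfl)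
      rw [pc_eq fun t ht => by
        rw [tb_land, Bool.and_eq_true] at ht
        exact row_lt ht.1] at k9
      refine absurd (congrArg e (card_le_one.1 k9 a (mem_filter.2 ⟨mem_range.2 (by omega), ?_⟩) b
        (mem_filter.2 ⟨mem_range.2 (by omega), ?_⟩))) k4
      · rw [tb_land, a2, arc j hj a a1 k7]
        rfl
      · rw [tb_land, b2', arc j hj b b1' k8]
        rfl
  have c1 := card_sdiff_add_card_eq_card hC.1
  have c2 : 0 < #(Ω \ B) := card_pos.2 (hE'.elim (fun ⟨a, ha, _⟩ => ⟨a, ha⟩) fun ⟨a, ha, _⟩ =>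
    ⟨a, ha⟩)
  have c3 := h.card
  have m1 := hT.blk ρ B (h.sc.mono hC.1) (h.lay.mono hC.1) k hk cB.le (by omega)
  have m2 := hT.leaf ρ (Ω \ B) (h.sc.mono sdiff_subset) (h.lay.mono sdiff_subset) k 6 b1
    (by omega) (by norm_num) (by norm_num) (by omega) (.inr (by simpa [Cls] using hE'))
  have m3 := mul_le_mul_of_nonneg_right ((Nat.cast_le (α := ℝ)).2 b8) hT.nonneg
  have m4 := mul_le_mul ((Nat.cast_le (α := ℝ)).2 m1) m2 (Nat.cast_nonneg _) (Nat.cast_nonneg _)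
  rw [hC.M_eq]
  push_cast at m3 ⊢
  linarith

/-! ### the plain bound and the bound with evidence -/

theorem below_d0 (hC : Ctx α n) (h : Dg n ρ Ω) {v : α} (hv : v ∈ Ω)
    (hd : indeg ρ Ω v < d0 (n % 7)) : 441000 * M ρ Ω ≤ cN (n % 7) * G n := by
  obtain ⟨-, -, k1, -, -, -, k2, k3, -⟩ := side _ (r7 n)
  by_cases h0 : indeg ρ Ω v ≤ 0
  · exact sB0' hC h hv h0 k1
  unfold d0 at hd
  by_cases h2 : cB2 (n % 7) < 1000
  · refine weak (sB2 hC h h2 hv ?_) (k2 h2).2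
    split_ifs at hd <;> omega
  · rw [if_neg h2] at hd
    split_ifs at hd with h1
    · exact weak (sB1 hC h h1 hv (by omega)) (k3 h1)
    · omega

theorem d0_le (r : ℕ) : d0 r ≤ 3 := by
  unfold d0
  split_ifs <;> norm_num

theorem sN (hC : Ctx α n) (h : Dg n ρ Ω) (hc : cN (n % 7) < 1000) :
    441000 * M ρ Ω ≤ cN (n % 7) * G n ∨
      ¬ Ev (hN (n % 7)) (lN (n % 7)) ρ Ω ∧ 441000 * M ρ Ω ≤ 1000 * G n := by
  obtain ⟨v, hv, hm⟩ := exists_min hC.pos h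
  by_cases h0 : indeg ρ Ω v < d0 (n % 7)
  · exact .inl (below_d0 hC h hv h0)
  rcases sSig hC h (.inl hc) with k3 | k3
  · exact .inl k3
  have k4 := d0_le (n % 7)
  obtain ⟨tbl, w, wT, gs, ph, j0, N, h1, h2, h3, h4, h5⟩ := hC.all.n _ (r7 n) hc
    (min (indeg ρ Ω v) 5) (by omega) (by omega)
  obtain ⟨e, he⟩ := rootD_oh (ND := fun _ => False) (d := min (indeg ρ Ω v) 5) (by omega)
    (fun u hu => (min_le_left _ _).trans (hm u hu)) hv (by omega)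
  have hG : Glob n _ 32 0 ρ Ω fun _ => False := glob hC.pos h (sigf_le _ _ _) k3 (by simp)
  have hT := hC.tab α n 0 0 w wT gs hC.ih (.inl rfl) (Nat.zero_le _) h1
  refine run hC h1 h2 h4 hG (Nat.zero_le _) (fun k => absurd rfl k) (tgv_lt (r7 n) hc.le)
    (fun k => .inl (of_Z k)) (fun i hi e' he' => ?_) e (h5 ▸ he)
  obtain ⟨k5, s, k6⟩ := h3 i hi
  by_cases hE : Ev (hN (n % 7)) (lN (n % 7)) ρ Ω
  · exact .inl (of_Z (blk_bound hT h k5 he' hE))
  · exact .inr ⟨hE, of_Z (iLeaf innerStmt α n _ 32 0 w wT gs _ _ ρ Ω _ hT hG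
      (tgv_lt (r7 n) le_rfl) _ _ _ s e' he' k6)⟩

theorem small_mem : ∀ n < 18, 0 < n → n < nmin (n % 7) → n ∈ [1, 2, 3, 4, 8, 10, 11] := by decide

theorem nmin_le : ∀ r < 7, nmin r ≤ 18 := by decide

theorem sA (hC : Ctx α n) (h : Dg n ρ Ω) : 441000 * M ρ Ω ≤ 1000 * G n := by
  obtain ⟨-, -, -, k1, k2, -, -, -, -, k3⟩ := side _ (r7 n)
  rcases k1.lt_or_eq with hc | hc
  · exact (sN hC h hc).elim (fun k => weak k k1) And.right
  by_cases hn : n < nmin (n % 7)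
  · have k4 := nmin_le _ (r7 n)
    have k5 := small_mem n (by omega) hC.pos hn
    obtain ⟨-, -, f1, -, f2⟩ := F_small n k5
    have top : ∀ ρ : α → α → Prop, Dg n ρ Ω → ∀ S, Top ρ Ω S → 1 ≤ #S → #S < 7 →
        441000 * M ρ Ω ≤ 1000 * G n := fun ρ h S s1 s2 s3 =>
      weak (sT hC h _ s3 s2 (.inr (by rw [hc, (k3 (by omega)).2]; omega)) S s1 rfl) (k2 _ s3).2
    have cut : ∀ S, Top ρ Ω S → ∀ a ∈ S, ∀ b ∈ Ω, b ∉ S → 441000 * M ρ Ω ≤ 1000 * G n := by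
      intro S s1 a ha b hb hbS
      by_cases s3 : #S < 7
      · exact top ρ h S s1 (card_pos.2 ⟨a, ha⟩) s3
      · rw [← M_rev]
        have c1 := card_sdiff_add_card_eq_card s1.1
        have c2 := h.card
        refine top _ h.rev (Ω \ S) ⟨sdiff_subset, fun x hx y hy k => ?_⟩
          (card_pos.2 ⟨b, mem_sdiff.2 ⟨hb, hbS⟩⟩) (by omega)
        rw [mem_sdiff] at hx k
        exact s1.2 y (by_contra fun k' => k ⟨hy, k'⟩) x hx.1 hx.2
    by_cases ha : ∀ a ∈ Ω, ∀ b ∈ Ω, ρ a b → ¬ ρ b a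
    · have := sF hC k5 h ha
      omega
    · push Not at ha
      obtain ⟨a, ha, b, hb, k6, k7⟩ := ha
      rcases h.lay.cut ha hb k6 k7 with ⟨S, s1, s2, s3, -⟩ | ⟨S, s1, s2, s3, -⟩
      · exact cut S s1 a s2 b hb s3
      · exact cut S s1 b s2 a ha s3
  obtain ⟨v, hv, hm⟩ := exists_min hC.pos h
  by_cases h0 : indeg ρ Ω v < d0 (n % 7)
  · exact weak (below_d0 hC h hv h0) k1
  rcases sSig hC h (.inr hc.symm) with k4 | k4
  · exact k4
  have k5 := d0_le (n % 7)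
  obtain ⟨e, he⟩ := rootD_oh (ND := fun _ => False) (d := min (indeg ρ Ω v) 5) (by omega)
    (fun u hu => (min_le_left _ _).trans (hm u hu)) hv (by omega)
  exact tree hC (hC.all.a _ (r7 n) hc (min (indeg ρ Ω v) 5) (by omega) (by omega)) le_rfl
    (by omega) (glob hC.pos h (sigf_le _ _ _) k4 (by simp)) he

theorem step (hC : Ctx α n) : Claim α n := by
  intro ρ Ω h1 h2 h3
  have h : Dg n ρ Ω := ⟨h1, h2, h3⟩
  have hA := sA hC h
  have or1 : ∀ c, (c < 1000 → 441000 * M ρ Ω ≤ c * G n) → 441000 * M ρ Ω ≤ c * G n :=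
    fun c k => (lt_or_ge c 1000).elim k (weak hA)
  refine ⟨by omega, fun ⟨v, hv, k⟩ => sB0 hC h hv k,
    fun ⟨v, hv, k⟩ => or1 _ fun hc => sB1 hC h hc hv k,
    fun ⟨v, hv, k⟩ => or1 _ fun hc => sB2 hC h hc hv k,
    fun k => or1 _ fun hc => (sN hC h hc).resolve_right fun k' => k'.1 k,
    fun S hS => or1 _ fun hc => ?_, fun q hq => or1 _ fun hc => ?_, fun ha => ?_⟩
  · refine sT hC h _ (by_contra fun k => ?_) (by_contra fun k => ?_) (.inl hc) S hS rfl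
    · rw [cT_big (r7 n) (by omega)] at hc
      exact lt_irrefl _ hc
    · rw [show #S = 0 by omega, (side _ (r7 n)).2.2.2.2.2.2.2.2.1] at hc
      exact lt_irrefl _ hc
  · refine sK hC h (by_contra fun k => ?_) hc hq
    rw [cK_big (r7 n) (by omega)] at hc
    exact lt_irrefl _ hc
  · by_cases hn : n ∈ [1, 2, 3, 4, 8, 10, 11]
    · exact sF hC hn h ha
    · rw [G_F n hn] at hA
      omega

theorem zero : Claim α 0 := by
  intro ρ Ω _ _ h3
  obtain rfl := card_eq_zero.1 h3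
  have h : M ρ (∅ : Finset α) ≤ 1 := by
    rw [M, cnt_eq]
    exact card_le_one.2 fun W hW W' hW' => (subset_empty.1 (mem_MS.1 hW).1.1).trans
      (subset_empty.1 (mem_MS.1 hW').1.1).symm
  have g : G 0 = 441 := rfl
  refine ⟨by omega, by simp, by simp, by simp, by simp [Ev], fun S hS => ?_, by simp [Prof],
    fun _ => ?_⟩
  · rw [subset_empty.1 hS.1, g, show cT (0 % 7) #(∅ : Finset α) = 1000 from rfl]
    omega
  · rw [F, dif_pos (by norm_num)]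
    exact h

end Mn

theorem main_of (h1 : TabStmt) (h2 : PhiStmt) : MainStmt := by
  intro hA n ρ k1 k2
  have key : ∀ m, Claim (Fin n) m := fun m => by
    induction m using Nat.strong_induction_on with
    | _ m ih =>
    rcases Nat.eq_zero_or_pos m with rfl | hm
    · exact Mn.zero
    · exact Mn.step ⟨h1, h2, hA, hm, ih⟩
  exact (key n ρ univ k1 (Lay.of_asymm fun a _ b _ => k2 a b) (by simp)).f fun a _ b _ => k2 a b

theorem mainStmt : MainStmt := main_of tabStmt phiStmt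

end Pool.Agent.MP_75ef89_co.Ex
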